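import Pool.Agent.P.MP_c161d8_an.TwoConst

set_option autoImplicit false

namespace Pool.Agent.P.MP_c161d8_an

open Finset

open Classical in
/-- The frequencies (together with `0`) below `2 ^ (j + 3)`. -/
noncomputable def nodes (S : Set ℕ) (j : ℕ) : Finset ℕ :=
  (range (2 ^ (j + 3))).filter fun p => p = 0 ∨ p ∈ S

lemma mem_nodes {S : Set ℕ} {j p : ℕ} :
    p ∈ nodes S j ↔ p < 2 ^ (j + 3) ∧ (p = 0 ∨ p ∈ S) := by
  classical
  simp [nodes]

lemma zero_mem_nodes (S : Set ℕ) (j : ℕ) : 0 ∈ nodes S j :=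
  mem_nodes.2 ⟨by positivity, Or.inl rfl⟩

lemma one_le_card_nodes (S : Set ℕ) (j : ℕ) : 1 ≤ (nodes S j).card :=
  Finset.card_pos.2 ⟨0, zero_mem_nodes S j⟩

lemma nodes_mono (S : Set ℕ) {i j : ℕ} (h : i ≤ j) : nodes S i ⊆ nodes S j := by
  intro p hp
  rw [mem_nodes] at hp ⊢
  exact ⟨hp.1.trans_le (Nat.pow_le_pow_right (by norm_num) (by omega)), hp.2⟩

lemma le_of_mem_nodes {S : Set ℕ} {j p : ℕ} (h : p ∈ nodes S j) : (p : ℝ) ≤ 2 ^ (j + 3) := by
  have := (mem_nodes.1 h).1.le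
  exact_mod_cast this

lemma sum_inv_pow_le (p : ℕ) (hp : 1 ≤ p) (n : ℕ) :
    ∑ j ∈ range n, (if p < 2 ^ (j + 3) then (1 : ℝ) / 2 ^ j else 0) ≤
      max (0 : ℝ) (16 / (p : ℝ) - 2 / 2 ^ n) := by
  have hp0 : (0 : ℝ) < p := by exact_mod_cast hp
  induction n with
  | zero => simp
  | succ n ih =>
    rw [sum_range_succ]
    have e : (2 : ℝ) / 2 ^ (n + 1) = 1 / 2 ^ n := by rw [pow_succ]; field_simp
    have e' : (2 : ℝ) / 2 ^ n = 2 * (1 / 2 ^ n) := by ring
    have hpos : (0 : ℝ) < 1 / 2 ^ n := by positivity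
    split_ifs with h
    · have h1 : (p : ℝ) ≤ 2 ^ (n + 3) := by exact_mod_cast h.le
      have h2 : (2 : ℝ) / 2 ^ n ≤ 16 / p := by
        rw [div_le_div_iff₀ (by positivity) hp0]
        rw [pow_add] at h1
        linarith
      rw [max_eq_right (by linarith)] at ih
      exact le_max_of_le_right (by linarith)
    · rw [add_zero]
      exact ih.trans (max_le_max le_rfl (by linarith))

lemma summable_card_nodes {S : Set ℕ}
    (hS : Summable (fun p : S => (1 : ℝ) / ((p : ℕ) : ℝ))) :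
    Summable (fun j => ((nodes S j).card : ℝ) / 2 ^ j) := by
  classical
  have hS' : Summable (S.indicator fun p : ℕ => (1 : ℝ) / (p : ℝ)) :=
    (summable_subtype_iff_indicator (f := fun p : ℕ => (1 : ℝ) / (p : ℝ))).1 hS
  set σ := S.indicator fun p : ℕ => (1 : ℝ) / (p : ℝ) with hσ
  have hσ0 : ∀ p, 0 ≤ σ p := fun p => Set.indicator_nonneg (fun p _ => by positivity) p
  refine summable_of_sum_range_le (c := 2 + 16 * ∑' p, σ p) (fun j => by positivity) fun n => ?_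
  have h1 : ∀ j ∈ range n, ((nodes S j).card : ℝ) / 2 ^ j =
      ∑ p ∈ nodes S n, (if p < 2 ^ (j + 3) then (1 : ℝ) / 2 ^ j else 0) := by
    intro j hj
    rw [← Finset.sum_filter, Finset.sum_const, nsmul_eq_mul, mul_one_div]
    congr 3
    ext p
    simp only [mem_filter, mem_nodes]
    have : 2 ^ (j + 3) ≤ 2 ^ (n + 3) :=
      Nat.pow_le_pow_right (by norm_num) (by have := mem_range.1 hj; omega)
    constructor
    · rintro ⟨h1, h2⟩; exact ⟨⟨by omega, h2⟩, h1⟩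
    · rintro ⟨⟨_, h2⟩, h1⟩; exact ⟨h1, h2⟩
  rw [Finset.sum_congr rfl h1, Finset.sum_comm, ← Finset.add_sum_erase _ _ (zero_mem_nodes S n)]
  apply add_le_add
  · simp only [Nat.ofNat_pos, pow_pos, ↓reduceIte]
    have := Summable.sum_le_tsum (range n) (fun i _ => by positivity) summable_geometric_two
    rw [tsum_geometric_two] at this
    simpa using this
  · calc ∑ p ∈ (nodes S n).erase 0, ∑ j ∈ range n,
          (if p < 2 ^ (j + 3) then (1 : ℝ) / 2 ^ j else 0)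
        ≤ ∑ p ∈ (nodes S n).erase 0, 16 * σ p := by
          refine Finset.sum_le_sum fun p hp => ?_
          rw [mem_erase, mem_nodes] at hp
          have hpS : p ∈ S := hp.2.2.resolve_left hp.1
          refine (sum_inv_pow_le p (Nat.one_le_iff_ne_zero.2 hp.1) n).trans ?_
          rw [hσ, Set.indicator_of_mem hpS, mul_one_div]
          have : (0 : ℝ) ≤ 2 / 2 ^ n := by positivity
          apply max_le (by positivity)
          linarith
      _ ≤ 16 * ∑' p, σ p := by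
          rw [← Finset.mul_sum]
          exact mul_le_mul_of_nonneg_left (hS'.sum_le_tsum _ fun p _ => hσ0 p) (by norm_num)

/-- The cut points. -/
lemma exists_cuts (S : Set ℕ) : ∃ c : ℕ → ℝ, ∀ j,
    (2 : ℝ) ^ (j + 1) < c j ∧ c j < 3 * 2 ^ j ∧ (∀ p : ℕ, c j ≠ p) ∧
      ((2 : ℝ) ^ j / 12) ^ (nodes S j).card ≤ ∏ l ∈ nodes S j, |c j - l| := by
  have h : ∀ j : ℕ, ∃ c : ℝ, (2 : ℝ) ^ (j + 1) < c ∧ c < 3 * 2 ^ j ∧ (∀ p : ℕ, c ≠ p) ∧
      ((2 : ℝ) ^ j / 12) ^ (nodes S j).card ≤ ∏ l ∈ nodes S j, |c - l| := by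
    intro j
    obtain ⟨k, hk, h⟩ := exists_cut (nodes S j) (2 ^ (j + 1)) (2 ^ j) Nat.one_le_two_pow
    push_cast at h
    have hk' : (k : ℝ) + 1 ≤ 2 ^ j := by exact_mod_cast hk
    have hk0 : (0 : ℝ) ≤ k := Nat.cast_nonneg k
    refine ⟨_, by linarith, by rw [pow_succ]; linarith, ?_, h⟩
    intro p hp
    have h2 : (2 * (2 ^ (j + 1) + k) + 1 : ℝ) = 2 * p := by linarith
    have h3 : 2 * (2 ^ (j + 1) + k) + 1 = 2 * p := by exact_mod_cast h2
    omega
  choose c hc using h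
  exact ⟨c, hc⟩

lemma exists_tail_le {h : ℕ → ℝ} (hs : Summable h) (h0 : ∀ j, 0 ≤ h j) {η : ℝ} (hη : 0 < η) :
    ∃ j0, ∀ n, ∑ i ∈ range n, h (j0 + i) ≤ η := by
  obtain ⟨j0, hj0⟩ := ((tendsto_sum_nat_add h).eventually (ge_mem_nhds hη)).exists
  refine ⟨j0, fun n => le_trans ?_ hj0⟩
  have := ((summable_nat_add_iff j0).2 hs).sum_le_tsum (range n) (fun i _ => h0 _)
  simpa [add_comm] using this

end Pool.Agent.P.MP_c161d8_an
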