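import Pool.Agent.P.MP_c161d8_an.Remez
import Pool.Agent.P.MP_c161d8_an.Density

set_option autoImplicit false

namespace Pool.Agent.P.MP_c161d8_an

open Finset Complex

open Classical in
/-- Coefficients of the part of the sum below the cut `c`. -/
noncomputable def trunc (F : Finset ℕ) (a : ℕ → ℂ) (c : ℝ) : ℕ → ℂ :=
  fun p => if p ∈ F ∧ (p : ℝ) < c then a p else 0

lemma ev_trunc_succ {S : Set ℕ} {F : Finset ℕ} (hF : ∀ p ∈ F, p = 0 ∨ p ∈ S) (a : ℕ → ℂ)
    {c c' : ℝ} {j : ℕ} (hcc : c ≤ c') (hc : c ≤ 2 ^ (j + 3)) (hne : ∀ p : ℕ, c ≠ p) (z : ℂ) :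
    ev (nodes S j) (trunc F a c) z = ev (nodes S (j + 1)) (trunc F a c') z -
      ev ((nodes S (j + 1)).filter fun p : ℕ => c < p) (trunc F a c') z := by
  classical
  unfold ev
  rw [Finset.sum_filter, ← Finset.sum_sub_distrib]
  rw [Finset.sum_subset (nodes_mono S (Nat.le_succ j))]
  · refine Finset.sum_congr rfl fun p _ => ?_
    by_cases h : c < p
    · have : ¬ (p : ℝ) < c := not_lt.2 h.le
      simp [trunc, h, this]
    · have h1 : (p : ℝ) < c := lt_of_le_of_ne (not_lt.1 h) (hne p).symm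
      have h2 : (p : ℝ) < c' := h1.trans_le hcc
      simp [trunc, h, h1, h2]
  · intro p _ hp
    have : ¬ (p ∈ F ∧ (p : ℝ) < c) := by
      rintro ⟨h1, h2⟩
      apply hp
      rw [mem_nodes]
      refine ⟨?_, hF p h1⟩
      have := h2.trans_le hc
      exact_mod_cast this
    simp [trunc, this]

lemma ev_trunc_top {S : Set ℕ} {F : Finset ℕ} (hF : ∀ p ∈ F, p = 0 ∨ p ∈ S) (a : ℕ → ℂ)
    {c : ℝ} {j : ℕ} (hc : c ≤ 2 ^ (j + 3)) (hlt : ∀ p ∈ F, (p : ℝ) < c) (z : ℂ) :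
    ev (nodes S j) (trunc F a c) z = ev F a z := by
  classical
  unfold ev
  symm
  rw [← Finset.sum_subset (s₁ := F) (s₂ := nodes S j)]
  · refine Finset.sum_congr rfl fun p hp => ?_
    simp [trunc, hp, hlt p hp]
  · intro p hp
    rw [mem_nodes]
    refine ⟨?_, hF p hp⟩
    have := (hlt p hp).trans_le hc
    exact_mod_cast this
  · intro p _ hp
    simp [trunc, hp]

lemma exists_norm_eq {Γ : Set ℂ} (hΓ : IsPreconnected Γ) {z1 z2 p : ℂ} (h1 : z1 ∈ Γ)
    (h2 : z2 ∈ Γ) {s : ℝ} (hs1 : ‖z1 - p‖ ≤ s) (hs2 : s ≤ ‖z2 - p‖) :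
    ∃ z ∈ Γ, ‖z - p‖ = s :=
  hΓ.intermediate_value h1 h2 (f := fun z => ‖z - p‖) (by fun_prop) ⟨hs1, hs2⟩

/-- Remez inequality from a continuum through `q`. -/
lemma remez_continuum {Γ : Set ℂ} (hΓ : IsPreconnected Γ) (A : Finset ℕ) (a : ℕ → ℂ) {q q' : ℂ}
    (hq : q ∈ Γ) (hq' : q' ∈ Γ) {N δ : ℝ} {K : ℕ}
    (hK : A.card ≤ K) (hK1 : 1 ≤ K) (hN : ∀ p ∈ A, (p : ℝ) ≤ N) (hN0 : 0 < N) (hδ : 0 < δ)
    (hfar : 3 * (K / N) ≤ ‖q' - q‖)
    (hz : ∀ z ∈ Γ, ‖z - q‖ ≤ 3 * (K / N) → ‖ev A a z‖ ≤ δ) :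
    ∀ s : ℂ, ‖s‖ ≤ K / N → ‖ev A a (q + s)‖ ≤ 2 * δ * 24 ^ (34 * K) := by
  apply remez A a q hK hK1 hN hN0 hδ
  intro p hp s hs
  obtain ⟨z, hzΓ, hzs⟩ := exists_norm_eq hΓ hq hq' (p := p) (s := s)
    (by rw [norm_sub_rev]; exact hp.trans hs.1)
    (by
      have : ‖q' - q‖ ≤ ‖q' - p‖ + ‖p - q‖ := by
        calc ‖q' - q‖ = ‖(q' - p) + (p - q)‖ := by ring_nf
          _ ≤ _ := norm_add_le _ _
      linarith [hs.2])
  refine ⟨z, hzs, hz z hzΓ ?_⟩
  calc ‖z - q‖ = ‖(z - p) + (p - q)‖ := by ring_nf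
    _ ≤ ‖z - p‖ + ‖p - q‖ := norm_add_le _ _
    _ ≤ _ := by linarith [hs.2]

/-- The main estimate for continua containing a monotone chain. -/
theorem chain_estimate {S : Set ℕ} (hS : Summable (fun p : S => (1 : ℝ) / ((p : ℕ) : ℝ)))
    {Γ : Set ℂ} (hΓ : IsPreconnected Γ) {Q : ℝ → ℂ} {M η : ℝ} (hM : 0 ≤ M) (hη : 0 < η)
    (hQ : ∀ x ∈ Set.Icc 0 η, Q x ∈ Γ)
    (hmono : ∀ x ∈ Set.Icc 0 η, ∀ y ∈ Set.Icc 0 η, x ≤ y →
      y - x ≤ (Q y - Q x).re ∧ ‖Q y - Q x‖ ≤ M * (Q y - Q x).re) :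
    ∃ C : ℝ, ∀ (F : Finset ℕ) (a : ℕ → ℂ) (δ : ℝ), 0 < δ → 0 ∈ F → (∀ p ∈ F, p = 0 ∨ p ∈ S) →
      (∀ z ∈ Γ, ‖ev F a z‖ ≤ δ) → ‖a 0‖ ≤ C * δ := by
  classical
  obtain ⟨c, hc⟩ := exists_cuts S
  set K : ℕ → ℕ := fun j => (nodes S j).card with hK
  have hK1 : ∀ j, 1 ≤ K j := one_le_card_nodes S
  set N : ℕ → ℝ := fun j => 2 ^ (j + 3) with hN
  have hN0 : ∀ j, 0 < N j := fun j => by positivity
  set κ : ℝ := 1 / (16 * (M + 1)) with hκ
  have hκ0 : 0 < κ := by positivity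
  have hκ1 : κ ≤ 1 := by rw [hκ, div_le_one (by positivity)]; linarith
  set C0 : ℝ := 24 ^ 34 * 192 * κ⁻¹ with hC0
  have hC00 : 0 < C0 := by positivity
  have hC01 : 1 ≤ C0 := by
    have : 1 ≤ κ⁻¹ := one_le_inv_iff₀.2 ⟨hκ0, hκ1⟩
    rw [hC0]; nlinarith
  have hlog : 0 ≤ Real.log C0 := Real.log_nonneg hC01
  set e : ℕ → ℝ := fun j => 16 * (Real.log C0 * K j + (j + 3)) / N j with he
  have he0 : ∀ j, 0 ≤ e j := fun j => by positivity
  set h : ℕ → ℝ := fun j => 6 * (K j / N j) + e (j + 1) with hh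
  have hr0 : ∀ j, 0 < (K j : ℝ) / N j := fun j =>
    div_pos (by exact_mod_cast hK1 j) (hN0 j)
  have hh0 : ∀ j, 0 ≤ h j := fun j => add_nonneg (by linarith [hr0 j]) (he0 _)
  have hsK := summable_card_nodes hS
  have hsr : Summable fun j => (K j : ℝ) / N j := by
    refine (hsK.mul_left (1 / 8)).congr fun j => ?_
    simp only [hK, hN, pow_add]; field_simp; ring
  have hse : Summable e := by
    have h1 : Summable fun j : ℕ => (j : ℝ) ^ 1 * (1 / 2 : ℝ) ^ j :=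
      summable_pow_mul_geometric_of_norm_lt_one 1 (by norm_num)
    refine ((hsr.mul_left (16 * Real.log C0)).add
      ((h1.mul_left 2).add (summable_geometric_two.mul_left 6))).congr fun j => ?_
    simp only [he, hN, pow_add, one_div, inv_pow]; field_simp; ring
  have hsh : Summable h := (hsr.mul_left 6).add ((summable_nat_add_iff 1).2 hse)
  obtain ⟨j0, hj0⟩ := exists_tail_le hsh hh0 hη
  set x : ℕ → ℝ := fun n => ∑ i ∈ range n, h (j0 + i) with hx
  have hxI : ∀ n, x n ∈ Set.Icc 0 η := fun n =>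
    ⟨Finset.sum_nonneg fun i _ => hh0 _, hj0 n⟩
  have hxsucc : ∀ n, x (n + 1) = x n + h (j0 + n) := fun n => Finset.sum_range_succ _ _
  have hxmono : Monotone x := monotone_nat_of_le_succ fun n => by
    rw [hxsucc]; linarith [hh0 (j0 + n)]
  have hfar : ∀ n, ∃ q' ∈ Γ, 3 * ((K (j0 + n) : ℝ) / N (j0 + n)) ≤ ‖q' - Q (x n)‖ := by
    intro n
    have h1 : 6 * ((K (j0 + n) : ℝ) / N (j0 + n)) ≤ η := by
      have := (hxI (n + 1)).2
      rw [hxsucc] at this
      have h2 := (hxI n).1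
      have h3 := he0 (j0 + n + 1)
      simp only [hh] at this
      linarith
    have h0I : (0 : ℝ) ∈ Set.Icc 0 η := ⟨le_rfl, hη.le⟩
    have hηI : η ∈ Set.Icc 0 η := ⟨hη.le, le_rfl⟩
    have h2 := ((hmono 0 h0I η hηI hη.le).1).trans (re_le_norm _)
    have h3 : ‖Q η - Q 0‖ ≤ ‖Q η - Q (x n)‖ + ‖Q 0 - Q (x n)‖ := by
      calc ‖Q η - Q 0‖ = ‖(Q η - Q (x n)) - (Q 0 - Q (x n))‖ := by ring_nf
        _ ≤ _ := norm_sub_le _ _
    by_cases h4 : η / 2 ≤ ‖Q η - Q (x n)‖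
    · exact ⟨Q η, hQ η hηI, by linarith⟩
    · exact ⟨Q 0, hQ 0 h0I, by linarith⟩
  refine ⟨2 * 3 * 24 ^ (34 * K j0) * (K j0 / (K j0 / N j0) + N j0) ^ K j0, ?_⟩
  intro F a δ hδ h0F hF hsmall
  set P : ℕ → ℂ → ℂ := fun j => ev (nodes S j) (trunc F a (c (j + 1))) with hP
  have hcN : ∀ j, c (j + 1) ≤ 2 ^ (j + 3) := fun j => by
    have := (hc (j + 1)).2.1
    have h2 : (0 : ℝ) < 2 ^ j := by positivity
    rw [pow_add] at this ⊢
    linarith
  have hcc : ∀ j, c j ≤ c (j + 1) := fun j => by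
    have h1 := (hc j).2.1
    have h2 := (hc (j + 1)).1
    have h3 : (0 : ℝ) < 2 ^ j := by positivity
    rw [pow_add, pow_add] at h2
    linarith
  let claim : ℕ → Prop := fun n => ∀ i ≤ n, ∀ z ∈ Γ,
    ‖z - Q (x i)‖ ≤ 3 * ((K (j0 + i) : ℝ) / N (j0 + i)) →
      ‖P (j0 + n) z‖ ≤ δ * (1 + 2 / 2 ^ n)
  have hdisc : ∀ n, claim n → ∀ s : ℂ, ‖s‖ ≤ K (j0 + n) / N (j0 + n) →
      ‖P (j0 + n) (Q (x n) + s)‖ ≤ 2 * (3 * δ) * 24 ^ (34 * K (j0 + n)) := by
    intro n hn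
    obtain ⟨q', hq', hq'far⟩ := hfar n
    apply remez_continuum hΓ _ _ (hQ _ (hxI n)) hq' le_rfl (hK1 _)
      (fun p hp => le_of_mem_nodes hp) (hN0 _) (by positivity) hq'far
    intro z hz hzq
    refine (hn n le_rfl z hz hzq).trans ?_
    have : (2 : ℝ) / 2 ^ n ≤ 2 := div_le_self (by norm_num) (one_le_pow₀ (by norm_num))
    nlinarith
  have hstep : ∀ n, claim (n + 1) → claim n := by
    intro n hn i hi z hz hzq
    set j := j0 + n with hj
    have hjj : j0 + (n + 1) = j + 1 := by omega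
    have hd := hdisc (n + 1) hn
    have hn' := hn i (by omega) z hz hzq
    rw [hjj] at hd hn'
    simp only [hP] at hd hn' ⊢
    rw [ev_trunc_succ hF a (hcc (j + 1)) (hcN j) (hc (j + 1)).2.2.1 z]
    set X := (Q (x (n + 1)) - Q (x i)).re with hX
    have hxi : x i ≤ x (n + 1) := hxmono (by omega)
    obtain ⟨hX1, hX2⟩ := hmono _ (hxI i) _ (hxI (n + 1)) hxi
    have hXa : 6 * ((K (j0 + i) : ℝ) / N (j0 + i)) ≤ X := by
      have h1 : x (i + 1) ≤ x (n + 1) := hxmono (by omega)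
      rw [hxsucc] at h1
      have := he0 (j0 + i + 1)
      simp only [hh] at h1
      linarith
    have hXb : e (j + 1) ≤ X := by
      have h1 : x i ≤ x n := hxmono hi
      have h2 := hxsucc n
      have := hr0 (j0 + n)
      simp only [hh] at h2
      linarith
    have hX0 : 0 ≤ X := (he0 _).trans hXb
    set s := z - Q (x (n + 1)) with hs
    have hs' : s = (z - Q (x i)) - (Q (x (n + 1)) - Q (x i)) := by rw [hs]; ring
    have hsre : s.re ≤ -(X / 2) := by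
      rw [hs', sub_re, ← hX]
      have := (re_le_norm (z - Q (x i))).trans hzq
      linarith
    have hsn : ‖s‖ ≤ (M + 1) * X := by
      rw [hs']
      refine (norm_sub_le _ _).trans ?_
      linarith
    have hNe : (K (j + 1) : ℝ) / (K (j + 1) / N (j + 1)) + N (j + 1) = 2 * N (j + 1) := by
      have : (K (j + 1) : ℝ) ≠ 0 := by have := hK1 (j + 1); positivity
      have := (hN0 (j + 1)).ne'
      field_simp; ring
    have hb := extract_high (nodes S (j + 1)) (trunc F a (c (j + 1 + 1))) (Q (x (n + 1)))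
      (hr0 (j + 1)) (K := K (j + 1)) le_rfl (hK1 _) (fun p hp => le_of_mem_nodes hp)
      (hN0 (j + 1)).le hκ0 hκ1 (c := c (j + 1))
      (le_trans (by positivity) (hc (j + 1)).1.le) (D := 2 ^ (j + 1) / 12) (by positivity)
      (by
        rw [hNe]
        have : (0 : ℝ) < 2 ^ (j + 1) := by positivity
        simp only [hN]; rw [pow_add _ (j + 1) 3]; linarith)
      (hc (j + 1)).2.2.2 hd s (-(N (j + 1) * X / 8))
      (by
        intro p _ hp
        have h1 := (hc (j + 1)).1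
        have h2 : N (j + 1) / 4 ≤ p := by
          simp only [hN]; rw [pow_add _ (j + 1) 3]; rw [pow_add _ (j + 1) 1] at h1; linarith
        have h3 := hN0 (j + 1)
        nlinarith)
    have hzs : Q (x (n + 1)) + s = z := by rw [hs]; ring
    rw [hzs, hNe] at hb
    have e192 : 2 * N (j + 1) / (2 ^ (j + 1) / 12) = 192 := by
      simp only [hN]; rw [pow_add _ (j + 1) 3]; field_simp; norm_num
    rw [e192] at hb
    have hexp : Real.exp (-(N (j + 1) * X / 8) + κ * N (j + 1) * ‖s‖) ≤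
        (C0 ^ K (j + 1))⁻¹ * (1 / 2 ^ (n + 3)) := by
      have h1 : κ * N (j + 1) * ‖s‖ ≤ N (j + 1) * X / 16 := by
        have h3 := hN0 (j + 1)
        calc κ * N (j + 1) * ‖s‖ ≤ κ * N (j + 1) * ((M + 1) * X) := by gcongr
          _ = N (j + 1) * X / 16 := by rw [hκ]; field_simp
      have h2 : Real.log C0 * K (j + 1) + ((j + 1 : ℕ) + 3) ≤ N (j + 1) * X / 16 := by
        simp only [he] at hXb
        rw [div_le_iff₀ (hN0 _)] at hXb
        linarith
      have h3 : (C0 ^ K (j + 1))⁻¹ = Real.exp (-(Real.log C0 * K (j + 1))) := by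
        rw [Real.exp_neg, mul_comm, Real.exp_nat_mul, Real.exp_log hC00]
      have h4 : Real.exp (-((n + 3 : ℕ) : ℝ)) ≤ 1 / 2 ^ (n + 3) := by
        rw [Real.exp_neg, one_div]
        apply inv_anti₀ (by positivity)
        rw [← Real.exp_one_pow]
        exact pow_le_pow_left₀ (by norm_num) (by linarith [Real.exp_one_gt_d9]) _
      have h5 : ((n + 3 : ℕ) : ℝ) ≤ ((j + 1 : ℕ) : ℝ) + 3 := by
        have : n + 3 ≤ j + 1 + 3 := by omega
        exact_mod_cast this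
      rw [h3]
      refine le_trans ?_ (mul_le_mul_of_nonneg_left h4 (Real.exp_pos _).le)
      rw [← Real.exp_add]
      exact Real.exp_le_exp.2 (by linarith)
    have hb' : ‖ev ((nodes S (j + 1)).filter fun p : ℕ => c (j + 1) < p)
        (trunc F a (c (j + 1 + 1))) z‖ ≤ δ / 2 ^ n := by
      refine hb.trans ((mul_le_mul_of_nonneg_left hexp (by positivity)).trans ?_)
      have e1 : C0 ^ K (j + 1) = 24 ^ (34 * K (j + 1)) * 192 ^ K (j + 1) * κ⁻¹ ^ K (j + 1) := by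
        rw [hC0, mul_pow, mul_pow, pow_mul]
      have e2 : 2 * (3 * δ) * 24 ^ (34 * K (j + 1)) * 192 ^ K (j + 1) * κ⁻¹ ^ K (j + 1) *
          ((C0 ^ K (j + 1))⁻¹ * (1 / 2 ^ (n + 3))) = 6 / 8 * (δ / 2 ^ n) := by
        rw [e1, pow_add]; field_simp; ring
      rw [e2]
      have : 0 ≤ δ / 2 ^ n := by positivity
      linarith
    refine (norm_sub_le _ _).trans ((add_le_add hn' hb').trans (le_of_eq ?_))
    rw [pow_succ]; field_simp; ring
  obtain ⟨n0, hn0⟩ : ∃ n0, ∀ p ∈ F, p < 2 ^ n0 := by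
    refine ⟨F.sup id, fun p hp => ?_⟩
    exact lt_of_le_of_lt (Finset.le_sup (f := id) hp) Nat.lt_two_pow_self
  have htop : claim n0 := by
    intro i _ z hz _
    simp only [hP]
    rw [ev_trunc_top hF a (hcN _) (by
      intro p hp
      have h1 : p < 2 ^ (j0 + n0 + 1 + 1) :=
        (hn0 p hp).trans_le (Nat.pow_le_pow_right (by norm_num) (by omega))
      have h2 : (p : ℝ) < 2 ^ (j0 + n0 + 1 + 1) := by exact_mod_cast h1
      exact h2.trans (hc _).1)]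
    refine (hsmall z hz).trans (le_mul_of_one_le_right hδ.le ?_)
    have : (0 : ℝ) ≤ 2 / 2 ^ n0 := by positivity
    linarith
  have h0 : claim 0 := Nat.decreasingInduction (fun k _ => hstep k) htop (Nat.zero_le n0)
  have hd := hdisc 0 h0
  simp only [hP, add_zero] at hd
  have := const_term (nodes S j0) _ _ (hr0 j0) (K := K j0) le_rfl (hK1 _)
    (fun p hp => le_of_mem_nodes hp) (one_le_pow₀ (by norm_num)) (zero_mem_nodes S j0) hd
  have e0 : trunc F a (c (j0 + 1)) 0 = a 0 := by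
    have : (0 : ℝ) < c (j0 + 1) := lt_trans (by positivity) (hc (j0 + 1)).1
    simp [trunc, h0F, this]
  rw [e0] at this
  refine this.trans (le_of_eq ?_)
  simp only [hN]
  ring

end Pool.Agent.P.MP_c161d8_an
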