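import Pool.Agent.P.MP_c161d8_an.ExpSum

set_option autoImplicit false

namespace Pool.Agent.P.MP_c161d8_an

open Finset Complex

/-- Moment bounds give a uniform bound in a cone opening to the left. -/
lemma cone (A : Finset ℕ) {B M : ℝ} (hB : 0 ≤ B) (hM : 0 ≤ M) (H : Finset ℕ) :
    0 ∉ H → ∀ (b : ℕ → ℂ) (Y : ℝ), (∀ p ∈ A, p ≠ 0 → p ∉ H → b p = 0) →
    (∀ T ⊆ H, ‖mom A b T‖ ≤ Y * B ^ T.card) →
    ∀ (s : ℂ), ‖s‖ ≤ M * (-s.re) → s.re ≤ 0 →
      ‖ev A b s‖ ≤ Y * ∏ μ ∈ H, (1 + M * B / μ) := by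
  classical
  induction H using Finset.induction_on with
  | empty =>
    intro _ b Y hb h s _ _
    have h0 := h ∅ (Finset.empty_subset _)
    simp only [mom_empty, Finset.card_empty, pow_zero, mul_one] at h0
    have : ev A b s = ∑ p ∈ A, b p := by
      unfold ev
      refine Finset.sum_congr rfl fun p hp => ?_
      by_cases hp0 : p = 0
      · simp [hp0]
      · simp [hb p hp hp0 (by simp)]
    rw [this]; simpa using h0
  | insert μ H hμH ih =>
    intro h0 b Y hb h s hs hs0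
    have hμ0 : μ ≠ 0 := by rintro rfl; exact h0 (Finset.mem_insert_self _ _)
    have hμ : (0 : ℝ) < μ := by exact_mod_cast Nat.pos_of_ne_zero hμ0
    have hY0 : 0 ≤ Y := by simpa using (norm_nonneg _).trans (h ∅ (Finset.empty_subset _))
    set b' : ℕ → ℂ := fun p => b p * ((p : ℂ) - μ) with hb'
    have ih' := ih (fun h => h0 (Finset.mem_insert_of_mem h)) b' (Y * B)
      (by
        intro p hp hp0 hpH
        by_cases hpμ : p = μ
        · simp [hb', hpμ]
        · simp [hb', hb p hp hp0 (by simp [hpμ, hpH])])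
      (by
        intro T hT
        have hμT : μ ∉ T := fun h => hμH (hT h)
        have := h (insert μ T) (Finset.insert_subset_insert μ hT)
        rw [mom_insert A b T μ hμT, Finset.card_insert_of_notMem hμT, pow_succ'] at this
        rw [mul_assoc]; exact this)
    set Pd : ℝ := ∏ μ ∈ H, (1 + M * B / μ) with hPi
    have hPi1 : 1 ≤ Pd := Finset.one_le_prod fun ν _ => by
      have : 0 ≤ M * B / (ν : ℝ) := by positivity
      linarith
    set x : ℝ := -s.re with hx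
    have hx0 : 0 ≤ x := by linarith
    let ψ : ℝ → ℂ := fun τ => cexp (-((μ : ℂ) * ((τ : ℂ) * s))) * ev A b ((τ : ℂ) * s)
    let ψ' : ℝ → ℂ := fun τ => cexp (-((μ : ℂ) * ((τ : ℂ) * s))) * s * ev A b' ((τ : ℂ) * s)
    have hψ : ∀ τ : ℝ, HasDerivAt ψ (ψ' τ) τ := by
      intro τ
      have h0 : HasDerivAt (fun z : ℂ => z * s) s (τ : ℂ) := by
        simpa using (hasDerivAt_id (τ : ℂ)).mul_const s
      have h1 := ((h0.const_mul (μ : ℂ)).neg).cexp
      have h2 := (hasDerivAt_ev A b ((τ : ℂ) * s)).comp (τ : ℂ) h0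
      have h3 := (h1.mul h2).comp_ofReal
      refine HasDerivAt.congr_deriv (f := ψ) h3 ?_
      simp only [ψ', hb', ev_mul_sub, Function.comp, Pi.neg_apply]
      ring
    let Bf : ℝ → ℝ := fun τ => Y + Y * B * Pd * (M / μ) * Real.exp (τ * (μ * x))
    let Bf' : ℝ → ℝ := fun τ => Y * B * Pd * (M / μ) * (Real.exp (τ * (μ * x)) * (μ * x))
    have hBf : ∀ τ : ℝ, HasDerivAt Bf (Bf' τ) τ := by
      intro τ
      have h0 : HasDerivAt (fun t : ℝ => t * (μ * x)) (μ * x) τ := by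
        simpa using (hasDerivAt_id τ).mul_const (μ * x)
      exact (h0.exp.const_mul _).const_add _
    have hfin : ‖ψ 1‖ ≤ Bf 1 := by
      refine image_norm_le_of_norm_deriv_right_le_deriv_boundary (a := 0) (b := 1) (f' := ψ')
        (fun τ _ => (hψ τ).continuousAt.continuousWithinAt)
        (fun τ _ => (hψ τ).hasDerivWithinAt) ?_ hBf ?_ (by simp)
      · have h0 := h ∅ (Finset.empty_subset _)
        simp only [mom_empty, Finset.card_empty, pow_zero, mul_one] at h0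
        simp only [ψ, Bf, ofReal_zero, zero_mul, mul_zero, neg_zero, Complex.exp_zero, one_mul,
          ev_zero, Real.exp_zero, mul_one]
        have : 0 ≤ Y * B * Pd * (M / μ) := by positivity
        linarith
      · intro τ hτ
        have hτ0 : 0 ≤ τ := hτ.1
        have hns : ‖(τ : ℂ) * s‖ = τ * ‖s‖ := by
          rw [norm_mul, Complex.norm_real, Real.norm_of_nonneg hτ0]
        have hre : ((τ : ℂ) * s).re = τ * s.re := by simp
        have h1 := ih' ((τ : ℂ) * s) (by rw [hns, hre]; nlinarith) (by rw [hre]; nlinarith)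
        have hexp : ‖cexp (-((μ : ℂ) * ((τ : ℂ) * s)))‖ = Real.exp (τ * (μ * x)) := by
          rw [Complex.norm_exp]; simp [hx]; ring
        simp only [ψ', Bf']
        rw [norm_mul, norm_mul, hexp]
        calc Real.exp (τ * (μ * x)) * ‖s‖ * ‖ev A b' ((τ : ℂ) * s)‖
            ≤ Real.exp (τ * (μ * x)) * (M * x) * (Y * B * Pd) := by gcongr
          _ = _ := by field_simp
    simp only [ψ, Bf, ofReal_one, one_mul] at hfin
    rw [norm_mul, Complex.norm_exp] at hfin
    have hre : (-((μ : ℂ) * s)).re = μ * x := by simp [hx]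
    rw [hre] at hfin
    rw [Finset.prod_insert hμH]
    have hE : 1 ≤ Real.exp (μ * x) := Real.one_le_exp (by positivity)
    have h2 : Real.exp (μ * x) * ‖ev A b s‖ ≤
        Real.exp (μ * x) * (Y * ((1 + M * B / μ) * Pd)) := by
      refine hfin.trans ?_
      have e : Real.exp (μ * x) * (Y * ((1 + M * B / μ) * Pd)) =
          Y * (Real.exp (μ * x) * Pd) + Y * B * Pd * (M / μ) * Real.exp (μ * x) := by ring
      rw [e]
      have : 1 ≤ Real.exp (μ * x) * Pd := one_le_mul_of_one_le_of_one_le hE hPi1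
      nlinarith
    exact le_of_mul_le_mul_left h2 (Real.exp_pos _)

/-- The cone estimate from a bound on a disc. -/
lemma cone_disc (A H : Finset ℕ) (a : ℕ → ℂ) (q : ℂ) {r N Y M : ℝ} {K : ℕ} (hr : 0 < r)
    (hM : 0 ≤ M) (h0 : 0 ∉ H) (ha : ∀ p ∈ A, p ≠ 0 → p ∉ H → a p = 0)
    (hK : H.card ≤ K) (hK1 : 1 ≤ K) (hN : ∀ p ∈ H, (p : ℝ) ≤ N) (hN0 : 0 ≤ N)
    (hY : ∀ s : ℂ, ‖s‖ ≤ r → ‖ev A a (q + s)‖ ≤ Y) (s : ℂ)
    (hs : ‖s‖ ≤ M * (-s.re)) (hs0 : s.re ≤ 0) :
    ‖ev A a (q + s)‖ ≤ Y * ∏ μ ∈ H, (1 + M * (K / r + N) / μ) := by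
  simp only [ev_shift] at hY ⊢
  have hK0 : (0 : ℝ) < K := by exact_mod_cast hK1
  refine cone A (by positivity) hM H h0 _ Y (fun p hp hp0 hpH => by simp [ha p hp hp0 hpH])
    ?_ s hs hs0
  intro T hT
  have := cauchy_mom A (ε := r / K) (N := N) (R := r) (div_pos hr hK0) T _
    (fun μ hμ => hN μ (hT hμ))
    (by
      have : (T.card : ℝ) ≤ K := by exact_mod_cast (Finset.card_le_card hT).trans hK
      rw [← mul_div_assoc, div_le_iff₀ hK0]; nlinarith) hY
  simpa using this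

/-- Inverting one factor `(D - l)` on sums with frequencies below the cut `c`. -/
lemma inverse_one' (A H : Finset ℕ) (b : ℕ → ℂ) (hb : ∀ p ∈ A, p ∉ H → b p = 0) {c Y : ℝ}
    (hH : ∀ μ ∈ H, (μ : ℝ) < c) (l : ℕ) (hl : c < (l : ℝ))
    (hY : ∀ T ⊆ H, ‖mom A (fun p => b p * ((p : ℂ) - l)) T‖ ≤ Y * ∏ μ ∈ T, (c - (μ : ℝ))) :
    ∀ T ⊆ H, ‖mom A b T‖ ≤ Y / (l - c) * ∏ μ ∈ T, (c - (μ : ℝ)) := by
  classical
  have hY0 : 0 ≤ Y := by simpa using (norm_nonneg _).trans (hY ∅ (Finset.empty_subset _))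
  have hcl : 0 < l - c := by linarith
  have key : ∀ n : ℕ, ∀ T ⊆ H, H.card - T.card = n →
      ‖mom A b T‖ ≤ Y / (l - c) * ∏ μ ∈ T, (c - (μ : ℝ)) := by
    intro n
    induction n with
    | zero =>
      intro T hT hn
      have hTH : T = H := Finset.eq_of_subset_of_card_le hT (by omega)
      subst hTH
      have : mom A b T = 0 := by
        unfold mom
        refine Finset.sum_eq_zero fun p hp => ?_
        by_cases h : p ∈ T
        · rw [Finset.prod_eq_zero h (by simp)]; simp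
        · simp [hb p hp h]
      rw [this, norm_zero]
      exact mul_nonneg (div_nonneg hY0 hcl.le)
        (Finset.prod_nonneg fun μ hμ => by linarith [hH μ hμ])
    | succ n ih =>
      intro T hT hn
      have hne : T ≠ H := by rintro rfl; omega
      obtain ⟨μ, hμH, hμT⟩ := Finset.exists_of_ssubset (Finset.ssubset_iff_subset_ne.2 ⟨hT, hne⟩)
      have hins : insert μ T ⊆ H := Finset.insert_subset hμH hT
      have h1 := ih (insert μ T) hins (by rw [Finset.card_insert_of_notMem hμT]; omega)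
      have h2 := hY T hT
      rw [Finset.prod_insert hμT] at h1
      have hid : ((l : ℂ) - μ) * mom A b T =
          mom A b (insert μ T) - mom A (fun p => b p * ((p : ℂ) - l)) T := by
        unfold mom
        rw [Finset.mul_sum, ← Finset.sum_sub_distrib]
        refine Finset.sum_congr rfl fun p _ => ?_
        rw [Finset.prod_insert hμT]; ring
      have hμc := hH μ hμH
      have hpos : (0 : ℝ) < l - μ := by linarith
      have hnorm : ‖((l : ℂ) - μ)‖ = (l : ℝ) - μ := by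
        have : ((l : ℂ) - μ) = (((l : ℝ) - μ : ℝ) : ℂ) := by push_cast; ring
        rw [this, Complex.norm_real, Real.norm_of_nonneg hpos.le]
      have h3 : ((l : ℝ) - μ) * ‖mom A b T‖ ≤
          Y / (l - c) * ((c - (μ : ℝ)) * ∏ μ ∈ T, (c - (μ : ℝ))) + Y * ∏ μ ∈ T, (c - (μ : ℝ)) := by
        rw [← hnorm, ← norm_mul, hid]
        exact (norm_sub_le _ _).trans (add_le_add h1 h2)
      have h4 : Y / (l - c) * ((c - (μ : ℝ)) * ∏ μ ∈ T, (c - (μ : ℝ))) +
          Y * ∏ μ ∈ T, (c - (μ : ℝ)) =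
          ((l : ℝ) - μ) * (Y / (l - c) * ∏ μ ∈ T, (c - (μ : ℝ))) := by
        field_simp
        ring
      rw [h4] at h3
      exact le_of_mul_le_mul_left h3 hpos
  intro T hT
  exact key _ T hT rfl

lemma inverse_all' (A H : Finset ℕ) {c : ℝ} (hH : ∀ μ ∈ H, (μ : ℝ) < c) (L : Finset ℕ) :
    ∀ (b : ℕ → ℂ) (Y : ℝ), (∀ p ∈ A, p ∉ H → b p = 0) → (∀ l ∈ L, c < (l : ℝ)) →
    (∀ T ⊆ H, ‖mom A (fun p => b p * ∏ l ∈ L, ((p : ℂ) - l)) T‖ ≤
      Y * ∏ μ ∈ T, (c - (μ : ℝ))) →
    ∀ T ⊆ H, ‖mom A b T‖ ≤ Y / (∏ l ∈ L, ((l : ℝ) - c)) * ∏ μ ∈ T, (c - (μ : ℝ)) := by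
  classical
  induction L using Finset.induction_on with
  | empty =>
    intro b Y _ _ h T hT
    simpa using h T hT
  | insert l L hlL ih =>
    intro b Y hb hL h T hT
    have h1 := ih (fun p => b p * ((p : ℂ) - l)) Y
      (fun p hp hpH => by simp [hb p hp hpH])
      (fun l' hl' => hL l' (Finset.mem_insert_of_mem hl'))
      (by
        intro T hT
        convert h T hT using 3
        ext p
        rw [Finset.prod_insert hlL]; ring)
    have h2 := inverse_one' A H b hb hH l (hL l (Finset.mem_insert_self _ _)) h1 T hT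
    rw [Finset.prod_insert hlL]
    convert h2 using 2
    rw [div_div, mul_comm]

/-- Recovering a sum with frequencies below the cut after killing the frequencies above it. -/
lemma recover_low (F L H : Finset ℕ) (b : ℕ → ℂ) (hb : ∀ p ∈ F, p ∉ L → b p = 0)
    {c r B N Y : ℝ} {K : ℕ} (hL : ∀ l ∈ L, (l : ℝ) < c) (hH : ∀ μ ∈ H, c < (μ : ℝ))
    (hr : 0 < r) (hK : L.card ≤ K) (hK1 : 1 ≤ K) (hc0 : 0 ≤ c) (hN : c ≤ N) (hB : K / r + N ≤ B)
    (w : ℂ)
    (hY : ∀ s : ℂ, ‖s‖ ≤ r → ‖ev F (fun p => b p * ∏ μ ∈ H, ((p : ℂ) - μ)) (w + s)‖ ≤ Y) :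
    ‖ev F b w‖ ≤ Y * B ^ L.card / ((∏ l ∈ L, (c - (l : ℝ))) * ∏ μ ∈ H, ((μ : ℝ) - c)) := by
  classical
  have hK0 : (0 : ℝ) < K := by exact_mod_cast hK1
  have hY0 : 0 ≤ Y := (norm_nonneg _).trans (hY 0 (by simpa using hr.le))
  have hKr : 0 < (K : ℝ) / r := div_pos hK0 hr
  have hB0 : 0 < B := by linarith
  simp only [ev_shift] at hY
  set b' : ℕ → ℂ := fun p => b p * cexp ((p : ℂ) * w) with hb'
  have hY' : ∀ s : ℂ, ‖s‖ ≤ r → ‖ev F (fun p => b' p * ∏ μ ∈ H, ((p : ℂ) - μ)) s‖ ≤ Y := by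
    intro s hs
    convert hY s hs using 3
    ext p; simp only [hb']; ring
  have h1 : ∀ T ⊆ L, ‖mom F (fun p => b' p * ∏ μ ∈ H, ((p : ℂ) - μ)) T‖ ≤
      (Y * ∏ l ∈ L, (B / (c - (l : ℝ)))) * ∏ l ∈ T, (c - (l : ℝ)) := by
    intro T hT
    have e2 := cauchy_mom F (ε := r / K) (N := N) (R := r) (div_pos hr hK0) T _
        (fun μ hμ => (hL μ (hT hμ)).le.trans hN)
        (by
          have : (T.card : ℝ) ≤ K := by exact_mod_cast (Finset.card_le_card hT).trans hK
          rw [← mul_div_assoc, div_le_iff₀ hK0]; nlinarith) hY'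
    refine e2.trans ?_
    rw [one_div_div]
    have e3 : B ^ T.card = (∏ l ∈ T, (B / (c - (l : ℝ)))) * ∏ l ∈ T, (c - (l : ℝ)) := by
      rw [← Finset.prod_mul_distrib, ← Finset.prod_const]
      refine Finset.prod_congr rfl fun μ hμ => ?_
      have := hL μ (hT hμ)
      have : c - (μ : ℝ) ≠ 0 := by linarith
      field_simp
    have e4 : (∏ l ∈ T, (B / (c - (l : ℝ)))) ≤ ∏ l ∈ L, (B / (c - (l : ℝ))) := by
      apply Finset.prod_le_prod_of_subset_of_one_le hT
      · intro μ hμ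
        have := hL μ (hT hμ)
        exact div_nonneg hB0.le (by linarith)
      · intro μ hμ _
        have h1 := hL μ hμ
        have : (0 : ℝ) ≤ μ := Nat.cast_nonneg μ
        rw [le_div_iff₀ (by linarith)]; linarith
    have e5 : 0 ≤ ∏ l ∈ T, (c - (l : ℝ)) :=
      Finset.prod_nonneg fun μ hμ => by linarith [hL μ (hT hμ)]
    calc Y * (K / r + N) ^ T.card ≤ Y * B ^ T.card := by gcongr; linarith
      _ = Y * ((∏ l ∈ T, (B / (c - (l : ℝ)))) * ∏ l ∈ T, (c - (l : ℝ))) := by rw [e3]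
      _ ≤ Y * ((∏ l ∈ L, (B / (c - (l : ℝ)))) * ∏ l ∈ T, (c - (l : ℝ))) := by gcongr
      _ = _ := by ring
  have h2 := inverse_all' F L hL H b' _ (fun p hp hpL => by simp [hb', hb p hp hpL]) hH h1 ∅
    (Finset.empty_subset _)
  have e0 : ev F b w = mom F b' ∅ := by rw [mom_empty]; rfl
  rw [e0]
  refine h2.trans (le_of_eq ?_)
  rw [Finset.prod_empty, mul_one, Finset.prod_div_distrib, Finset.prod_const, mul_div_assoc',
    div_div]

end Pool.Agent.P.MP_c161d8_an
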