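import Pool.Agent.P.MP_950908_nt.Logs

/-! A plane continuum contains a vertical segment or a graph, or cuts off a pocket. -/

set_option autoImplicit false

namespace Pool.Agent.P.MP_c161d8_an

open Set Metric Filter Topology Complex
open Pool.Agent.P.MP_950908_nt

lemma sep_comp {E Z : Set ℂ} (hE : IsCompact E) {v : ℂ} (hv : v ∈ E) (hZ : IsClosed Z)
    (h : ∀ z ∈ connectedComponentIn E v, z ∉ Z) :
    ∃ O1 O2 : Set ℂ, IsOpen O1 ∧ IsOpen O2 ∧ Disjoint O1 O2 ∧ E ⊆ O1 ∪ O2 ∧ v ∈ O1 ∧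
      E ∩ Z ⊆ O2 := by
  have : CompactSpace E := isCompact_iff_compactSpace.mp hE
  have hF : IsCompact (Subtype.val ⁻¹' Z : Set E) := (hZ.preimage continuous_subtype_val).isCompact
  obtain ⟨t, ht⟩ := hF.elim_finite_subfamily_closed
    (fun s : {s : Set E // IsClopen s ∧ (⟨v, hv⟩ : E) ∈ s} => (s : Set E)) (fun s => s.2.1.1) (by
      rw [← connectedComponent_eq_iInter_isClopen]
      refine eq_empty_of_forall_notMem fun y hy => h y ?_ hy.1
      rw [connectedComponentIn_eq_image hv]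
      exact ⟨y, hy.2, rfl⟩)
  set W : Set E := ⋂ s ∈ t, (s : Set E) with hW
  have hU : IsClopen W := isClopen_biInter_finset fun s _ => s.2.1
  obtain ⟨O1, O2, h1, h2, h3, h4, h5⟩ := SeparatedNhds.of_isCompact_isCompact
    (hU.1.isCompact.image continuous_subtype_val)
    (hU.compl.1.isCompact.image continuous_subtype_val)
    (disjoint_image_of_injective Subtype.val_injective disjoint_compl_right)
  refine ⟨O1, O2, h1, h2, h5, fun z hz => ?_, h3 ⟨⟨v, hv⟩, mem_iInter₂.mpr fun s _ => s.2.2, rfl⟩,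
    fun z hz => h4 ⟨⟨z, hz.1⟩, fun hw => ?_, rfl⟩⟩
  · by_cases hw : (⟨z, hz⟩ : E) ∈ W
    · exact Or.inl (h3 ⟨_, hw, rfl⟩)
    · exact Or.inr (h4 ⟨_, hw, rfl⟩)
  · exact (eq_empty_iff_forall_notMem.mp ht) ⟨z, hz.1⟩ ⟨hz.2, hw⟩

lemma isCompact_comp {E : Set ℂ} (hE : IsCompact E) {v : ℂ} (hv : v ∈ E) :
    IsCompact (connectedComponentIn E v) := by
  have : CompactSpace E := isCompact_iff_compactSpace.mp hE
  rw [connectedComponentIn_eq_image hv]
  exact isClosed_connectedComponent.isCompact.image continuous_subtype_val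

/-- Boundary bumping. -/
lemma bump {Γ : Set ℂ} (hΓ : IsPreconnected Γ) {f : ℂ → ℝ} (hf : Continuous f) {t : ℝ}
    (hE : IsCompact (Γ ∩ {z | t ≤ f z})) {u v : ℂ} (hu : u ∈ Γ) (hut : f u < t) (hv : v ∈ Γ)
    (hvt : t ≤ f v) : ∃ z ∈ connectedComponentIn (Γ ∩ {z | t ≤ f z}) v, f z = t := by
  by_contra hn
  push Not at hn
  obtain ⟨O1, O2, h1, h2, h3, h4, h5, h6⟩ := sep_comp hE ⟨hv, hvt⟩
    (isClosed_eq hf continuous_const) (Z := {z | f z = t}) hn
  have hvt' : t < f v := lt_of_le_of_ne hvt (hn v (mem_connectedComponentIn ⟨hv, hvt⟩)).symm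
  have := hΓ.subset_left_of_subset_union (u := O1 ∩ {z | t < f z}) (v := O2 ∪ {z | f z < t})
    (h1.inter (isOpen_lt continuous_const hf)) (h2.union (isOpen_lt hf continuous_const))
    (disjoint_left.mpr fun z hz hz' => hz'.elim (fun h => disjoint_left.mp h3 hz.1 h)
      fun h => lt_asymm (show f z < t from h) hz.2) (fun z hz => ?_) ⟨v, hv, h5, hvt'⟩
  · exact lt_asymm hut (this hu).2
  rcases lt_trichotomy (f z) t with h | h | h
  · exact Or.inr (Or.inr h)
  · exact Or.inr (Or.inl (h6 ⟨⟨hz, h.ge⟩, h⟩))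
  · exact (h4 ⟨hz, h.le⟩).imp (fun h' => ⟨h', h⟩) Or.inl

lemma hasLog_unb {X V : Set ℂ} (hX : IsCompact X) (hV : IsPreconnected V)
    (hVX : ∀ z ∈ V, z ∉ X) (hb : ¬ Bornology.IsBounded V) {a : ℂ} (ha : a ∈ V) :
    HasLog X fun z => z - a := by
  obtain ⟨R, hR0, hR⟩ := hX.isBounded.exists_pos_norm_le
  obtain ⟨b, hbV, hbR⟩ : ∃ b ∈ V, 3 * R < ‖b‖ := by
    by_contra h
    push Not at h
    exact hb (isBounded_iff_forall_norm_le.mpr ⟨_, h⟩)
  have hb0 : 0 < ‖b‖ := by linarith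
  refine hV.induction₂' (fun a b => HasLog X (fun z => z - a) → HasLog X fun z => z - b)
    (fun x hx => ?_) (fun _ _ _ _ _ _ h1 h2 h => h2 (h1 h)) hbV ha ?_
  · filter_upwards [nhdsWithin_le_nhds (eventually_hasLog_iff hX.isClosed (hVX x hx))] with y hy
    exact ⟨hy.2.1, hy.2.2⟩
  · have hb1 := norm_pos_iff.mp hb0
    refine ((HasLog.const (neg_ne_zero.mpr hb1)).mul (HasLog.one_sub (F := fun z => z * b⁻¹)
      (by fun_prop) fun z hz => ?_)).congr fun z _ => ?_
    · rw [norm_mul, norm_inv, mul_inv_le_iff₀ hb0]; linarith [hR z hz]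
    · field_simp; ring

/-- The pocket cut off by a continuum that meets a vertical line twice. -/
lemma pocket_cont {Γ C : Set ℂ} (hΓ : IsCompact Γ) (hC : IsCompact C) (hCc : IsPreconnected C)
    (hCΓ : C ⊆ Γ) {z1 z2 m : ℂ} (h1 : z1 ∈ C) (h2 : z2 ∈ C) (e1 : z1.re = m.re)
    (e2 : z2.re = m.re) (l1 : z1.im < m.im) (l2 : m.im < z2.im) (hm : m ∉ Γ)
    (hge : ∀ z ∈ C, m.re ≤ z.re) :
    ∃ U : Set ℂ, IsOpen U ∧ Bornology.IsBounded U ∧ U.Nonempty ∧ (∀ z ∈ U, m.re < z.re) ∧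
      ∀ ζ ∈ frontier U, ζ ∈ Γ ∨ ζ.re = m.re := by
  obtain ⟨ε, hε, hball⟩ := nhds_basis_closedBall.mem_iff.mp (hΓ.isClosed.isOpen_compl.mem_nhds hm)
  set W := (Γ ∪ {z | z.re = m.re})ᶜ with hW
  have hWo : IsOpen W := (hΓ.isClosed.union (isClosed_eq continuous_re continuous_const)).isOpen_compl
  have haW : m + ε ∈ W := by
    rintro (h | h)
    · exact hball (by simp [abs_of_pos hε]) h
    · simp at h; linarith
  set U := connectedComponentIn W (m + ε) with hU
  have hUo : IsOpen U := hWo.connectedComponentIn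
  have hUW : U ⊆ W := connectedComponentIn_subset _ _
  have haU : m + ε ∈ U := mem_connectedComponentIn haW
  refine ⟨U, hUo, ?_, ⟨_, haU⟩, ?_, fun ζ hζ => ?_⟩
  · by_contra hb
    set Sg := (fun y : ℝ => (m.re : ℂ) + y * I) '' Icc z1.im z2.im with hSg
    have hSc : Continuous fun y : ℝ => (m.re : ℂ) + y * I := by fun_prop
    have hX : IsCompact (C ∪ Sg) := hC.union (isCompact_Icc.image hSc)
    have hSre : ∀ z ∈ Sg, z.re = m.re := by rintro _ ⟨y, -, rfl⟩; simp
    have k1 := hasLog_unb hX isPreconnected_connectedComponentIn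
      (fun z hz h => hUW hz (h.imp (fun h => hCΓ h) (hSre z))) hb haU
    have k2 := hasLog_unb hX (V := {z | z.re < m.re}) (convex_halfSpace_re_lt _).isPreconnected
      (fun z hz h => h.elim (fun h => (hge z h).not_gt hz) fun h => (hSre z h).not_lt hz)
      (fun h => by
        obtain ⟨R, hR0, hR⟩ := h.exists_pos_norm_le
        have h3 := hR ((-(|m.re| + R + 1) : ℝ) : ℂ) (by
          simp only [mem_ofPred_eq, ofReal_re]; linarith [neg_abs_le m.re])
        rw [norm_real, Real.norm_eq_abs, abs_neg, abs_of_pos (by positivity)] at h3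
        linarith [abs_nonneg m.re]) (a := m - ε) (by simpa using hε)
    obtain ⟨g, hg⟩ := k1.mul k2.inv
    set φ : ℂ → ℂ := fun z => (z - (m + ε)) * (z - (m - ε))⁻¹ with hφ
    have hne : ∀ z : ℂ, m.re ≤ z.re → z - (m - ε) ≠ 0 := fun z hz e => by
      have := congrArg re e
      simp at this; linarith
    have hφc : ∀ Y : Set ℂ, (∀ z ∈ Y, m.re ≤ z.re) → ContinuousOn φ Y := fun Y hY =>
      ContinuousOn.mul (by fun_prop) (ContinuousOn.inv₀ (by fun_prop) fun z hz => hne z (hY z hz))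
    have hmul : ∀ z : ℂ, m.re ≤ z.re → φ z * (z - (m - ε)) = z - (m + ε) := fun z hz => by
      simp only [hφ]; rw [inv_mul_cancel_right₀ (hne z hz)]
    have s1 : ∀ z ∈ C, φ z ∈ slitPlane := fun z hz => by
      by_contra h
      rw [mem_slitPlane_iff, not_or, not_lt, not_not] at h
      have h3 := hmul z (hge z hz)
      have h4 := congrArg re h3
      have h5 := congrArg im h3
      simp only [mul_re, mul_im, sub_re, sub_im, add_re, add_im, ofReal_re, ofReal_im, h.2] at h4 h5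
      refine hball ?_ (hCΓ hz)
      have h6 : z.im - m.im = 0 := by
        refine (mul_eq_zero.mp (show (z.im - m.im) * (1 - (φ z).re) = 0 by linarith)).resolve_right ?_
        linarith [h.1]
      rw [mem_closedBall, dist_eq_norm]
      refine (norm_le_abs_re_add_abs_im _).trans ?_
      rw [sub_re, sub_im, h6, abs_zero, add_zero, abs_of_nonneg (by linarith [hge z hz])]
      nlinarith [h.1, hge z hz]
    have him : ∀ z : ℂ, z.re = m.re → (φ z).im * (ε ^ 2 + (z.im - m.im) ^ 2) =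
        2 * ε * (z.im - m.im) ∧ ((φ z).im = 0 → (φ z).re < 0) := fun z hz => by
      have h3 := hmul z hz.ge
      have h4 := congrArg re h3
      have h5 := congrArg im h3
      simp only [mul_re, mul_im, sub_re, sub_im, add_re, add_im, ofReal_re, ofReal_im, hz] at h4 h5
      refine ⟨by linear_combination ε * h5 - (z.im - m.im) * h4, fun h => ?_⟩
      rw [h] at h4
      nlinarith
    have s2 : ∀ z ∈ Sg, -φ z ∈ slitPlane := fun z hz => by
      rw [mem_slitPlane_iff, neg_re, neg_im]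
      by_cases h : (φ z).im = 0
      · exact Or.inl (neg_pos.mpr ((him z (hSre z hz)).2 h))
      · exact Or.inr (neg_ne_zero.mpr h)
    have L1 : IsLog C φ fun z => log (φ z) :=
      ⟨(hφc C hge).clog s1, fun z hz => exp_log (slitPlane_ne_zero (s1 z hz))⟩
    have L2 : IsLog Sg φ fun z => log (-φ z) + Real.pi * I :=
      ⟨((hφc Sg fun z hz => (hSre z hz).ge).neg.clog s2).add continuousOn_const, fun z hz => by
        rw [exp_add, exp_log (slitPlane_ne_zero (s2 z hz)), exp_pi_mul_I]; ring⟩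
    have m1 : z1 ∈ Sg := ⟨z1.im, ⟨le_rfl, (l1.trans l2).le⟩, by rw [← e1]; exact re_add_im z1⟩
    have m2 : z2 ∈ Sg := ⟨z2.im, ⟨(l1.trans l2).le, le_rfl⟩, by rw [← e2]; exact re_add_im z2⟩
    have d1 := congrArg im ((hg.mono subset_union_left).sub_const L1 hCc h1 h2)
    have d2 := congrArg im ((hg.mono subset_union_right).sub_const L2
      (isPreconnected_Icc.image _ hSc.continuousOn) m1 m2)
    have i1 : (φ z1).im < 0 := by
      by_contra h
      nlinarith [(him z1 e1).1, mul_nonneg (not_lt.mp h)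
        (show 0 ≤ ε ^ 2 + (z1.im - m.im) ^ 2 by positivity), mul_pos hε (sub_pos.mpr l1)]
    have i2 : 0 < (φ z2).im := by
      by_contra h
      nlinarith [(him z2 e2).1, mul_nonneg (neg_nonneg.mpr (not_lt.mp h))
        (show 0 ≤ ε ^ 2 + (z2.im - m.im) ^ 2 by positivity), mul_pos hε (sub_pos.mpr l2)]
    simp only [sub_im, add_im, log_im, arg_neg_eq_arg_add_pi_of_im_neg i1,
      arg_neg_eq_arg_sub_pi_of_im_pos i2] at d1 d2
    linarith [Real.pi_pos]
  · have : U ⊆ {z : ℂ | m.re < z.re} :=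
      isPreconnected_connectedComponentIn.subset_left_of_subset_union
        (v := {z : ℂ | z.re < m.re}) (isOpen_lt continuous_const continuous_re)
        (isOpen_lt continuous_re continuous_const)
        (disjoint_left.mpr fun z h h' => lt_asymm (show m.re < z.re from h) h')
        (fun z hz => (lt_or_gt_of_ne fun e => hUW hz (Or.inr e)).symm) ⟨_, haU, by simpa using hε⟩
    exact fun z hz => this hz
  · by_contra h
    have hζW : ζ ∈ W := h
    obtain ⟨y, hy1, hy2⟩ := mem_closure_iff_nhds.mp (frontier_subset_closure hζ) _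
      (hWo.connectedComponentIn.mem_nhds (mem_connectedComponentIn hζW))
    rw [hUo.frontier_eq] at hζ
    refine hζ.2 ?_
    rw [hU, connectedComponentIn_eq hy2, ← connectedComponentIn_eq hy1]
    exact mem_connectedComponentIn hζW

/-- The trichotomy. -/
theorem trichotomy {Γ : Set ℂ} (hΓ : IsCompact Γ) (hc : IsPreconnected Γ) (hn : Γ.Nontrivial) :
    (∃ w0 ∈ Γ, ∃ H : ℝ, 0 < H ∧ ∀ y ∈ Icc 0 H, w0 + y * I ∈ Γ) ∨
    (∃ p ∈ Γ, ∃ U : Set ℂ, IsOpen U ∧ Bornology.IsBounded U ∧ U.Nonempty ∧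
      (∀ z ∈ U, p.re < z.re) ∧ ∀ ζ ∈ frontier U, ζ ∈ Γ ∨ ζ.re = p.re) ∨
    ∃ (φ : ℝ → ℝ) (a b : ℝ), Continuous φ ∧ a < b ∧
      {z : ℂ | a ≤ z.re ∧ z.re ≤ b ∧ z.im = φ z.re} ⊆ Γ := by
  by_cases hV : ∃ w0 ∈ Γ, ∃ H : ℝ, 0 < H ∧ ∀ y ∈ Icc 0 H, w0 + y * I ∈ Γ
  · exact Or.inl hV
  right
  push Not at hV
  obtain ⟨u, hu, v, hv, huv⟩ : ∃ u ∈ Γ, ∃ v ∈ Γ, u.re < v.re := by
    by_contra h
    push Not at h
    have key : ∀ u ∈ Γ, ∀ v ∈ Γ, ¬ u.im < v.im := fun u hu v hv hlt => by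
      obtain ⟨y, hy, hy'⟩ := hV u hu _ (sub_pos.mpr hlt)
      obtain ⟨r, hr, hry⟩ := hc.intermediate_value hu hv continuous_im.continuousOn
        (show u.im + y ∈ Icc _ _ from ⟨by linarith [hy.1], by linarith [hy.2]⟩)
      refine hy' ((Complex.ext ?_ ?_ : r = u + y * I) ▸ hr)
      · simpa using le_antisymm (h u hu r hr) (h r hr u hu)
      · simpa using hry
    obtain ⟨u, hu, v, hv, hne⟩ := hn
    exact hne (Complex.ext (le_antisymm (h v hv u hu) (h u hu v hv))
      (le_antisymm (not_lt.mp (key v hv u hu)) (not_lt.mp (key u hu v hv))))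
  set E : ℝ → Set ℂ := fun t => Γ ∩ {z | t ≤ z.re} with hE
  have hEc : ∀ t, IsCompact (E t) := fun t =>
    hΓ.inter_right (isClosed_le continuous_const continuous_re)
  set C : ℝ → Set ℂ := fun t => connectedComponentIn (E t) v with hC
  have hCE : ∀ t, C t ⊆ E t := fun t => connectedComponentIn_subset _ _
  by_cases hP : ∃ t ≤ v.re, ∃ z1 ∈ C t, ∃ z2 ∈ C t, z1.re = t ∧ z2.re = t ∧ z1.im < z2.im
  · left
    obtain ⟨t, ht, z1, h1, z2, h2, e1, e2, hlt⟩ := hP
    obtain ⟨y, hy, hy'⟩ := hV z1 (hCE t h1).1 _ (sub_pos.mpr hlt)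
    have hre : (z1 + y * I).re = z1.re := by simp
    have him : (z1 + y * I).im = z1.im + y := by simp
    refine ⟨z1, (hCE t h1).1, hre ▸ pocket_cont hΓ (isCompact_comp (hEc t) ⟨hv, ht⟩)
      isPreconnected_connectedComponentIn (fun z hz => (hCE t hz).1) h1 h2 hre.symm
      (by rw [hre, e1, e2]) ?_ ?_ hy' fun z hz => by rw [hre, e1]; exact (hCE t hz).2⟩
    · refine lt_of_le_of_ne (by linarith [hy.1]) fun e => hy' ?_
      exact (Complex.ext hre.symm e : z1 = z1 + y * I) ▸ (hCE t h1).1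
    · refine lt_of_le_of_ne (by linarith [hy.2]) fun e => hy' ?_
      exact (Complex.ext (by rw [hre, e1, e2]) e.symm : z2 = z1 + y * I) ▸ (hCE t h2).1
  right
  push Not at hP
  set a := (u.re + v.re) / 2 with ha
  have hab : a < v.re := by linarith
  set G := {z : ℂ | z.re ∈ Icc a v.re ∧ z ∈ C z.re} with hG
  have hGΓ : G ⊆ Γ := fun z hz => (hCE _ hz.2).1
  have hGc : IsClosed G := isClosed_of_closure_subset fun z hz => by
    have hzI : z.re ∈ Icc a v.re := closure_minimal (fun w (hw : w ∈ G) => hw.1)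
      (isClosed_Icc.preimage continuous_re) hz
    have hzΓ : z ∈ Γ := closure_minimal hGΓ hΓ.isClosed hz
    refine ⟨hzI, ?_⟩
    by_contra hzC
    obtain ⟨O1, O2, o1, o2, o3, o4, o5, o6⟩ := sep_comp (hEc z.re) ⟨hv, hzI.2⟩
      (isClosed_singleton (x := z)) fun w hw e => hzC (e ▸ hw)
    obtain ⟨s, hs, hsub⟩ : ∃ s < z.re, E s ⊆ O1 ∪ O2 := by
      obtain ⟨d, hd0, hd⟩ := (hΓ.diff (o1.union o2)).exists_forall_le'
        (f := fun w => z.re - w.re) (a := 0) (by fun_prop) fun w hw =>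
          sub_pos.mpr (not_le.mp fun h => hw.2 (o4 ⟨hw.1, h⟩))
      refine ⟨z.re - d / 2, by linarith, fun w hw => ?_⟩
      by_contra h
      have h1 := hd w ⟨hw.1, h⟩
      have h2 : z.re - d / 2 ≤ w.re := hw.2
      linarith
    have hvs : v ∈ E s := ⟨hv, hs.le.trans hzI.2⟩
    have h1 : C s ⊆ O1 := isPreconnected_connectedComponentIn.subset_left_of_subset_union o1 o2 o3
      ((hCE s).trans hsub) ⟨v, mem_connectedComponentIn hvs, o5⟩
    obtain ⟨w, hw1, hw2⟩ := mem_closure_iff_nhds.mp hz _ ((o2.inter (isOpen_lt continuous_const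
      continuous_re)).mem_nhds (⟨o6 ⟨⟨hzΓ, le_refl z.re⟩, rfl⟩, hs⟩ : z ∈ O2 ∩ {w | s < w.re}))
    exact disjoint_left.mp o3 (h1 (connectedComponentIn_mono v
      (fun x (hx : x ∈ E w.re) => (⟨hx.1, (show s < w.re from hw1.2).le.trans
        (show w.re ≤ x.re from hx.2)⟩ : x ∈ E s)) hw2.2)) hw1.1
  have : CompactSpace G := isCompact_iff_compactSpace.mp (hΓ.of_isClosed_subset hGc hGΓ)
  let f : G → Icc a v.re := fun z => ⟨(z : ℂ).re, z.2.1⟩
  have hf : Function.Bijective f := by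
    constructor
    · intro z w hzw
      have e : (z : ℂ).re = (w : ℂ).re := congrArg Subtype.val hzw
      refine Subtype.ext (Complex.ext e (le_antisymm ?_ ?_))
      · exact hP _ w.2.1.2 w w.2.2 z (e ▸ z.2.2) rfl e
      · exact hP _ z.2.1.2 z z.2.2 w (e ▸ w.2.2) rfl e.symm
    · intro t
      obtain ⟨z, hz, e⟩ := bump hc continuous_re (hEc t) hu (by linarith [t.2.1]) hv t.2.2
      exact ⟨⟨z, e ▸ t.2, e ▸ hz⟩, Subtype.ext e⟩
  have hfc : Continuous (Equiv.ofBijective f hf) :=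
    (continuous_re.comp continuous_subtype_val).subtype_mk _
  let e := hfc.homeoOfEquivCompactToT2
  have he : ∀ x, ((e.symm x : G) : ℂ).re = x := fun x => congrArg Subtype.val (e.apply_symm_apply x)
  refine ⟨fun x => ((e.symm (projIcc _ _ hab.le x) : G) : ℂ).im, a, v.re, continuous_im.comp
    (continuous_subtype_val.comp (e.symm.continuous.comp continuous_projIcc)), hab, ?_⟩
  rintro z ⟨h1, h2, h3⟩
  refine (Complex.ext ?_ h3.symm : ((e.symm (projIcc _ _ hab.le z.re) : G) : ℂ) = z) ▸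
    hGΓ (e.symm _).2
  rw [he, projIcc_of_mem _ ⟨h1, h2⟩]

end Pool.Agent.P.MP_c161d8_an
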