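import Pool.Agent.P.MP_c161d8_an.Lev2
import Pool.Agent.P.MP_c161d8_an.Cont

/-! The sharp coefficient estimate on continua and the bound on discs. -/

set_option autoImplicit false

namespace Pool.Agent.P.MP_c161d8_an

open Set Metric Filter Topology Complex

lemma Est2.anti {S : Set ℕ} {Γ : Set ℂ} {x x' : ℝ} (h : Est2 S Γ x') (hx : x ≤ x') :
    Est2 S Γ x := fun η hη => by
  obtain ⟨C, hC⟩ := h η hη
  refine ⟨C, fun F a δ hδ hF hz p hp => le_trans ?_ (hC F a δ hδ hF hz p hp)⟩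
  gcongr

lemma est2_graph {S : Set ℕ} (hS : Summable (fun p : S => (1 : ℝ) / ((p : ℕ) : ℝ)))
    {φ : ℝ → ℝ} (hφ : Continuous φ) {a b : ℝ} (hab : a < b) :
    Est2 S {z | a ≤ z.re ∧ z.re ≤ b ∧ z.im = φ z.re} a := by
  by_cases h : ∀ x ∈ Icc a b, φ x = φ a
  · refine (lev_chain hS (Γ := (fun t : ℝ => (t : ℂ) + φ a * I) '' Icc a b)
      (isPreconnected_Icc.image _ (Continuous.continuousOn (by fun_prop)))
      (Q := fun t => ((a + t : ℝ) : ℂ) + φ a * I) (M := 1) (η := b - a) zero_le_one (by linarith)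
      (fun x hx => ⟨a + x, ⟨by linarith [hx.1], by linarith [hx.2]⟩, rfl⟩) (fun x _ y _ hxy => ?_)
      a ?_).est2.mono ?_
    · have e : ((a + y : ℝ) : ℂ) + φ a * I - (((a + x : ℝ) : ℂ) + φ a * I) = ((y - x : ℝ) : ℂ) := by
        push_cast; ring
      rw [e, ofReal_re, norm_real, Real.norm_of_nonneg (by linarith)]
      exact ⟨le_rfl, by linarith⟩
    · rintro _ ⟨t, ht, rfl⟩
      simpa using ht.1
    · rintro _ ⟨t, ht, rfl⟩
      refine ⟨by simpa using ht.1, by simpa using ht.2, ?_⟩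
      simp [h t ht]
  · push Not at h
    obtain ⟨x, hx, hne⟩ := h
    rcases lt_or_gt_of_ne hne with hlt | hlt
    · refine (lev_graph hS hφ.neg hx.1 (show -φ a < -φ x by linarith)).est2.conj ?_
      rintro z ⟨h1, h2, h3⟩
      refine ⟨by simpa using h1, by simpa using h2.trans hx.2, ?_⟩
      simp only [conj_im, conj_re, h3]
      simp
    · exact (lev_graph hS hφ hx.1 hlt).est2.mono fun z hz => ⟨hz.1, hz.2.1.trans hx.2, hz.2.2⟩

theorem est2_cont {S : Set ℕ} (hS : Summable (fun p : S => (1 : ℝ) / ((p : ℕ) : ℝ)))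
    {Γ : Set ℂ} (hΓ : IsCompact Γ) (hc : IsPreconnected Γ) (hn : Γ.Nontrivial) {x : ℝ}
    (hx : ∀ z ∈ Γ, x ≤ z.re) : Est2 S Γ x := by
  rcases trichotomy hΓ hc hn with ⟨w0, hw0, H, hH, h⟩ | ⟨p, hp, U, u1, u2, u3, u4, u5⟩ |
    ⟨φ, a, b, hφ, hab, h⟩
  · refine ((lev_vertical hS w0 hH).est2.mono ?_).anti (hx w0 hw0)
    rintro _ ⟨y, hy, rfl⟩
    exact h y hy
  · exact (lev_pocket hS hc u1 u2 u3 u4 u5 hp le_rfl).est2.anti (hx p hp)
  · refine ((est2_graph hS hφ hab).mono h).anti ?_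
    simpa using hx (a + φ a * I) (h ⟨by simp, by simpa using hab.le, by simp⟩)

theorem coef_cont {S : Set ℕ} (hS : Summable (fun p : S => (1 : ℝ) / ((p : ℕ) : ℝ)))
    {K : Set ℂ} (hc : IsPreconnected K) (hn : K.Nontrivial) {w : ℂ} (hw : w ∈ K) {σ : ℝ}
    (hσ0 : 0 < σ) (hσ : σ < ‖w‖) : ∃ C : ℝ, ∀ P : Polynomial ℂ, (∀ p ∈ P.support, p ∈ S) →
      ∀ δ > 0, (∀ z ∈ K, ‖P.eval z‖ ≤ δ) → ∀ p ∈ P.support, ‖P.coeff p‖ * σ ^ p ≤ C * δ := by
  have hw0 : 0 < ‖w‖ := hσ0.trans hσ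
  have hw1 : w ≠ 0 := norm_pos_iff.mp hw0
  set η := Real.log (‖w‖ / σ) / 2 with hη
  have hη0 : 0 < η := half_pos (Real.log_pos ((one_lt_div hσ0).mpr hσ))
  have hη1 : Real.exp (-η) < 1 := Real.exp_lt_one_iff.mpr (by linarith)
  obtain ⟨u, hu, huw⟩ := hn.exists_ne w
  have hu0 : 0 < ‖u - w‖ := norm_pos_iff.mpr (sub_ne_zero.mpr huw)
  set r := min (‖u - w‖ / 2) (‖w‖ * (1 - Real.exp (-η))) with hr
  have hr0 : 0 < r := lt_min (half_pos hu0) (mul_pos hw0 (by linarith))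
  have hr1 : r ≤ ‖u - w‖ / 2 := min_le_left _ _
  have hr2 : r ≤ ‖w‖ * (1 - Real.exp (-η)) := min_le_right _ _
  set E := closure K ∩ {z | -r ≤ -‖z - w‖} with hE
  have hEc : IsCompact E := by
    refine (isCompact_closedBall w r).of_isClosed_subset (isClosed_closure.inter
      (isClosed_le continuous_const (by fun_prop))) fun z hz => ?_
    exact mem_closedBall_iff_norm.mpr (neg_le_neg_iff.mp hz.2)
  have hwE : w ∈ E := ⟨subset_closure hw, by simpa using hr0.le⟩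
  obtain ⟨v, hv, hvr⟩ := bump hc.closure (f := fun z => -‖z - w‖) (by fun_prop) hEc
    (subset_closure hu) (by linarith) hwE.1 hwE.2
  set C := connectedComponentIn E w with hC
  have hCE : C ⊆ E := connectedComponentIn_subset _ _
  have hnear : ∀ z ∈ C, ‖z / w - 1‖ ≤ 1 - Real.exp (-η) := fun z hz => by
    rw [show z / w - 1 = (z - w) / w by field_simp, norm_div, div_le_iff₀ hw0]
    linarith [show -r ≤ -‖z - w‖ from (hCE hz).2]
  have hsl : ∀ z ∈ C, z / w ∈ slitPlane := fun z hz => by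
    have h1 := (abs_re_le_norm _).trans (hnear z hz)
    rw [sub_re, one_re, abs_le] at h1
    exact Or.inl (by linarith [h1.1, Real.exp_pos (-η)])
  have hexp : ∀ z ∈ C, w * cexp (log (z / w)) = z := fun z hz => by
    rw [exp_log (slitPlane_ne_zero (hsl z hz))]; field_simp
  have hcont : ContinuousOn (fun z => log (z / w)) C := (continuousOn_id.div_const w).clog hsl
  obtain ⟨D, hD⟩ := est2_cont hS ((isCompact_comp hEc hwE).image_of_continuousOn hcont)
    (isPreconnected_connectedComponentIn.image _ hcont)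
    ⟨_, ⟨v, hv, rfl⟩, _, ⟨w, mem_connectedComponentIn hwE, rfl⟩, fun e => by
      have h1 := hexp v hv
      rw [show log (v / w) = log (w / w) from e, hexp w (mem_connectedComponentIn hwE)] at h1
      rw [← h1] at hvr
      simp at hvr
      linarith⟩ (x := -η) (by
      rintro _ ⟨z, hz, rfl⟩
      rw [log_re, Real.le_log_iff_exp_le (norm_pos_iff.mpr (slitPlane_ne_zero (hsl z hz)))]
      have := norm_sub_norm_le 1 (z / w)
      rw [norm_sub_rev, norm_one] at this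
      linarith [hnear z hz]) η hη0
  refine ⟨D, fun P hP δ hδ hz p hp => ?_⟩
  have key := hD P.support (fun p => P.coeff p * w ^ p) δ hδ (fun p hp => Or.inr (hP p hp)) (by
    rintro _ ⟨z, hzC, rfl⟩
    have e : ev P.support (fun p => P.coeff p * w ^ p) (log (z / w)) = P.eval z := by
      rw [Polynomial.eval_eq_sum, Polynomial.sum_def, ev]
      refine Finset.sum_congr rfl fun p _ => ?_
      rw [exp_nat_mul, mul_assoc, ← mul_pow, hexp z hzC]
    rw [e]
    exact closure_minimal hz (isClosed_le P.continuous.norm continuous_const) (hCE hzC).1) p hp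
  rw [norm_mul, norm_pow, mul_assoc, Real.exp_nat_mul, ← mul_pow] at key
  have e : ‖w‖ * Real.exp (-η - η) = σ := by
    rw [show -η - η = -Real.log (‖w‖ / σ) by rw [hη]; ring, Real.exp_neg,
      Real.exp_log (by positivity)]
    field_simp
  rwa [e] at key

theorem disc_cont {S : Set ℕ} (hS : Summable (fun p : S => (1 : ℝ) / ((p : ℕ) : ℝ)))
    {K : Set ℂ} (hc : IsPreconnected K) (hn : K.Nontrivial) {w : ℂ} (hw : w ∈ K) {ρ : ℝ}
    (hρ : ρ < ‖w‖) : ∃ C : ℝ, ∀ P : Polynomial ℂ, (∀ p ∈ P.support, p ∈ S) →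
      ∀ δ : ℝ, (∀ z ∈ K, ‖P.eval z‖ ≤ δ) → ∀ z : ℂ, ‖z‖ ≤ ρ → ‖P.eval z‖ ≤ C * δ := by
  rcases lt_or_ge ρ 0 with h | hρ0
  · exact ⟨0, fun _ _ _ _ z hz => absurd ((norm_nonneg z).trans hz) h.not_ge⟩
  set σ := (ρ + ‖w‖) / 2 with hσ
  have hσ0 : 0 < σ := by linarith
  obtain ⟨D, hD⟩ := coef_cont hS hc hn hw hσ0 (by linarith)
  have hq0 : 0 ≤ ρ / σ := by positivity
  have hq1 : ρ / σ < 1 := (div_lt_one hσ0).mpr (by linarith)
  set C := |D| * (1 - ρ / σ)⁻¹ with hC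
  have hC0 : 0 ≤ C := mul_nonneg (abs_nonneg _) (inv_nonneg.mpr (by linarith))
  have key : ∀ P : Polynomial ℂ, (∀ p ∈ P.support, p ∈ S) → ∀ δ > 0,
      (∀ z ∈ K, ‖P.eval z‖ ≤ δ) → ∀ z : ℂ, ‖z‖ ≤ ρ → ‖P.eval z‖ ≤ C * δ := by
    intro P hP δ hδ hK z hz
    rw [Polynomial.eval_eq_sum, Polynomial.sum_def]
    refine (norm_sum_le_of_le _ (n := fun p => |D| * δ * (ρ / σ) ^ p) fun p hp => ?_).trans ?_
    · have h1 := (hD P hP δ hδ hK p hp).trans (mul_le_mul_of_nonneg_right (le_abs_self D) hδ.le)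
      rw [norm_mul, norm_pow]
      calc ‖P.coeff p‖ * ‖z‖ ^ p ≤ ‖P.coeff p‖ * ρ ^ p := by gcongr
        _ = ‖P.coeff p‖ * σ ^ p * (ρ / σ) ^ p := by
            rw [mul_assoc, ← mul_pow, mul_div_cancel₀ _ hσ0.ne']
        _ ≤ _ := by gcongr
    · rw [← Finset.mul_sum, hC, mul_right_comm]
      gcongr
      exact sum_le_hasSum _ (fun _ _ => by positivity) (hasSum_geometric_of_lt_one hq0 hq1)
  refine ⟨C, fun P hP δ hK z hz => le_of_forall_pos_le_add fun ε hε => ?_⟩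
  have hδ : 0 ≤ δ := (norm_nonneg _).trans (hK w hw)
  have h1 : 0 < ε / (C + 1) := by positivity
  refine (key P hP (δ + ε / (C + 1)) (by linarith) (fun z hz => by linarith [hK z hz]) z hz).trans ?_
  have h2 : C * (ε / (C + 1)) ≤ ε := by
    rw [← mul_div_assoc, div_le_iff₀ (by positivity)]; nlinarith
  linarith

end Pool.Agent.P.MP_c161d8_an
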