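import Mathlib

set_option autoImplicit false

namespace Pool.Agent.P.MP_c161d8_an

open Finset Complex

/-- The exponential sum with frequencies in `A` and coefficients `a`. -/
noncomputable def ev (A : Finset ℕ) (a : ℕ → ℂ) (s : ℂ) : ℂ :=
  ∑ p ∈ A, a p * cexp ((p : ℂ) * s)

/-- Generalised moments of a coefficient vector. -/
noncomputable def mom (A : Finset ℕ) (a : ℕ → ℂ) (T : Finset ℕ) : ℂ :=
  ∑ p ∈ A, a p * ∏ μ ∈ T, ((p : ℂ) - (μ : ℂ))

lemma hasDerivAt_ev (A : Finset ℕ) (a : ℕ → ℂ) (s : ℂ) :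
    HasDerivAt (ev A a) (ev A (fun p => a p * p) s) s := by
  unfold ev
  apply HasDerivAt.fun_sum
  intro p _
  have h := ((hasDerivAt_id s).const_mul (p : ℂ)).cexp.const_mul (a p)
  simp only [id, mul_one] at h
  exact h.congr_deriv (by ring)

lemma differentiable_ev (A : Finset ℕ) (a : ℕ → ℂ) : Differentiable ℂ (ev A a) :=
  fun s => (hasDerivAt_ev A a s).differentiableAt

lemma continuous_ev (A : Finset ℕ) (a : ℕ → ℂ) : Continuous (ev A a) :=
  (differentiable_ev A a).continuous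

lemma ev_shift (A : Finset ℕ) (a : ℕ → ℂ) (q s : ℂ) :
    ev A a (q + s) = ev A (fun p => a p * cexp ((p : ℂ) * q)) s := by
  unfold ev
  refine Finset.sum_congr rfl fun p _ => ?_
  rw [mul_add, Complex.exp_add]; ring

lemma ev_zero (A : Finset ℕ) (a : ℕ → ℂ) : ev A a 0 = ∑ p ∈ A, a p := by
  simp [ev]

lemma mom_empty (A : Finset ℕ) (a : ℕ → ℂ) : mom A a ∅ = ∑ p ∈ A, a p := by
  simp [mom]

lemma mom_insert (A : Finset ℕ) (a : ℕ → ℂ) (T : Finset ℕ) (μ : ℕ) (h : μ ∉ T) :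
    mom A a (insert μ T) = mom A (fun p => a p * ((p : ℂ) - μ)) T := by
  unfold mom
  refine Finset.sum_congr rfl fun p _ => ?_
  rw [Finset.prod_insert h]; ring

lemma ev_mul_sub (A : Finset ℕ) (a : ℕ → ℂ) (μ : ℕ) (s : ℂ) :
    ev A (fun p => a p * ((p : ℂ) - μ)) s = ev A (fun p => a p * p) s - μ * ev A a s := by
  unfold ev
  rw [Finset.mul_sum, ← Finset.sum_sub_distrib]
  refine Finset.sum_congr rfl fun p _ => ?_
  ring

/-- One Cauchy step. -/
lemma cauchy_step (A : Finset ℕ) (a : ℕ → ℂ) (μ : ℕ) {ε R Y N : ℝ} (hε : 0 < ε)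
    (hμ : (μ : ℝ) ≤ N) (hY : ∀ s : ℂ, ‖s‖ ≤ R + ε → ‖ev A a s‖ ≤ Y) (s : ℂ) (hs : ‖s‖ ≤ R) :
    ‖ev A (fun p => a p * ((p : ℂ) - μ)) s‖ ≤ Y * (1 / ε + N) := by
  rw [ev_mul_sub]
  have h1 : ‖ev A (fun p => a p * p) s‖ ≤ Y / ε := by
    rw [← (hasDerivAt_ev A a s).deriv]
    apply Complex.norm_deriv_le_of_forall_mem_sphere_norm_le hε
      (differentiable_ev A a).diffContOnCl
    intro z hz
    apply hY
    have : ‖z - s‖ = ε := by simpa [dist_eq_norm] using hz
    calc ‖z‖ = ‖s + (z - s)‖ := by ring_nf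
      _ ≤ ‖s‖ + ‖z - s‖ := norm_add_le _ _
      _ ≤ R + ε := by linarith
  have h2 : ‖ev A a s‖ ≤ Y := hY s (by linarith)
  have hY0 : 0 ≤ Y := (norm_nonneg _).trans h2
  calc ‖ev A (fun p => a p * p) s - μ * ev A a s‖
      ≤ ‖ev A (fun p => a p * p) s‖ + ‖(μ : ℂ) * ev A a s‖ := norm_sub_le _ _
    _ ≤ Y / ε + N * Y := by
        rw [norm_mul, Complex.norm_natCast]
        have : (μ : ℝ) * ‖ev A a s‖ ≤ N * Y :=
          mul_le_mul hμ h2 (norm_nonneg _) ((Nat.cast_nonneg μ).trans hμ)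
        linarith
    _ = Y * (1 / ε + N) := by ring

/-- Iterated Cauchy estimate: the operator `∏ (D - μ)` on a smaller disc. -/
lemma cauchy_ev (A : Finset ℕ) {ε N : ℝ} (hε : 0 < ε) (T : Finset ℕ) :
    ∀ (a : ℕ → ℂ) (R Y : ℝ), (∀ μ ∈ T, (μ : ℝ) ≤ N) →
      (∀ s : ℂ, ‖s‖ ≤ R + T.card * ε → ‖ev A a s‖ ≤ Y) →
      ∀ s : ℂ, ‖s‖ ≤ R →
        ‖ev A (fun p => a p * ∏ μ ∈ T, ((p : ℂ) - (μ : ℂ))) s‖ ≤ Y * (1 / ε + N) ^ T.card := by
  classical
  induction T using Finset.induction_on with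
  | empty =>
    intro a R Y _ hY s hs
    simpa using hY s (by simpa using hs)
  | insert μ T hμT ih =>
    intro a R Y hN hY s hs
    have h1 : ∀ s : ℂ, ‖s‖ ≤ R + T.card * ε →
        ‖ev A (fun p => a p * ((p : ℂ) - μ)) s‖ ≤ Y * (1 / ε + N) := by
      intro s hs
      apply cauchy_step A a μ hε (hN μ (Finset.mem_insert_self _ _)) _ s hs
      intro s hs
      apply hY
      rw [Finset.card_insert_of_notMem hμT]
      push_cast
      linarith
    have h2 := ih (fun p => a p * ((p : ℂ) - μ)) R _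
      (fun ν hν => hN ν (Finset.mem_insert_of_mem hν)) h1 s hs
    rw [Finset.card_insert_of_notMem hμT, pow_succ', ← mul_assoc]
    convert h2 using 3
    ext p
    rw [Finset.prod_insert hμT]; ring

lemma cauchy_mom (A : Finset ℕ) {ε N R Y : ℝ} (hε : 0 < ε) (T : Finset ℕ) (a : ℕ → ℂ)
    (hN : ∀ μ ∈ T, (μ : ℝ) ≤ N) (hR : T.card * ε ≤ R)
    (hY : ∀ s : ℂ, ‖s‖ ≤ R → ‖ev A a s‖ ≤ Y) :
    ‖mom A a T‖ ≤ Y * (1 / ε + N) ^ T.card := by
  have := cauchy_ev A hε T a 0 Y hN (fun s hs => hY s (by linarith)) 0 (by simp)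
  rwa [ev_zero] at this

/-- Inverting one factor `(D - l)` on sums with frequencies above the cut `c`. -/
lemma inverse_one (A H : Finset ℕ) (b : ℕ → ℂ) (hb : ∀ p ∈ A, p ∉ H → b p = 0) {c Y : ℝ}
    (hH : ∀ μ ∈ H, c < μ) (l : ℕ) (hl : (l : ℝ) < c)
    (hY : ∀ T ⊆ H, ‖mom A (fun p => b p * ((p : ℂ) - l)) T‖ ≤ Y * ∏ μ ∈ T, ((μ : ℝ) - c)) :
    ∀ T ⊆ H, ‖mom A b T‖ ≤ Y / (c - l) * ∏ μ ∈ T, ((μ : ℝ) - c) := by
  classical
  have hY0 : 0 ≤ Y := by simpa using (norm_nonneg _).trans (hY ∅ (Finset.empty_subset _))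
  have hcl : 0 < c - l := by linarith
  have key : ∀ n : ℕ, ∀ T ⊆ H, H.card - T.card = n →
      ‖mom A b T‖ ≤ Y / (c - l) * ∏ μ ∈ T, ((μ : ℝ) - c) := by
    intro n
    induction n with
    | zero =>
      intro T hT hn
      have hTH : T = H := Finset.eq_of_subset_of_card_le hT (by omega)
      subst hTH
      have : mom A b T = 0 := by
        unfold mom
        refine Finset.sum_eq_zero fun p hp => ?_
        by_cases h : p ∈ T
        · rw [Finset.prod_eq_zero h (by simp)]; simp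
        · simp [hb p hp h]
      rw [this, norm_zero]
      exact mul_nonneg (div_nonneg hY0 hcl.le)
        (Finset.prod_nonneg fun μ hμ => by linarith [hH μ hμ])
    | succ n ih =>
      intro T hT hn
      have hne : T ≠ H := by rintro rfl; omega
      obtain ⟨μ, hμH, hμT⟩ := Finset.exists_of_ssubset (Finset.ssubset_iff_subset_ne.2 ⟨hT, hne⟩)
      have hins : insert μ T ⊆ H := Finset.insert_subset hμH hT
      have h1 := ih (insert μ T) hins (by rw [Finset.card_insert_of_notMem hμT]; omega)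
      have h2 := hY T hT
      rw [Finset.prod_insert hμT] at h1
      have hid : ((μ : ℂ) - l) * mom A b T =
          mom A (fun p => b p * ((p : ℂ) - l)) T - mom A b (insert μ T) := by
        unfold mom
        rw [Finset.mul_sum, ← Finset.sum_sub_distrib]
        refine Finset.sum_congr rfl fun p _ => ?_
        rw [Finset.prod_insert hμT]; ring
      have hμc := hH μ hμH
      have hpos : (0 : ℝ) < μ - l := by linarith
      have hnorm : ‖((μ : ℂ) - l)‖ = (μ : ℝ) - l := by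
        have : ((μ : ℂ) - l) = (((μ : ℝ) - l : ℝ) : ℂ) := by push_cast; ring
        rw [this, Complex.norm_real, Real.norm_of_nonneg hpos.le]
      have h3 : ((μ : ℝ) - l) * ‖mom A b T‖ ≤
          Y * ∏ μ ∈ T, ((μ : ℝ) - c) + Y / (c - l) * (((μ : ℝ) - c) * ∏ μ ∈ T, ((μ : ℝ) - c)) := by
        rw [← hnorm, ← norm_mul, hid]
        exact (norm_sub_le _ _).trans (add_le_add h2 h1)
      have h4 : Y * ∏ μ ∈ T, ((μ : ℝ) - c) +
          Y / (c - l) * (((μ : ℝ) - c) * ∏ μ ∈ T, ((μ : ℝ) - c)) =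
          ((μ : ℝ) - l) * (Y / (c - l) * ∏ μ ∈ T, ((μ : ℝ) - c)) := by
        field_simp
        ring
      rw [h4] at h3
      exact le_of_mul_le_mul_left h3 hpos
  intro T hT
  exact key _ T hT rfl

/-- Inverting all the factors below the cut. -/
lemma inverse_all (A H : Finset ℕ) {c : ℝ} (hH : ∀ μ ∈ H, c < μ) (L : Finset ℕ) :
    ∀ (b : ℕ → ℂ) (Y : ℝ), (∀ p ∈ A, p ∉ H → b p = 0) → (∀ l ∈ L, (l : ℝ) < c) →
    (∀ T ⊆ H, ‖mom A (fun p => b p * ∏ l ∈ L, ((p : ℂ) - l)) T‖ ≤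
      Y * ∏ μ ∈ T, ((μ : ℝ) - c)) →
    ∀ T ⊆ H, ‖mom A b T‖ ≤ Y / (∏ l ∈ L, (c - l)) * ∏ μ ∈ T, ((μ : ℝ) - c) := by
  classical
  induction L using Finset.induction_on with
  | empty =>
    intro b Y _ _ h T hT
    simpa using h T hT
  | insert l L hlL ih =>
    intro b Y hb hL h T hT
    have h1 := ih (fun p => b p * ((p : ℂ) - l)) Y
      (fun p hp hpH => by simp [hb p hp hpH])
      (fun l' hl' => hL l' (Finset.mem_insert_of_mem hl'))
      (by
        intro T hT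
        convert h T hT using 3
        ext p
        rw [Finset.prod_insert hlL]; ring)
    have h2 := inverse_one A H b hb hH l (hL l (Finset.mem_insert_self _ _)) h1 T hT
    rw [Finset.prod_insert hlL]
    convert h2 using 2
    rw [div_div, mul_comm]

/-- Propagation: moment bounds give bounds for the exponential sum everywhere. -/
lemma propagate (A : Finset ℕ) {B κ : ℝ} (hκ : 0 < κ) (hκ1 : κ ≤ 1)
    (H : Finset ℕ) :
    ∀ (b : ℕ → ℂ) (Y : ℝ), (∀ p ∈ A, p ∉ H → b p = 0) →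
    (∀ T ⊆ H, ‖mom A b T‖ ≤ Y * B ^ T.card) →
    ∀ (s : ℂ) (ω : ℝ), (∀ p ∈ H, (p : ℝ) * s.re ≤ ω) →
      ‖ev A b s‖ ≤ Y * κ⁻¹ ^ H.card * Real.exp (ω + κ * B * ‖s‖) := by
  classical
  induction H using Finset.induction_on with
  | empty =>
    intro b Y hb h s ω _
    have hY0 : 0 ≤ Y := by simpa using (norm_nonneg _).trans (h ∅ (Finset.empty_subset _))
    have : ev A b s = 0 := by
      unfold ev
      exact Finset.sum_eq_zero fun p hp => by simp [hb p hp (by simp)]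
    rw [this, norm_zero]
    positivity
  | insert μ H hμH ih =>
    intro b Y hb h s ω hω
    have hY0 : 0 ≤ Y := by simpa using (norm_nonneg _).trans (h ∅ (Finset.empty_subset _))
    set b' : ℕ → ℂ := fun p => b p * ((p : ℂ) - μ) with hb'
    have ih' := ih b' (Y * B)
      (by
        intro p hp hpH
        by_cases hpμ : p = μ
        · simp [hb', hpμ]
        · simp [hb', hb p hp (by simp [hpμ, hpH])])
      (by
        intro T hT
        have hμT : μ ∉ T := fun h => hμH (hT h)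
        have := h (insert μ T) (Finset.insert_subset_insert μ hT)
        rw [mom_insert A b T μ hμT, Finset.card_insert_of_notMem hμT, pow_succ'] at this
        rw [mul_assoc]; exact this)
    set n := H.card with hn
    set lam : ℝ := ω - μ * s.re + κ * B * ‖s‖ with hlam
    have hωμ : (μ : ℝ) * s.re ≤ ω := hω μ (Finset.mem_insert_self _ _)
    let ψ : ℝ → ℂ := fun τ => cexp (-((μ : ℂ) * ((τ : ℂ) * s))) * ev A b ((τ : ℂ) * s)
    let ψ' : ℝ → ℂ := fun τ => cexp (-((μ : ℂ) * ((τ : ℂ) * s))) * s * ev A b' ((τ : ℂ) * s)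
    have hψ : ∀ τ : ℝ, HasDerivAt ψ (ψ' τ) τ := by
      intro τ
      have h0 : HasDerivAt (fun z : ℂ => z * s) s (τ : ℂ) := by
        simpa using (hasDerivAt_id (τ : ℂ)).mul_const s
      have h1 := ((h0.const_mul (μ : ℂ)).neg).cexp
      have h2 := (hasDerivAt_ev A b ((τ : ℂ) * s)).comp (τ : ℂ) h0
      have h3 := (h1.mul h2).comp_ofReal
      refine HasDerivAt.congr_deriv (f := ψ) h3 ?_
      simp only [ψ', hb', ev_mul_sub, Function.comp, Pi.neg_apply]
      ring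
    let Bf : ℝ → ℝ := fun τ => Y * κ⁻¹ ^ (n + 1) * Real.exp (τ * lam)
    let Bf' : ℝ → ℝ := fun τ => Y * κ⁻¹ ^ (n + 1) * (Real.exp (τ * lam) * lam)
    have hBf : ∀ τ : ℝ, HasDerivAt Bf (Bf' τ) τ := by
      intro τ
      have h0 : HasDerivAt (fun x : ℝ => x * lam) lam τ := by
        simpa using (hasDerivAt_id τ).mul_const lam
      exact h0.exp.const_mul _
    have hκinv : 1 ≤ κ⁻¹ := one_le_inv_iff₀.2 ⟨hκ, hκ1⟩
    have hfin : ‖ψ 1‖ ≤ Bf 1 := by
      refine image_norm_le_of_norm_deriv_right_le_deriv_boundary (a := 0) (b := 1) (f' := ψ')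
        (fun τ _ => (hψ τ).continuousAt.continuousWithinAt)
        (fun τ _ => (hψ τ).hasDerivWithinAt) ?_ hBf ?_ (by simp)
      · have h0 := h ∅ (Finset.empty_subset _)
        simp only [mom_empty, Finset.card_empty, pow_zero, mul_one] at h0
        simp only [ψ, Bf, ofReal_zero, zero_mul, mul_zero, neg_zero, Complex.exp_zero, one_mul,
          ev_zero, Real.exp_zero, mul_one]
        exact h0.trans (le_mul_of_one_le_right hY0 (one_le_pow₀ hκinv))
      · intro τ hτ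
        have hτ0 : 0 ≤ τ := hτ.1
        have h1 := ih' ((τ : ℂ) * s) (τ * ω) (by
          intro p hp
          have := hω p (Finset.mem_insert_of_mem hp)
          simp only [mul_re, ofReal_re, ofReal_im, zero_mul, sub_zero]
          nlinarith)
        have hns : ‖(τ : ℂ) * s‖ = τ * ‖s‖ := by
          rw [norm_mul, Complex.norm_real, Real.norm_of_nonneg hτ0]
        rw [hns] at h1
        have hexp : ‖cexp (-((μ : ℂ) * ((τ : ℂ) * s)))‖ = Real.exp (-(μ * (τ * s.re))) := by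
          rw [Complex.norm_exp]; simp
        simp only [ψ', Bf']
        rw [norm_mul, norm_mul, hexp]
        have hE : Real.exp (-(μ * (τ * s.re))) * Real.exp (τ * ω + κ * B * (τ * ‖s‖)) =
            Real.exp (τ * lam) := by
          rw [← Real.exp_add, hlam]; ring_nf
        have hlam' : κ * B * ‖s‖ ≤ lam := by rw [hlam]; linarith
        calc Real.exp (-(μ * (τ * s.re))) * ‖s‖ * ‖ev A b' ((τ : ℂ) * s)‖
            ≤ Real.exp (-(μ * (τ * s.re))) * ‖s‖ *
              (Y * B * κ⁻¹ ^ n * Real.exp (τ * ω + κ * B * (τ * ‖s‖))) := by gcongr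
          _ = Y * κ⁻¹ ^ (n + 1) * ((Real.exp (-(μ * (τ * s.re))) *
              Real.exp (τ * ω + κ * B * (τ * ‖s‖))) * (κ * B * ‖s‖)) := by
              rw [pow_succ]; field_simp
          _ ≤ Y * κ⁻¹ ^ (n + 1) * (Real.exp (τ * lam) * lam) := by
              rw [hE]; gcongr
    simp only [ψ, Bf, ofReal_one, one_mul] at hfin
    rw [norm_mul, Complex.norm_exp] at hfin
    rw [Finset.card_insert_of_notMem hμH]
    have hE : Real.exp (ω + κ * B * ‖s‖) = Real.exp lam / Real.exp ((-((μ : ℂ) * s)).re) := by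
      rw [← Real.exp_sub, hlam]; simp; ring_nf
    rw [hE, ← mul_div_assoc, le_div_iff₀ (Real.exp_pos _), mul_comm]
    exact hfin

/-- Growth of an exponential sum away from a disc on which it is bounded. -/
lemma growth (A : Finset ℕ) (a : ℕ → ℂ) (q : ℂ) {r N Y κ : ℝ} {K : ℕ} (hr : 0 < r)
    (hK : A.card ≤ K) (hK1 : 1 ≤ K) (hN : ∀ p ∈ A, (p : ℝ) ≤ N)
    (hκ : 0 < κ) (hκ1 : κ ≤ 1)
    (hY : ∀ s : ℂ, ‖s‖ ≤ r → ‖ev A a (q + s)‖ ≤ Y) (s : ℂ) (ω : ℝ)
    (hω : ∀ p ∈ A, (p : ℝ) * s.re ≤ ω) :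
    ‖ev A a (q + s)‖ ≤ Y * κ⁻¹ ^ K * Real.exp (ω + κ * (K / r + N) * ‖s‖) := by
  simp only [ev_shift] at hY ⊢
  have hK0 : (0 : ℝ) < K := by exact_mod_cast hK1
  have hY0 : 0 ≤ Y := (norm_nonneg _).trans (hY 0 (by simpa using hr.le))
  have h := propagate A (B := K / r + N) hκ hκ1 A (fun p => a p * cexp ((p : ℂ) * q)) Y
    (fun p hp hp' => absurd hp hp')
    (by
      intro T hT
      have := cauchy_mom A (ε := r / K) (N := N) (R := r) (div_pos hr hK0) T _
        (fun μ hμ => hN μ (hT hμ))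
        (by
          have : (T.card : ℝ) ≤ K := by exact_mod_cast (Finset.card_le_card hT).trans hK
          rw [← mul_div_assoc, div_le_iff₀ hK0]; nlinarith) hY
      simpa using this) s ω hω
  refine h.trans ?_
  have hκinv : 1 ≤ κ⁻¹ := one_le_inv_iff₀.2 ⟨hκ, hκ1⟩
  gcongr

/-- Extraction of the part of an exponential sum above a cut `c`. -/
lemma extract_high (A : Finset ℕ) (a : ℕ → ℂ) (q : ℂ) {r N Y κ c D : ℝ} {K : ℕ} (hr : 0 < r)
    (hK : A.card ≤ K) (hK1 : 1 ≤ K) (hN : ∀ p ∈ A, (p : ℝ) ≤ N) (hN0 : 0 ≤ N)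
    (hκ : 0 < κ) (hκ1 : κ ≤ 1) (hc0 : 0 ≤ c) (hD : 0 < D) (hDN : D ≤ K / r + N)
    (hc : D ^ A.card ≤ ∏ l ∈ A, |c - l|)
    (hY : ∀ s : ℂ, ‖s‖ ≤ r → ‖ev A a (q + s)‖ ≤ Y) (s : ℂ) (ω : ℝ)
    (hω : ∀ p ∈ A, c < p → (p : ℝ) * s.re ≤ ω) :
    ‖ev (A.filter fun p => c < p) a (q + s)‖ ≤
      Y * ((K / r + N) / D) ^ K * κ⁻¹ ^ K * Real.exp (ω + κ * N * ‖s‖) := by
  classical
  simp only [ev_shift] at hY ⊢
  set a' : ℕ → ℂ := fun p => a p * cexp ((p : ℂ) * q) with ha'
  set B : ℝ := K / r + N with hB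
  have hK0 : (0 : ℝ) < K := by exact_mod_cast hK1
  have hY0 : 0 ≤ Y := (norm_nonneg _).trans (hY 0 (by simpa using hr.le))
  have hB0 : 0 < B := by rw [hB]; positivity
  have hNB : N ≤ B := by rw [hB]; have := div_pos hK0 hr; linarith
  set H := A.filter fun p : ℕ => c < p with hH
  set L := A.filter fun p : ℕ => ¬ c < p with hL
  have hne : ∀ l ∈ A, c ≠ l := by
    intro l hl h
    have : ∏ l ∈ A, |c - l| = 0 := Finset.prod_eq_zero hl (by simp [h])
    rw [this] at hc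
    exact absurd hc (not_le.2 (pow_pos hD _))
  have hLc : ∀ l ∈ L, (l : ℝ) < c := by
    intro l hl
    rw [hL, Finset.mem_filter] at hl
    exact lt_of_le_of_ne (not_lt.1 hl.2) (hne l hl.1).symm
  have hHc : ∀ μ ∈ H, c < μ := fun μ hμ => (Finset.mem_filter.1 hμ).2
  let b : ℕ → ℂ := fun p => if c < p then a' p else 0
  have hb : ∀ p ∈ A, p ∉ H → b p = 0 := by
    intro p hp hpH
    have : ¬ c < p := fun h => hpH (Finset.mem_filter.2 ⟨hp, h⟩)
    simp [b, this]
  have hev : ev H a' s = ev A b s := by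
    unfold ev
    rw [hH, Finset.sum_filter]
    refine Finset.sum_congr rfl fun p _ => ?_
    by_cases h : c < p <;> simp [b, h]
  have hdisj : ∀ T ⊆ H, Disjoint L T := by
    intro T hT
    rw [Finset.disjoint_left]
    intro x hxL hxT
    exact absurd (hHc x (hT hxT)) (not_lt.2 (hLc x hxL).le)
  have h1 : ∀ T ⊆ H, ‖mom A (fun p => b p * ∏ l ∈ L, ((p : ℂ) - l)) T‖ ≤
      (Y * B ^ L.card * ∏ μ ∈ H, (B / ((μ : ℝ) - c))) * ∏ μ ∈ T, ((μ : ℝ) - c) := by
    intro T hT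
    have e1 : mom A (fun p => b p * ∏ l ∈ L, ((p : ℂ) - l)) T = mom A a' (L ∪ T) := by
      unfold mom
      refine Finset.sum_congr rfl fun p hp => ?_
      rw [Finset.prod_union (hdisj T hT)]
      by_cases h : c < p
      · simp [b, h, mul_assoc]
      · have hpL : p ∈ L := Finset.mem_filter.2 ⟨hp, h⟩
        have : ∏ l ∈ L, ((p : ℂ) - l) = 0 := Finset.prod_eq_zero hpL (by simp)
        simp [this]
    have hsub : L ∪ T ⊆ A := Finset.union_subset (Finset.filter_subset _ _)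
      (hT.trans (Finset.filter_subset _ _))
    have e2 := cauchy_mom A (ε := r / K) (N := N) (R := r) (div_pos hr hK0) (L ∪ T) a'
        (fun μ hμ => hN μ (hsub hμ))
        (by
          have : ((L ∪ T).card : ℝ) ≤ K := by exact_mod_cast (Finset.card_le_card hsub).trans hK
          rw [← mul_div_assoc, div_le_iff₀ hK0]; nlinarith) hY
    rw [e1]
    refine e2.trans ?_
    rw [one_div_div, ← hB, Finset.card_union_of_disjoint (hdisj T hT), pow_add]
    have e3 : B ^ T.card = (∏ μ ∈ T, (B / ((μ : ℝ) - c))) * ∏ μ ∈ T, ((μ : ℝ) - c) := by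
      rw [← Finset.prod_mul_distrib, ← Finset.prod_const]
      refine Finset.prod_congr rfl fun μ hμ => ?_
      have := hHc μ (hT hμ)
      have : (μ : ℝ) - c ≠ 0 := by linarith
      field_simp
    have e4 : (∏ μ ∈ T, (B / ((μ : ℝ) - c))) ≤ ∏ μ ∈ H, (B / ((μ : ℝ) - c)) := by
      apply Finset.prod_le_prod_of_subset_of_one_le hT
      · intro μ hμ
        have := hHc μ (hT hμ)
        exact div_nonneg hB0.le (by linarith)
      · intro μ hμ _
        have h1 := hHc μ hμ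
        have h2 := hN μ (Finset.mem_filter.1 hμ).1
        rw [le_div_iff₀ (by linarith)]; linarith
    have e5 : 0 ≤ ∏ μ ∈ T, ((μ : ℝ) - c) :=
      Finset.prod_nonneg fun μ hμ => by linarith [hHc μ (hT hμ)]
    rw [e3]
    calc Y * (B ^ L.card * ((∏ μ ∈ T, (B / ((μ : ℝ) - c))) * ∏ μ ∈ T, ((μ : ℝ) - c)))
        ≤ Y * (B ^ L.card * ((∏ μ ∈ H, (B / ((μ : ℝ) - c))) * ∏ μ ∈ T, ((μ : ℝ) - c))) := by
          gcongr
      _ = _ := by ring
  have h2 := inverse_all A H hHc L b _ hb hLc h1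
  have hval : (Y * B ^ L.card * ∏ μ ∈ H, (B / ((μ : ℝ) - c))) / ∏ l ∈ L, (c - l) =
      Y * (B ^ A.card / ∏ l ∈ A, |c - l|) := by
    have e1 : ∏ l ∈ A, |c - l| = (∏ μ ∈ H, ((μ : ℝ) - c)) * ∏ l ∈ L, (c - l) := by
      rw [← Finset.prod_filter_mul_prod_filter_not A (fun p : ℕ => c < p)]
      congr 1
      · refine Finset.prod_congr rfl fun μ hμ => ?_
        rw [abs_sub_comm, abs_of_pos (by linarith [hHc μ hμ])]
      · refine Finset.prod_congr rfl fun l hl => ?_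
        rw [abs_of_pos (by linarith [hLc l hl])]
    have e2 : A.card = H.card + L.card := (Finset.card_filter_add_card_filter_not _).symm
    rw [e1, e2, Finset.prod_div_distrib, Finset.prod_const, pow_add]
    have : ∏ μ ∈ H, ((μ : ℝ) - c) ≠ 0 :=
      Finset.prod_ne_zero_iff.2 fun μ hμ => by linarith [hHc μ hμ]
    have : ∏ l ∈ L, (c - l) ≠ 0 :=
      Finset.prod_ne_zero_iff.2 fun l hl => by linarith [hLc l hl]
    field_simp
  have hBD : 1 ≤ B / D := by rw [le_div_iff₀ hD]; linarith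
  have hval2 : B ^ A.card / ∏ l ∈ A, |c - l| ≤ (B / D) ^ K := by
    calc B ^ A.card / ∏ l ∈ A, |c - l| ≤ B ^ A.card / D ^ A.card := by gcongr
      _ = (B / D) ^ A.card := by rw [div_pow]
      _ ≤ (B / D) ^ K := pow_le_pow_right₀ hBD hK
  have h3 : ∀ T ⊆ H, ‖mom A b T‖ ≤ (Y * (B / D) ^ K) * N ^ T.card := by
    intro T hT
    refine (h2 T hT).trans ?_
    rw [hval]
    have e5 : ∏ μ ∈ T, ((μ : ℝ) - c) ≤ N ^ T.card := by
      rw [← Finset.prod_const]
      apply Finset.prod_le_prod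
      · intro μ hμ; linarith [hHc μ (hT hμ)]
      · intro μ hμ; linarith [hN μ (Finset.mem_filter.1 (hT hμ)).1]
    have e6 : 0 ≤ ∏ μ ∈ T, ((μ : ℝ) - c) :=
      Finset.prod_nonneg fun μ hμ => by linarith [hHc μ (hT hμ)]
    gcongr
  have h4 := propagate A hκ hκ1 H b _ hb h3 s ω
    (fun p hp => hω p (Finset.mem_filter.1 hp).1 (hHc p hp))
  rw [hev]
  refine h4.trans ?_
  have hκinv : 1 ≤ κ⁻¹ := one_le_inv_iff₀.2 ⟨hκ, hκ1⟩
  have : H.card ≤ K := (Finset.card_le_card (Finset.filter_subset _ _)).trans hK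
  gcongr

/-- The constant term is controlled by the maximum on a disc. -/
lemma const_term (A : Finset ℕ) (a : ℕ → ℂ) (q : ℂ) {r N Y : ℝ} {K : ℕ} (hr : 0 < r)
    (hK : A.card ≤ K) (hK1 : 1 ≤ K) (hN : ∀ p ∈ A, (p : ℝ) ≤ N) (hN1 : 1 ≤ N) (h0 : 0 ∈ A)
    (hY : ∀ s : ℂ, ‖s‖ ≤ r → ‖ev A a (q + s)‖ ≤ Y) :
    ‖a 0‖ ≤ Y * (K / r + N) ^ K := by
  classical
  simp only [ev_shift] at hY
  have hK0 : (0 : ℝ) < K := by exact_mod_cast hK1
  have hY0 : 0 ≤ Y := (norm_nonneg _).trans (hY 0 (by simpa using hr.le))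
  have hsub : A.erase 0 ⊆ A := Finset.erase_subset _ _
  have e2 := cauchy_mom A (ε := r / K) (N := N) (R := r) (div_pos hr hK0) (A.erase 0) _
        (fun μ hμ => hN μ (hsub hμ))
        (by
          have : ((A.erase 0).card : ℝ) ≤ K := by
            exact_mod_cast (Finset.card_le_card hsub).trans hK
          rw [← mul_div_assoc, div_le_iff₀ hK0]; nlinarith) hY
  have e1 : mom A (fun p => a p * cexp ((p : ℂ) * q)) (A.erase 0) =
      a 0 * ∏ μ ∈ A.erase 0, (-(μ : ℂ)) := by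
    unfold mom
    rw [Finset.sum_eq_single 0]
    · simp
    · intro p hp hp0
      rw [Finset.prod_eq_zero (Finset.mem_erase.2 ⟨hp0, hp⟩) (by simp)]; simp
    · intro h; exact absurd h0 h
  rw [e1, norm_mul, one_div_div] at e2
  have e3 : 1 ≤ ‖∏ μ ∈ A.erase 0, (-(μ : ℂ))‖ := by
    rw [norm_prod]
    apply Finset.one_le_prod
    intro μ hμ
    have : 1 ≤ μ := Nat.one_le_iff_ne_zero.2 (Finset.mem_erase.1 hμ).1
    simpa using this
  have hB1 : 1 ≤ K / r + N := by have := div_pos hK0 hr; linarith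
  calc ‖a 0‖ ≤ ‖a 0‖ * ‖∏ μ ∈ A.erase 0, (-(μ : ℂ))‖ := le_mul_of_one_le_right (norm_nonneg _) e3
    _ ≤ Y * (K / r + N) ^ (A.erase 0).card := e2
    _ ≤ Y * (K / r + N) ^ K := by
        gcongr
        exact (Finset.card_le_card hsub).trans hK

end Pool.Agent.P.MP_c161d8_an
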