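import Pool.Agent.P.MP_c161d8_an.Rect

set_option autoImplicit false

namespace Pool.Agent.P.MP_c161d8_an

open Finset Complex

/-- From the estimate in logarithmic coordinates to non-density. -/
lemma ne_top_of_est {S : Set ℕ} (hS0 : ∀ p ∈ S, 0 < p) (f : C(unitInterval, ℂ)) {Γ : Set ℂ}
    {z0 : ℂ} (hΓ : ∀ w ∈ Γ, ∃ t, f t = z0 * cexp w) (h : Est S Γ) :
    (Submodule.span ℂ (Set.range (fun p : S => f ^ (p : ℕ)))).topologicalClosure ≠ ⊤ := by
  classical
  intro htop
  obtain ⟨C, hC⟩ := h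
  have h1 : (1 : C(unitInterval, ℂ)) ∈
      closure ((Submodule.span ℂ (Set.range (fun p : S => f ^ (p : ℕ))) : Submodule ℂ _) :
        Set C(unitInterval, ℂ)) := by
    rw [← Submodule.topologicalClosure_coe, htop]; trivial
  set δ : ℝ := 1 / (|C| + 1) with hδ
  have hδ0 : 0 < δ := by positivity
  obtain ⟨g, hg, hdist⟩ := Metric.mem_closure_iff.1 h1 δ hδ0
  obtain ⟨c, hc⟩ := Finsupp.mem_span_range_iff_exists_finsupp.1 hg
  let F' : Finset ℕ := c.support.map (Function.Embedding.subtype _)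
  have hF' : ∀ p ∈ F', p ∈ S := by
    intro p hp
    obtain ⟨q, _, rfl⟩ := Finset.mem_map.1 hp
    exact q.2
  have h0F' : 0 ∉ F' := fun h => absurd (hS0 0 (hF' 0 h)) (lt_irrefl 0)
  let a : ℕ → ℂ := fun p => if h : p ∈ S then -(c ⟨p, h⟩ * z0 ^ p) else 1
  have ha0 : a 0 = 1 := dif_neg fun h => absurd (hS0 0 h) (lt_irrefl 0)
  have key := hC (insert 0 F') a δ hδ0 (Finset.mem_insert_self _ _)
    (fun p hp => (Finset.mem_insert.1 hp).imp id (hF' p))
    (by
      intro w hw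
      obtain ⟨t, ht⟩ := hΓ w hw
      have e1 : ev (insert 0 F') a w = (1 - g) t := by
        unfold ev
        rw [Finset.sum_insert h0F', ha0, Finset.sum_map, ← hc]
        simp only [Nat.cast_zero, zero_mul, Complex.exp_zero, mul_one, Finsupp.sum,
          ContinuousMap.sub_apply, ContinuousMap.one_apply, ContinuousMap.coe_sum,
          Finset.sum_apply, ContinuousMap.smul_apply, ContinuousMap.pow_apply, smul_eq_mul,
          Function.Embedding.coe_subtype]
        rw [sub_eq_add_neg, ← Finset.sum_neg_distrib]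
        congr 1
        refine Finset.sum_congr rfl fun q _ => ?_
        simp only [a, dif_pos q.2, ht, mul_pow, ← Complex.exp_nat_mul]
        ring
      rw [e1]
      rw [dist_eq_norm] at hdist
      exact ((1 - g).norm_coe_le_norm t).trans hdist.le)
  rw [ha0, norm_one, hδ] at key
  have h2 : C * (1 / (|C| + 1)) < 1 := by
    rw [mul_one_div, div_lt_one (by positivity)]
    linarith [le_abs_self C]
  linarith

lemma log_lipschitz {z z' : ℂ} (hz : ‖z - 1‖ ≤ 1 / 2) (hz' : ‖z' - 1‖ ≤ 1 / 2) :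
    ‖Complex.log z - Complex.log z'‖ ≤ 2 * ‖z - z'‖ := by
  have hsl : ∀ x ∈ Metric.closedBall (1 : ℂ) (1 / 2), x ∈ slitPlane ∧ 1 / 2 ≤ ‖x‖ := by
    intro x hx
    rw [mem_closedBall_iff_norm] at hx
    have h1 : |(x - 1).re| ≤ 1 / 2 := (abs_re_le_norm _).trans hx
    rw [sub_re, one_re, abs_le] at h1
    exact ⟨Or.inl (by linarith [h1.1]), by linarith [re_le_norm x, h1.1]⟩
  refine (convex_closedBall (1 : ℂ) (1 / 2)).norm_image_sub_le_of_norm_hasDerivWithin_le
    (f := Complex.log) (f' := fun x => x⁻¹)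
    (fun x hx => (Complex.hasDerivAt_log (hsl x hx).1).hasDerivWithinAt) ?_
    (mem_closedBall_iff_norm.2 hz') (mem_closedBall_iff_norm.2 hz)
  intro x hx
  rw [norm_inv]
  have := (hsl x hx).2
  rw [inv_le_comm₀ (by linarith) (by norm_num)]
  linarith

/-- A logarithmic chart of a piece of the arc. -/
lemma exists_chart (f : C(unitInterval, ℂ)) (hf : Function.Injective f) {a b : unitInterval}
    (hab : a < b) :
    ∃ (α β : ℝ) (z0 : ℂ) (w : ℝ → ℂ), (a : ℝ) ≤ α ∧ α < β ∧ β ≤ b ∧ z0 ≠ 0 ∧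
      ContinuousOn w (Set.Icc α β) ∧
      (∀ t ∈ Set.Icc α β, f (Set.projIcc 0 1 zero_le_one t) = z0 * cexp (w t)) ∧
      (∀ s ∈ Set.Icc α β, ∀ t ∈ Set.Icc α β, ‖w t - w s‖ ≤ 2 / ‖z0‖ *
        ‖f (Set.projIcc 0 1 zero_le_one t) - f (Set.projIcc 0 1 zero_le_one s)‖) := by
  have hab' : (a : ℝ) < b := hab
  set F : ℝ → ℂ := fun t => f (Set.projIcc 0 1 zero_le_one t) with hF
  have hFc : Continuous F := f.continuous.comp continuous_projIcc
  obtain ⟨t0, ht0a, ht0b, ht0⟩ : ∃ t0 : ℝ, (a : ℝ) ≤ t0 ∧ t0 < b ∧ F t0 ≠ 0 := by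
    by_cases h : F a = 0
    · refine ⟨(a + b) / 2, by linarith, by linarith, fun h' => ?_⟩
      have h1 := hf (h.trans h'.symm)
      have h2 := congrArg Subtype.val h1
      rw [Set.projIcc_of_mem _ a.2, Set.projIcc_of_mem _
        (show ((a : ℝ) + b) / 2 ∈ Set.Icc (0 : ℝ) 1 from
          ⟨by linarith [a.2.1, b.2.1], by linarith [a.2.2, b.2.2]⟩)] at h2
      simp only at h2
      linarith
    · exact ⟨a, le_rfl, hab', h⟩
  have hpos : 0 < ‖F t0‖ := norm_pos_iff.2 ht0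
  obtain ⟨d, hd, hdF⟩ := Metric.continuousAt_iff.1 (hFc.continuousAt (x := t0)) (‖F t0‖ / 2)
    (by positivity)
  set β := min (b : ℝ) (t0 + d / 2) with hβ
  have hβ1 : t0 < β := lt_min ht0b (by linarith)
  have hβ2 : β ≤ t0 + d / 2 := min_le_right _ _
  have hnear : ∀ t ∈ Set.Icc t0 β, ‖F t / F t0 - 1‖ ≤ 1 / 2 := by
    intro t ht
    have h1 := hdF (x := t) (by rw [Real.dist_eq, abs_lt]; constructor <;> linarith [ht.1, ht.2])
    rw [dist_eq_norm] at h1
    have : F t / F t0 - 1 = (F t - F t0) / F t0 := by field_simp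
    rw [this, norm_div, div_le_iff₀ hpos]
    linarith
  have hsl : ∀ t ∈ Set.Icc t0 β, F t / F t0 ∈ slitPlane := by
    intro t ht
    have h1 : |(F t / F t0 - 1).re| ≤ 1 / 2 := (abs_re_le_norm _).trans (hnear t ht)
    rw [sub_re, one_re, abs_le] at h1
    exact Or.inl (by linarith [h1.1])
  refine ⟨t0, β, F t0, fun t => Complex.log (F t / F t0), ht0a, hβ1, min_le_left _ _, ht0,
    ?_, ?_, ?_⟩
  · exact (hFc.continuousOn.div_const _).clog hsl
  · intro t ht
    rw [Complex.exp_log (slitPlane_ne_zero (hsl t ht))]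
    change F t = _
    field_simp
  · intro s hs t ht
    refine (log_lipschitz (hnear t ht) (hnear s hs)).trans (le_of_eq ?_)
    rw [← sub_div, norm_div]
    change _ = 2 / ‖F t0‖ * ‖F t - F s‖
    ring

theorem main_rect (S : Set ℕ) (hS0 : ∀ p ∈ S, 0 < p)
    (hS : Summable (fun p : S => (1 : ℝ) / ((p : ℕ) : ℝ)))
    (f : C(unitInterval, ℂ)) (hf : Function.Injective f)
    (hbv : ∃ a b : unitInterval, a < b ∧ BoundedVariationOn f (Set.Icc a b)) :
    (Submodule.span ℂ (Set.range (fun p : S => f ^ (p : ℕ)))).topologicalClosure ≠ ⊤ := by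
  obtain ⟨a, b, hab, hbv⟩ := hbv
  obtain ⟨α, β, z0, w, haα, hαβ, hβb, hz0, hw, hfw, hlip⟩ := exists_chart f hf hab
  set π : ℝ → unitInterval := Set.projIcc 0 1 zero_le_one with hπ
  have hI : ∀ t ∈ Set.Icc α β, t ∈ Set.Icc (0 : ℝ) 1 := fun t ht =>
    ⟨by linarith [a.2.1, ht.1], by linarith [b.2.2, ht.2]⟩
  have hπval : ∀ t ∈ Set.Icc α β, (π t : ℝ) = t := fun t ht => by
    rw [hπ, Set.projIcc_of_mem _ (hI t ht)]
  have hπI : ∀ t ∈ Set.Icc α β, π t ∈ Set.Icc a b := fun t ht =>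
    ⟨by change (a : ℝ) ≤ π t; rw [hπval t ht]; linarith [ht.1],
      by change (π t : ℝ) ≤ b; rw [hπval t ht]; linarith [ht.2]⟩
  have haI : a ∈ Set.Icc a b := ⟨le_rfl, hab.le⟩
  have hest := est_of_bv hS hαβ hw
    (v := fun t => 2 / ‖z0‖ * variationOnFromTo f (Set.Icc a b) a (π t))
    (by
      intro s hs t ht hst
      refine (hlip s hs t ht).trans ?_
      rw [← mul_sub]
      refine mul_le_mul_of_nonneg_left ?_ (by positivity)
      have hst' : π s ≤ π t := Set.monotone_projIcc _ hst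
      rw [variationOnFromTo.sub_right hbv.locallyBoundedVariationOn haI (hπI t ht) (hπI s hs),
        variationOnFromTo.eq_of_le _ _ hst', ← dist_eq_norm]
      exact (hbv.mono Set.inter_subset_left).dist_le ⟨hπI t ht, hst', le_rfl⟩
        ⟨hπI s hs, le_rfl, hst'⟩)
    (by
      intro h
      have hαI : α ∈ Set.Icc α β := ⟨le_rfl, hαβ.le⟩
      have hβI : β ∈ Set.Icc α β := ⟨hαβ.le, le_rfl⟩
      have h1 : f (π α) = f (π β) := by rw [hfw α hαI, hfw β hβI, h]
      have h2 := congrArg Subtype.val (hf h1)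
      rw [hπval α hαI, hπval β hβI] at h2
      exact hαβ.ne h2)
  refine ne_top_of_est hS0 f (z0 := z0) ?_ hest
  rintro _ ⟨t, ht, rfl⟩
  exact ⟨π t, hfw t ht⟩

end Pool.Agent.P.MP_c161d8_an
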