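import Mathlib

set_option autoImplicit false

namespace Pool.Agent.P.MP_c161d8_an

open Complex Filter Topology

lemma eq_zero_of_exp {e : ℂ} (h : cexp e = 1) (him : |e.im| < 2 * Real.pi) : e = 0 := by
  obtain ⟨n, rfl⟩ := Complex.exp_eq_one_iff.1 h
  have h1 : ((n : ℂ) * (2 * Real.pi * I)).im = n * (2 * Real.pi) := by simp
  rw [h1, abs_mul, abs_of_pos Real.two_pi_pos] at him
  have h2 : |(n : ℝ)| < 1 := by nlinarith [Real.two_pi_pos]
  have h3 : n = 0 := by
    have : |n| < 1 := by exact_mod_cast h2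
    exact Int.abs_lt_one_iff.1 this
  simp [h3]

lemma lift_unique {w w' : ℝ → ℂ} (hw : Continuous w) (hw' : Continuous w')
    (h : ∀ t, cexp (w t) = cexp (w' t)) (α β : ℝ) : w β - w α = w' β - w' α := by
  have := Complex.isCoveringMap_exp.const_of_comp (g := fun t => w t - w' t) (hw.sub hw')
    (fun a a' => by
      apply Subtype.ext
      simp only [Complex.exp_sub, h, div_self (Complex.exp_ne_zero _)]) β α
  linear_combination this

lemma exists_lift {u : ℝ → ℂ} (hu : Continuous u) (h0 : ∀ t, u t ≠ 0) :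
    ∃ w : ℝ → ℂ, Continuous w ∧ ∀ t, cexp (w t) = u t := by
  have hsc : IsSimplyConnected (Set.univ : Set ℝ) := by
    have : ContractibleSpace (Set.univ : Set ℝ) := convex_univ.contractibleSpace Set.univ_nonempty
    exact (inferInstance : SimplyConnectedSpace (Set.univ : Set ℝ))
  obtain ⟨f, hf, hf'⟩ := Complex.exists_continuousOn_eqOn_exp_comp hsc isOpen_univ hu.continuousOn
    (by rintro ⟨t, _, ht⟩; exact h0 t ht)
  exact ⟨f, continuousOn_univ.1 hf, fun t => hf' (Set.mem_univ t)⟩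

/-- An arc with end points on a vertical line, lying to the right of it, encloses a domain. -/
theorem exists_pocket {γ : ℝ → ℂ} {α β x1 : ℝ} (hαβ : α ≤ β)
    (hγ : ContinuousOn γ (Set.Icc α β))
    (h1 : (γ α).re = x1) (h3 : (γ β).re = x1) (hne : γ α ≠ γ β)
    (hmid : ∀ t ∈ Set.Ioo α β, x1 < (γ t).re) :
    ∃ U : Set ℂ, IsOpen U ∧ Bornology.IsBounded U ∧ U.Nonempty ∧ (∀ z ∈ U, x1 < z.re) ∧
      ∀ ζ ∈ frontier U, ζ ∈ γ '' Set.Icc α β ∨ ζ.re = x1 := by
  set Γ := γ '' Set.Icc α β with hΓ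
  have hΓc : IsCompact Γ := isCompact_Icc.image_of_continuousOn hγ
  set u : ℝ → ℂ := fun t => γ (Set.projIcc α β hαβ t) with hu
  have huc : Continuous u :=
    hγ.comp_continuous (continuous_subtype_val.comp continuous_projIcc)
      fun t => (Set.projIcc α β hαβ t).2
  have huΓ : ∀ t, u t ∈ Γ := fun t => ⟨_, (Set.projIcc α β hαβ t).2, rfl⟩
  have huα : u α = γ α := by simp [hu]
  have huβ : u β = γ β := by simp [hu]
  have hΓre : ∀ z ∈ Γ, x1 < z.re ∨ z = γ α ∨ z = γ β := by
    rintro _ ⟨t, ht, rfl⟩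
    rcases ht.1.eq_or_lt with h | h
    · exact Or.inr (Or.inl (by rw [h]))
    rcases ht.2.eq_or_lt with h' | h'
    · exact Or.inr (Or.inr (by rw [h']))
    exact Or.inl (hmid t ⟨h, h'⟩)
  set M : ℂ → ℂ := fun z => Complex.log (z - γ β) - Complex.log (z - γ α) with hM
  let Z : ℂ → Prop := fun z => ∃ w : ℝ → ℂ, Continuous w ∧ (∀ t, cexp (w t) = u t - z) ∧
    w β - w α = M z
  have hexp : ∀ z ∉ Γ, ∀ w : ℝ → ℂ, (∀ t, cexp (w t) = u t - z) →
      cexp (w β - w α - M z) = 1 := by
    intro z hz w hw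
    have ha : z - γ α ≠ 0 := sub_ne_zero.2 fun h => hz (h ▸ huα ▸ huΓ α)
    have hb : z - γ β ≠ 0 := sub_ne_zero.2 fun h => hz (h ▸ huβ ▸ huΓ β)
    have ha' : γ α - z ≠ 0 := fun h => ha (by linear_combination -h)
    simp only [hM, Complex.exp_sub, hw, huα, huβ, Complex.exp_log ha, Complex.exp_log hb]
    field_simp
    ring
  have hZ : ∀ z, ∀ w : ℝ → ℂ, Continuous w → (∀ t, cexp (w t) = u t - z) →
      (Z z ↔ w β - w α - M z = 0) := by
    intro z w hw hw'
    constructor
    · rintro ⟨w', h1, h2, h3⟩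
      rw [lift_unique hw h1 (fun t => by rw [hw', h2]) α β, h3, sub_self]
    · intro h
      exact ⟨w, hw, hw', sub_eq_zero.1 h⟩
  have loc : ∀ z0 ∉ Γ, z0 - γ α ∈ slitPlane → z0 - γ β ∈ slitPlane →
      ∀ᶠ z in 𝓝 z0, z ∉ Γ ∧ (Z z ↔ Z z0) := by
    intro z0 hz0 hs1 hs3
    obtain ⟨ε, hε, hball⟩ := Metric.isOpen_iff.1 hΓc.isClosed.isOpen_compl z0 hz0
    have hfar : ∀ t, ε ≤ ‖u t - z0‖ := fun t => by
      by_contra h
      exact hball (mem_ball_iff_norm.2 (not_le.1 h)) (huΓ t)
    have hne0 : ∀ t, u t - z0 ≠ 0 := fun t h => by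
      have := hfar t; rw [h, norm_zero] at this; linarith
    obtain ⟨w0, hw0, hw0'⟩ := exists_lift (u := fun t => u t - z0) (huc.sub continuous_const) hne0
    have hslit : ∀ z ∈ Metric.ball z0 ε, ∀ t, 1 + (z0 - z) / (u t - z0) ∈ slitPlane := by
      intro z hz t
      apply mem_slitPlane_of_norm_lt_one
      rw [norm_div, div_lt_one (norm_pos_iff.2 (hne0 t)), norm_sub_rev]
      exact (mem_ball_iff_norm.1 hz).trans_le (hfar t)
    set w : ℂ → ℝ → ℂ := fun z t => w0 t + Complex.log (1 + (z0 - z) / (u t - z0)) with hw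
    have hwc : ∀ z ∈ Metric.ball z0 ε, Continuous (w z) := fun z hz =>
      hw0.add ((continuous_const.add (continuous_const.div (huc.sub continuous_const) hne0)).clog
        (hslit z hz))
    have hwe : ∀ z ∈ Metric.ball z0 ε, ∀ t, cexp (w z t) = u t - z := by
      intro z hz t
      simp only [hw, Complex.exp_add, hw0', Complex.exp_log (slitPlane_ne_zero (hslit z hz t))]
      have := hne0 t
      field_simp
      ring
    set k : ℂ → ℂ := fun z => w z β - w z α - M z with hk
    have hb0 : z0 ∈ Metric.ball z0 ε := Metric.mem_ball_self hε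
    have hkc : ContinuousAt k z0 := by
      have hl : ∀ t, ContinuousAt (fun z => w z t) z0 := fun t =>
        continuousAt_const.add (ContinuousAt.clog (by fun_prop) (hslit z0 hb0 t))
      exact ((hl β).sub (hl α)).sub
        ((ContinuousAt.clog (f := fun z => z - γ β) (by fun_prop) hs3).sub
          (ContinuousAt.clog (f := fun z => z - γ α) (by fun_prop) hs1))
    have hk1 : ∀ᶠ z in 𝓝 z0, dist (k z) (k z0) < 2 * Real.pi :=
      Metric.tendsto_nhds.1 hkc _ Real.two_pi_pos
    filter_upwards [hk1, Metric.ball_mem_nhds z0 hε] with z hz1 hz2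
    refine ⟨hball hz2, ?_⟩
    have e : k z - k z0 = 0 := by
      apply eq_zero_of_exp
      · rw [Complex.exp_sub, hexp z (hball hz2) _ (hwe z hz2), hexp z0 hz0 _ (hwe z0 hb0)]; simp
      · rw [dist_eq_norm] at hz1
        exact (abs_im_le_norm _).trans_lt hz1
    rw [hZ z _ (hwc z hz2) (hwe z hz2), hZ z0 _ (hwc z0 hb0) (hwe z0 hb0)]
    change k z = 0 ↔ k z0 = 0
    rw [sub_eq_zero.1 e]
  have hslit' : ∀ z : ℂ, x1 < z.re → z - γ α ∈ slitPlane ∧ z - γ β ∈ slitPlane := fun z hz =>
    ⟨Or.inl (by rw [sub_re]; linarith), Or.inl (by rw [sub_re]; linarith)⟩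
  have hopen : IsOpen {z : ℂ | x1 < z.re} := isOpen_lt continuous_const continuous_re
  refine ⟨{z | x1 < z.re ∧ z ∉ Γ ∧ ¬ Z z}, ?_, ?_, ?_, fun z hz => hz.1, ?_⟩
  · rw [isOpen_iff_mem_nhds]
    rintro z0 ⟨h1, h2, h3⟩
    filter_upwards [loc z0 h2 (hslit' z0 h1).1 (hslit' z0 h1).2, hopen.mem_nhds h1] with z hz hz'
    exact ⟨hz', hz.1, fun h => h3 (hz.2.1 h)⟩
  · obtain ⟨R, hR⟩ := hΓc.isBounded.exists_norm_le
    have hR0 : 0 ≤ R := (norm_nonneg _).trans (hR _ (huΓ α))
    refine (Metric.isBounded_closedBall (x := (0 : ℂ)) (r := R)).subset ?_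
    rintro z ⟨h1, h2, h3⟩
    rw [mem_closedBall_zero_iff]
    by_contra hz
    push Not at hz
    have hz0 : z ≠ 0 := by rintro rfl; simp at hz; linarith
    have hre : ∀ t, 0 < (1 + -(u t / z)).re := by
      intro t
      have h4 : ‖u t / z‖ < 1 := by
        rw [norm_div, div_lt_one (norm_pos_iff.2 hz0)]; exact (hR _ (huΓ t)).trans_lt hz
      have h5 := re_le_norm (u t / z)
      simp only [add_re, one_re, neg_re]; linarith
    have hwe : ∀ t, cexp (Complex.log (-z) + Complex.log (1 + -(u t / z))) = u t - z := by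
      intro t
      rw [Complex.exp_add, Complex.exp_log (neg_ne_zero.2 hz0),
        Complex.exp_log (slitPlane_ne_zero (Or.inl (hre t)))]
      field_simp
      ring
    apply h3
    rw [hZ z _ (continuous_const.add ((continuous_const.add (huc.div_const z).neg).clog
      fun t => Or.inl (hre t))) hwe]
    apply eq_zero_of_exp (hexp z h2 _ hwe)
    have a1 := abs_arg_lt_pi_div_two_iff.2 (Or.inl (hre α))
    have a2 := abs_arg_lt_pi_div_two_iff.2 (Or.inl (hre β))
    have a3 := abs_arg_lt_pi_div_two_iff.2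
      (Or.inl (show 0 < (z - γ α).re by rw [sub_re]; linarith))
    have a4 := abs_arg_lt_pi_div_two_iff.2
      (Or.inl (show 0 < (z - γ β).re by rw [sub_re]; linarith))
    simp only [hM, sub_im, add_im, Complex.log_im]
    rw [abs_lt] at a1 a2 a3 a4 ⊢
    constructor <;> linarith [a1.1, a1.2, a2.1, a2.2, a3.1, a3.2, a4.1, a4.2]
  · set m := (γ α + γ β) / 2 with hm
    have him : (γ α).im ≠ (γ β).im := fun h => hne (Complex.ext (by rw [h1, h3]) h)
    have hmre : m.re = x1 := by simp [hm, h1, h3]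
    have hmim : m.im = ((γ α).im + (γ β).im) / 2 := by simp [hm]
    have hma : m.im ≠ (γ α).im := fun h => him (by linarith)
    have hmb : m.im ≠ (γ β).im := fun h => him (by linarith)
    have hmΓ : m ∉ Γ := fun h => by
      rcases hΓre m h with h | h | h
      · linarith
      · exact hma (by rw [h])
      · exact hmb (by rw [h])
    have hsl : ∀ t, u t - m ∈ slitPlane := fun t => by
      rcases hΓre _ (huΓ t) with h | h | h
      · exact Or.inl (by rw [sub_re]; linarith)
      · exact Or.inr (by rw [sub_im, h]; exact sub_ne_zero.2 hma.symm)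
      · exact Or.inr (by rw [sub_im, h]; exact sub_ne_zero.2 hmb.symm)
    have hZm : ¬ Z m := by
      rw [hZ m (fun t => Complex.log (u t - m)) ((huc.sub continuous_const).clog hsl)
        fun t => Complex.exp_log (slitPlane_ne_zero (hsl t))]
      intro h
      have h' := congrArg Complex.im h
      simp only [hM, sub_im, Complex.log_im, huα, huβ, zero_im] at h'
      have hpi := Real.pi_pos
      rcases lt_or_gt_of_ne him with hlt | hlt
      · rw [arg_eq_pi_div_two_iff.2 (⟨by simp [hmre, h3], by rw [sub_im]; linarith⟩ :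
            (γ β - m).re = 0 ∧ 0 < (γ β - m).im),
          arg_eq_neg_pi_div_two_iff.2 (⟨by simp [hmre, h1], by rw [sub_im]; linarith⟩ :
            (γ α - m).re = 0 ∧ (γ α - m).im < 0),
          arg_eq_neg_pi_div_two_iff.2 (⟨by simp [hmre, h3], by rw [sub_im]; linarith⟩ :
            (m - γ β).re = 0 ∧ (m - γ β).im < 0),
          arg_eq_pi_div_two_iff.2 (⟨by simp [hmre, h1], by rw [sub_im]; linarith⟩ :
            (m - γ α).re = 0 ∧ 0 < (m - γ α).im)] at h'
        linarith
      · rw [arg_eq_neg_pi_div_two_iff.2 (⟨by simp [hmre, h3], by rw [sub_im]; linarith⟩ :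
            (γ β - m).re = 0 ∧ (γ β - m).im < 0),
          arg_eq_pi_div_two_iff.2 (⟨by simp [hmre, h1], by rw [sub_im]; linarith⟩ :
            (γ α - m).re = 0 ∧ 0 < (γ α - m).im),
          arg_eq_pi_div_two_iff.2 (⟨by simp [hmre, h3], by rw [sub_im]; linarith⟩ :
            (m - γ β).re = 0 ∧ 0 < (m - γ β).im),
          arg_eq_neg_pi_div_two_iff.2 (⟨by simp [hmre, h1], by rw [sub_im]; linarith⟩ :
            (m - γ α).re = 0 ∧ (m - γ α).im < 0)] at h'
        linarith
    have hev := loc m hmΓ (Or.inr (by rw [sub_im]; exact sub_ne_zero.2 hma))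
      (Or.inr (by rw [sub_im]; exact sub_ne_zero.2 hmb))
    obtain ⟨ε, hε, hball⟩ := Metric.eventually_nhds_iff.1 hev
    have h4 := hball (y := m + (ε / 2 : ℝ)) (by
      rw [dist_eq_norm, add_sub_cancel_left, Complex.norm_real, Real.norm_of_nonneg] <;> linarith)
    exact ⟨m + (ε / 2 : ℝ), by simp [hmre, hε], h4.1, fun h => hZm (h4.2.1 h)⟩
  · intro ζ hζ
    by_contra hcon
    push Not at hcon
    have hcl : ζ ∈ closure {z : ℂ | x1 < z.re ∧ z ∉ Γ ∧ ¬ Z z} := frontier_subset_closure hζ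
    have h1 : x1 ≤ ζ.re :=
      closure_minimal (fun z hz => hz.1.le) (isClosed_le continuous_const continuous_re) hcl
    have h2 : x1 < ζ.re := lt_of_le_of_ne h1 hcon.2.symm
    have hev := loc ζ hcon.1 (hslit' ζ h2).1 (hslit' ζ h2).2
    obtain ⟨z, hz, hzU⟩ := mem_closure_iff_nhds.1 hcl _ hev
    have hZζ : ¬ Z ζ := fun h => hzU.2.2 (hz.2.2 h)
    apply hζ.2
    rw [mem_interior_iff_mem_nhds]
    filter_upwards [hev, hopen.mem_nhds h2] with z hz hz'
    exact ⟨hz', hz.1, fun h => hZζ (hz.2.1 h)⟩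

end Pool.Agent.P.MP_c161d8_an
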