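import Pool.Agent.P.MP_c161d8_an.GraphEst
import Pool.Agent.P.MP_c161d8_an.Topo
import Pool.Agent.P.MP_c161d8_an.Reduce

set_option autoImplicit false

namespace Pool.Agent.P.MP_c161d8_an

open Finset Complex

lemma Est.conj {S : Set ℕ} {Γ Γ' : Set ℂ} (h : Est S Γ)
    (hΓ : ∀ z ∈ Γ, (starRingEnd ℂ) z ∈ Γ') : Est S Γ' := by
  obtain ⟨C, hC⟩ := h
  refine ⟨C, fun F a δ hδ h0 hF hz => ?_⟩
  have := hC F (fun p => (starRingEnd ℂ) (a p)) δ hδ h0 hF (by
    intro z hzΓ
    have e : ev F (fun p => (starRingEnd ℂ) (a p)) z =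
        (starRingEnd ℂ) (ev F a ((starRingEnd ℂ) z)) := by
      unfold ev
      rw [map_sum]
      refine Finset.sum_congr rfl fun p _ => ?_
      rw [map_mul, ← Complex.exp_conj]
      simp
    rw [e, Complex.norm_conj]
    exact hz _ (hΓ z hzΓ))
  simpa using this

lemma est_graph' {S : Set ℕ} (hS : Summable (fun p : S => (1 : ℝ) / ((p : ℕ) : ℝ)))
    {φ : ℝ → ℝ} (hφ : Continuous φ) {a b : ℝ} (hab : a < b) :
    Est S {z | a ≤ z.re ∧ z.re ≤ b ∧ z.im = φ z.re} := by
  by_cases h : ∀ x ∈ Set.Icc a b, φ x = φ a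
  · refine (est_of_bv hS hab (w := fun t => (t : ℂ) + φ a * I) (v := id) (by fun_prop) ?_ ?_).mono ?_
    · intro s _ t _ hst
      simp only [add_sub_add_right_eq_sub, id]
      rw [← ofReal_sub, Complex.norm_real, Real.norm_of_nonneg (by linarith)]
    · intro h
      have := congrArg Complex.re h
      simp at this
      linarith
    · rintro _ ⟨t, ht, rfl⟩
      refine ⟨by simpa using ht.1, by simpa using ht.2, ?_⟩
      simp [h t ht]
  · push Not at h
    obtain ⟨x, hx, hne⟩ := h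
    rcases lt_or_gt_of_ne hne with hlt | hlt
    · refine (est_graph hS hφ.neg hx.1 (show -φ a < -φ x by linarith)).conj ?_
      rintro z ⟨h1, h2, h3⟩
      refine ⟨by simpa using h1, by simpa using h2.trans hx.2, ?_⟩
      simp only [conj_im, conj_re, h3]
      simp
    · exact (est_graph hS hφ hx.1 hlt).mono fun z hz => ⟨hz.1, hz.2.1.trans hx.2, hz.2.2⟩

lemma est_vert_arc {S : Set ℕ} (hS : Summable (fun p : S => (1 : ℝ) / ((p : ℕ) : ℝ)))
    {α β : ℝ} (hαβ : α ≤ β) {w : ℝ → ℂ} (hw : ContinuousOn w (Set.Icc α β))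
    (h : ∀ t ∈ Set.Icc α β, (w α).re = (w t).re) (hne : w α ≠ w β) :
    Est S (w '' Set.Icc α β) := by
  have hαI : α ∈ Set.Icc α β := ⟨le_rfl, hαβ⟩
  have hβI : β ∈ Set.Icc α β := ⟨hαβ, le_rfl⟩
  have him : (w α).im ≠ (w β).im := fun h' => hne (Complex.ext (h β hβI) h')
  have hc : ContinuousOn (fun t => (w t).im) (Set.Icc α β) :=
    continuous_im.comp_continuousOn hw
  have key : ∀ s ∈ Set.Icc α β, ∀ t ∈ Set.Icc α β, (w s).im < (w t).im →
      Est S (w '' Set.Icc α β) := by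
    intro s hs t ht hlt
    refine (est_vertical hS (w s) (sub_pos.2 hlt)).mono ?_
    rintro _ ⟨y, hy, rfl⟩
    obtain ⟨r, hr, hry⟩ := isPreconnected_Icc.intermediate_value hs ht hc
      (show (w s).im + y ∈ Set.Icc _ _ from ⟨by linarith [hy.1], by linarith [hy.2]⟩)
    refine ⟨r, hr, Complex.ext ?_ ?_⟩
    · simp [← h r hr, ← h s hs]
    · simpa using hry
  rcases lt_or_gt_of_ne him with h' | h'
  · exact key α hαI β hβI h'
  · exact key β hβI α hαI h'

lemma est_mono_arc {S : Set ℕ} (hS : Summable (fun p : S => (1 : ℝ) / ((p : ℕ) : ℝ)))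
    {α β : ℝ} (hαβ : α < β) {w : ℝ → ℂ} (hw : ContinuousOn w (Set.Icc α β))
    (hinj : Set.InjOn w (Set.Icc α β)) (hmono : MonotoneOn (fun t => (w t).re) (Set.Icc α β)) :
    Est S (w '' Set.Icc α β) := by
  by_cases h : StrictMonoOn (fun t => (w t).re) (Set.Icc α β)
  · have hαI : α ∈ Set.Icc α β := ⟨le_rfl, hαβ.le⟩
    have hβI : β ∈ Set.Icc α β := ⟨hαβ.le, le_rfl⟩
    have hlt : (w α).re < (w β).re := h hαI hβI hαβ
    have huc : ContinuousOn (fun t => (w t).re) (Set.Icc α β) := continuous_re.comp_continuousOn hw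
    let f : Set.Icc α β → Set.Icc (w α).re (w β).re := fun t =>
      ⟨(w t).re, hmono hαI t.2 t.2.1, hmono t.2 hβI t.2.2⟩
    have hf : Function.Bijective f := by
      constructor
      · intro s t hst
        exact Subtype.ext (h.injOn s.2 t.2 (congrArg Subtype.val hst))
      · intro x
        obtain ⟨t, ht, htx⟩ := intermediate_value_Icc hαβ.le huc x.2
        exact ⟨⟨t, ht⟩, Subtype.ext htx⟩
    have hfc : Continuous (Equiv.ofBijective f hf) :=
      (continuousOn_iff_continuous_restrict.1 huc).subtype_mk _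
    let e := hfc.homeoOfEquivCompactToT2
    have he : ∀ x, (w (e.symm x)).re = x := fun x =>
      congrArg Subtype.val (e.apply_symm_apply x)
    have hφ : Continuous fun x : ℝ => (w (e.symm (Set.projIcc _ _ hlt.le x))).im :=
      continuous_im.comp (hw.comp_continuous
        (continuous_subtype_val.comp (e.symm.continuous.comp continuous_projIcc))
        fun x => (e.symm _).2)
    refine (est_graph' hS hφ hlt).mono ?_
    rintro z ⟨h1, h2, h3⟩
    refine ⟨e.symm (Set.projIcc _ _ hlt.le z.re), (e.symm _).2, Complex.ext ?_ h3.symm⟩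
    rw [he, Set.projIcc_of_mem _ ⟨h1, h2⟩]
  · unfold StrictMonoOn at h
    push Not at h
    obtain ⟨s, hs, t, ht, hst, hle⟩ := h
    have hsub : Set.Icc s t ⊆ Set.Icc α β := Set.Icc_subset_Icc hs.1 ht.2
    refine (est_vert_arc hS hst.le (hw.mono hsub) (fun r hr => ?_)
      (fun h => hst.ne (hinj hs ht h))).mono (Set.image_mono hsub)
    exact le_antisymm (hmono hs (hsub hr) hr.1) ((hmono (hsub hr) ht hr.2).trans hle)

lemma est_pocket_arc {S : Set ℕ} (hS : Summable (fun p : S => (1 : ℝ) / ((p : ℕ) : ℝ)))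
    {α τ β : ℝ} (h1 : α < τ) (h2 : τ < β) {w : ℝ → ℂ} (hw : ContinuousOn w (Set.Icc α β))
    (hinj : Set.InjOn w (Set.Icc α β)) (h3 : (w α).re < (w τ).re) (h4 : (w β).re < (w τ).re) :
    Est S (w '' Set.Icc α β) := by
  set x1 := max (w α).re (w β).re with hx1
  have hx : x1 < (w τ).re := max_lt h3 h4
  have huc : ContinuousOn (fun t => (w t).re) (Set.Icc α β) := continuous_re.comp_continuousOn hw
  obtain ⟨t3, ht3, e3, l3⟩ := exists_first (φ := fun t => -(w t).re) (σ := -x1) h2.le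
    (huc.mono (Set.Icc_subset_Icc_left h1.le)).neg (by linarith)
    (by linarith [le_max_right (w α).re (w β).re])
  obtain ⟨t1, ht1, e1, l1⟩ := exists_first (φ := fun t => -(w (-t)).re) (σ := -x1)
    (show -τ ≤ -α by linarith)
    (huc.comp continuous_neg.continuousOn
      (fun t ht => ⟨by linarith [ht.2], by linarith [ht.1]⟩)).neg
    (by simp only [neg_neg]; linarith)
    (by simp only [neg_neg]; linarith [le_max_left (w α).re (w β).re])
  simp only [neg_inj] at e1 e3
  have hsub : Set.Icc (-t1) t3 ⊆ Set.Icc α β :=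
    Set.Icc_subset_Icc (by linarith [ht1.2]) ht3.2
  have hle : -t1 ≤ t3 := by linarith [ht1.1, ht3.1]
  have hτ3 : τ < t3 := lt_of_le_of_ne ht3.1 fun h => by rw [← h] at e3; linarith
  have hlt : -t1 < t3 := by linarith [ht1.1]
  obtain ⟨U, u1, u2, u3, u4, u5⟩ := exists_pocket hle (hw.mono hsub) e1 e3
    (fun h => hlt.ne (hinj (hsub ⟨le_rfl, hle⟩) (hsub ⟨hle, le_rfl⟩) h))
    (by
      intro t ht
      rcases le_total τ t with h | h
      · have := l3 t ⟨h, ht.2⟩
        linarith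
      · have := l1 (-t) ⟨by linarith, by linarith [ht.1]⟩
        simp only [neg_neg] at this; linarith)
  exact (est_pocket hS (isPreconnected_Icc.image _ (hw.mono hsub)) u1 u2 u3 u4 u5
    ⟨t3, ⟨hle, le_rfl⟩, rfl⟩ e3.le).mono (Set.image_mono hsub)

/-- The estimate for an arbitrary arc. -/
theorem est_arc {S : Set ℕ} (hS : Summable (fun p : S => (1 : ℝ) / ((p : ℕ) : ℝ)))
    {α β : ℝ} (hαβ : α < β) {w : ℝ → ℂ} (hw : ContinuousOn w (Set.Icc α β))
    (hinj : Set.InjOn w (Set.Icc α β)) : Est S (w '' Set.Icc α β) := by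
  by_cases hp : ∃ t1 ∈ Set.Icc α β, ∃ t2, ∃ t3 ∈ Set.Icc α β, t1 < t2 ∧ t2 < t3 ∧
      (w t1).re < (w t2).re ∧ (w t3).re < (w t2).re
  · obtain ⟨t1, h1, t2, t3, h3, a1, a2, a3, a4⟩ := hp
    have hsub : Set.Icc t1 t3 ⊆ Set.Icc α β := Set.Icc_subset_Icc h1.1 h3.2
    exact (est_pocket_arc hS a1 a2 (hw.mono hsub) (hinj.mono hsub) a3 a4).mono
      (Set.image_mono hsub)
  push Not at hp
  have huc : ContinuousOn (fun t => (w t).re) (Set.Icc α β) := continuous_re.comp_continuousOn hw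
  obtain ⟨t0, ht0, hmin⟩ := isCompact_Icc.exists_isMinOn (Set.nonempty_Icc.2 hαβ.le) huc
  have hmin' : ∀ t ∈ Set.Icc α β, (w t0).re ≤ (w t).re := fun t ht => hmin ht
  rcases ht0.2.eq_or_lt with h | h
  · subst h
    have hmaps : ∀ t ∈ Set.Icc (-t0) (-α), -t ∈ Set.Icc α t0 := fun t ht =>
      ⟨by linarith [ht.2], by linarith [ht.1]⟩
    refine (est_mono_arc hS (α := -t0) (β := -α) (by linarith) (w := fun t => w (-t))
      (hw.comp continuous_neg.continuousOn hmaps)
      (fun s hs t ht hst => neg_injective (hinj (hmaps s hs) (hmaps t ht) hst)) ?_).mono ?_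
    · intro s hs t ht hst
      by_contra hc
      simp only [not_le] at hc
      have b1 := hmin' _ (hmaps t ht)
      have b2 : -s < t0 := lt_of_le_of_ne (hmaps s hs).2 fun h => by rw [h] at hc; linarith
      have b3 : -t < -s := lt_of_le_of_ne (by linarith) fun h => by rw [h] at hc; linarith
      have := hp _ (hmaps t ht) (-s) t0 ht0 b3 b2 hc
      linarith
    · rintro _ ⟨t, ht, rfl⟩
      exact ⟨-t, hmaps t ht, rfl⟩
  · have hsub : Set.Icc t0 β ⊆ Set.Icc α β := Set.Icc_subset_Icc_left ht0.1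
    refine (est_mono_arc hS h (hw.mono hsub) (hinj.mono hsub) ?_).mono (Set.image_mono hsub)
    intro s hs t ht hst
    by_contra hc
    simp only [not_le] at hc
    have b1 := hmin' _ (hsub ht)
    have b2 : t0 < s := lt_of_le_of_ne hs.1 fun h => by rw [← h] at hc; linarith
    have b3 : s < t := lt_of_le_of_ne hst fun h => by rw [h] at hc; linarith
    have := hp t0 ht0 s t (hsub ht) b2 b3 (by linarith)
    linarith

theorem main_all (S : Set ℕ) (hS0 : ∀ p ∈ S, 0 < p)
    (hS : Summable (fun p : S => (1 : ℝ) / ((p : ℕ) : ℝ)))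
    (f : C(unitInterval, ℂ)) (hf : Function.Injective f) :
    (Submodule.span ℂ (Set.range (fun p : S => f ^ (p : ℕ)))).topologicalClosure ≠ ⊤ := by
  obtain ⟨α, β, z0, w, haα, hαβ, hβb, _, hw, hfw, _⟩ :=
    exists_chart f hf (a := 0) (b := 1) zero_lt_one
  have hI : ∀ t ∈ Set.Icc α β, t ∈ Set.Icc (0 : ℝ) 1 := fun t ht =>
    ⟨le_trans haα ht.1, le_trans ht.2 hβb⟩
  have hest := est_arc hS hαβ hw (by
    intro s hs t ht hst
    have h1 : f (Set.projIcc 0 1 zero_le_one s) = f (Set.projIcc 0 1 zero_le_one t) := by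
      rw [hfw s hs, hfw t ht, hst]
    have h2 := congrArg Subtype.val (hf h1)
    rwa [Set.projIcc_of_mem _ (hI s hs), Set.projIcc_of_mem _ (hI t ht)] at h2)
  refine ne_top_of_est hS0 f (z0 := z0) ?_ hest
  rintro _ ⟨t, ht, rfl⟩
  exact ⟨_, hfw t ht⟩

end Pool.Agent.P.MP_c161d8_an
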