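import Pool.Agent.P.MP_c161d8_an.Pocket

set_option autoImplicit false

namespace Pool.Agent.P.MP_c161d8_an

open Finset Complex

lemma exists_first {φ : ℝ → ℝ} {a b σ : ℝ} (hab : a ≤ b) (hφ : ContinuousOn φ (Set.Icc a b))
    (h1 : φ a ≤ σ) (h2 : σ ≤ φ b) :
    ∃ ξ ∈ Set.Icc a b, φ ξ = σ ∧ ∀ x ∈ Set.Ico a ξ, φ x < σ := by
  have hK : IsCompact (Set.Icc a b ∩ φ ⁻¹' {σ}) :=
    isCompact_Icc.of_isClosed_subset
      (hφ.preimage_isClosed_of_isClosed isClosed_Icc isClosed_singleton) Set.inter_subset_left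
  obtain ⟨x0, hx0, hx0'⟩ := intermediate_value_Icc hab hφ ⟨h1, h2⟩
  obtain ⟨ξ, hξ, hmin⟩ := hK.exists_isLeast ⟨x0, hx0, hx0'⟩
  refine ⟨ξ, hξ.1, hξ.2, fun x hx => ?_⟩
  by_contra h
  push Not at h
  have hxb : x ≤ b := hx.2.le.trans hξ.1.2
  obtain ⟨y, hy, hy'⟩ := intermediate_value_Icc hx.1 (hφ.mono (Set.Icc_subset_Icc_right hxb))
    ⟨h1, h⟩
  have := hmin (show y ∈ Set.Icc a b ∩ φ ⁻¹' {σ} from ⟨⟨hy.1, hy.2.trans hxb⟩, hy'⟩)
  linarith [hy.2, hx.2]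

lemma exists_params {L : ℝ} (hL : 0 ≤ L) :
    ∃ T k : ℕ, 2 ≤ T ∧ 128 * (L * T + 1) ≤ 2 ^ k ∧ 508 * (k + 1) + 2 + k ≤ T := by
  obtain ⟨l0, hl0⟩ := pow_unbounded_of_one_lt (L + 1) (show (1 : ℝ) < 2 by norm_num)
  obtain ⟨e, he1, he⟩ := exists_lin_le_two_pow 509 (509 * (l0 + 7) + 510)
  refine ⟨2 ^ e, l0 + e + 7, ?_, ?_, by omega⟩
  · calc 2 = 2 ^ 1 := rfl
      _ ≤ 2 ^ e := Nat.pow_le_pow_right (by norm_num) he1
  · push_cast
    have h1 : (1 : ℝ) ≤ 2 ^ e := one_le_pow₀ (by norm_num)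
    rw [pow_add, pow_add]
    nlinarith

/-- A closed rectangle. -/
def Box (x0 x1 y0 y1 : ℝ) : Set ℂ := {w | x0 ≤ w.re ∧ w.re ≤ x1 ∧ y0 ≤ w.im ∧ w.im ≤ y1}

lemma convex_box (x0 x1 y0 y1 : ℝ) : Convex ℝ (Box x0 x1 y0 y1) :=
  (convex_halfSpace_re_ge x0).inter ((convex_halfSpace_re_le x1).inter
    ((convex_halfSpace_im_ge y0).inter (convex_halfSpace_im_le y1)))

lemma re_im_of_norm {w : ℂ} {x y ρ : ℝ} (h : ‖w - (x + y * I)‖ ≤ ρ) :
    x - ρ ≤ w.re ∧ w.re ≤ x + ρ ∧ y - ρ ≤ w.im ∧ w.im ≤ y + ρ := by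
  have h1 := (abs_re_le_norm _).trans h
  have h2 := (abs_im_le_norm _).trans h
  simp only [sub_re, add_re, ofReal_re, mul_re, I_re, mul_zero, ofReal_im, I_im, mul_one, sub_self,
    add_zero, sub_im, add_im, mul_im, zero_add, abs_le] at h1 h2
  refine ⟨by linarith [h1.1], by linarith [h1.2], by linarith [h2.1], by linarith [h2.2]⟩

lemma norm_sub_pt_le {w : ℂ} {x y u v : ℝ} (h1 : |w.re - x| ≤ u) (h2 : |w.im - y| ≤ v) :
    ‖w - (x + y * I)‖ ≤ u + v :=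
  norm_le_re_add_im _ (by simpa using h1) (by simpa using h2)

lemma disc_box {x0 x1 y0 y1 x y r ρ : ℝ} (hr : r ≤ ρ) (h1 : x0 ≤ x - 21 * ρ) (h2 : x + 21 * ρ ≤ x1)
    (h3 : y0 ≤ y - 21 * ρ) (h4 : y + 21 * ρ ≤ y1) :
    Disc (Box x0 x1 y0 y1) r ((x : ℂ) + y * I, ρ) := by
  refine ⟨hr, fun w hw => ?_⟩
  obtain ⟨a1, a2, a3, a4⟩ := re_im_of_norm hw
  simp only at a1 a2 a3 a4
  exact ⟨by linarith, by linarith, by linarith, by linarith⟩

lemma reach_box {x σ H Y Y' r : ℝ} {k : ℕ} (hr : 0 < r) (h1 : r ≤ Y' / 1344) (h2 : r ≤ Y / 32)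
    (h3 : 14 * Y ≤ H) (h4 : Y' ≤ 2 * Y) (h5 : 32 * H ≤ 2 ^ k * Y') (h6 : H ≤ 2 ^ k * Y) :
    Reach (Disc (Box (x - 3 * H / 2) (x + Y) σ (σ + H)) r) (254 * (k + 1))
      (((x - H : ℝ) : ℂ) + (σ + H - Y' / 64 : ℝ) * I, Y' / 1344)
      ((x : ℂ) + (σ + Y : ℝ) * I, Y / 32) ∧
    Disc (Box (x - 3 * H / 2) (x + Y) σ (σ + H)) r
      (((x - H : ℝ) : ℂ) + (σ + H - Y' / 64 : ℝ) * I, Y' / 1344) := by
  set W := Box (x - 3 * H / 2) (x + Y) σ (σ + H) with hW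
  have hc := convGood_disc (convex_box (x - 3 * H / 2) (x + Y) σ (σ + H)) hr
  have hpos : ∀ u, Disc W r u → 0 < u.2 := fun u hu => hr.trans_le hu.1
  have d0 : Disc W r (((x - H : ℝ) : ℂ) + (σ + H - Y' / 64 : ℝ) * I, Y' / 1344) :=
    disc_box h1 (by linarith) (by linarith) (by linarith) (by linarith)
  have d1 : Disc W r ((x : ℂ) + (σ + Y : ℝ) * I, Y / 32) :=
    disc_box h2 (by linarith) (by linarith) (by linarith) (by linarith)
  have d2 : Disc W r (((x - H : ℝ) : ℂ) + (σ + H / 2 : ℝ) * I, H / 42) :=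
    disc_box (by linarith) (by linarith) (by linarith) (by linarith) (by linarith)
  have a1 := (reach_geom hc hpos 63 k d0 d2 (by simp only; linarith) (by simp only; linarith)
    (by
      refine (norm_sub_pt_le (u := 0) (v := H) (by simp) ?_).trans (by simp only; push_cast; linarith)
      simp only [add_im, ofReal_im, mul_im, ofReal_re, I_im, mul_one, I_re, mul_zero, add_zero,
        zero_add, abs_le]
      constructor <;> linarith)).1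
  have a2 := (reach_geom hc hpos 63 k d1 d2 (by simp only; linarith) (by simp only; linarith)
    (by
      refine (norm_sub_pt_le (u := H) (v := H / 2) ?_ ?_).trans
        (by simp only; push_cast; linarith)
      · simp only [add_re, ofReal_re, mul_re, I_re, mul_zero, ofReal_im, I_im, mul_one, sub_self,
          add_zero, abs_le]
        constructor <;> linarith
      · simp only [add_im, ofReal_im, mul_im, ofReal_re, I_im, mul_one, I_re, mul_zero, add_zero,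
          zero_add, abs_le]
        constructor <;> linarith)).2
  refine ⟨?_, d0⟩
  have := a1.trans a2
  rwa [show (2 * 63 + 1) * (k + 1) + (2 * 63 + 1) * (k + 1) = 254 * (k + 1) by ring] at this

/-- The open region above the graph. -/
def Reg (φ : ℝ → ℝ) (a ξ s : ℝ) : Set ℂ := {z | a < z.re ∧ z.re < ξ ∧ φ z.re < z.im ∧ z.im < s}

/-- The closed region above the graph. -/
def CReg (φ : ℝ → ℝ) (a ξ s : ℝ) : Set ℂ := {z | a ≤ z.re ∧ z.re ≤ ξ ∧ φ z.re ≤ z.im ∧ z.im ≤ s}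

lemma isOpen_reg {φ : ℝ → ℝ} (hφ : Continuous φ) (a ξ s : ℝ) : IsOpen (Reg φ a ξ s) :=
  (isOpen_lt continuous_const continuous_re).inter ((isOpen_lt continuous_re continuous_const).inter
    ((isOpen_lt (hφ.comp continuous_re) continuous_im).inter
      (isOpen_lt continuous_im continuous_const)))

lemma isClosed_creg {φ : ℝ → ℝ} (hφ : Continuous φ) (a ξ s : ℝ) : IsClosed (CReg φ a ξ s) :=
  (isClosed_le continuous_const continuous_re).inter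
    ((isClosed_le continuous_re continuous_const).inter
    ((isClosed_le (hφ.comp continuous_re) continuous_im).inter
      (isClosed_le continuous_im continuous_const)))

lemma reg_subset (φ : ℝ → ℝ) (a ξ s : ℝ) : Reg φ a ξ s ⊆ CReg φ a ξ s :=
  fun _ h => ⟨h.1.le, h.2.1.le, h.2.2.1.le, h.2.2.2.le⟩

lemma creg_cases {φ : ℝ → ℝ} {a ξ s : ℝ} {z : ℂ} (h : z ∈ CReg φ a ξ s) (h' : z ∉ Reg φ a ξ s) :
    z.re = a ∨ z.re = ξ ∨ z.im = φ z.re ∨ z.im = s := by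
  by_contra hc
  push Not at hc
  exact h' ⟨lt_of_le_of_ne h.1 hc.1.symm, lt_of_le_of_ne h.2.1 hc.2.1,
    lt_of_le_of_ne h.2.2.1 hc.2.2.1.symm, lt_of_le_of_ne h.2.2.2 hc.2.2.2⟩

lemma frontier_reg {φ : ℝ → ℝ} (hφ : Continuous φ) {a ξ s : ℝ} {z : ℂ}
    (h : z ∈ frontier (Reg φ a ξ s)) : z ∈ CReg φ a ξ s ∧ z ∉ Reg φ a ξ s := by
  rw [(isOpen_reg hφ a ξ s).frontier_eq] at h
  exact ⟨closure_minimal (reg_subset φ a ξ s) (isClosed_creg hφ a ξ s) h.1, h.2⟩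

lemma creg_bound {φ : ℝ → ℝ} (hφ : Continuous φ) (a b : ℝ) :
    ∃ R, ∀ z ∈ CReg φ a b (φ b), ‖z‖ ≤ R := by
  obtain ⟨B, hB⟩ := (isCompact_Icc (a := a) (b := b)).exists_bound_of_continuousOn hφ.continuousOn
  refine ⟨|a| + |b| + (B + |φ b|), fun z hz => norm_le_re_add_im z ?_ ?_⟩
  · rw [abs_le]
    constructor <;> linarith [hz.1, hz.2.1, le_abs_self b, neg_abs_le a, abs_nonneg a, abs_nonneg b]
  · have h1 := hB z.re ⟨hz.1, hz.2.1⟩
    rw [Real.norm_eq_abs, abs_le] at h1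
    rw [abs_le]
    constructor <;> linarith [hz.2.2.1, hz.2.2.2, h1.1, h1.2, le_abs_self (φ b), abs_nonneg (φ b)]

/-- The geometric data attached to a graph. -/
structure Geo (φ : ℝ → ℝ) (a b Δ L : ℝ) (T j0 : ℕ) (Y σ ξ : ℕ → ℝ) : Prop where
  Dpos : 0 < Δ
  Dle : Δ ≤ 1
  Lge : 14 ≤ L
  pos : ∀ j, 0 < Y j
  win : ∀ i j, i ≤ j + T → j ≤ i + T → Y i ≤ 2 * Y j
  succ : ∀ j, σ (j + 1) = σ j + L * Y j
  le : ∀ j, σ j ≤ φ b
  ge : ∀ j, j0 ≤ j → φ b - Δ ≤ σ j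
  ge' : φ a ≤ φ b - Δ
  lo : ∀ j, j0 ≤ j → a + 5 * Δ ≤ ξ j
  hi : ∀ j, j0 ≤ j → ξ j ≤ b
  hit : ∀ j, j0 ≤ j → φ (ξ j) = σ j
  below : ∀ j, j0 ≤ j → ∀ x, a ≤ x → x ≤ ξ j → φ x ≤ σ j

lemma exists_geo {φ : ℝ → ℝ} (hφ : Continuous φ) {a b : ℝ} (hab : a ≤ b) (hlt : φ a < φ b) :
    ∃ Δ, 0 < Δ ∧ ∀ (L : ℝ) (T : ℕ) (Y : ℕ → ℝ), 14 ≤ L → (∀ j, 0 < Y j) → Summable Y →
      (∀ i j, i ≤ j + T → j ≤ i + T → Y i ≤ 2 * Y j) →
      ∃ j0 σ ξ, Geo φ a b Δ L T j0 Y σ ξ := by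
  obtain ⟨d, hd, hdφ⟩ := Metric.continuousAt_iff.1 (hφ.continuousAt (x := a))
    ((φ b - φ a) / 2) (by linarith)
  set Δ := min (d / 6) (min 1 ((φ b - φ a) / 2)) with hΔ
  have hΔ0 : 0 < Δ := lt_min (by positivity) (lt_min one_pos (by linarith))
  have hΔ1 : Δ ≤ d / 6 := min_le_left _ _
  have hΔ2 : Δ ≤ 1 := (min_le_right _ _).trans (min_le_left _ _)
  have hΔ3 : Δ ≤ (φ b - φ a) / 2 := (min_le_right _ _).trans (min_le_right _ _)
  refine ⟨Δ, hΔ0, fun L T Y hL hY hs hwin => ?_⟩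
  have hL0 : 0 < L := by linarith
  obtain ⟨t, j0, ht, ht0, htη⟩ := exists_tail hs (fun j => (hY j).le) (η := Δ / L) (by positivity)
  have hge : ∀ j, j0 ≤ j → φ b - Δ ≤ φ b - L * t j := fun j hj => by
    have := htη j hj
    rw [le_div_iff₀ hL0] at this
    linarith
  have hle : ∀ j, φ b - L * t j ≤ φ b := fun j => by
    have := mul_nonneg hL0.le (ht0 j); linarith
  have hξ : ∀ j, ∃ ξ, j0 ≤ j → ξ ∈ Set.Icc a b ∧ φ ξ = φ b - L * t j ∧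
      ∀ x ∈ Set.Ico a ξ, φ x < φ b - L * t j := by
    intro j
    by_cases hj : j0 ≤ j
    · obtain ⟨ξ, h1, h2⟩ := exists_first hab hφ.continuousOn
        (show φ a ≤ φ b - L * t j by linarith [hge j hj]) (hle j)
      exact ⟨ξ, fun _ => ⟨h1, h2⟩⟩
    · exact ⟨0, fun h => absurd h hj⟩
  choose ξ hξ using hξ
  refine ⟨j0, fun j => φ b - L * t j, ξ, hΔ0, hΔ2, hL, hY, hwin, fun j => ?_, hle, hge,
    by linarith, fun j hj => ?_, fun j hj => (hξ j hj).1.2, fun j hj => (hξ j hj).2.1,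
    fun j hj x h1 h2 => ?_⟩
  · rw [ht j]; ring
  · by_contra h
    push Not at h
    have h1 := hdφ (x := ξ j) (by
      rw [Real.dist_eq, abs_lt]; constructor <;> linarith [(hξ j hj).1.1])
    rw [Real.dist_eq, abs_lt, (hξ j hj).2.1] at h1
    linarith [hge j hj, h1.2]
  · rcases h2.eq_or_lt with h | h
    · rw [h, (hξ j hj).2.1]
    · exact ((hξ j hj).2.2 x ⟨h1, h⟩).le

namespace Geo

variable {φ : ℝ → ℝ} {a b Δ L : ℝ} {T j0 : ℕ} {Y σ ξ : ℕ → ℝ}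

lemma lt_succ (g : Geo φ a b Δ L T j0 Y σ ξ) (j : ℕ) : σ j + 14 * Y j ≤ σ (j + 1) := by
  rw [g.succ]; nlinarith [g.pos j, g.Lge]

lemma mono (g : Geo φ a b Δ L T j0 Y σ ξ) : StrictMono σ :=
  strictMono_nat_of_lt_succ fun j => by linarith [g.lt_succ j, g.pos j]

lemma LY_le (g : Geo φ a b Δ L T j0 Y σ ξ) {j : ℕ} (hj : j0 ≤ j) : L * Y j ≤ Δ := by
  linarith [g.succ j, g.le (j + 1), g.ge j hj]

lemma Y_le (g : Geo φ a b Δ L T j0 Y σ ξ) {j : ℕ} (hj : j0 ≤ j) : 14 * Y j ≤ Δ := by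
  linarith [g.lt_succ j, g.le (j + 1), g.ge j hj]

lemma s_le (g : Geo φ a b Δ L T j0 Y σ ξ) (j : ℕ) : σ j + Y j ≤ φ b := by
  linarith [g.lt_succ j, g.le (j + 1), g.pos j]

lemma xi_lt (g : Geo φ a b Δ L T j0 Y σ ξ) {i j : ℕ} (hi : j0 ≤ i) (hij : i < j) : ξ i < ξ j := by
  by_contra h
  push Not at h
  have h1 := g.below i hi (ξ j) (by linarith [g.lo j (by omega), g.Dpos]) h
  rw [g.hit j (by omega)] at h1
  exact absurd (g.mono hij) (not_lt.2 h1)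

lemma sub_le (g : Geo φ a b Δ L T j0 Y σ ξ) (j : ℕ) :
    ∀ i ≤ T, σ (j + i) - σ j ≤ L * i * (2 * Y j) := by
  intro i
  induction i with
  | zero => intro _; simp
  | succ i ih =>
    intro hi
    have h1 := ih (by omega)
    have h2 := g.win (j + i) j (by omega) (by omega)
    have h3 := g.Lge
    rw [← add_assoc, g.succ]
    push_cast
    nlinarith

end Geo

end Pool.Agent.P.MP_c161d8_an
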