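import Pool.Agent.P.MP_c161d8_an.Geo

set_option autoImplicit false

namespace Pool.Agent.P.MP_c161d8_an

open Finset Complex

/-- Bound on the closed region. -/
def StU (g : ℂ → ℂ) (φ : ℝ → ℝ) (a ξ s M : ℝ) : Prop := ∀ z ∈ CReg φ a ξ s, ‖g z‖ ≤ M

/-- Smallness along the upper side of the region. -/
def StA (h : ℂ → ℂ) (ξ s Y ε : ℝ) : Prop :=
  ∀ x : ℝ, x ≤ ξ - Y → ∀ w, ‖w - (x + s * I)‖ ≤ Y / 32 → ‖h w‖ ≤ ε

/-- Smallness in the far left box. -/
def StL (h : ℂ → ℂ) (x0 y0 y1 ε : ℝ) : Prop :=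
  ∀ z : ℂ, z.re ≤ x0 → y0 ≤ z.im → z.im ≤ y1 → ‖h z‖ ≤ ε

section

variable {φ : ℝ → ℝ} {a b Δ L : ℝ} {T j0 : ℕ} {Y σ ξ : ℕ → ℝ} {S : Set ℕ} {r : ℕ → ℝ}
  {F : Finset ℕ} {c : ℕ → ℝ} {co : ℕ → ℂ} {δ : ℝ}

lemma ctl (g : Geo φ a b Δ L T j0 Y σ ξ) {j : ℕ} (hj : j0 ≤ j) {c0 M ε ρ x : ℝ}
    (hU : StU (ev F co) φ a (ξ j) (σ j + Y j) M) (hA : StA (hi F co c0) (ξ j) (σ j + Y j) (Y j) ε)
    (hε : ε ≤ M) (hρ : ρ ≤ Y j / 64) (h1 : a + Y j ≤ x) (h2 : x ≤ ξ j - Y j) :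
    ∀ w, ‖w - (x + (σ j + Y j - Y j / 64 : ℝ) * I)‖ ≤ ρ → ‖lo F co c0 w‖ ≤ 2 * M := by
  intro w hw
  obtain ⟨a1, a2, a3, a4⟩ := re_im_of_norm hw
  have hY := g.pos j
  have b1 := hU w ⟨by linarith, by linarith,
    (g.below j hj _ (by linarith) (by linarith)).trans (by linarith), by linarith⟩
  have b2 := hA x h2 w (by
    have e : w - (x + (σ j + Y j : ℝ) * I) =
        (w - (x + (σ j + Y j - Y j / 64 : ℝ) * I)) - (Y j / 64 : ℝ) * I := by push_cast; ring
    rw [e]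
    refine (norm_sub_le _ _).trans ?_
    rw [norm_mul, norm_I, mul_one, Complex.norm_real, Real.norm_of_nonneg (by positivity)]
    linarith)
  exact (norm_lo_le b1 b2).trans (by linarith)

lemma stepL (g : Geo φ a b Δ L T j0 Y σ ξ) (hr : Sc S T r) (hT : 2 ≤ T)
    (hF : ∀ p ∈ F, p = 0 ∨ p ∈ S) (hc : Cut T F c) (hδ : 0 < δ) {j : ℕ} (hj : j0 ≤ j)
    {M0 m ε : ℝ} (hM0 : 1 ≤ M0) (hM0' : φ b - φ a + 2 ≤ M0 * Δ) (hm : 0 ≤ m)
    (hU : StU (ev F co) φ a (ξ (j + T)) (σ (j + T) + Y (j + T)) (δ * Real.exp m))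
    (hA : StA (hi F co (c (j + T))) (ξ (j + T)) (σ (j + T) + Y (j + T)) (Y (j + T)) ε)
    (hε : ε ≤ δ * Real.exp m) (hρ : r (j + T) ≤ Y (j + T) / 64)
    (hL : StL (hi F co (c (j + T))) (a + 3 * Δ) (φ a - 1) (φ b + 1)
      (δ * Real.exp (-(2 ^ (j + T) * Δ / 2))))
    (hbig : 2 + m + Cmid T (M0 + 1) * (2 ^ j * r j) ≤ 2 ^ j * Δ / 2) :
    StL (hi F co (c j)) (a + 3 * Δ) (φ a - 1) (φ b + 1) (δ * Real.exp (-(2 ^ j * Δ / 2))) := by
  intro z h1 h2 h3
  have hi' : j0 ≤ j + T := by omega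
  have hY := g.pos (j + T)
  have hYΔ := g.Y_le hi'
  have hΔ := g.Dpos
  have hlo := g.lo _ hi'
  have hctl := ctl g hi' hU hA hε hρ (x := ξ (j + T) - Y (j + T)) (by linarith) le_rfl
  set q : ℂ := ((ξ (j + T) - Y (j + T) : ℝ) : ℂ) +
    (σ (j + T) + Y (j + T) - Y (j + T) / 64 : ℝ) * I with hq
  have hqre : q.re = ξ (j + T) - Y (j + T) := by simp [hq]
  have hqim : q.im = σ (j + T) + Y (j + T) - Y (j + T) / 64 := by simp [hq]
  have hX : Δ ≤ q.re - z.re := by rw [hqre]; linarith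
  have h4 := mid_bound hr (by omega) hF hc co (M := M0 + 1) (by linarith) j q hctl z
    (cone_of (by linarith) (by
      have b1 := g.s_le (j + T)
      have b2 := g.ge _ hi'
      have b3 := g.ge'
      have b4 : M0 * Δ ≤ M0 * (q.re - z.re) := by gcongr
      rw [abs_le, hqim]; constructor <;> linarith))
  refine h4.trans ((add_le_add (hL z h1 h2 h3) le_rfl).trans ?_)
  have h2j : (0 : ℝ) < 2 ^ j := by positivity
  have h5 : (2 : ℝ) ^ (j + 1) ≤ 2 ^ (j + T) := pow_le_pow_right₀ (by norm_num) (by omega)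
  rw [pow_succ] at h5
  apply num_kill hδ hm (mul_nonneg (Cmid_nonneg T (by linarith)) (hr.one_le j |>.trans' zero_le_one))
  · nlinarith
  · nlinarith
  · exact hbig

lemma stepA (g : Geo φ a b Δ L T j0 Y σ ξ) (hr : Sc S T r) (hT : 2 ≤ T)
    (hF : ∀ p ∈ F, p = 0 ∨ p ∈ S) (hc : Cut T F c) (hδ : 0 < δ) {j k : ℕ} (hj : j0 ≤ j)
    {m G G1 : ℝ} (hm : 0 ≤ m) (hk : 128 * (L * T + 1) ≤ 2 ^ k)
    (hU : StU (ev F co) φ a (ξ (j + T)) (σ (j + T) + Y (j + T)) (δ * Real.exp m))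
    (hA : StA (hi F co (c (j + T))) (ξ (j + T)) (σ (j + T) + Y (j + T)) (Y (j + T))
      (δ * Real.exp (-G1)))
    (hρ : 2 ^ T * r (j + T) ≤ Y (j + T) / 1344)
    (hL : StL (hi F co (c j)) (a + 3 * Δ) (φ a - 1) (φ b + 1) (δ * Real.exp (-(2 ^ j * Δ / 2))))
    (hY1 : 1 ≤ 2 ^ j * Y j)
    (hG1 : 2 ^ (254 * (k + 1)) * 2 ^ k * (2 ^ j * Y j) ≤ G1)
    (hbig : 2 + m + Cmid T 2 * (2 ^ j * r j) ≤ 2 ^ j * Y j)
    (hG : m + 2 + Cmid T 1 * (2 ^ j * r j) + G ≤ 2 ^ j * Y j / 2 ^ (254 * (k + 1)))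
    (hG' : G ≤ 2 ^ j * Y j / 2) :
    StA (hi F co (c j)) (ξ j) (σ j + Y j) (Y j) (δ * Real.exp (-G)) := by
  intro x hx w hw
  have hi' : j0 ≤ j + T := by omega
  have hY := g.pos j
  have hY' := g.pos (j + T)
  have hYΔ := g.Y_le hj
  have hΔ := g.Dpos
  have h2j : (0 : ℝ) < 2 ^ j := by positivity
  have h2T : (1 : ℝ) ≤ 2 ^ T := one_le_pow₀ (by norm_num)
  have hrT := hr.pos (j + T)
  by_cases hxΔ : x ≤ a + 2 * Δ
  · obtain ⟨a1, a2, a3, a4⟩ := re_im_of_norm hw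
    have b1 := g.s_le j
    have b2 := g.ge j hj
    have b3 := g.ge'
    have b4 := g.Dle
    refine (hL w (by linarith) (by linarith) (by linarith)).trans ?_
    have b5 : 2 ^ j * Y j ≤ 2 ^ j * Δ := by gcongr; linarith
    gcongr
    linarith
  push Not at hxΔ
  set H := σ (j + T) + Y (j + T) - σ j with hH
  have hw1 := g.win (j + T) j le_rfl (by omega)
  have hw2 := g.win j (j + T) (by omega) le_rfl
  have hH1 : 14 * Y j ≤ H := by
    have b1 := g.lt_succ j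
    have b2 : σ (j + 1) ≤ σ (j + T) := g.mono.monotone (by omega)
    linarith
  have hH2 : H ≤ Δ := by linarith [g.s_le (j + T), g.ge j hj]
  have hH3 : 64 * H ≤ 2 ^ k * Y j := by
    have b1 := g.sub_le j T le_rfl
    have b2 : 128 * (L * T + 1) * Y j ≤ 2 ^ k * Y j := by gcongr
    nlinarith
  have h2k : (0 : ℝ) < 2 ^ k := by positivity
  obtain ⟨hR, hp⟩ := reach_box (x := x) (σ := σ j) (H := H) (Y := Y j) (Y' := Y (j + T))
    (r := 2 ^ T * r (j + T)) (k := k) (by positivity) hρ (by linarith) hH1 hw1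
    (by nlinarith) (by nlinarith)
  have hξ : ξ j ≤ ξ (j + T) := (g.xi_lt hj (by omega)).le
  have hs : σ j + H = σ (j + T) + Y (j + T) := by rw [hH]; ring
  have hG10 : 2 * (2 ^ j * Y j) ≤ G1 := by
    refine le_trans ?_ hG1
    have b1 : (1 : ℝ) ≤ 2 ^ k := one_le_pow₀ (by norm_num)
    have b2 : (2 : ℝ) ^ 1 ≤ 2 ^ (254 * (k + 1)) := pow_le_pow_right₀ (by norm_num) (by omega)
    have b3 : (2 : ℝ) ≤ 2 ^ (254 * (k + 1)) * 2 ^ k := by nlinarith
    gcongr
  have hstart : ∀ w : ℂ, ‖w - (((x - H : ℝ) : ℂ) + (σ j + H - Y (j + T) / 64 : ℝ) * I)‖ ≤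
      6 * (Y (j + T) / 1344) → ‖hi F co (c (j + T)) w‖ ≤ δ * Real.exp (-G1) := by
    intro w hw
    apply hA (x - H) (by linarith) w
    have e : w - ((x - H : ℝ) + (σ (j + T) + Y (j + T) : ℝ) * I) =
        (w - (((x - H : ℝ) : ℂ) + (σ j + H - Y (j + T) / 64 : ℝ) * I)) -
          (Y (j + T) / 64 : ℝ) * I := by rw [← hs]; push_cast; ring
    rw [e]
    refine (norm_sub_le _ _).trans ?_
    rw [norm_mul, norm_I, mul_one, Complex.norm_real, Real.norm_of_nonneg (by positivity)]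
    linarith
  have key := jump_scaled hr (by omega) hF hc co j hδ hm (G1 := G1) (G2 := 2 ^ j * Y j)
    (Dm := 3 * H) (W := Box (x - 3 * H / 2) (x + Y j) (σ j) (σ j + H))
    (fun w hw => hU w ⟨by linarith [hw.1], by linarith [hw.2.1],
      (g.below j hj _ (by linarith [hw.1]) (by linarith [hw.2.1])).trans hw.2.2.1,
      by linarith [hw.2.2.2]⟩)
    (fun w hw => by
      refine (norm_sub_pt_le (u := 2 * H) (v := H) ?_ ?_).trans (by linarith)
      · rw [abs_le]; constructor <;> linarith [hw.1, hw.2.1]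
      · rw [abs_le]; constructor <;> linarith [hw.2.2.1, hw.2.2.2])
    hR hp
    (by
      refine le_trans ?_ hG1
      rw [mul_assoc (2 ^ (254 * (k + 1)))]
      refine mul_le_mul_of_nonneg_left ?_ (by positivity)
      have b1 : 2 ^ j * (64 * H) ≤ 2 ^ j * (2 ^ k * Y j) := by gcongr
      have b2 : (128 : ℝ) ≤ 2 ^ k := by
        have : 0 ≤ L * T := by have := g.Lge; positivity
        linarith
      nlinarith)
    hstart (by positivity)
    (by
      intro w hw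
      simp only at hw
      obtain ⟨a1, a2, a3, a4⟩ := re_im_of_norm hw
      have hε : δ * Real.exp (-G1) ≤ δ * Real.exp m := by gcongr; linarith
      have hctl := ctl g hi' hU hA hε (ρ := r (j + T)) (by nlinarith) (x := x - H / 2)
        (by linarith) (by linarith)
      set q : ℂ := ((x - H / 2 : ℝ) : ℂ) +
        (σ (j + T) + Y (j + T) - Y (j + T) / 64 : ℝ) * I with hq
      have hqre : q.re = x - H / 2 := by simp [hq]
      have hqim : q.im = σ (j + T) + Y (j + T) - Y (j + T) / 64 := by simp [hq]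
      have hX : 2 * Y j ≤ q.re - w.re := by rw [hqre]; linarith
      have h4 := mid_bound hr (by omega) hF hc co (M := 1 + 1) (by norm_num) j q hctl w
        (cone_of (by linarith) (by rw [abs_le, hqim]; constructor <;> linarith))
      rw [one_add_one_eq_two] at h4
      refine h4.trans ((add_le_add (hstart w (by linarith)) le_rfl).trans ?_)
      apply num_kill hδ hm
        (mul_nonneg (Cmid_nonneg T (by norm_num)) (hr.one_le j |>.trans' zero_le_one)) hG10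
      · nlinarith
      · exact hbig)
    w hw
  refine key.trans ?_
  gcongr
  linarith

lemma theta (g : Geo φ a b Δ L T j0 Y σ ξ) (hφ : Continuous φ) (hL : L = 3 * rho0 + 2)
    (hδ : 0 < δ) {j : ℕ} (hj : j0 ≤ j) {m m' : ℝ} (hm : 16 ≤ m) (hm0 : 0 ≤ m') (hm' : m' ≤ 4 * m)
    (hsmall : ∀ z : ℂ, a ≤ z.re → z.re ≤ b → z.im = φ z.re → ‖ev F co z‖ ≤ δ)
    (hU : StU (ev F co) φ a (ξ (j + 1)) (σ (j + 1) + Y (j + 1)) (δ * Real.exp m')) (p : ℂ)
    (h1 : ξ j - 3 * Y j / 2 ≤ p.re) (h2 : p.re ≤ ξ j) (h3 : σ j ≤ p.im) (h3' : φ p.re < p.im)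
    (h4 : p.im ≤ σ j + 3 * Y j / 2) :
    ‖ev F co p‖ ≤ δ * Real.exp (m / 2) := by
  have hY := g.pos j
  have hY' := g.pos (j + 1)
  have hYΔ := g.Y_le hj
  have hLY := g.LY_le hj
  have hΔ := g.Dpos
  have hlo := g.lo j hj
  have hhi := g.hi j hj
  have hhi' := g.hi (j + 1) (by omega)
  have hξ := g.xi_lt hj (Nat.lt_succ_self j)
  have hs := g.succ j
  have hs' := g.lt_succ j
  obtain ⟨R, hR⟩ := creg_bound hφ a b
  refine le_trans ?_ (num_theta hδ hm hm')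
  refine two_const_exp (differentiable_ev F co) (isOpen_reg hφ a (ξ (j + 1)) (σ (j + 1) + Y (j + 1)))
    ?_ ⟨by linarith, by linarith, h3', by linarith⟩ (l := 3 * Y j) (by positivity) hδ hm0 ?_ ?_
  · refine (Metric.isBounded_closedBall (x := (0 : ℂ)) (r := R)).subset fun z hz => ?_
    rw [mem_closedBall_zero_iff]
    exact hR z ⟨hz.1.le, by linarith [hz.2.1], hz.2.2.1.le,
      by linarith [hz.2.2.2, g.s_le (j + 1)]⟩
  · intro ζ hζ
    obtain ⟨b1, b2⟩ := frontier_reg hφ hζ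
    have hre := re_le_norm (p - ζ)
    have him := im_le_norm (ζ - p)
    rw [sub_re, norm_sub_rev] at hre
    rw [sub_im] at him
    rcases creg_cases b1 b2 with h | h | h | h
    · exact Or.inr ⟨by rw [hL] at hLY; linarith, hU ζ b1⟩
    · refine Or.inr ⟨?_, hU ζ b1⟩
      have b3 := b1.2.2.1
      rw [h, g.hit _ (by omega)] at b3
      rw [hL] at hs; linarith
    · exact Or.inl (hsmall ζ b1.1 (by linarith [b1.2.1]) h)
    · exact Or.inr ⟨by rw [hL] at hs; linarith, hU ζ b1⟩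
  · intro s hs
    have hcont : Continuous fun x : ℝ => (x : ℂ) + φ x * I := by fun_prop
    have hΓ : IsPreconnected ((fun x : ℝ => (x : ℂ) + φ x * I) '' Set.Icc a b) :=
      isPreconnected_Icc.image _ hcont.continuousOn
    obtain ⟨z, ⟨x, hx, rfl⟩, hz⟩ := exists_norm_eq hΓ (p := p) (s := s)
      ⟨ξ j, ⟨by linarith, hhi⟩, rfl⟩ ⟨a, ⟨le_rfl, by linarith⟩, rfl⟩
      (by
        rw [norm_sub_rev]
        refine (norm_sub_pt_le (u := 3 * Y j / 2) (v := 3 * Y j / 2) ?_ ?_).trans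
          (by linarith [hs.1])
        · rw [abs_le]; constructor <;> linarith
        · rw [g.hit j hj, abs_le]; constructor <;> linarith)
      (by
        have := re_le_norm (p - ((a : ℂ) + φ a * I))
        rw [norm_sub_rev] at this
        simp only [sub_re, add_re, ofReal_re, mul_re, I_re, mul_zero, ofReal_im, I_im, mul_one,
          sub_self, add_zero] at this
        linarith [hs.2])
    exact ⟨_, hz, hsmall _ (by simpa using hx.1) (by simpa using hx.2) (by simp)⟩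

lemma stepU (g : Geo φ a b Δ L T j0 Y σ ξ) (hφ : Continuous φ) (hL : L = 3 * rho0 + 2)
    (hr : Sc S T r) (hF : ∀ p ∈ F, p = 0 ∨ p ∈ S) (hc : Cut T F c)
    (hδ : 0 < δ) {j : ℕ} (hj : j0 ≤ j) {m m' M0 : ℝ} (hm : 16 ≤ m) (hm0 : 0 ≤ m')
    (hm' : m' ≤ 4 * m) (hM0 : 1 ≤ M0) (hM0' : φ b - φ a + 2 ≤ M0 * Δ)
    (hsmall : ∀ z : ℂ, a ≤ z.re → z.re ≤ b → z.im = φ z.re → ‖ev F co z‖ ≤ δ)
    (hU : StU (ev F co) φ a (ξ (j + 1)) (σ (j + 1) + Y (j + 1)) (δ * Real.exp m'))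
    (hA : StA (hi F co (c j)) (ξ j) (σ j + Y j) (Y j) δ)
    (hLam : StL (hi F co (c j)) (a + 3 * Δ) (φ a - 1) (φ b + 1) δ)
    (hρ : r j ≤ Y j / 32)
    (hbig : 2 * (2 ^ j * r j * (5 + 3 * Real.log (1 + 9 * (M0 + 1)))) + 4 ≤ m) :
    StU (ev F co) φ a (ξ j) (σ j + Y j) (δ * Real.exp m) := by
  have hY := g.pos j
  have hYΔ := g.Y_le hj
  have hΔ := g.Dpos
  have hlo := g.lo j hj
  have hhi := g.hi j hj
  have hθ := theta g hφ hL hδ hj hm hm0 hm' hsmall hU
  have hδm : δ ≤ δ * Real.exp (m / 2) :=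
    le_mul_of_one_le_right hδ.le (Real.one_le_exp (by linarith))
  have hδm' : δ * Real.exp (m / 2) ≤ δ * Real.exp m := by gcongr; linarith
  set q : ℂ := ((ξ j - Y j : ℝ) : ℂ) + (σ j + Y j : ℝ) * I with hq
  have hqre : q.re = ξ j - Y j := by simp [hq]
  have hqim : q.im = σ j + Y j := by simp [hq]
  have hctl : ∀ w, ‖w - q‖ ≤ r j → ‖lo F co (c j) w‖ ≤ 2 * (δ * Real.exp (m / 2)) := by
    intro w hw
    obtain ⟨a1, a2, a3, a4⟩ := re_im_of_norm hw
    have b1 := hθ w (by linarith) (by linarith) (by linarith)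
      ((g.below j hj _ (by linarith) (by linarith)).trans_lt (by linarith)) (by linarith)
    have b2 := hA _ le_rfl w (hw.trans hρ)
    exact (norm_lo_le b1 b2).trans (by linarith)
  have hcone : ∀ z : ℂ, 0 ≤ q.re - z.re → |z.im - q.im| ≤ M0 * (q.re - z.re) →
      ‖hi F co (c j) z‖ ≤ δ → ‖ev F co z‖ ≤ δ * Real.exp m := by
    intro z h1 h2 h3
    have b1 := cone_bound hr hF hc co (M := M0 + 1) (by linarith) j q hctl z (cone_of h1 h2)
    refine (norm_ev_le b1 h3).trans (num_cone hδ ?_ hbig)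
    have : 0 ≤ Real.log (1 + 9 * (M0 + 1)) := Real.log_nonneg (by linarith)
    have := hr.pos j
    positivity
  have hbd : ∀ z ∈ CReg φ a (ξ j) (σ j + Y j), z ∉ Reg φ a (ξ j) (σ j + Y j) →
      ‖ev F co z‖ ≤ δ * Real.exp m := by
    intro z hz hz'
    obtain ⟨z1, z2, z3, z4⟩ := id hz
    by_cases hg : z.im = φ z.re
    · exact (hsmall z z1 (by linarith) hg).trans (hδm.trans hδm')
    have hg' : φ z.re < z.im := lt_of_le_of_ne z3 (Ne.symm hg)
    rcases creg_cases hz hz' with h | h | h | h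
    · have b1 := g.s_le j
      have b2 := g.ge j hj
      have b3 := g.ge'
      rw [h] at z3
      have b4 : M0 * Δ ≤ M0 * (q.re - z.re) := by gcongr; linarith
      exact hcone z (by linarith) (by rw [abs_le]; constructor <;> linarith)
        (hLam z (by linarith) (by linarith) (by linarith))
    · refine (hθ z (by linarith) z2 ?_ hg' (by linarith)).trans hδm'
      rw [h, g.hit j hj] at z3; exact z3
    · exact absurd h hg
    · by_cases hx : z.re ≤ ξ j - Y j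
      · refine hcone z (by linarith) ?_ (hA z.re hx z ?_)
        · rw [h, hqim, sub_self, abs_zero]; exact mul_nonneg (by linarith) (by linarith)
        · rw [← h, re_add_im, sub_self, norm_zero]; positivity
      · exact (hθ z (by linarith) z2 (by linarith) hg' (by linarith)).trans hδm'
  intro z hz
  by_cases hz' : z ∈ Reg φ a (ξ j) (σ j + Y j)
  · obtain ⟨R, hR⟩ := creg_bound hφ a b
    refine Complex.norm_le_of_forall_mem_frontier_norm_le (U := Reg φ a (ξ j) (σ j + Y j)) ?_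
      (differentiable_ev F co).diffContOnCl (fun ζ hζ => ?_) (subset_closure hz')
    · refine (Metric.isBounded_closedBall (x := (0 : ℂ)) (r := R)).subset fun z hz => ?_
      rw [mem_closedBall_zero_iff]
      exact hR z ⟨hz.1.le, by linarith [hz.2.1], hz.2.2.1.le, by linarith [hz.2.2.2, g.s_le j]⟩
    · exact hbd ζ (frontier_reg hφ hζ).1 (frontier_reg hφ hζ).2
  · exact hbd z hz hz'

end

end Pool.Agent.P.MP_c161d8_an
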