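import Pool.Agent.P.MP_c161d8_an.Graph

set_option autoImplicit false

namespace Pool.Agent.P.MP_c161d8_an

open Finset Complex

/-- The estimate for the graph of a continuous function. -/
theorem est_graph {S : Set ℕ} (hS : Summable (fun p : S => (1 : ℝ) / ((p : ℕ) : ℝ)))
    {φ : ℝ → ℝ} (hφ : Continuous φ) {a b : ℝ} (hab : a ≤ b) (hlt : φ a < φ b) :
    Est S {z | a ≤ z.re ∧ z.re ≤ b ∧ z.im = φ z.re} := by
  obtain ⟨Δ, hΔ, hgeo⟩ := exists_geo hφ hab hlt
  have hρ := four_le_rho0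
  obtain ⟨T, k, hT, hk, hkT⟩ := exists_params (L := 3 * rho0 + 2) (by linarith)
  obtain ⟨r, hr⟩ := exists_scale hS hT
  obtain ⟨n0, hn0⟩ : ∃ n0, n0 = 254 * (k + 1) := ⟨_, rfl⟩
  obtain ⟨M0, hM01, hM0'⟩ : ∃ M0 : ℝ, 1 ≤ M0 ∧ φ b - φ a + 2 ≤ M0 * Δ := by
    refine ⟨(φ b - φ a + 2) / Δ + 1, ?_, ?_⟩
    · have : 0 ≤ (φ b - φ a + 2) / Δ := div_nonneg (by linarith) hΔ.le
      linarith
    · rw [add_mul, div_mul_cancel₀ _ hΔ.ne']; linarith
  obtain ⟨C3, hC3⟩ : ∃ C3, C3 = 5 + 3 * Real.log (1 + 9 * (M0 + 1)) := ⟨_, rfl⟩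
  have hC30 : 0 ≤ C3 := by
    have : 0 ≤ Real.log (1 + 9 * (M0 + 1)) := Real.log_nonneg (by linarith)
    linarith
  obtain ⟨C1, hC1⟩ : ∃ C1, C1 = 2 * C3 + 16 := ⟨_, rfl⟩
  have hC116 : 16 ≤ C1 := by linarith
  have c1 := Cmid_nonneg T (M := M0 + 1) (by linarith)
  have c2 := Cmid_nonneg T (M := 2) (by norm_num)
  have c3 := Cmid_nonneg T (M := 1) le_rfl
  obtain ⟨K0, hK0⟩ : ∃ K0, K0 = 2 + 2 ^ (T + 1) * C1 + Cmid T (M0 + 1) + Cmid T 2 + Cmid T 1 :=
    ⟨_, rfl⟩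
  have hK02 : 2 ≤ K0 := by
    have : 0 ≤ 2 ^ (T + 1) * C1 := by positivity
    linarith
  obtain ⟨A, hA⟩ : ∃ A : ℝ, A = 2 ^ (n0 + 1) * K0 + 1344 * 2 ^ T := ⟨_, rfl⟩
  have h2T : (1 : ℝ) ≤ 2 ^ T := one_le_pow₀ (by norm_num)
  have h2n : (1 : ℝ) ≤ 2 ^ n0 := one_le_pow₀ (by norm_num)
  have hA1 : 1344 * 2 ^ T ≤ A := by
    have : 0 ≤ 2 ^ (n0 + 1) * K0 := by positivity
    linarith
  have hA2 : 2 ^ (n0 + 1) * K0 ≤ A := by linarith
  have hA3 : 1344 ≤ A := by linarith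
  have hA0 : 0 < A := by linarith
  obtain ⟨j0, σ, ξ, g⟩ := hgeo (3 * rho0 + 2) T (fun j => A * r j) (by linarith)
    (fun j => mul_pos hA0 (hr.pos j)) (hr.summable.mul_left A)
    (fun i j h1 h2 => by have := hr.win i j h1 h2; nlinarith)
  set Y : ℕ → ℝ := fun j => A * r j with hY
  have hn1 := hr.one_le
  refine ⟨2 * Real.exp (C1 * (2 ^ j0 * r j0)) *
    ((nodes S j0).card / r j0 + 2 ^ (j0 + 3)) ^ (nodes S j0).card, ?_⟩
  intro F co δ hδ h0F hF hsm
  have hsmall : ∀ z : ℂ, a ≤ z.re → z.re ≤ b → z.im = φ z.re → ‖ev F co z‖ ≤ δ :=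
    fun z h1 h2 h3 => hsm z ⟨h1, h2, h3⟩
  obtain ⟨c, hc⟩ := exists_cut' T F
  set G : ℕ → ℝ := fun j => A * (2 ^ j * r j) / 2 ^ (n0 + 1) with hG
  have hG0 : ∀ j, 0 ≤ G j := fun j => by have := hr.pos j; positivity
  have hm0 : ∀ j, 0 ≤ C1 * (2 ^ j * r j) := fun j => by have := hr.pos j; positivity
  have hε : ∀ j, δ * Real.exp (-G j) ≤ δ * Real.exp (C1 * (2 ^ j * r j)) := fun j => by
    gcongr; linarith [hG0 j, hm0 j]
  have hρ64 : ∀ j, r j ≤ Y j / 64 := fun j => by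
    have := hr.pos j; simp only [hY]; nlinarith
  let St : ℕ → Prop := fun j =>
    StU (ev F co) φ a (ξ j) (σ j + Y j) (δ * Real.exp (C1 * (2 ^ j * r j))) ∧
    StA (hi F co (c j)) (ξ j) (σ j + Y j) (Y j) (δ * Real.exp (-G j)) ∧
    StL (hi F co (c j)) (a + 3 * Δ) (φ a - 1) (φ b + 1) (δ * Real.exp (-(2 ^ j * Δ / 2)))
  obtain ⟨R, hR⟩ := creg_bound hφ a b
  obtain ⟨J, hJ⟩ := exists_top hr hc co hδ (C := C1) (by linarith) R
  have hSt : St j0 := by
    refine down_ind (J := J) (fun j hj hJj => ?_) (fun j hj ih => ?_)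
    · obtain ⟨h1, h2⟩ := hJ j hJj
      refine ⟨fun z hz => h2 z (hR z ⟨hz.1, hz.2.1.trans (g.hi j hj), hz.2.2.1,
        hz.2.2.2.trans (g.s_le j)⟩), fun x _ w _ => ?_, fun z _ _ _ => ?_⟩ <;>
      · rw [h1, norm_zero]; positivity
    · obtain ⟨i1, i2, i3⟩ := ih (j + T) (by omega)
      have hnj := hn1 j
      have hadd := hr.add_le j
      have hle := hr.le_add j
      have h2j : (0 : ℝ) < 2 ^ j := by positivity
      have hYn : 2 ^ j * Y j = A * (2 ^ j * r j) := by simp only [hY]; ring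
      have hmT : C1 * (2 ^ (j + T) * r (j + T)) ≤ 2 ^ (T + 1) * C1 * (2 ^ j * r j) := by
        nlinarith
      have hKG : K0 * (2 ^ j * r j) ≤ G j := by
        simp only [hG]
        rw [le_div_iff₀ (by positivity)]
        nlinarith
      have hGA : 2 * G j = A * (2 ^ j * r j) / 2 ^ n0 := by
        simp only [hG]; rw [pow_succ]; field_simp
      have hGA' : 2 * G j ≤ A * (2 ^ j * r j) := by
        rw [hGA]; exact div_le_self (by positivity) h2n
      have d1 := mul_nonneg c1 (zero_le_one.trans hnj)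
      have d2 := mul_nonneg c2 (zero_le_one.trans hnj)
      have d3 := mul_nonneg c3 (zero_le_one.trans hnj)
      have hK0n : K0 * (2 ^ j * r j) = 2 * (2 ^ j * r j) + 2 ^ (T + 1) * C1 * (2 ^ j * r j) +
          Cmid T (M0 + 1) * (2 ^ j * r j) + Cmid T 2 * (2 ^ j * r j) +
          Cmid T 1 * (2 ^ j * r j) := by rw [hK0]; ring
      have sL := stepL g hr hT hF hc hδ hj hM01 hM0' (hm0 _) i1 i2 (hε _) (hρ64 _) i3 (by
        have b1 : 2 ^ j * Y j ≤ 2 ^ j * Δ := by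
          have := g.Y_le hj
          have := g.pos j
          gcongr; linarith
        linarith)
      have sA := stepA g hr hT hF hc hδ hj (k := k) (G := G j) (hm0 _) hk i1 i2
        (by
          have := hr.pos (j + T)
          simp only [hY]; nlinarith)
        sL (by rw [hYn]; nlinarith)
        (by
          simp only [hG]
          rw [hYn, le_div_iff₀ (by positivity), ← hn0]
          have b1 : (2 : ℝ) ^ (n0 + k + (n0 + 1) + 1) ≤ 2 ^ T :=
            pow_le_pow_right₀ (by norm_num) (by omega)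
          rw [pow_succ, pow_add, pow_add] at b1
          calc 2 ^ n0 * 2 ^ k * (A * (2 ^ j * r j)) * 2 ^ (n0 + 1)
              = A * ((2 ^ n0 * 2 ^ k * 2 ^ (n0 + 1) * 2) * (2 ^ j * r j)) / 2 := by ring
            _ ≤ A * (2 ^ T * (2 ^ j * r j)) / 2 := by gcongr
            _ ≤ A * (2 * (2 ^ (j + T) * r (j + T))) / 2 := by gcongr
            _ = _ := by ring)
        (by rw [hYn]; linarith [hG0 j]) (by rw [hYn, ← hn0, ← hGA]; linarith)
        (by rw [hYn]; linarith)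
      refine ⟨stepU g hφ rfl hr hF hc hδ hj (m' := C1 * (2 ^ (j + 1) * r (j + 1))) (by nlinarith)
        (hm0 _) (by have := hr.succ_le (by omega) j; nlinarith) hM01 hM0' hsmall
        (ih (j + 1) (by omega)).1 (fun x hx w hw => (sA x hx w hw).trans ?_)
        (fun z h1 h2 h3 => (sL z h1 h2 h3).trans ?_)
        ((hρ64 j).trans (by linarith [g.pos j])) (by rw [← hC3]; nlinarith), sA, sL⟩
      · exact mul_le_of_le_one_right hδ.le (Real.exp_le_one_iff.2 (by linarith [hG0 j]))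
      · exact mul_le_of_le_one_right hδ.le (Real.exp_le_one_iff.2 (by
          have : 0 ≤ 2 ^ j * Δ / 2 := by positivity
          linarith))
  have hctl := ctl g le_rfl hSt.1 hSt.2.1 (hε _) (hρ64 _) (x := ξ j0 - Y j0)
    (by linarith [g.lo j0 le_rfl, g.Y_le le_rfl, g.pos j0]) le_rfl
  refine (const_bound hr hF h0F hc co j0 _ hctl).trans (le_of_eq ?_)
  ring

end Pool.Agent.P.MP_c161d8_an
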