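import Mathlib

set_option autoImplicit false

namespace Pool.Agent.P.MP_c161d8_an

open Complex

/-- Three circles theorem for radii `ρ, 2ρ, 4ρ`. -/
lemma three_circ {F : ℂ → ℂ} (hF : Differentiable ℂ F) (z : ℂ) {ρ M G : ℝ} (hρ : 0 < ρ)
    (hM : 0 ≤ M) (hG : 0 ≤ G)
    (h4 : ∀ w, ‖w - z‖ ≤ 4 * ρ → ‖F w‖ ≤ M)
    (h1 : ∀ w, ‖w - z‖ ≤ ρ → ‖F w‖ ≤ M * Real.exp (-G)) :
    ∀ w, ‖w - z‖ ≤ 2 * ρ → ‖F w‖ ≤ M * Real.exp (-(G / 2)) := by
  intro w hw
  by_cases hw1 : ‖w - z‖ ≤ ρ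
  · refine (h1 w hw1).trans ?_
    gcongr
    linarith
  push Not at hw1
  have hw0 : w - z ≠ 0 := by
    intro h; rw [h, norm_zero] at hw1; linarith
  have hnpos : 0 < ‖w - z‖ := by linarith
  set f : ℂ → ℂ := fun u => F (z + cexp u) with hf
  have hfd : Differentiable ℂ f := hF.comp (by fun_prop)
  set l := Real.log ρ with hl
  set u := Real.log (4 * ρ) with hu
  have hlog2 : 0 < Real.log 2 := Real.log_pos (by norm_num)
  have hul : u - l = 2 * Real.log 2 := by
    rw [hu, hl, Real.log_mul (by norm_num) hρ.ne', show (4 : ℝ) = 2 ^ 2 by norm_num,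
      Real.log_pow]
    push_cast; ring
  have hlu : l < u := by linarith
  have hnorm : ∀ v : ℂ, ‖z + cexp v - z‖ = Real.exp v.re := by
    intro v; rw [add_sub_cancel_left, Complex.norm_exp]
  have hre : (Complex.log (w - z)).re = Real.log ‖w - z‖ := Complex.log_re _
  have hlo : l ≤ Real.log ‖w - z‖ := Real.log_le_log hρ hw1.le
  have hhi : Real.log ‖w - z‖ ≤ l + Real.log 2 := by
    rw [hl, ← Real.log_mul hρ.ne' (by norm_num)]
    exact Real.log_le_log hnpos (by linarith)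
  have key := Complex.HadamardThreeLines.norm_le_interp_of_mem_verticalClosedStrip'
    (f := f) (z := Complex.log (w - z)) (a := M * Real.exp (-G)) (b := M) hlu
    (by
      change (Complex.log (w - z)).re ∈ Set.Icc l u
      rw [hre]; constructor <;> linarith)
    hfd.diffContOnCl
    (by
      refine ⟨M, ?_⟩
      rintro _ ⟨v, hv, rfl⟩
      apply h4
      rw [hnorm]
      have : v.re ≤ u := hv.2
      calc Real.exp v.re ≤ Real.exp u := Real.exp_le_exp.2 this
        _ = 4 * ρ := Real.exp_log (by positivity))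
    (by
      intro v hv
      apply h1
      have : v.re = l := hv
      rw [hnorm, this, hl, Real.exp_log hρ])
    (by
      intro v hv
      apply h4
      have : v.re = u := hv
      rw [hnorm, this, hu, Real.exp_log (by positivity)])
  have hfw : f (Complex.log (w - z)) = F w := by
    simp only [hf]; rw [Complex.exp_log hw0]; congr 1; ring
  rw [hfw, hre, hul] at key
  set t := (Real.log ‖w - z‖ - l) / (2 * Real.log 2) with ht
  have ht0 : 0 ≤ t := div_nonneg (by linarith) (by linarith)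
  have ht1 : t ≤ 1 / 2 := by
    rw [ht, div_le_iff₀ (by linarith)]; linarith
  refine key.trans ?_
  rw [Real.mul_rpow hM (Real.exp_pos _).le, ← Real.exp_mul, mul_right_comm,
    ← Real.rpow_add' hM (by simp)]
  simp only [sub_add_cancel, Real.rpow_one]
  gcongr
  nlinarith

/-- Chains of discs. -/
inductive Reach (Good : ℂ × ℝ → Prop) : ℕ → ℂ × ℝ → ℂ × ℝ → Prop
  | refl (p : ℂ × ℝ) : Good p → Reach Good 0 p p
  | step {n : ℕ} {p q q' : ℂ × ℝ} : Reach Good n p q → Good q' →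
      ‖q'.1 - q.1‖ + q'.2 ≤ 2 * q.2 → Reach Good (n + 1) p q'

lemma Reach.good {Good : ℂ × ℝ → Prop} {n : ℕ} {p q : ℂ × ℝ} (h : Reach Good n p q) : Good q := by
  cases h with
  | refl _ h => exact h
  | step _ h _ => exact h

lemma Reach.trans {Good : ℂ × ℝ → Prop} {n m : ℕ} {p q r : ℂ × ℝ} (h : Reach Good n p q)
    (h' : Reach Good m q r) : Reach Good (n + m) p r := by
  induction h' with
  | refl _ _ => exact h
  | step _ hg hs ih => exact Reach.step (ih h) hg hs

lemma Reach.mono {Good : ℂ × ℝ → Prop} (hpos : ∀ p, Good p → 0 < p.2) {n : ℕ} {p q : ℂ × ℝ}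
    (h : Reach Good n p q) {m : ℕ} (hnm : n ≤ m) : Reach Good m p q := by
  induction hnm with
  | refl => exact h
  | step _ ih =>
    refine Reach.step ih h.good ?_
    have := hpos q h.good
    simp only [sub_self, norm_zero]; linarith

/-- Propagation of smallness along a chain of discs. -/
lemma Reach.propagate {Good : ℂ × ℝ → Prop} (hpos : ∀ p, Good p → 0 < p.2)
    {F : ℂ → ℂ} (hF : Differentiable ℂ F) {lam M : ℝ} (hlam : 1 ≤ lam) (hM : 0 ≤ M)
    {n : ℕ} {p q : ℂ × ℝ} (h : Reach Good n p q) {G : ℝ} (hG : 0 ≤ G)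
    (hb : ∀ k ≤ n, ∀ r, Reach Good k p r → ∀ w, ‖w - r.1‖ ≤ 4 * (lam * r.2) → ‖F w‖ ≤ M)
    (h1 : ∀ w, ‖w - p.1‖ ≤ lam * p.2 → ‖F w‖ ≤ M * Real.exp (-G)) :
    ∀ w, ‖w - q.1‖ ≤ lam * q.2 → ‖F w‖ ≤ M * Real.exp (-(G / 2 ^ n)) := by
  induction h with
  | refl _ _ => simpa using h1
  | @step n p q q' hr hg hs ih =>
    have ih' := ih (fun k hk => hb k (hk.trans (Nat.le_succ n))) h1
    have hq := hpos q hr.good
    have := three_circ hF q.1 (ρ := lam * q.2) (by positivity) hM (G := G / 2 ^ n)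
      (by positivity) (hb n (Nat.le_succ n) q hr) ih'
    intro w hw
    rw [pow_succ, ← div_div]
    apply this
    have h2 : ‖w - q.1‖ ≤ ‖w - q'.1‖ + ‖q'.1 - q.1‖ := by
      calc ‖w - q.1‖ = ‖(w - q'.1) + (q'.1 - q.1)‖ := by ring_nf
        _ ≤ _ := norm_add_le _ _
    have h3 : ‖q'.1 - q.1‖ ≤ lam * ‖q'.1 - q.1‖ := le_mul_of_one_le_left (norm_nonneg _) hlam
    nlinarith

/-- The admissible discs are closed under convex combinations. -/
def ConvGood (Good : ℂ × ℝ → Prop) : Prop :=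
  ∀ p q, Good p → Good q → ∀ t : ℝ, 0 ≤ t → t ≤ 1 →
    Good (p.1 + t * (q.1 - p.1), p.2 + t * (q.2 - p.2))

lemma reach_uniform {Good : ℂ × ℝ → Prop} (hc : ConvGood Good)
    (hpos : ∀ p, Good p → 0 < p.2) {p q : ℂ × ℝ} (hp : Good p) (hq : Good q) {n : ℕ}
    (hn : 1 ≤ n) (h1 : ‖q.1 - p.1‖ + |q.2 - p.2| ≤ n * p.2)
    (h2 : ‖q.1 - p.1‖ + |q.2 - p.2| ≤ n * q.2) : Reach Good n p q := by
  have hn0 : (0 : ℝ) < n := by exact_mod_cast hn
  have key : ∀ k ≤ n, Reach Good k p
      (p.1 + ((k / n : ℝ) : ℂ) * (q.1 - p.1), p.2 + (k / n : ℝ) * (q.2 - p.2)) := by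
    intro k
    induction k with
    | zero => intro _; simpa using Reach.refl p hp
    | succ k ih =>
      intro hk
      have hk' : ((k + 1 : ℕ) : ℝ) ≤ n := by exact_mod_cast hk
      have hk0 : (0 : ℝ) ≤ k := Nat.cast_nonneg k
      refine Reach.step (ih (by omega)) (hc p q hp hq _ (by positivity)
        (by rw [div_le_one hn0]; exact hk')) ?_
      simp only
      have e1 : p.1 + ((((k + 1 : ℕ) : ℝ) / n : ℝ) : ℂ) * (q.1 - p.1) -
          (p.1 + ((k / n : ℝ) : ℂ) * (q.1 - p.1)) = ((1 / n : ℝ) : ℂ) * (q.1 - p.1) := by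
        push_cast; ring
      rw [e1, norm_mul, Complex.norm_real, Real.norm_of_nonneg (by positivity)]
      set t : ℝ := k / n with ht
      have ht0 : 0 ≤ t := by positivity
      have ht1 : t ≤ 1 := by
        rw [ht, div_le_one hn0]; push_cast at hk'; linarith
      have e2 : (((k + 1 : ℕ) : ℝ) / n) = t + 1 / n := by rw [ht]; push_cast; ring
      rw [e2]
      have h3 : ‖q.1 - p.1‖ + |q.2 - p.2| ≤ n * (p.2 + t * (q.2 - p.2)) := by nlinarith
      have h4 : 1 / (n : ℝ) * (‖q.1 - p.1‖ + |q.2 - p.2|) ≤ p.2 + t * (q.2 - p.2) := by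
        rw [one_div, inv_mul_le_iff₀ hn0]; exact h3
      have h5 : 1 / (n : ℝ) * (q.2 - p.2) ≤ 1 / n * |q.2 - p.2| := by
        gcongr; exact le_abs_self _
      nlinarith
  have := key n le_rfl
  rw [div_self hn0.ne'] at this
  simpa using this

lemma reach_geom {Good : ℂ × ℝ → Prop} (hc : ConvGood Good)
    (hpos : ∀ p, Good p → 0 < p.2) (C : ℕ) (k : ℕ) : ∀ {p q : ℂ × ℝ}, Good p → Good q →
    p.2 ≤ q.2 → q.2 - p.2 ≤ 2 ^ k * p.2 → ‖q.1 - p.1‖ ≤ C * q.2 →
    Reach Good ((2 * C + 1) * (k + 1)) p q ∧ Reach Good ((2 * C + 1) * (k + 1)) q p := by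
  have hC0 : (0 : ℝ) ≤ C := Nat.cast_nonneg C
  induction k with
  | zero =>
    intro p q hp hq h1 h2 h3
    have hp0 := hpos p hp
    have habs : |q.2 - p.2| = q.2 - p.2 := abs_of_nonneg (by linarith)
    have habs' : |p.2 - q.2| = q.2 - p.2 := by rw [abs_sub_comm, habs]
    simp only [pow_zero, one_mul] at h2
    simp only [zero_add, mul_one]
    constructor
    · apply reach_uniform hc hpos hp hq (by omega) <;> rw [habs] <;> push_cast <;> nlinarith
    · apply reach_uniform hc hpos hq hp (by omega) <;> rw [habs', norm_sub_rev] <;>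
        push_cast <;> nlinarith
  | succ k ih =>
    intro p q hp hq h1 h2 h3
    have hp0 := hpos p hp
    have hm := hc p q hp hq (1 / 2) (by norm_num) (by norm_num)
    set m : ℂ × ℝ := (p.1 + ((1 / 2 : ℝ) : ℂ) * (q.1 - p.1), p.2 + (1 / 2 : ℝ) * (q.2 - p.2))
      with hmdef
    have hm2 : m.2 = p.2 + (1 / 2 : ℝ) * (q.2 - p.2) := rfl
    have e1 : ‖m.1 - p.1‖ = 1 / 2 * ‖q.1 - p.1‖ := by
      have : m.1 - p.1 = ((1 / 2 : ℝ) : ℂ) * (q.1 - p.1) := by simp only [hmdef]; ring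
      rw [this, norm_mul, Complex.norm_real, Real.norm_of_nonneg (by norm_num)]
    have e2 : ‖q.1 - m.1‖ = 1 / 2 * ‖q.1 - p.1‖ := by
      have : q.1 - m.1 = ((1 / 2 : ℝ) : ℂ) * (q.1 - p.1) := by
        simp only [hmdef]; push_cast; ring
      rw [this, norm_mul, Complex.norm_real, Real.norm_of_nonneg (by norm_num)]
    obtain ⟨a1, a2⟩ := ih hp hm (by rw [hm2]; linarith) (by rw [hm2]; rw [pow_succ] at h2; linarith)
      (by rw [e1, hm2]; nlinarith)
    have habs : |q.2 - m.2| = q.2 - m.2 := abs_of_nonneg (by rw [hm2]; linarith)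
    have habs' : |m.2 - q.2| = q.2 - m.2 := by rw [abs_sub_comm, habs]
    have b1 : Reach Good (2 * C + 1) m q := by
      apply reach_uniform hc hpos hm hq (by omega) <;> rw [habs, e2, hm2] <;> push_cast <;>
        nlinarith
    have b2 : Reach Good (2 * C + 1) q m := by
      apply reach_uniform hc hpos hq hm (by omega) <;> rw [habs', norm_sub_rev, e2, hm2] <;>
        push_cast <;> nlinarith
    constructor
    · have := a1.trans b1
      rwa [show (2 * C + 1) * (k + 1) + (2 * C + 1) = (2 * C + 1) * (k + 1 + 1) by ring] at this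
    · have := b2.trans a2
      rwa [show (2 * C + 1) + (2 * C + 1) * (k + 1) = (2 * C + 1) * (k + 1 + 1) by ring] at this

/-- Discs whose `21`-fold enlargement lies in `W`, of radius at least `r`. -/
def Disc (W : Set ℂ) (r : ℝ) (p : ℂ × ℝ) : Prop :=
  r ≤ p.2 ∧ ∀ w, ‖w - p.1‖ ≤ 21 * p.2 → w ∈ W

lemma convGood_disc {W : Set ℂ} (hW : Convex ℝ W) {r : ℝ} (hr : 0 < r) :
    ConvGood (Disc W r) := by
  intro p q hp hq t ht0 ht1
  have hp0 : 0 < p.2 := hr.trans_le hp.1
  have hq0 : 0 < q.2 := hr.trans_le hq.1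
  have hρ : r ≤ p.2 + t * (q.2 - p.2) := by nlinarith [hp.1, hq.1]
  refine ⟨hρ, fun w hw => ?_⟩
  simp only at hw
  set ρ := p.2 + t * (q.2 - p.2) with hρdef
  have hρ0 : 0 < ρ := hr.trans_le hρ
  set v := (w - (p.1 + t * (q.1 - p.1))) / ρ with hv
  have hvn : ‖v‖ ≤ 21 := by
    rw [hv, norm_div, Complex.norm_real, Real.norm_of_nonneg hρ0.le, div_le_iff₀ hρ0]; exact hw
  have h1 := hp.2 (p.1 + p.2 * v) (by
    rw [add_sub_cancel_left, norm_mul, Complex.norm_real, Real.norm_of_nonneg hp0.le]; nlinarith)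
  have h2 := hq.2 (q.1 + q.2 * v) (by
    rw [add_sub_cancel_left, norm_mul, Complex.norm_real, Real.norm_of_nonneg hq0.le]; nlinarith)
  have h3 := hW h1 h2 (a := 1 - t) (b := t) (by linarith) ht0 (by ring)
  convert h3 using 1
  have hρc : (ρ : ℂ) ≠ 0 := by exact_mod_cast hρ0.ne'
  have e : w = p.1 + t * (q.1 - p.1) + ρ * v := by rw [hv]; field_simp; ring
  rw [e, hρdef]
  simp only [Complex.real_smul]
  push_cast; ring

end Pool.Agent.P.MP_c161d8_an
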