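import Pool.Agent.P.MP_c161d8_an.Cone
import Pool.Agent.P.MP_c161d8_an.Three

set_option autoImplicit false

namespace Pool.Agent.P.MP_c161d8_an

open Finset Complex

/-- Part of the sum with frequencies below `c`. -/
noncomputable def lo (F : Finset ℕ) (a : ℕ → ℂ) (c : ℝ) : ℂ → ℂ :=
  ev F (fun p => if (p : ℝ) < c then a p else 0)

/-- Part of the sum with frequencies at least `c`. -/
noncomputable def hi (F : Finset ℕ) (a : ℕ → ℂ) (c : ℝ) : ℂ → ℂ :=
  ev F (fun p => if (p : ℝ) < c then 0 else a p)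

lemma ev_add (F : Finset ℕ) (a b : ℕ → ℂ) (z : ℂ) :
    ev F (fun p => a p + b p) z = ev F a z + ev F b z := by
  unfold ev
  rw [← Finset.sum_add_distrib]
  refine Finset.sum_congr rfl fun p _ => ?_
  ring

lemma ev_congr {F : Finset ℕ} {a b : ℕ → ℂ} (h : ∀ p ∈ F, a p = b p) (z : ℂ) :
    ev F a z = ev F b z := by
  unfold ev
  exact Finset.sum_congr rfl fun p hp => by rw [h p hp]

lemma lo_add_hi (F : Finset ℕ) (a : ℕ → ℂ) (c : ℝ) (z : ℂ) :
    lo F a c z + hi F a c z = ev F a z := by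
  unfold lo hi
  rw [← ev_add]
  refine ev_congr (fun p _ => ?_) z
  split_ifs <;> simp

lemma differentiable_hi (F : Finset ℕ) (a : ℕ → ℂ) (c : ℝ) : Differentiable ℂ (hi F a c) :=
  differentiable_ev _ _

lemma norm_lo_le {F : Finset ℕ} {a : ℕ → ℂ} {c : ℝ} {z : ℂ} {X Y : ℝ} (h1 : ‖ev F a z‖ ≤ X)
    (h2 : ‖hi F a c z‖ ≤ Y) : ‖lo F a c z‖ ≤ X + Y := by
  have : lo F a c z = ev F a z - hi F a c z := by rw [← lo_add_hi F a c z]; ring
  rw [this]; exact (norm_sub_le _ _).trans (add_le_add h1 h2)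

lemma norm_hi_le {F : Finset ℕ} {a : ℕ → ℂ} {c : ℝ} {z : ℂ} {X Y : ℝ} (h1 : ‖ev F a z‖ ≤ X)
    (h2 : ‖lo F a c z‖ ≤ Y) : ‖hi F a c z‖ ≤ X + Y := by
  have : hi F a c z = ev F a z - lo F a c z := by rw [← lo_add_hi F a c z]; ring
  rw [this]; exact (norm_sub_le _ _).trans (add_le_add h1 h2)

lemma norm_ev_le {F : Finset ℕ} {a : ℕ → ℂ} {c : ℝ} {z : ℂ} {X Y : ℝ} (h1 : ‖lo F a c z‖ ≤ X)
    (h2 : ‖hi F a c z‖ ≤ Y) : ‖ev F a z‖ ≤ X + Y := by
  rw [← lo_add_hi F a c z]; exact (norm_add_le _ _).trans (add_le_add h1 h2)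

lemma cauchy_at (F H : Finset ℕ) (b : ℕ → ℂ) (z : ℂ) {r R N B Y : ℝ} {K : ℕ} (hr : 0 < r)
    (hK : H.card ≤ K) (hK1 : 1 ≤ K) (hN : ∀ μ ∈ H, (μ : ℝ) ≤ N) (hN0 : 0 ≤ N)
    (hB : K / r + N ≤ B) (hY : ∀ w, ‖w - z‖ ≤ R + r → ‖ev F b w‖ ≤ Y) :
    ∀ w, ‖w - z‖ ≤ R → ‖ev F (fun p => b p * ∏ μ ∈ H, ((p : ℂ) - μ)) w‖ ≤ Y * B ^ H.card := by
  intro w hw
  have hK0 : (0 : ℝ) < K := by exact_mod_cast hK1
  have hY0 : 0 ≤ Y := (norm_nonneg _).trans (hY w (by linarith))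
  have h := cauchy_ev F (ε := r / K) (N := N) (div_pos hr hK0) H
    (fun p => b p * cexp ((p : ℂ) * z)) R Y hN
    (by
      intro s hs
      rw [← ev_shift]
      apply hY
      rw [add_sub_cancel_left]
      have : (H.card : ℝ) * (r / K) ≤ r := by
        have : (H.card : ℝ) ≤ K := by exact_mod_cast hK
        rw [← mul_div_assoc, div_le_iff₀ hK0]; nlinarith
      linarith) (w - z) hw
  have e : ev F (fun p => b p * ∏ μ ∈ H, ((p : ℂ) - μ)) w =
      ev F (fun p => b p * cexp ((p : ℂ) * z) * ∏ μ ∈ H, ((p : ℂ) - μ)) (w - z) := by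
    conv_lhs => rw [show w = z + (w - z) by ring, ev_shift]
    exact ev_congr (fun p _ => by ring) _
  rw [e]
  refine h.trans ?_
  rw [one_div_div]
  gcongr

lemma growth' (F L : Finset ℕ) (b : ℕ → ℂ) (hb : ∀ p ∈ F, p ∉ L → b p = 0) (q : ℂ)
    {r N Y : ℝ} {K : ℕ} (hr : 0 < r) (hK : L.card ≤ K) (hK1 : 1 ≤ K)
    (hN : ∀ p ∈ L, (p : ℝ) ≤ N) (hKr : K / r ≤ N)
    (hY : ∀ w : ℂ, ‖w - q‖ ≤ r → ‖ev F b w‖ ≤ Y) (w : ℂ) :
    ‖ev F b w‖ ≤ Y * Real.exp (3 * N * ‖w - q‖) := by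
  have hK0 : (0 : ℝ) < K := by exact_mod_cast hK1
  have hY' : ∀ s : ℂ, ‖s‖ ≤ r → ‖ev F (fun p => b p * cexp ((p : ℂ) * q)) s‖ ≤ Y := by
    intro s hs; rw [← ev_shift]; apply hY; rwa [add_sub_cancel_left]
  have hY0 : 0 ≤ Y := (norm_nonneg _).trans (hY q (by simpa using hr.le))
  have h := propagate F (B := K / r + N) (κ := 1) one_pos le_rfl L
    (fun p => b p * cexp ((p : ℂ) * q)) Y (fun p hp hp' => by simp [hb p hp hp'])
    (by
      intro T hT
      have := cauchy_mom F (ε := r / K) (N := N) (R := r) (div_pos hr hK0) T _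
        (fun μ hμ => hN μ (hT hμ))
        (by
          have : (T.card : ℝ) ≤ K := by exact_mod_cast (Finset.card_le_card hT).trans hK
          rw [← mul_div_assoc, div_le_iff₀ hK0]; nlinarith) hY'
      simpa using this) (w - q) (N * ‖w - q‖)
    (by
      intro p hp
      have h1 := hN p hp
      have h2 := re_le_norm (w - q)
      have h3 : (0 : ℝ) ≤ p := Nat.cast_nonneg p
      have h4 := norm_nonneg (w - q)
      nlinarith)
  rw [← ev_shift, add_sub_cancel] at h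
  refine h.trans ?_
  simp only [inv_one, one_pow, mul_one, one_mul]
  gcongr
  have h4 := norm_nonneg (w - q)
  nlinarith

/-- The jump lemma: smallness of the high part propagates along a chain of discs. -/
lemma jump (F A : Finset ℕ) (a : ℕ → ℂ) {c c' r N N0 B D δ m G1 G2 Dm : ℝ} {K n : ℕ}
    {W : Set ℂ} {p q : ℂ × ℝ}
    (hA : ∀ x ∈ F, (x : ℝ) < c' → x ∈ A) (hcc : c ≤ c') (hAN : ∀ x ∈ A, (x : ℝ) ≤ N)
    (hK : A.card ≤ K) (hK1 : 1 ≤ K) (hc0 : 0 ≤ c) (hcN : c ≤ N0) (hN0N : N0 ≤ N)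
    (hr : 0 < r) (hKr : K / r ≤ N0) (hB : K / r + N ≤ B) (hD : 0 < D) (hDB : D ≤ B)
    (hgood : D ^ A.card ≤ ∏ l ∈ A, |c - l|) (hδ : 0 < δ) (hm : 0 ≤ m)
    (hW : ∀ w ∈ W, ‖ev F a w‖ ≤ δ * Real.exp m) (hDm : ∀ w ∈ W, ‖w - p.1‖ ≤ Dm)
    (hR : Reach (Disc W r) n p q) (hp : Disc W r p) (hG1 : 2 ^ n * (2 + 3 * N0 * Dm) ≤ G1)
    (h1 : ∀ w, ‖w - p.1‖ ≤ 6 * p.2 → ‖hi F a c' w‖ ≤ δ * Real.exp (-G1)) (hG2 : 0 ≤ G2)
    (h2 : ∀ w, ‖w - p.1‖ ≤ p.2 → ‖hi F a c w‖ ≤ δ * Real.exp (-G2)) :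
    ∀ w, ‖w - q.1‖ ≤ q.2 →
      ‖hi F a c w‖ ≤ 3 * (δ * Real.exp m) * (B / D) ^ K * Real.exp (-(G2 / 2 ^ n)) := by
  classical
  have hpos : ∀ u, Disc W r u → 0 < u.2 := fun u hu => hr.trans_le hu.1
  have hK0 : (0 : ℝ) < K := by exact_mod_cast hK1
  have hKr0 : 0 < (K : ℝ) / r := div_pos hK0 hr
  have hN00 : 0 ≤ N0 := hc0.trans hcN
  have hN0 : 0 ≤ N := hN00.trans hN0N
  have hB0 : 0 < B := hD.trans_le hDB
  have hp0 := hpos p hp
  have hDm0 : 0 ≤ Dm := (norm_nonneg _).trans (hDm p.1 (hp.2 _ (by simp; positivity)))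
  have hG10 : 0 ≤ G1 := le_trans (by positivity) hG1
  set M := δ * Real.exp m with hM
  have hδM : δ ≤ M := le_mul_of_one_le_right hδ.le (Real.one_le_exp hm)
  have hM0 : 0 < M := hδ.trans_le hδM
  set H := A.filter fun x : ℕ => c < x with hH
  set L := A.filter fun x : ℕ => ¬ c < x with hL
  have hne : ∀ l ∈ A, c ≠ l := by
    intro l hl h
    have : ∏ l ∈ A, |c - l| = 0 := Finset.prod_eq_zero hl (by simp [h])
    rw [this] at hgood
    exact absurd hgood (not_le.2 (pow_pos hD _))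
  have hLc : ∀ l ∈ L, (l : ℝ) < c := by
    intro l hl
    rw [hL, Finset.mem_filter] at hl
    exact lt_of_le_of_ne (not_lt.1 hl.2) (hne l hl.1).symm
  have hHc : ∀ μ ∈ H, c < μ := fun μ hμ => (Finset.mem_filter.1 hμ).2
  have hHK : H.card ≤ K := (Finset.card_le_card (Finset.filter_subset _ _)).trans hK
  have hLK : L.card ≤ K := (Finset.card_le_card (Finset.filter_subset _ _)).trans hK
  have hHN : ∀ μ ∈ H, (μ : ℝ) ≤ N := fun μ hμ => hAN μ (Finset.mem_filter.1 hμ).1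
  set Z := B ^ H.card with hZ
  have hZ0 : 0 < Z := pow_pos hB0 _
  set alo : ℕ → ℂ := fun x => if (x : ℝ) < c then a x else 0 with halo
  set alo' : ℕ → ℂ := fun x => if (x : ℝ) < c' then a x else 0 with halo'
  set ahi' : ℕ → ℂ := fun x => if (x : ℝ) < c' then 0 else a x with hahi'
  set Q : ℕ → ℂ := fun x => ∏ μ ∈ H, ((x : ℂ) - μ) with hQ
  have hQ0 : ∀ x ∈ F, ¬ (x : ℝ) < c → (x : ℝ) < c' → Q x = 0 := by
    intro x hx h1 h2
    have hxA := hA x hx h2
    have : x ∈ H := Finset.mem_filter.2 ⟨hxA, lt_of_le_of_ne (not_lt.1 h1) (hne x hxA)⟩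
    exact Finset.prod_eq_zero this (by simp)
  have hsupp : ∀ x ∈ F, x ∉ L → alo x = 0 := by
    intro x hx hxL
    by_cases h : (x : ℝ) < c
    · exact absurd (Finset.mem_filter.2 ⟨hA x hx (h.trans_le hcc), not_lt.2 h.le⟩) hxL
    · simp [halo, h]
  have I1 : ∀ w, ev F (fun x => a x * Q x) w =
      ev F (fun x => alo x * Q x) w + ev F (fun x => ahi' x * Q x) w := by
    intro w
    rw [← ev_add]
    refine ev_congr (fun x hx => ?_) w
    by_cases h : (x : ℝ) < c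
    · simp [halo, hahi', h, h.trans_le hcc]
    · by_cases h' : (x : ℝ) < c'
      · simp [hQ0 x hx h h']
      · simp [halo, hahi', h, h']
  have I2 : ∀ w, ev F (fun x => alo' x * Q x) w = ev F (fun x => alo x * Q x) w := by
    intro w
    refine ev_congr (fun x hx => ?_) w
    by_cases h : (x : ℝ) < c
    · simp [halo, halo', h, h.trans_le hcc]
    · by_cases h' : (x : ℝ) < c'
      · simp [hQ0 x hx h h']
      · simp [halo, halo', h, h']
  have hexp1 : Real.exp (-G1) ≤ 1 := Real.exp_le_one_iff.2 (by linarith)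
  -- bounds for the killed sums
  have hQg : ∀ u, Disc W r u → ∀ w, ‖w - u.1‖ ≤ 20 * u.2 →
      ‖ev F (fun x => a x * Q x) w‖ ≤ M * Z := by
    intro u hu
    exact cauchy_at F H a u.1 hr hHK hK1 hHN hN0 hB
      (fun w hw => hW w (hu.2 w (by linarith [hu.1])))
  have hQhi0 : ∀ w, ‖w - p.1‖ ≤ 5 * p.2 →
      ‖ev F (fun x => ahi' x * Q x) w‖ ≤ δ * Real.exp (-G1) * Z :=
    cauchy_at F H ahi' p.1 hr hHK hK1 hHN hN0 hB (fun w hw => h1 w (by linarith [hp.1]))
  have hQlo0 : ∀ w, ‖w - p.1‖ ≤ 5 * p.2 → ‖ev F (fun x => alo x * Q x) w‖ ≤ 2 * M * Z := by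
    intro w hw
    rw [← I2]
    refine cauchy_at F H alo' p.1 hr hHK hK1 hHN hN0 hB (R := 5 * p.2) (fun w hw => ?_) w hw
    have := norm_lo_le (hW w (hp.2 w (by linarith [hp.1]))) (h1 w (by linarith [hp.1]))
    have h3 : δ * Real.exp (-G1) ≤ δ := mul_le_of_le_one_right hδ.le hexp1
    exact this.trans (by linarith)
  have hQlo : ∀ w ∈ W, ‖ev F (fun x => alo x * Q x) w‖ ≤ 2 * M * Z * Real.exp (3 * N0 * Dm) := by
    intro w hw
    refine (growth' F L _ (fun x hx hxL => by simp [hsupp x hx hxL]) p.1 hr hLK hK1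
      (fun x hx => (hLc x hx).le.trans hcN) hKr
      (fun w hw => hQlo0 w (by linarith [hp.1])) w).trans ?_
    have := hDm w hw
    gcongr
  set M1 := M * Z * Real.exp (2 + 3 * N0 * Dm) with hM1
  have hE3 : 1 ≤ Real.exp (3 * N0 * Dm) := Real.one_le_exp (by positivity)
  have hE2 : 3 ≤ Real.exp 2 := by linarith [Real.add_one_le_exp (2 : ℝ)]
  have hQhi : ∀ u, Disc W r u → ∀ w, ‖w - u.1‖ ≤ 4 * (5 * u.2) →
      ‖ev F (fun x => ahi' x * Q x) w‖ ≤ M1 := by
    intro u hu w hw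
    have hu0 := hpos u hu
    have e : ev F (fun x => ahi' x * Q x) w =
        ev F (fun x => a x * Q x) w - ev F (fun x => alo x * Q x) w := by rw [I1]; ring
    rw [e]
    refine (norm_sub_le _ _).trans ((add_le_add (hQg u hu w (by linarith))
      (hQlo w (hu.2 w (by linarith)))).trans ?_)
    rw [hM1, Real.exp_add]
    have hMZ : 0 < M * Z := by positivity
    nlinarith [mul_le_mul hE2 (le_refl (Real.exp (3 * N0 * Dm))) (by positivity) (by positivity)]
  have hfirst : ∀ k ≤ n, ∀ u, Reach (Disc W r) k p u → ∀ w, ‖w - u.1‖ ≤ 5 * u.2 →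
      ‖ev F (fun x => ahi' x * Q x) w‖ ≤ M * Z := by
    intro k hk u hu w hw
    have := hu.propagate hpos (differentiable_ev F fun x => ahi' x * Q x) (lam := 5) (M := M1)
      (by norm_num) (by positivity) hG10 (fun k _ v hv => hQhi v hv.good)
      (by
        intro w hw
        refine (hQhi0 w hw).trans ?_
        have h3 : 1 ≤ Real.exp (2 + 3 * N0 * Dm) := Real.one_le_exp (by positivity)
        calc δ * Real.exp (-G1) * Z = δ * Z * 1 * Real.exp (-G1) := by ring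
          _ ≤ _ := by rw [hM1]; gcongr) w hw
    refine this.trans ?_
    rw [hM1, mul_assoc (M * Z), ← Real.exp_add]
    refine mul_le_of_le_one_right (by positivity) (Real.exp_le_one_iff.2 ?_)
    have h3 : (2 : ℝ) ^ k ≤ 2 ^ n := pow_le_pow_right₀ (by norm_num) hk
    have h4 : 2 + 3 * N0 * Dm ≤ G1 / 2 ^ k := by
      rw [le_div_iff₀ (by positivity)]
      have : 0 ≤ 2 + 3 * N0 * Dm := by positivity
      nlinarith
    linarith
  have hBD : 1 ≤ B / D := by rw [le_div_iff₀ hD]; linarith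
  have hsecond : ∀ k ≤ n, ∀ u, Reach (Disc W r) k p u → ∀ w, ‖w - u.1‖ ≤ 4 * (1 * u.2) →
      ‖hi F a c w‖ ≤ 3 * M * (B / D) ^ K := by
    intro k hk u hu w hw
    have hu' := hu.good
    have hu0 := hpos u hu'
    have h3 := recover_low F L H alo hsupp hLc hHc hr hLK hK1 hc0 (hcN.trans hN0N) hB w
      (Y := 2 * M * Z) (by
        intro s hs
        have hws : ‖w + s - u.1‖ ≤ 5 * u.2 := by
          calc ‖w + s - u.1‖ = ‖(w - u.1) + s‖ := by ring_nf
            _ ≤ ‖w - u.1‖ + ‖s‖ := norm_add_le _ _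
            _ ≤ _ := by linarith [hu'.1]
        have e : ev F (fun x => alo x * Q x) (w + s) =
          ev F (fun x => a x * Q x) (w + s) - ev F (fun x => ahi' x * Q x) (w + s) := by
          rw [I1]; ring
        change ‖ev F (fun x => alo x * Q x) (w + s)‖ ≤ _
        rw [e]
        refine (norm_sub_le _ _).trans ((add_le_add (hQg u hu' _ (by linarith))
          (hfirst k hk u hu _ hws)).trans (le_of_eq (by ring))))
    have e1 : ∏ l ∈ A, |c - l| = (∏ l ∈ L, (c - l)) * ∏ μ ∈ H, ((μ : ℝ) - c) := by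
      rw [← Finset.prod_filter_mul_prod_filter_not A (fun p : ℕ => c < p), mul_comm]
      congr 1
      · refine Finset.prod_congr rfl fun l hl => ?_
        rw [abs_of_pos (by linarith [hLc l hl])]
      · refine Finset.prod_congr rfl fun μ hμ => ?_
        rw [abs_sub_comm, abs_of_pos (by linarith [hHc μ hμ])]
    have e2 : A.card = H.card + L.card := (Finset.card_filter_add_card_filter_not _).symm
    rw [← e1] at h3
    have h4 : 2 * M * Z * B ^ L.card / ∏ l ∈ A, |c - l| ≤ 2 * M * (B / D) ^ K := by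
      calc 2 * M * Z * B ^ L.card / ∏ l ∈ A, |c - l|
          = 2 * M * (B ^ A.card / ∏ l ∈ A, |c - l|) := by rw [e2, pow_add, hZ]; ring
        _ ≤ 2 * M * (B ^ A.card / D ^ A.card) := by gcongr
        _ = 2 * M * (B / D) ^ A.card := by rw [div_pow]
        _ ≤ _ := by gcongr
    have h5 := norm_hi_le (c := c) (hW w (hu'.2 w (by linarith))) (h3.trans h4)
    have h6 : 1 ≤ (B / D) ^ K := one_le_pow₀ hBD
    refine h5.trans ?_
    nlinarith
  have h6 : 1 ≤ (B / D) ^ K := one_le_pow₀ hBD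
  have := hR.propagate hpos (differentiable_hi F a c) (lam := 1) (M := 3 * M * (B / D) ^ K)
    le_rfl (by positivity) hG2 hsecond
    (by
      intro w hw
      refine (h2 w (by linarith)).trans ?_
      gcongr
      nlinarith)
  intro w hw
  exact this w (by linarith)

end Pool.Agent.P.MP_c161d8_an
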