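import Pool.Agent.P.MP_c161d8_an.Tools

/-! Sharp coefficient estimates from bounds on one small disc at every dyadic level. -/

set_option autoImplicit false

namespace Pool.Agent.P.MP_c161d8_an

open Finset Complex Filter Topology

lemma fourier_coef (A : Finset ℕ) (b : ℕ → ℂ) {p : ℕ} (hp : p ∈ A) {Y : ℝ}
    (hY : ∀ θ ∈ Set.Icc (0 : ℝ) (2 * Real.pi), ‖ev A b (θ * I)‖ ≤ Y) : ‖b p‖ ≤ Y := by
  have hπ := Real.two_pi_pos
  have h1 : ∫ θ in (0 : ℝ)..2 * Real.pi, ev A b (θ * I) * cexp (-(p * (θ * I))) =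
      b p * (2 * Real.pi : ℝ) := by
    have e : ∀ θ : ℝ, ev A b (θ * I) * cexp (-(p * (θ * I))) =
        ∑ l ∈ A, b l * cexp ((((l : ℂ) - p) * I) * θ) := fun θ => by
      unfold ev
      rw [Finset.sum_mul]
      refine Finset.sum_congr rfl fun l _ => ?_
      rw [mul_assoc, ← Complex.exp_add]; congr 2; ring
    simp only [e]
    rw [intervalIntegral.integral_finsetSum fun l _ => Continuous.intervalIntegrable (by fun_prop) _ _,
      Finset.sum_eq_single_of_mem p hp fun l _ hl => ?_]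
    · simp [mul_comm]
    · have hne : ((l : ℂ) - p) * I ≠ 0 :=
        mul_ne_zero (sub_ne_zero.2 (by exact_mod_cast hl)) I_ne_zero
      rw [intervalIntegral.integral_const_mul, integral_exp_mul_complex hne]
      have : cexp (((l : ℂ) - p) * I * ((2 * Real.pi : ℝ) : ℂ)) = 1 := by
        rw [← Complex.exp_int_mul_two_pi_mul_I ((l : ℤ) - p)]
        congr 1; push_cast; ring
      rw [this]; simp
  have h2 := intervalIntegral.norm_integral_le_of_norm_le_const (a := 0) (b := 2 * Real.pi)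
    (C := Y) (f := fun θ : ℝ => ev A b (θ * I) * cexp (-(p * (θ * I)))) fun θ hθ => by
      rw [Set.uIoc_of_le hπ.le] at hθ
      rw [norm_mul, Complex.norm_exp]
      simpa using hY θ ⟨hθ.1.le, hθ.2⟩
  rw [h1, norm_mul, Complex.norm_real, Real.norm_of_nonneg hπ.le, sub_zero,
    abs_of_pos hπ] at h2
  exact le_of_mul_le_mul_right h2 hπ

lemma coef_bound (A : Finset ℕ) (b : ℕ → ℂ) (q : ℂ) {r N Y κ η : ℝ} {K p : ℕ} (hr : 0 < r)
    (hK : A.card ≤ K) (hK1 : 1 ≤ K) (hN : ∀ l ∈ A, (l : ℝ) ≤ N) (hκ : 0 < κ) (hκ1 : κ ≤ 1)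
    (hη : 0 ≤ η) (hY : ∀ s : ℂ, ‖s‖ ≤ r → ‖ev A b (q + s)‖ ≤ Y) (hp : p ∈ A) :
    ‖b p‖ * Real.exp (p * (q.re - η)) ≤
      Y * κ⁻¹ ^ K * Real.exp (κ * (K / r + N) * (η + 2 * Real.pi)) := by
  have hY0 : 0 ≤ Y := (norm_nonneg _).trans (hY 0 (by simpa using hr.le))
  have hN0 : 0 ≤ N := (Nat.cast_nonneg p).trans (hN p hp)
  have := fourier_coef A (fun l => b l * cexp (l * (q - η))) hp
    (Y := Y * κ⁻¹ ^ K * Real.exp (κ * (K / r + N) * (η + 2 * Real.pi))) fun θ hθ => by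
      rw [← ev_shift, show q - η + θ * I = q + (-η + θ * I) by ring]
      refine (growth A b q hr hK hK1 hN hκ hκ1 hY _ 0 fun l _ => ?_).trans ?_
      · have : (-(η : ℂ) + θ * I).re = -η := by simp
        rw [this]; nlinarith [Nat.cast_nonneg (α := ℝ) l]
      · rw [zero_add]
        have h1 : ‖-(η : ℂ) + θ * I‖ ≤ η + 2 * Real.pi := by
          refine (norm_add_le _ _).trans ?_
          rw [norm_neg, norm_mul, norm_I, mul_one, Complex.norm_real, Complex.norm_real,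
            Real.norm_of_nonneg hη, Real.norm_of_nonneg hθ.1]
          linarith [hθ.2]
        gcongr
  rw [norm_mul, Complex.norm_exp] at this
  simpa using this

/-- Control of every coefficient by one small disc at every large dyadic level. -/
def Lev (S : Set ℕ) (Γ : Set ℂ) (x : ℝ) : Prop :=
  ∃ (n : ℕ → ℝ) (j0 : ℕ), Tendsto (fun j => n j / 2 ^ j) atTop (𝓝 0) ∧
    ∀ (F : Finset ℕ) (a : ℕ → ℂ) (δ : ℝ), 0 < δ → (∀ p ∈ F, p = 0 ∨ p ∈ S) →
      (∀ z ∈ Γ, ‖ev F a z‖ ≤ δ) → ∀ j, j0 ≤ j → ∀ p ∈ F, (p : ℝ) ≤ 2 * 2 ^ j →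
      ∃ (A : Finset ℕ) (b : ℕ → ℂ) (q : ℂ) (r : ℝ) (K : ℕ), p ∈ A ∧ b p = a p ∧ x ≤ q.re ∧
        0 < r ∧ A.card ≤ K ∧ 1 ≤ K ∧ (K : ℝ) ≤ n j ∧ K / r ≤ 2 ^ (j + 3) ∧
        (∀ l ∈ A, (l : ℝ) ≤ 2 ^ (j + 3)) ∧
        ∀ s : ℂ, ‖s‖ ≤ r → ‖ev A b (q + s)‖ ≤ δ * Real.exp (n j)

/-- The sharp coefficient estimate. -/
def Est2 (S : Set ℕ) (Γ : Set ℂ) (x : ℝ) : Prop :=
  ∀ η > 0, ∃ C : ℝ, ∀ (F : Finset ℕ) (a : ℕ → ℂ) (δ : ℝ), 0 < δ → (∀ p ∈ F, p = 0 ∨ p ∈ S) →
    (∀ z ∈ Γ, ‖ev F a z‖ ≤ δ) → ∀ p ∈ F, ‖a p‖ * Real.exp (p * (x - η)) ≤ C * δ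

lemma Est2.mono {S : Set ℕ} {Γ Γ' : Set ℂ} {x : ℝ} (h : Est2 S Γ x) (hsub : Γ ⊆ Γ') :
    Est2 S Γ' x := fun η hη => by
  obtain ⟨C, hC⟩ := h η hη
  exact ⟨C, fun F a δ hδ hF hz => hC F a δ hδ hF fun z hz' => hz z (hsub hz')⟩

lemma Est2.conj {S : Set ℕ} {Γ Γ' : Set ℂ} {x : ℝ} (h : Est2 S Γ x)
    (hΓ : ∀ z ∈ Γ, (starRingEnd ℂ) z ∈ Γ') : Est2 S Γ' x := fun η hη => by
  obtain ⟨C, hC⟩ := h η hη
  refine ⟨C, fun F a δ hδ hF hz p hp => ?_⟩
  have := hC F (fun p => (starRingEnd ℂ) (a p)) δ hδ hF (by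
    intro z hzΓ
    have e : ev F (fun p => (starRingEnd ℂ) (a p)) z =
        (starRingEnd ℂ) (ev F a ((starRingEnd ℂ) z)) := by
      unfold ev
      rw [map_sum]
      refine Finset.sum_congr rfl fun p _ => ?_
      rw [map_mul, ← Complex.exp_conj]
      simp
    rw [e, Complex.norm_conj]
    exact hz _ (hΓ z hzΓ)) p hp
  simpa using this

lemma Lev.est2 {S : Set ℕ} {Γ : Set ℂ} {x : ℝ} (h : Lev S Γ x) : Est2 S Γ x := by
  intro η hη
  obtain ⟨n, j0, hn, h⟩ := h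
  have hπ := Real.pi_pos
  set κ := min 1 (η / 8 / (16 * (η / 2 + 2 * Real.pi))) with hκ
  have hκ0 : 0 < κ := by positivity
  have hκ1 : κ ≤ 1 := min_le_left _ _
  have hκ2 : κ * (16 * (η / 2 + 2 * Real.pi)) ≤ η / 8 :=
    (le_div_iff₀ (by positivity)).1 (min_le_right _ _)
  set L := -Real.log κ with hL
  have hL0 : 0 ≤ L := neg_nonneg.2 (Real.log_nonpos hκ0.le hκ1)
  obtain ⟨j1, hj1⟩ := eventually_atTop.1 ((hn.eventually (ge_mem_nhds
    (show (0 : ℝ) < η / 8 / (1 + L) by positivity))).and (eventually_ge_atTop j0))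
  refine ⟨Real.exp (η * 2 ^ j1 / 4), fun F a δ hδ hF hz p hp => ?_⟩
  set j := max j1 (Nat.log 2 p) with hj
  have hpj : (p : ℝ) ≤ 2 * 2 ^ j := by
    have h1 : p < 2 ^ (j + 1) := (Nat.lt_pow_succ_log_self one_lt_two p).trans_le
      (Nat.pow_le_pow_right two_pos (by omega))
    have h2 : (p : ℝ) < 2 ^ (j + 1) := by exact_mod_cast h1
    rw [pow_succ] at h2; linarith
  have hjp : (2 : ℝ) ^ j ≤ 2 ^ j1 + p := by
    have h0 : (0 : ℝ) ≤ p := Nat.cast_nonneg p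
    have h1 : (0 : ℝ) < 2 ^ j1 := by positivity
    rcases le_total (Nat.log 2 p) j1 with h2 | h2
    · rw [hj, max_eq_left h2]; linarith
    · rcases Nat.eq_zero_or_pos p with rfl | hp0
      · simp [hj]
      · have h3 : (2 : ℝ) ^ Nat.log 2 p ≤ p := by exact_mod_cast Nat.pow_log_le_self 2 hp0.ne'
        rw [hj, max_eq_right h2]; linarith
  obtain ⟨hn1, hn2⟩ := hj1 j (le_max_left _ _)
  obtain ⟨A, b, q, r, K, h1, h2, h3, h4, h5, h6, h7, h8, h9, h10⟩ := h F a δ hδ hF hz j hn2 p hp hpj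
  have key := coef_bound A b q h4 h5 h6 h9 hκ0 hκ1 (half_pos hη).le h10 h1
  have h2j : (0 : ℝ) < 2 ^ j := by positivity
  rw [div_le_div_iff₀ h2j (by positivity)] at hn1
  have e1 : κ⁻¹ ^ K = Real.exp (K * L) := by
    rw [Real.exp_nat_mul, hL, Real.exp_neg, Real.exp_log hκ0]
  have e2 : κ * (K / r + 2 ^ (j + 3)) * (η / 2 + 2 * Real.pi) ≤ η / 8 * 2 ^ j := by
    have : (K : ℝ) / r + 2 ^ (j + 3) ≤ 16 * 2 ^ j := by
      rw [pow_add] at h8 ⊢; linarith
    calc _ ≤ κ * (16 * 2 ^ j) * (η / 2 + 2 * Real.pi) := by gcongr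
      _ = κ * (16 * (η / 2 + 2 * Real.pi)) * 2 ^ j := by ring
      _ ≤ _ := by gcongr
  rw [h2, e1, mul_assoc, mul_assoc, ← Real.exp_add, ← Real.exp_add] at key
  have h0 : (0 : ℝ) ≤ p := Nat.cast_nonneg p
  have e3 : Real.exp (p * (x - η)) ≤ Real.exp (p * (q.re - η / 2)) * Real.exp (-(p * η / 2)) := by
    rw [← Real.exp_add]; exact Real.exp_le_exp.2 (by nlinarith)
  calc _ ≤ ‖a p‖ * Real.exp (p * (q.re - η / 2)) * Real.exp (-(p * η / 2)) := by
        rw [mul_assoc]; gcongr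
    _ ≤ δ * Real.exp _ * Real.exp (-(p * η / 2)) := mul_le_mul_of_nonneg_right key (Real.exp_pos _).le
    _ ≤ _ := by
        rw [mul_assoc, ← Real.exp_add, mul_comm]
        gcongr
        have : (K : ℝ) * L ≤ n j * L := by gcongr
        nlinarith

lemma lev_of_sc {S : Set ℕ} {Γ : Set ℂ} {x C1 : ℝ} {T j0 : ℕ} {r : ℕ → ℝ} (hr : Sc S T r)
    (hC : 0 ≤ C1)
    (h : ∀ (F : Finset ℕ) (a : ℕ → ℂ) (δ : ℝ), 0 < δ → (∀ p ∈ F, p = 0 ∨ p ∈ S) →
      (∀ z ∈ Γ, ‖ev F a z‖ ≤ δ) → ∃ c, Cut T F c ∧ ∀ j, j0 ≤ j → ∃ q : ℂ, x ≤ q.re ∧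
        ∀ w, ‖w - q‖ ≤ r j → ‖lo F a (c j) w‖ ≤ 2 * (δ * Real.exp (C1 * (2 ^ j * r j)))) :
    Lev S Γ x := by
  refine ⟨fun j => (C1 + 1) * (2 ^ j * r j), j0, ?_, fun F a δ hδ hF hz j hj p hp hpj => ?_⟩
  · have := hr.summable.tendsto_atTop_zero.const_mul (C1 + 1)
    rw [mul_zero] at this
    refine this.congr fun j => ?_
    field_simp
  obtain ⟨c, hc, h⟩ := h F a δ hδ hF hz
  obtain ⟨q, hq, hw⟩ := h j hj
  have hpc : (p : ℝ) < c j := hpj.trans_lt (hc.lo j)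
  have h1 := hr.one_le j
  have h2 := hr.card_le j
  have h3 := hr.pos j
  refine ⟨Fn F j, fun p => if (p : ℝ) < c j then a p else 0, q, r j, (nodes S j).card,
    hc.mem_Fn hp hpc, if_pos hpc, hq, h3, Finset.card_le_card (Fn_subset hF j),
    one_le_card_nodes S j, by nlinarith, ?_, fun l hl => le_of_mem_Fn hl, fun s hs => ?_⟩
  · rw [div_le_iff₀ h3, pow_add]; nlinarith
  · rw [← hc.lo_eq]
    refine (hw _ (by rwa [add_sub_cancel_left])).trans ?_
    have h4 : 2 ≤ Real.exp (2 ^ j * r j) := by linarith [Real.add_one_le_exp (2 ^ j * r j)]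
    beta_reduce
    rw [add_mul, one_mul, Real.exp_add]
    have := Real.exp_pos (C1 * (2 ^ j * r j))
    nlinarith [mul_pos hδ this]

lemma remez_const {δ : ℝ} (hδ : 0 < δ) {K : ℕ} (hK : 1 ≤ K) :
    2 * (3 * δ) * 24 ^ (34 * K) ≤ δ * Real.exp (800 * K) := by
  have h1 : (24 : ℝ) ≤ Real.exp 23 := by linarith [Real.add_one_le_exp (23 : ℝ)]
  have h2 : (24 : ℝ) ^ (34 * K) ≤ Real.exp (782 * K) := by
    refine (pow_le_pow_left₀ (by norm_num) h1 _).trans (le_of_eq ?_)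
    rw [← Real.exp_nat_mul]; congr 1; push_cast; ring
  have h3 : (1 : ℝ) ≤ K := by exact_mod_cast hK
  have h4 : (6 : ℝ) ≤ Real.exp (18 * K) := by linarith [Real.add_one_le_exp (18 * (K : ℝ))]
  calc _ = δ * (6 * 24 ^ (34 * K)) := by ring
    _ ≤ δ * (Real.exp (18 * K) * Real.exp (782 * K)) := by gcongr
    _ = _ := by rw [← Real.exp_add]; congr 2; ring

lemma tendsto_nodes {S : Set ℕ} (hS : Summable (fun p : S => (1 : ℝ) / ((p : ℕ) : ℝ))) :
    Tendsto (fun j => 800 * ((nodes S j).card : ℝ) / 2 ^ j) atTop (𝓝 0) := by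
  have := (summable_card_nodes hS).tendsto_atTop_zero.const_mul 800
  rw [mul_zero] at this
  exact this.congr fun j => by ring

/-- The vertical segment. -/
lemma lev_vertical {S : Set ℕ} (hS : Summable (fun p : S => (1 : ℝ) / ((p : ℕ) : ℝ)))
    (w0 : ℂ) {H : ℝ} (hH : 0 < H) :
    Lev S {z | ∃ y ∈ Set.Icc 0 H, z = w0 + y * I} w0.re := by
  classical
  have hS' : Summable (S.indicator fun p : ℕ => (1 : ℝ) / (p : ℝ)) :=
    (summable_subtype_iff_indicator (f := fun p : ℕ => (1 : ℝ) / (p : ℝ))).1 hS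
  set σ := S.indicator fun p : ℕ => (1 : ℝ) / (p : ℝ) with hσ
  have hσ0 : ∀ p, 0 ≤ σ p := fun p => Set.indicator_nonneg (fun p _ => by positivity) p
  have hπ := Real.pi_pos
  obtain ⟨n1, hn1⟩ := exists_tail_le hS' hσ0 (η := H / (4 * Real.pi)) (by positivity)
  obtain ⟨j0, hj0⟩ := eventually_atTop.1 (((tendsto_nodes hS).eventually (ge_mem_nhds hH)).and
    (eventually_ge_atTop n1))
  refine ⟨fun j => 800 * (nodes S j).card, j0, tendsto_nodes hS,
    fun F a δ hδ hF hz j hj p hp hpj => ?_⟩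
  obtain ⟨hj1, hj2⟩ := hj0 j hj
  have h2j : (0 : ℝ) < 2 ^ j := by positivity
  let τ : ℕ → ℝ := fun μ => Real.pi / (μ - p)
  have key : ∀ T : Finset ℕ, (∀ μ ∈ T, (p : ℝ) < μ) → ∃ a' : ℕ → ℂ, a' p = a p ∧
      (∀ μ ∈ T, a' μ = 0) ∧
      ∀ y ∈ Set.Icc 0 (H - ∑ μ ∈ T, τ μ), ‖ev F a' (w0 + y * I)‖ ≤ δ := by
    intro T
    induction T using Finset.induction_on with
    | empty =>
      intro _
      exact ⟨a, rfl, by simp, fun y hy => by simpa using hz _ ⟨y, by simpa using hy, rfl⟩⟩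
    | insert μ T hμT ih =>
      intro hT
      obtain ⟨a', h1, h2, h3⟩ := ih fun ν h => hT ν (Finset.mem_insert_of_mem h)
      have hμ := sub_pos.2 (hT μ (Finset.mem_insert_self _ _))
      have hτ : 0 < τ μ := div_pos hπ hμ
      have e0 : cexp (μ * (τ μ * I)) = -cexp (p * (τ μ * I)) := by
        have : (μ : ℂ) * (τ μ * I) = p * (τ μ * I) + Real.pi * I := by
          have h4 : ((μ : ℂ) - p) ≠ 0 := by exact_mod_cast hμ.ne'
          simp only [τ]; push_cast; field_simp; ring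
        rw [this, Complex.exp_add, Complex.exp_pi_mul_I]; ring
      set E := cexp (p * (τ μ * I)) with hE
      have hE0 : E ≠ 0 := Complex.exp_ne_zero _
      have hE1 : ‖E‖ = 1 := by rw [hE, Complex.norm_exp]; simp
      refine ⟨fun ν => a' ν * ((cexp (ν * (τ μ * I)) + E) / (2 * E)), ?_, ?_, ?_⟩
      · simp only [← hE]; rw [h1]; field_simp; ring
      · intro ν hν
        rcases Finset.mem_insert.1 hν with rfl | hν
        · simp [e0]
        · simp [h2 ν hν]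
      · intro y hy
        rw [Finset.sum_insert hμT] at hy
        have e1 := h3 y ⟨hy.1, by linarith [hy.2]⟩
        have e2 := h3 (y + τ μ) ⟨by linarith [hy.1], by linarith [hy.2]⟩
        have e3 : ev F (fun ν => a' ν * ((cexp (ν * (τ μ * I)) + E) / (2 * E))) (w0 + y * I) =
            (ev F a' (w0 + ((y + τ μ : ℝ) : ℂ) * I) + E * ev F a' (w0 + y * I)) / (2 * E) := by
          unfold ev
          rw [Finset.mul_sum, ← Finset.sum_add_distrib, Finset.sum_div]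
          refine Finset.sum_congr rfl fun ν _ => ?_
          rw [show (ν : ℂ) * (w0 + ((y + τ μ : ℝ) : ℂ) * I) = ν * (w0 + y * I) + ν * (τ μ * I) by
            push_cast; ring, Complex.exp_add]
          ring
        rw [e3, norm_div, norm_mul, hE1, div_le_iff₀ (by simp)]
        refine (norm_add_le _ _).trans ?_
        rw [norm_mul, hE1]
        simp only [Complex.norm_ofNat]
        linarith
  set T := F.filter fun μ => ¬ μ < 2 ^ (j + 3) with hT
  have hT1 : ∀ μ ∈ T, (8 : ℝ) * 2 ^ j ≤ μ := fun μ hμ => by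
    have h1 : ((2 ^ (j + 3) : ℕ) : ℝ) ≤ μ := by exact_mod_cast not_lt.1 (mem_filter.1 hμ).2
    push_cast at h1
    rw [pow_add] at h1; linarith
  obtain ⟨a', h1, h2, h3⟩ := key T fun μ hμ => by linarith [hT1 μ hμ]
  have hsum : ∑ μ ∈ T, τ μ ≤ H / 2 := by
    set m := F.sup id + 1
    calc ∑ μ ∈ T, τ μ ≤ ∑ μ ∈ T, 2 * Real.pi * σ μ := by
          refine Finset.sum_le_sum fun μ hμ => ?_
          have h4 := hT1 μ hμ
          have h5 : μ ≠ 0 := by rintro rfl; simp at h4; linarith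
          have hμS : μ ∈ S := (hF μ (mem_filter.1 hμ).1).resolve_left h5
          simp only [τ, hσ, Set.indicator_of_mem hμS]
          rw [mul_one_div, div_le_div_iff₀ (by linarith) (by linarith)]
          nlinarith
      _ ≤ ∑ μ ∈ (range m).map (addLeftEmbedding n1), 2 * Real.pi * σ μ := by
          apply Finset.sum_le_sum_of_subset_of_nonneg
          · intro μ hμ
            rw [mem_filter] at hμ
            have h4 : μ ≤ F.sup id := Finset.le_sup (f := id) hμ.1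
            have h5 : j + 3 < 2 ^ (j + 3) := Nat.lt_two_pow_self
            simp only [Finset.mem_map, mem_range, addLeftEmbedding_apply]
            exact ⟨μ - n1, by omega, by omega⟩
          · intro μ _ _; have := hσ0 μ; positivity
      _ = 2 * Real.pi * ∑ i ∈ range m, σ (n1 + i) := by
          rw [Finset.sum_map, Finset.mul_sum]; rfl
      _ ≤ 2 * Real.pi * (H / (4 * Real.pi)) := by gcongr; exact hn1 m
      _ = H / 2 := by field_simp; ring
  have hK1 := one_le_card_nodes S j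
  have hK1' : (1 : ℝ) ≤ (nodes S j).card := by exact_mod_cast hK1
  have hpA : p ∈ Fn F j := by
    refine Finset.mem_filter.2 ⟨hp, ?_⟩
    have : (p : ℝ) < 2 ^ (j + 3) := by rw [pow_add]; linarith
    exact_mod_cast this
  have hΓ : IsPreconnected ((fun y : ℝ => w0 + y * I) '' Set.Icc 0 (H / 2)) :=
    isPreconnected_Icc.image _ (Continuous.continuousOn (by fun_prop))
  refine ⟨Fn F j, a', w0, (nodes S j).card / 2 ^ (j + 3), (nodes S j).card, hpA, h1, le_rfl,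
    by positivity, Finset.card_le_card (Fn_subset hF j), hK1, by linarith,
    le_of_eq (by field_simp), fun l hl => le_of_mem_Fn hl, fun s hs => ?_⟩
  refine (remez_continuum hΓ (Fn F j) a' (q := w0) (q' := w0 + (H / 2 : ℝ) * I)
    ⟨0, ⟨le_rfl, by positivity⟩, by simp⟩ ⟨H / 2, ⟨by positivity, le_rfl⟩, rfl⟩
    (Finset.card_le_card (Fn_subset hF j)) hK1 (fun l hl => le_of_mem_Fn hl) (by positivity) hδ
    ?_ ?_ s hs).trans (le_trans (by gcongr; linarith) (remez_const hδ hK1))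
  · rw [add_sub_cancel_left, norm_mul, norm_I, mul_one, Complex.norm_real,
      Real.norm_of_nonneg (by positivity), ← mul_div_assoc, div_le_iff₀ (by positivity), pow_add]
    rw [div_le_iff₀ h2j] at hj1
    nlinarith
  · rintro _ ⟨y, hy, rfl⟩ -
    rw [Fn, ← ev_restrict (Finset.filter_subset _ _) fun μ hμ h =>
      h2 μ (mem_filter.2 ⟨hμ, fun h' => h (mem_filter.2 ⟨hμ, h'⟩)⟩)]
    exact h3 y ⟨hy.1, by linarith [hy.2]⟩

end Pool.Agent.P.MP_c161d8_an
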