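import Pool.Agent.P.MP_c161d8_an.Graph
import Pool.Agent.P.MP_c161d8_an.Lev

/-! The three peeling arguments, with their conclusion kept at every level. -/

set_option autoImplicit false

namespace Pool.Agent.P.MP_c161d8_an

open Finset Complex

/-- The main estimate for continua containing a monotone chain. -/
theorem lev_chain {S : Set ℕ} (hS : Summable (fun p : S => (1 : ℝ) / ((p : ℕ) : ℝ)))
    {Γ : Set ℂ} (hΓ : IsPreconnected Γ) {Q : ℝ → ℂ} {M η : ℝ} (hM : 0 ≤ M) (hη : 0 < η)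
    (hQ : ∀ x ∈ Set.Icc 0 η, Q x ∈ Γ)
    (hmono : ∀ x ∈ Set.Icc 0 η, ∀ y ∈ Set.Icc 0 η, x ≤ y →
      y - x ≤ (Q y - Q x).re ∧ ‖Q y - Q x‖ ≤ M * (Q y - Q x).re) :
    ∀ x0 : ℝ, (∀ z ∈ Γ, x0 ≤ z.re) → Lev S Γ x0 := by
  intro x0 hx0
  classical
  obtain ⟨c, hc⟩ := exists_cuts S
  set K : ℕ → ℕ := fun j => (nodes S j).card with hK
  have hK1 : ∀ j, 1 ≤ K j := one_le_card_nodes S
  set N : ℕ → ℝ := fun j => 2 ^ (j + 3) with hN
  have hN0 : ∀ j, 0 < N j := fun j => by positivity
  set κ : ℝ := 1 / (16 * (M + 1)) with hκ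
  have hκ0 : 0 < κ := by positivity
  have hκ1 : κ ≤ 1 := by rw [hκ, div_le_one (by positivity)]; linarith
  set C0 : ℝ := 24 ^ 34 * 192 * κ⁻¹ with hC0
  have hC00 : 0 < C0 := by positivity
  have hC01 : 1 ≤ C0 := by
    have : 1 ≤ κ⁻¹ := one_le_inv_iff₀.2 ⟨hκ0, hκ1⟩
    rw [hC0]; nlinarith
  have hlog : 0 ≤ Real.log C0 := Real.log_nonneg hC01
  set e : ℕ → ℝ := fun j => 16 * (Real.log C0 * K j + (j + 3)) / N j with he
  have he0 : ∀ j, 0 ≤ e j := fun j => by positivity
  set h : ℕ → ℝ := fun j => 6 * (K j / N j) + e (j + 1) with hh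
  have hr0 : ∀ j, 0 < (K j : ℝ) / N j := fun j =>
    div_pos (by exact_mod_cast hK1 j) (hN0 j)
  have hh0 : ∀ j, 0 ≤ h j := fun j => add_nonneg (by linarith [hr0 j]) (he0 _)
  have hsK := summable_card_nodes hS
  have hsr : Summable fun j => (K j : ℝ) / N j := by
    refine (hsK.mul_left (1 / 8)).congr fun j => ?_
    simp only [hK, hN, pow_add]; field_simp; ring
  have hse : Summable e := by
    have h1 : Summable fun j : ℕ => (j : ℝ) ^ 1 * (1 / 2 : ℝ) ^ j :=
      summable_pow_mul_geometric_of_norm_lt_one 1 (by norm_num)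
    refine ((hsr.mul_left (16 * Real.log C0)).add
      ((h1.mul_left 2).add (summable_geometric_two.mul_left 6))).congr fun j => ?_
    simp only [he, hN, pow_add, one_div, inv_pow]; field_simp; ring
  have hsh : Summable h := (hsr.mul_left 6).add ((summable_nat_add_iff 1).2 hse)
  obtain ⟨j0, hj0⟩ := exists_tail_le hsh hh0 hη
  set x : ℕ → ℝ := fun n => ∑ i ∈ range n, h (j0 + i) with hx
  have hxI : ∀ n, x n ∈ Set.Icc 0 η := fun n =>
    ⟨Finset.sum_nonneg fun i _ => hh0 _, hj0 n⟩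
  have hxsucc : ∀ n, x (n + 1) = x n + h (j0 + n) := fun n => Finset.sum_range_succ _ _
  have hxmono : Monotone x := monotone_nat_of_le_succ fun n => by
    rw [hxsucc]; linarith [hh0 (j0 + n)]
  have hfar : ∀ n, ∃ q' ∈ Γ, 3 * ((K (j0 + n) : ℝ) / N (j0 + n)) ≤ ‖q' - Q (x n)‖ := by
    intro n
    have h1 : 6 * ((K (j0 + n) : ℝ) / N (j0 + n)) ≤ η := by
      have := (hxI (n + 1)).2
      rw [hxsucc] at this
      have h2 := (hxI n).1
      have h3 := he0 (j0 + n + 1)
      simp only [hh] at this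
      linarith
    have h0I : (0 : ℝ) ∈ Set.Icc 0 η := ⟨le_rfl, hη.le⟩
    have hηI : η ∈ Set.Icc 0 η := ⟨hη.le, le_rfl⟩
    have h2 := ((hmono 0 h0I η hηI hη.le).1).trans (re_le_norm _)
    have h3 : ‖Q η - Q 0‖ ≤ ‖Q η - Q (x n)‖ + ‖Q 0 - Q (x n)‖ := by
      calc ‖Q η - Q 0‖ = ‖(Q η - Q (x n)) - (Q 0 - Q (x n))‖ := by ring_nf
        _ ≤ _ := norm_sub_le _ _
    by_cases h4 : η / 2 ≤ ‖Q η - Q (x n)‖
    · exact ⟨Q η, hQ η hηI, by linarith⟩
    · exact ⟨Q 0, hQ 0 h0I, by linarith⟩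
  refine ⟨fun j => 800 * K j, j0, tendsto_nodes hS, ?_⟩
  intro F a δ hδ hF hsmall j1 hj1 p hpF hpj
  obtain ⟨m, rfl⟩ := Nat.exists_eq_add_of_le hj1
  set P : ℕ → ℂ → ℂ := fun j => ev (nodes S j) (trunc F a (c (j + 1))) with hP
  have hcN : ∀ j, c (j + 1) ≤ 2 ^ (j + 3) := fun j => by
    have := (hc (j + 1)).2.1
    have h2 : (0 : ℝ) < 2 ^ j := by positivity
    rw [pow_add] at this ⊢
    linarith
  have hcc : ∀ j, c j ≤ c (j + 1) := fun j => by
    have h1 := (hc j).2.1
    have h2 := (hc (j + 1)).1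
    have h3 : (0 : ℝ) < 2 ^ j := by positivity
    rw [pow_add, pow_add] at h2
    linarith
  let claim : ℕ → Prop := fun n => ∀ i ≤ n, ∀ z ∈ Γ,
    ‖z - Q (x i)‖ ≤ 3 * ((K (j0 + i) : ℝ) / N (j0 + i)) →
      ‖P (j0 + n) z‖ ≤ δ * (1 + 2 / 2 ^ n)
  have hdisc : ∀ n, claim n → ∀ s : ℂ, ‖s‖ ≤ K (j0 + n) / N (j0 + n) →
      ‖P (j0 + n) (Q (x n) + s)‖ ≤ 2 * (3 * δ) * 24 ^ (34 * K (j0 + n)) := by
    intro n hn
    obtain ⟨q', hq', hq'far⟩ := hfar n
    apply remez_continuum hΓ _ _ (hQ _ (hxI n)) hq' le_rfl (hK1 _)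
      (fun p hp => le_of_mem_nodes hp) (hN0 _) (by positivity) hq'far
    intro z hz hzq
    refine (hn n le_rfl z hz hzq).trans ?_
    have : (2 : ℝ) / 2 ^ n ≤ 2 := div_le_self (by norm_num) (one_le_pow₀ (by norm_num))
    nlinarith
  have hstep : ∀ n, claim (n + 1) → claim n := by
    intro n hn i hi z hz hzq
    set j := j0 + n with hj
    have hjj : j0 + (n + 1) = j + 1 := by omega
    have hd := hdisc (n + 1) hn
    have hn' := hn i (by omega) z hz hzq
    rw [hjj] at hd hn'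
    simp only [hP] at hd hn' ⊢
    rw [ev_trunc_succ hF a (hcc (j + 1)) (hcN j) (hc (j + 1)).2.2.1 z]
    set X := (Q (x (n + 1)) - Q (x i)).re with hX
    have hxi : x i ≤ x (n + 1) := hxmono (by omega)
    obtain ⟨hX1, hX2⟩ := hmono _ (hxI i) _ (hxI (n + 1)) hxi
    have hXa : 6 * ((K (j0 + i) : ℝ) / N (j0 + i)) ≤ X := by
      have h1 : x (i + 1) ≤ x (n + 1) := hxmono (by omega)
      rw [hxsucc] at h1
      have := he0 (j0 + i + 1)
      simp only [hh] at h1
      linarith
    have hXb : e (j + 1) ≤ X := by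
      have h1 : x i ≤ x n := hxmono hi
      have h2 := hxsucc n
      have := hr0 (j0 + n)
      simp only [hh] at h2
      linarith
    have hX0 : 0 ≤ X := (he0 _).trans hXb
    set s := z - Q (x (n + 1)) with hs
    have hs' : s = (z - Q (x i)) - (Q (x (n + 1)) - Q (x i)) := by rw [hs]; ring
    have hsre : s.re ≤ -(X / 2) := by
      rw [hs', sub_re, ← hX]
      have := (re_le_norm (z - Q (x i))).trans hzq
      linarith
    have hsn : ‖s‖ ≤ (M + 1) * X := by
      rw [hs']
      refine (norm_sub_le _ _).trans ?_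
      linarith
    have hNe : (K (j + 1) : ℝ) / (K (j + 1) / N (j + 1)) + N (j + 1) = 2 * N (j + 1) := by
      have : (K (j + 1) : ℝ) ≠ 0 := by have := hK1 (j + 1); positivity
      have := (hN0 (j + 1)).ne'
      field_simp; ring
    have hb := extract_high (nodes S (j + 1)) (trunc F a (c (j + 1 + 1))) (Q (x (n + 1)))
      (hr0 (j + 1)) (K := K (j + 1)) le_rfl (hK1 _) (fun p hp => le_of_mem_nodes hp)
      (hN0 (j + 1)).le hκ0 hκ1 (c := c (j + 1))
      (le_trans (by positivity) (hc (j + 1)).1.le) (D := 2 ^ (j + 1) / 12) (by positivity)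
      (by
        rw [hNe]
        have : (0 : ℝ) < 2 ^ (j + 1) := by positivity
        simp only [hN]; rw [pow_add _ (j + 1) 3]; linarith)
      (hc (j + 1)).2.2.2 hd s (-(N (j + 1) * X / 8))
      (by
        intro p _ hp
        have h1 := (hc (j + 1)).1
        have h2 : N (j + 1) / 4 ≤ p := by
          simp only [hN]; rw [pow_add _ (j + 1) 3]; rw [pow_add _ (j + 1) 1] at h1; linarith
        have h3 := hN0 (j + 1)
        nlinarith)
    have hzs : Q (x (n + 1)) + s = z := by rw [hs]; ring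
    rw [hzs, hNe] at hb
    have e192 : 2 * N (j + 1) / (2 ^ (j + 1) / 12) = 192 := by
      simp only [hN]; rw [pow_add _ (j + 1) 3]; field_simp; norm_num
    rw [e192] at hb
    have hexp : Real.exp (-(N (j + 1) * X / 8) + κ * N (j + 1) * ‖s‖) ≤
        (C0 ^ K (j + 1))⁻¹ * (1 / 2 ^ (n + 3)) := by
      have h1 : κ * N (j + 1) * ‖s‖ ≤ N (j + 1) * X / 16 := by
        have h3 := hN0 (j + 1)
        calc κ * N (j + 1) * ‖s‖ ≤ κ * N (j + 1) * ((M + 1) * X) := by gcongr
          _ = N (j + 1) * X / 16 := by rw [hκ]; field_simp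
      have h2 : Real.log C0 * K (j + 1) + ((j + 1 : ℕ) + 3) ≤ N (j + 1) * X / 16 := by
        simp only [he] at hXb
        rw [div_le_iff₀ (hN0 _)] at hXb
        linarith
      have h3 : (C0 ^ K (j + 1))⁻¹ = Real.exp (-(Real.log C0 * K (j + 1))) := by
        rw [Real.exp_neg, mul_comm, Real.exp_nat_mul, Real.exp_log hC00]
      have h4 : Real.exp (-((n + 3 : ℕ) : ℝ)) ≤ 1 / 2 ^ (n + 3) := by
        rw [Real.exp_neg, one_div]
        apply inv_anti₀ (by positivity)
        rw [← Real.exp_one_pow]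
        exact pow_le_pow_left₀ (by norm_num) (by linarith [Real.exp_one_gt_d9]) _
      have h5 : ((n + 3 : ℕ) : ℝ) ≤ ((j + 1 : ℕ) : ℝ) + 3 := by
        have : n + 3 ≤ j + 1 + 3 := by omega
        exact_mod_cast this
      rw [h3]
      refine le_trans ?_ (mul_le_mul_of_nonneg_left h4 (Real.exp_pos _).le)
      rw [← Real.exp_add]
      exact Real.exp_le_exp.2 (by linarith)
    have hb' : ‖ev ((nodes S (j + 1)).filter fun p : ℕ => c (j + 1) < p)
        (trunc F a (c (j + 1 + 1))) z‖ ≤ δ / 2 ^ n := by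
      refine hb.trans ((mul_le_mul_of_nonneg_left hexp (by positivity)).trans ?_)
      have e1 : C0 ^ K (j + 1) = 24 ^ (34 * K (j + 1)) * 192 ^ K (j + 1) * κ⁻¹ ^ K (j + 1) := by
        rw [hC0, mul_pow, mul_pow, pow_mul]
      have e2 : 2 * (3 * δ) * 24 ^ (34 * K (j + 1)) * 192 ^ K (j + 1) * κ⁻¹ ^ K (j + 1) *
          ((C0 ^ K (j + 1))⁻¹ * (1 / 2 ^ (n + 3))) = 6 / 8 * (δ / 2 ^ n) := by
        rw [e1, pow_add]; field_simp; ring
      rw [e2]
      have : 0 ≤ δ / 2 ^ n := by positivity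
      linarith
    refine (norm_sub_le _ _).trans ((add_le_add hn' hb').trans (le_of_eq ?_))
    rw [pow_succ]; field_simp; ring
  obtain ⟨n0, hm0, hn0⟩ : ∃ n0, m ≤ n0 ∧ ∀ p ∈ F, p < 2 ^ n0 := by
    refine ⟨max m (F.sup id), le_max_left _ _, fun p hp => ?_⟩
    exact lt_of_le_of_lt ((Finset.le_sup (f := id) hp).trans (le_max_right _ _))
      Nat.lt_two_pow_self
  have htop : claim n0 := by
    intro i _ z hz _
    simp only [hP]
    rw [ev_trunc_top hF a (hcN _) (by
      intro p hp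
      have h1 : p < 2 ^ (j0 + n0 + 1 + 1) :=
        (hn0 p hp).trans_le (Nat.pow_le_pow_right (by norm_num) (by omega))
      have h2 : (p : ℝ) < 2 ^ (j0 + n0 + 1 + 1) := by exact_mod_cast h1
      exact h2.trans (hc _).1)]
    refine (hsmall z hz).trans (le_mul_of_one_le_right hδ.le ?_)
    have : (0 : ℝ) ≤ 2 / 2 ^ n0 := by positivity
    linarith
  have h0 : claim m := Nat.decreasingInduction (fun k _ => hstep k) htop hm0
  have hd := hdisc m h0
  have h2j : (0 : ℝ) < 2 ^ (j0 + m) := by positivity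
  have hpc : (p : ℝ) < c (j0 + m + 1) := by
    have := (hc (j0 + m + 1)).1
    rw [pow_succ, pow_succ] at this; linarith
  have hK1' : (1 : ℝ) ≤ K (j0 + m) := by exact_mod_cast hK1 _
  refine ⟨nodes S (j0 + m), trunc F a (c (j0 + m + 1)), Q (x m), K (j0 + m) / N (j0 + m),
    K (j0 + m), mem_nodes.2 ⟨?_, hF p hpF⟩, by simp [trunc, hpF, hpc], hx0 _ (hQ _ (hxI m)),
    hr0 _, le_rfl, hK1 _, by linarith, le_of_eq (by simp only [hN]; field_simp),
    fun l hl => le_of_mem_nodes hl, fun s hs => (hd s hs).trans (remez_const hδ (hK1 _))⟩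
  have := hpc.trans_le (hcN _)
  exact_mod_cast this

/-- The estimate for a continuum which together with a vertical line encloses a domain lying
to the right of the line. -/
theorem lev_pocket {S : Set ℕ} (hS : Summable (fun p : S => (1 : ℝ) / ((p : ℕ) : ℝ)))
    {Γ U : Set ℂ} (hΓ : IsPreconnected Γ) (hU : IsOpen U) (hUb : Bornology.IsBounded U)
    (hne : U.Nonempty) {x1 : ℝ} (hx : ∀ z ∈ U, x1 < z.re)
    (hfr : ∀ ζ ∈ frontier U, ζ ∈ Γ ∨ ζ.re = x1) {p1 : ℂ} (hp1 : p1 ∈ Γ) (hp1' : p1.re ≤ x1) :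
    Lev S Γ x1 := by
  classical
  obtain ⟨ζ, hζ, hmax⟩ := hUb.isCompact_closure.exists_isMaxOn hne.closure
    continuous_re.continuousOn
  have hζx : x1 < ζ.re := by
    obtain ⟨z, hz⟩ := hne
    exact (hx z hz).trans_le (hmax (subset_closure hz))
  have hζU : ζ ∉ U := by
    intro h
    obtain ⟨ε, hε, hball⟩ := Metric.isOpen_iff.1 hU ζ h
    have h1 : ζ + (ε / 2 : ℝ) ∈ U := hball (by
      rw [mem_ball_iff_norm, add_sub_cancel_left, Complex.norm_real, Real.norm_of_nonneg] <;>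
        linarith)
    have h2 : (ζ + (ε / 2 : ℝ)).re ≤ ζ.re := hmax (subset_closure h1)
    simp at h2; linarith
  have hζΓ : ζ ∈ Γ := by
    refine (hfr ζ (by rw [hU.frontier_eq]; exact ⟨hζ, hζU⟩)).resolve_right hζx.ne'
  set d := ζ.re - x1 with hd
  have hd0 : 0 < d := by linarith
  have hρ := four_le_rho0
  set l := d / (rho0 + 1) with hl
  have hl0 : 0 < l := by positivity
  have hld : d = (rho0 + 1) * l := by rw [hl]; field_simp
  obtain ⟨q, hqU, hq⟩ := Metric.mem_closure_iff.1 hζ (l / 2) (by positivity)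
  rw [dist_comm, dist_eq_norm] at hq
  obtain ⟨ε, hε, hball⟩ := Metric.isOpen_iff.1 hU q hqU
  set η := min (ε / 2) (l / 2) with hη
  have hη0 : 0 < η := lt_min (by positivity) (by positivity)
  have hηl : η ≤ l / 2 := min_le_right _ _
  have hηU : ∀ w, ‖w - q‖ ≤ η → w ∈ U := fun w hw => hball (by
    rw [mem_ball_iff_norm]; linarith [min_le_left (ε / 2) (l / 2)])
  obtain ⟨R, hR⟩ := hUb.closure.exists_norm_le
  have hR0 : 0 ≤ R := (norm_nonneg _).trans (hR ζ hζ)
  have hqre : ζ.re - l / 2 ≤ q.re := by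
    have := (abs_re_le_norm (q - ζ)).trans hq.le
    rw [sub_re, abs_le] at this; linarith [this.1]
  set M0 := 4 * R / d + 1 with hM0
  have hM01 : 1 ≤ M0 := by have : 0 ≤ 4 * R / d := by positivity
                           linarith
  obtain ⟨r, hr⟩ := exists_scale hS (T := 2) le_rfl
  set C3 := 5 + 3 * Real.log (1 + 9 * (M0 + 1)) with hC3
  have hC30 : 0 ≤ C3 := by
    have : 0 ≤ Real.log (1 + 9 * (M0 + 1)) := Real.log_nonneg (by linarith)
    linarith
  set C1 := 2 * C3 + 16 with hC1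
  set C2 := Cmid 2 (M0 + 1) with hC2
  have hC20 : 0 ≤ C2 := Cmid_nonneg 2 (by linarith)
  set A := 4 * (2 + 8 * C1 + C2) with hA
  have hA4 : 4 ≤ A := by linarith
  obtain ⟨t, j0, ht, ht0, htη⟩ := exists_tail (Y := fun j => A * r j) (hr.summable.mul_left A)
    (fun j => by have := hr.pos j; positivity) (η := η / 2) (by positivity)
  set n : ℕ → ℝ := fun j => 2 ^ j * r j with hn
  have hn1 : ∀ j, 1 ≤ n j := hr.one_le
  refine lev_of_sc hr (C1 := C1) (j0 := j0) (by linarith) fun F a δ hδ hF hsmall => ?_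
  obtain ⟨c, hc⟩ := exists_cut' 2 F
  refine ⟨c, hc, fun j1 hj1 => ?_⟩
  set Q : ℕ → ℂ := fun j => q - (t j : ℝ) with hQ
  have hQre : ∀ j, (Q j).re = q.re - t j := fun j => by simp [hQ]
  have hQim : ∀ j, (Q j).im = q.im := fun j => by simp [hQ]
  have hdisc : ∀ j, j0 ≤ j → ∀ w, ‖w - Q j‖ ≤ r j → ‖w - q‖ ≤ η := by
    intro j hj w hw
    have h1 : ‖w - q‖ ≤ ‖w - Q j‖ + ‖((t j : ℝ) : ℂ)‖ := by
      calc ‖w - q‖ = ‖(w - Q j) - (t j : ℝ)‖ := by simp only [hQ]; ring_nf
        _ ≤ _ := norm_sub_le _ _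
    rw [Complex.norm_real, Real.norm_of_nonneg (ht0 j)] at h1
    have h2 := ht j
    have h3 := htη j hj
    have h4 := ht0 (j + 1)
    have h5 := hr.pos j
    nlinarith
  let Z : ℕ → ℂ → Prop := fun j z => |z.im - q.im| ≤ M0 * ((Q j).re + A * r j / 2 - z.re)
  let St : ℕ → Prop := fun j =>
    (∀ z, Z j z → ‖hi F a (c j) z‖ ≤ δ * Real.exp (-(A * n j / 4))) ∧
    (∀ ζ ∈ frontier U, ζ.re = x1 → ‖ev F a ζ‖ ≤ δ * Real.exp (C1 * n j)) ∧
    (∀ w, ‖w - Q j‖ ≤ r j → ‖lo F a (c j) w‖ ≤ 2 * (δ * Real.exp (C1 * n j)))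
  obtain ⟨J, hJ⟩ := exists_top hr hc a hδ (C := C1) (by linarith) R
  have hSt : St j1 := by
    refine down_ind (J := J) (fun j hj' hJj => ?_) (fun j hj' ih => ?_)
    · have hj := hj1.trans hj'
      obtain ⟨h1, h2⟩ := hJ j hJj
      refine ⟨fun z _ => by rw [h1]; simp only [norm_zero]; positivity,
        fun ζ hζ _ => h2 ζ (hR ζ (frontier_subset_closure hζ)), fun w hw => ?_⟩
      have h3 := norm_lo_le (c := c j) (h2 w (hR w (subset_closure (hηU w (hdisc j hj w hw)))))
        (Y := 0) (by rw [h1]; simp)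
      have : 0 ≤ δ * Real.exp (C1 * n j) := by positivity
      exact h3.trans (by linarith)
    · have hj := hj1.trans hj'
      have hrj := hr.pos j
      have hnj := hn1 j
      have hV : ∀ z, Z j z → ‖hi F a (c j) z‖ ≤ δ * Real.exp (-(A * n j / 4)) := by
        intro z hz
        obtain ⟨i1, -, i3⟩ := ih (j + 2) (by omega)
        have h1 : (Q j).re + A * r j ≤ (Q (j + 2)).re := by
          rw [hQre, hQre, ht j, ht (j + 1)]
          have := hr.pos (j + 1)
          nlinarith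
        have h2 : 0 ≤ (Q j).re + A * r j / 2 - z.re :=
          nonneg_of_mul_nonneg_right ((abs_nonneg _).trans hz) (by linarith)
        have hAr : 0 < A * r j := by positivity
        have h3 : |z.im - q.im| ≤ M0 * ((Q (j + 2)).re - z.re) :=
          le_trans hz (mul_le_mul_of_nonneg_left (by linarith) (by linarith))
        have h4 := mid_bound hr (by norm_num) hF hc a (M := M0 + 1) (by linarith) j _ i3 z
          (cone_of (by linarith) (by rw [hQim]; exact h3))
        have h5 := i1 z (le_trans h3 (mul_le_mul_of_nonneg_left (by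
          have := hr.pos (j + 2)
          have : 0 < A * r (j + 2) := by positivity
          linarith) (by linarith)))
        refine h4.trans ((add_le_add h5 le_rfl).trans ?_)
        have h6 := hr.le_add j
        have h7 := hr.add_le j
        have h8 := hn1 (j + 2)
        have h2j : (0 : ℝ) < 2 ^ j := by positivity
        apply num_kill hδ (by positivity) (by positivity)
        · simp only [hn]; norm_num at h6 ⊢; nlinarith
        · simp only [hn]; nlinarith
        · simp only [hn] at hnj ⊢; norm_num at h7; nlinarith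
      have hθ : ∀ w, ‖w - Q j‖ ≤ r j → ‖lo F a (c j) w‖ ≤ 2 * (δ * Real.exp (C1 * n j / 2)) := by
        intro w hw
        have hwq := hdisc j hj w hw
        have hwζ : ‖ζ - w‖ ≤ l := by
          calc ‖ζ - w‖ = ‖(q - w) - (q - ζ)‖ := by ring_nf
            _ ≤ ‖q - w‖ + ‖q - ζ‖ := norm_sub_le _ _
            _ ≤ l := by rw [norm_sub_rev]; linarith
        have hwre : rho0 * l ≤ w.re - x1 := by
          have := (re_le_norm (ζ - w)).trans hwζ
          rw [sub_re] at this; linarith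
        have h1 := two_const_exp (differentiable_ev F a) hU hUb (hηU w hwq) hl0 hδ
          (m := C1 * n (j + 1)) (by have := hn1 (j + 1); positivity)
          (by
            intro ζ' hζ'
            rcases hfr ζ' hζ' with h | h
            · exact Or.inl (hsmall ζ' h)
            · refine Or.inr ⟨?_, (ih (j + 1) (by omega)).2.1 ζ' hζ' h⟩
              have := re_le_norm (w - ζ')
              rw [sub_re, norm_sub_rev] at this; linarith)
          (by
            intro s hs
            obtain ⟨z, hz, hzs⟩ := exists_norm_eq hΓ hζΓ hp1 (p := w) (s := s) (hwζ.trans hs.1)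
              (by
                have := re_le_norm (w - p1)
                rw [sub_re, norm_sub_rev] at this
                nlinarith [hs.2])
            exact ⟨z, hzs, hsmall z hz⟩)
        have h2 := h1.trans (num_theta hδ (m := C1 * n j) (by nlinarith) (by
          have := hr.succ_le (by norm_num) j
          simp only [hn]; nlinarith))
        have h3 := hV w (by
          have h4 := (abs_re_le_norm (w - Q j)).trans hw
          have h5 := (abs_im_le_norm (w - Q j)).trans hw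
          rw [sub_re, abs_le] at h4
          rw [sub_im, hQim] at h5
          refine h5.trans ?_
          have : r j ≤ (Q j).re + A * r j / 2 - w.re := by nlinarith [h4.2]
          nlinarith)
        have h4 : δ * Real.exp (-(A * n j / 4)) ≤ δ * Real.exp (C1 * n j / 2) := by
          gcongr
          have : 0 ≤ A * n j := by positivity
          have : 0 ≤ C1 * n j := by positivity
          linarith
        exact (norm_lo_le h2 (h3.trans h4)).trans (by linarith)
      refine ⟨hV, fun ζ' hζ' hζx' => ?_, fun w hw => (hθ w hw).trans ?_⟩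
      · have h1 : d / 2 ≤ (Q j).re - ζ'.re := by
          rw [hQre, hζx']
          have := htη j hj
          nlinarith
        have h2 : |ζ'.im - q.im| ≤ M0 * ((Q j).re - ζ'.re) := by
          have h3 := (abs_im_le_norm ζ').trans (hR ζ' (frontier_subset_closure hζ'))
          have h4 := (abs_im_le_norm q).trans (hR q (subset_closure hqU))
          have h5 : |ζ'.im - q.im| ≤ 2 * R := (abs_sub _ _).trans (by linarith)
          have h6 : M0 * (d / 2) = 2 * R + d / 2 := by rw [hM0]; field_simp; ring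
          nlinarith
        have h3 := cone_bound hr hF hc a (M := M0 + 1) (by linarith) j _ hθ ζ'
          (cone_of (by linarith) (by rw [hQim]; exact h2))
        have h4 := hV ζ' (le_trans h2 (mul_le_mul_of_nonneg_left (by
          have : 0 < A * r j := by positivity
          linarith) (by linarith)))
        have h5 : δ * Real.exp (-(A * n j / 4)) ≤ δ :=
          mul_le_of_le_one_right hδ.le (Real.exp_le_one_iff.2 (by
            have : 0 ≤ A * n j := by positivity
            linarith))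
        refine (norm_ev_le h3 (h4.trans h5)).trans (num_cone hδ (by positivity) ?_)
        simp only [hn] at hnj ⊢
        nlinarith
      · gcongr
        have : 0 ≤ C1 * n j := by positivity
        linarith
  refine ⟨Q j1, ?_, hSt.2.2⟩
  rw [hQre]
  have := htη j1 hj1
  nlinarith

/-- The estimate for the graph of a continuous function. -/
theorem lev_graph {S : Set ℕ} (hS : Summable (fun p : S => (1 : ℝ) / ((p : ℕ) : ℝ)))
    {φ : ℝ → ℝ} (hφ : Continuous φ) {a b : ℝ} (hab : a ≤ b) (hlt : φ a < φ b) :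
    Lev S {z | a ≤ z.re ∧ z.re ≤ b ∧ z.im = φ z.re} a := by
  obtain ⟨Δ, hΔ, hgeo⟩ := exists_geo hφ hab hlt
  have hρ := four_le_rho0
  obtain ⟨T, k, hT, hk, hkT⟩ := exists_params (L := 3 * rho0 + 2) (by linarith)
  obtain ⟨r, hr⟩ := exists_scale hS hT
  obtain ⟨n0, hn0⟩ : ∃ n0, n0 = 254 * (k + 1) := ⟨_, rfl⟩
  obtain ⟨M0, hM01, hM0'⟩ : ∃ M0 : ℝ, 1 ≤ M0 ∧ φ b - φ a + 2 ≤ M0 * Δ := by
    refine ⟨(φ b - φ a + 2) / Δ + 1, ?_, ?_⟩
    · have : 0 ≤ (φ b - φ a + 2) / Δ := div_nonneg (by linarith) hΔ.le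
      linarith
    · rw [add_mul, div_mul_cancel₀ _ hΔ.ne']; linarith
  obtain ⟨C3, hC3⟩ : ∃ C3, C3 = 5 + 3 * Real.log (1 + 9 * (M0 + 1)) := ⟨_, rfl⟩
  have hC30 : 0 ≤ C3 := by
    have : 0 ≤ Real.log (1 + 9 * (M0 + 1)) := Real.log_nonneg (by linarith)
    linarith
  obtain ⟨C1, hC1⟩ : ∃ C1, C1 = 2 * C3 + 16 := ⟨_, rfl⟩
  have hC116 : 16 ≤ C1 := by linarith
  have c1 := Cmid_nonneg T (M := M0 + 1) (by linarith)
  have c2 := Cmid_nonneg T (M := 2) (by norm_num)
  have c3 := Cmid_nonneg T (M := 1) le_rfl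
  obtain ⟨K0, hK0⟩ : ∃ K0, K0 = 2 + 2 ^ (T + 1) * C1 + Cmid T (M0 + 1) + Cmid T 2 + Cmid T 1 :=
    ⟨_, rfl⟩
  have hK02 : 2 ≤ K0 := by
    have : 0 ≤ 2 ^ (T + 1) * C1 := by positivity
    linarith
  obtain ⟨A, hA⟩ : ∃ A : ℝ, A = 2 ^ (n0 + 1) * K0 + 1344 * 2 ^ T := ⟨_, rfl⟩
  have h2T : (1 : ℝ) ≤ 2 ^ T := one_le_pow₀ (by norm_num)
  have h2n : (1 : ℝ) ≤ 2 ^ n0 := one_le_pow₀ (by norm_num)
  have hA1 : 1344 * 2 ^ T ≤ A := by
    have : 0 ≤ 2 ^ (n0 + 1) * K0 := by positivity
    linarith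
  have hA2 : 2 ^ (n0 + 1) * K0 ≤ A := by linarith
  have hA3 : 1344 ≤ A := by linarith
  have hA0 : 0 < A := by linarith
  obtain ⟨j0, σ, ξ, g⟩ := hgeo (3 * rho0 + 2) T (fun j => A * r j) (by linarith)
    (fun j => mul_pos hA0 (hr.pos j)) (hr.summable.mul_left A)
    (fun i j h1 h2 => by have := hr.win i j h1 h2; nlinarith)
  set Y : ℕ → ℝ := fun j => A * r j with hY
  have hn1 := hr.one_le
  refine lev_of_sc hr (C1 := C1) (j0 := j0) (by linarith) fun F co δ hδ hF hsm => ?_
  have hsmall : ∀ z : ℂ, a ≤ z.re → z.re ≤ b → z.im = φ z.re → ‖ev F co z‖ ≤ δ :=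
    fun z h1 h2 h3 => hsm z ⟨h1, h2, h3⟩
  obtain ⟨c, hc⟩ := exists_cut' T F
  refine ⟨c, hc, fun j1 hj1 => ?_⟩
  set G : ℕ → ℝ := fun j => A * (2 ^ j * r j) / 2 ^ (n0 + 1) with hG
  have hG0 : ∀ j, 0 ≤ G j := fun j => by have := hr.pos j; positivity
  have hm0 : ∀ j, 0 ≤ C1 * (2 ^ j * r j) := fun j => by have := hr.pos j; positivity
  have hε : ∀ j, δ * Real.exp (-G j) ≤ δ * Real.exp (C1 * (2 ^ j * r j)) := fun j => by
    gcongr; linarith [hG0 j, hm0 j]
  have hρ64 : ∀ j, r j ≤ Y j / 64 := fun j => by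
    have := hr.pos j; simp only [hY]; nlinarith
  let St : ℕ → Prop := fun j =>
    StU (ev F co) φ a (ξ j) (σ j + Y j) (δ * Real.exp (C1 * (2 ^ j * r j))) ∧
    StA (hi F co (c j)) (ξ j) (σ j + Y j) (Y j) (δ * Real.exp (-G j)) ∧
    StL (hi F co (c j)) (a + 3 * Δ) (φ a - 1) (φ b + 1) (δ * Real.exp (-(2 ^ j * Δ / 2)))
  obtain ⟨R, hR⟩ := creg_bound hφ a b
  obtain ⟨J, hJ⟩ := exists_top hr hc co hδ (C := C1) (by linarith) R
  have hSt : St j1 := by
    refine down_ind (J := J) (fun j hj' hJj => ?_) (fun j hj' ih => ?_)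
    · have hj := hj1.trans hj'
      obtain ⟨h1, h2⟩ := hJ j hJj
      refine ⟨fun z hz => h2 z (hR z ⟨hz.1, hz.2.1.trans (g.hi j hj), hz.2.2.1,
        hz.2.2.2.trans (g.s_le j)⟩), fun x _ w _ => ?_, fun z _ _ _ => ?_⟩ <;>
      · rw [h1, norm_zero]; positivity
    · have hj := hj1.trans hj'
      obtain ⟨i1, i2, i3⟩ := ih (j + T) (by omega)
      have hnj := hn1 j
      have hadd := hr.add_le j
      have hle := hr.le_add j
      have h2j : (0 : ℝ) < 2 ^ j := by positivity
      have hYn : 2 ^ j * Y j = A * (2 ^ j * r j) := by simp only [hY]; ring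
      have hmT : C1 * (2 ^ (j + T) * r (j + T)) ≤ 2 ^ (T + 1) * C1 * (2 ^ j * r j) := by
        nlinarith
      have hKG : K0 * (2 ^ j * r j) ≤ G j := by
        simp only [hG]
        rw [le_div_iff₀ (by positivity)]
        nlinarith
      have hGA : 2 * G j = A * (2 ^ j * r j) / 2 ^ n0 := by
        simp only [hG]; rw [pow_succ]; field_simp
      have hGA' : 2 * G j ≤ A * (2 ^ j * r j) := by
        rw [hGA]; exact div_le_self (by positivity) h2n
      have d1 := mul_nonneg c1 (zero_le_one.trans hnj)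
      have d2 := mul_nonneg c2 (zero_le_one.trans hnj)
      have d3 := mul_nonneg c3 (zero_le_one.trans hnj)
      have hK0n : K0 * (2 ^ j * r j) = 2 * (2 ^ j * r j) + 2 ^ (T + 1) * C1 * (2 ^ j * r j) +
          Cmid T (M0 + 1) * (2 ^ j * r j) + Cmid T 2 * (2 ^ j * r j) +
          Cmid T 1 * (2 ^ j * r j) := by rw [hK0]; ring
      have sL := stepL g hr hT hF hc hδ hj hM01 hM0' (hm0 _) i1 i2 (hε _) (hρ64 _) i3 (by
        have b1 : 2 ^ j * Y j ≤ 2 ^ j * Δ := by
          have := g.Y_le hj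
          have := g.pos j
          gcongr; linarith
        linarith)
      have sA := stepA g hr hT hF hc hδ hj (k := k) (G := G j) (hm0 _) hk i1 i2
        (by
          have := hr.pos (j + T)
          simp only [hY]; nlinarith)
        sL (by rw [hYn]; nlinarith)
        (by
          simp only [hG]
          rw [hYn, le_div_iff₀ (by positivity), ← hn0]
          have b1 : (2 : ℝ) ^ (n0 + k + (n0 + 1) + 1) ≤ 2 ^ T :=
            pow_le_pow_right₀ (by norm_num) (by omega)
          rw [pow_succ, pow_add, pow_add] at b1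
          calc 2 ^ n0 * 2 ^ k * (A * (2 ^ j * r j)) * 2 ^ (n0 + 1)
              = A * ((2 ^ n0 * 2 ^ k * 2 ^ (n0 + 1) * 2) * (2 ^ j * r j)) / 2 := by ring
            _ ≤ A * (2 ^ T * (2 ^ j * r j)) / 2 := by gcongr
            _ ≤ A * (2 * (2 ^ (j + T) * r (j + T))) / 2 := by gcongr
            _ = _ := by ring)
        (by rw [hYn]; linarith [hG0 j]) (by rw [hYn, ← hn0, ← hGA]; linarith)
        (by rw [hYn]; linarith)
      refine ⟨stepU g hφ rfl hr hF hc hδ hj (m' := C1 * (2 ^ (j + 1) * r (j + 1))) (by nlinarith)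
        (hm0 _) (by have := hr.succ_le (by omega) j; nlinarith) hM01 hM0' hsmall
        (ih (j + 1) (by omega)).1 (fun x hx w hw => (sA x hx w hw).trans ?_)
        (fun z h1 h2 h3 => (sL z h1 h2 h3).trans ?_)
        ((hρ64 j).trans (by linarith [g.pos j])) (by rw [← hC3]; nlinarith), sA, sL⟩
      · exact mul_le_of_le_one_right hδ.le (Real.exp_le_one_iff.2 (by linarith [hG0 j]))
      · exact mul_le_of_le_one_right hδ.le (Real.exp_le_one_iff.2 (by
          have : 0 ≤ 2 ^ j * Δ / 2 := by positivity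
          linarith))
  have hlo : a + Y j1 ≤ ξ j1 - Y j1 := by linarith [g.lo j1 hj1, g.Y_le hj1, g.pos j1]
  refine ⟨_, ?_, ctl g hj1 hSt.1 hSt.2.1 (hε _) (hρ64 _) (x := ξ j1 - Y j1) hlo le_rfl⟩
  have := g.pos j1
  simp only [add_re, ofReal_re, mul_re, I_re, mul_zero, ofReal_im, I_im, mul_one, sub_self,
    add_zero]
  linarith

end Pool.Agent.P.MP_c161d8_an
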