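import Pool.Agent.P.MP_c161d8_an.Tools

set_option autoImplicit false

namespace Pool.Agent.P.MP_c161d8_an

open Finset Complex

lemma exists_tail {Y : ℕ → ℝ} (hY : Summable Y) (h0 : ∀ j, 0 ≤ Y j) {η : ℝ} (hη : 0 < η) :
    ∃ (t : ℕ → ℝ) (j0 : ℕ), (∀ j, t j = Y j + t (j + 1)) ∧ (∀ j, 0 ≤ t j) ∧
      ∀ j, j0 ≤ j → t j ≤ η := by
  obtain ⟨j0, hj0⟩ := Filter.eventually_atTop.1
    ((tendsto_sum_nat_add Y).eventually (ge_mem_nhds hη))
  refine ⟨fun j => ∑' i, Y (i + j), j0, fun j => ?_, fun j => tsum_nonneg fun i => h0 _, hj0⟩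
  have := ((summable_nat_add_iff j).2 hY).tsum_eq_zero_add
  simp only [zero_add] at this
  simp only
  rw [this]
  congr 1
  exact tsum_congr fun i => by rw [show i + 1 + j = i + (j + 1) by ring]

lemma num_theta {δ m m' : ℝ} (hδ : 0 < δ) (hm : 16 ≤ m) (hm' : m' ≤ 4 * m) :
    48 * δ * Real.exp (m' / 16) ≤ δ * Real.exp (m / 2) := by
  have h1 : (48 : ℝ) ≤ Real.exp (m / 4) := by
    have h2 : Real.exp 4 ≤ Real.exp (m / 4) := Real.exp_le_exp.2 (by linarith)
    have h3 : (2.7 : ℝ) ^ 4 ≤ Real.exp 1 ^ 4 :=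
      pow_le_pow_left₀ (by norm_num) (by linarith [Real.exp_one_gt_d9]) 4
    rw [Real.exp_one_pow] at h3
    norm_num at h3 ⊢
    linarith
  have h2 : Real.exp (m' / 16) ≤ Real.exp (m / 4) := Real.exp_le_exp.2 (by linarith)
  calc 48 * δ * Real.exp (m' / 16) ≤ Real.exp (m / 4) * δ * Real.exp (m / 4) := by gcongr
    _ = δ * (Real.exp (m / 4) * Real.exp (m / 4)) := by ring
    _ = _ := by rw [← Real.exp_add]; congr 2; ring

lemma num_cone {δ m u : ℝ} (hδ : 0 < δ) (hu : 0 ≤ u) (hm : 2 * u + 4 ≤ m) :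
    2 * (δ * Real.exp (m / 2)) * Real.exp u + δ ≤ δ * Real.exp m := by
  have hE2 : 3 ≤ Real.exp 2 := by linarith [Real.add_one_le_exp (2 : ℝ)]
  have h1 : 1 ≤ Real.exp (m / 2 + u) := Real.one_le_exp (by linarith)
  have h2 : Real.exp 2 * Real.exp (m / 2 + u) ≤ Real.exp m := by
    rw [← Real.exp_add]; exact Real.exp_le_exp.2 (by linarith)
  have h3 : 2 * (δ * Real.exp (m / 2)) * Real.exp u = δ * (2 * Real.exp (m / 2 + u)) := by
    rw [Real.exp_add]; ring
  rw [h3]
  have h4 : 2 * Real.exp (m / 2 + u) + 1 ≤ Real.exp m := by nlinarith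
  nlinarith

lemma num_kill {δ m u X G G' : ℝ} (hδ : 0 < δ) (hm : 0 ≤ m) (hu : 0 ≤ u) (h1 : 2 * G ≤ G')
    (h2 : 2 * G ≤ X) (h3 : 2 + m + u ≤ G) :
    δ * Real.exp (-G') + 2 * (δ * Real.exp m) * Real.exp (u - X) ≤ δ * Real.exp (-G) := by
  have hE2 : 3 ≤ Real.exp 2 := by linarith [Real.add_one_le_exp (2 : ℝ)]
  have h4 : Real.exp (-G') ≤ Real.exp (m + u - 2 * G) := Real.exp_le_exp.2 (by linarith)
  have h5 : Real.exp m * Real.exp (u - X) ≤ Real.exp (m + u - 2 * G) := by
    rw [← Real.exp_add]; exact Real.exp_le_exp.2 (by linarith)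
  have h6 : Real.exp 2 * Real.exp (m + u - 2 * G) ≤ Real.exp (-G) := by
    rw [← Real.exp_add]; exact Real.exp_le_exp.2 (by linarith)
  have h7 := Real.exp_pos (m + u - 2 * G)
  have h8 : Real.exp (-G') + 2 * (Real.exp m * Real.exp (u - X)) ≤ Real.exp (-G) := by nlinarith
  nlinarith

lemma Sc.succ_le {S : Set ℕ} {T : ℕ} {r : ℕ → ℝ} (h : Sc S T r) (hT : 1 ≤ T) (j : ℕ) :
    2 ^ (j + 1) * r (j + 1) ≤ 4 * (2 ^ j * r j) := by
  have := h.win (j + 1) j (by omega) (by omega)
  have h2 : (0 : ℝ) < 2 ^ j := by positivity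
  rw [pow_succ]; nlinarith

lemma Sc.add_le {S : Set ℕ} {T : ℕ} {r : ℕ → ℝ} (h : Sc S T r) (j : ℕ) :
    2 ^ (j + T) * r (j + T) ≤ 2 ^ (T + 1) * (2 ^ j * r j) := by
  have := h.win (j + T) j le_rfl (by omega)
  calc (2 : ℝ) ^ (j + T) * r (j + T) ≤ 2 ^ (j + T) * (2 * r j) := by gcongr
    _ = _ := by ring

lemma Sc.le_add {S : Set ℕ} {T : ℕ} {r : ℕ → ℝ} (h : Sc S T r) (j : ℕ) :
    2 ^ T * (2 ^ j * r j) ≤ 2 * (2 ^ (j + T) * r (j + T)) := by
  have := h.win j (j + T) (by omega) le_rfl
  calc (2 : ℝ) ^ T * (2 ^ j * r j) ≤ 2 ^ T * (2 ^ j * (2 * r (j + T))) := by gcongr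
    _ = _ := by ring

lemma norm_le_re_add_im (z : ℂ) {x y : ℝ} (hx : |z.re| ≤ x) (hy : |z.im| ≤ y) : ‖z‖ ≤ x + y :=
  (Complex.norm_le_abs_re_add_abs_im z).trans (add_le_add hx hy)

lemma cone_of {z q : ℂ} {M : ℝ} (h0 : 0 ≤ q.re - z.re) (h : |z.im - q.im| ≤ M * (q.re - z.re)) :
    ‖z - q‖ ≤ (M + 1) * (q.re - z.re) := by
  refine (norm_le_re_add_im _ (x := q.re - z.re) (y := M * (q.re - z.re)) ?_ ?_).trans
    (le_of_eq (by ring))
  · rw [sub_re, abs_le]; constructor <;> linarith
  · rw [sub_im]; exact h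

/-- The estimate for a continuum which together with a vertical line encloses a domain lying
to the right of the line. -/
theorem est_pocket {S : Set ℕ} (hS : Summable (fun p : S => (1 : ℝ) / ((p : ℕ) : ℝ)))
    {Γ U : Set ℂ} (hΓ : IsPreconnected Γ) (hU : IsOpen U) (hUb : Bornology.IsBounded U)
    (hne : U.Nonempty) {x1 : ℝ} (hx : ∀ z ∈ U, x1 < z.re)
    (hfr : ∀ ζ ∈ frontier U, ζ ∈ Γ ∨ ζ.re = x1) {p1 : ℂ} (hp1 : p1 ∈ Γ) (hp1' : p1.re ≤ x1) :
    Est S Γ := by
  classical
  obtain ⟨ζ, hζ, hmax⟩ := hUb.isCompact_closure.exists_isMaxOn hne.closure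
    continuous_re.continuousOn
  have hζx : x1 < ζ.re := by
    obtain ⟨z, hz⟩ := hne
    exact (hx z hz).trans_le (hmax (subset_closure hz))
  have hζU : ζ ∉ U := by
    intro h
    obtain ⟨ε, hε, hball⟩ := Metric.isOpen_iff.1 hU ζ h
    have h1 : ζ + (ε / 2 : ℝ) ∈ U := hball (by
      rw [mem_ball_iff_norm, add_sub_cancel_left, Complex.norm_real, Real.norm_of_nonneg] <;>
        linarith)
    have h2 : (ζ + (ε / 2 : ℝ)).re ≤ ζ.re := hmax (subset_closure h1)
    simp at h2; linarith
  have hζΓ : ζ ∈ Γ := by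
    refine (hfr ζ (by rw [hU.frontier_eq]; exact ⟨hζ, hζU⟩)).resolve_right hζx.ne'
  set d := ζ.re - x1 with hd
  have hd0 : 0 < d := by linarith
  have hρ := four_le_rho0
  set l := d / (rho0 + 1) with hl
  have hl0 : 0 < l := by positivity
  have hld : d = (rho0 + 1) * l := by rw [hl]; field_simp
  obtain ⟨q, hqU, hq⟩ := Metric.mem_closure_iff.1 hζ (l / 2) (by positivity)
  rw [dist_comm, dist_eq_norm] at hq
  obtain ⟨ε, hε, hball⟩ := Metric.isOpen_iff.1 hU q hqU
  set η := min (ε / 2) (l / 2) with hη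
  have hη0 : 0 < η := lt_min (by positivity) (by positivity)
  have hηl : η ≤ l / 2 := min_le_right _ _
  have hηU : ∀ w, ‖w - q‖ ≤ η → w ∈ U := fun w hw => hball (by
    rw [mem_ball_iff_norm]; linarith [min_le_left (ε / 2) (l / 2)])
  obtain ⟨R, hR⟩ := hUb.closure.exists_norm_le
  have hR0 : 0 ≤ R := (norm_nonneg _).trans (hR ζ hζ)
  have hqre : ζ.re - l / 2 ≤ q.re := by
    have := (abs_re_le_norm (q - ζ)).trans hq.le
    rw [sub_re, abs_le] at this; linarith [this.1]
  set M0 := 4 * R / d + 1 with hM0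
  have hM01 : 1 ≤ M0 := by have : 0 ≤ 4 * R / d := by positivity
                           linarith
  obtain ⟨r, hr⟩ := exists_scale hS (T := 2) le_rfl
  set C3 := 5 + 3 * Real.log (1 + 9 * (M0 + 1)) with hC3
  have hC30 : 0 ≤ C3 := by
    have : 0 ≤ Real.log (1 + 9 * (M0 + 1)) := Real.log_nonneg (by linarith)
    linarith
  set C1 := 2 * C3 + 16 with hC1
  set C2 := Cmid 2 (M0 + 1) with hC2
  have hC20 : 0 ≤ C2 := Cmid_nonneg 2 (by linarith)
  set A := 4 * (2 + 8 * C1 + C2) with hA
  have hA4 : 4 ≤ A := by linarith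
  obtain ⟨t, j0, ht, ht0, htη⟩ := exists_tail (Y := fun j => A * r j) (hr.summable.mul_left A)
    (fun j => by have := hr.pos j; positivity) (η := η / 2) (by positivity)
  set n : ℕ → ℝ := fun j => 2 ^ j * r j with hn
  have hn1 : ∀ j, 1 ≤ n j := hr.one_le
  refine ⟨2 * Real.exp (C1 * n j0) *
    ((nodes S j0).card / r j0 + 2 ^ (j0 + 3)) ^ (nodes S j0).card, ?_⟩
  intro F a δ hδ h0F hF hsmall
  obtain ⟨c, hc⟩ := exists_cut' 2 F
  set Q : ℕ → ℂ := fun j => q - (t j : ℝ) with hQ
  have hQre : ∀ j, (Q j).re = q.re - t j := fun j => by simp [hQ]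
  have hQim : ∀ j, (Q j).im = q.im := fun j => by simp [hQ]
  have hdisc : ∀ j, j0 ≤ j → ∀ w, ‖w - Q j‖ ≤ r j → ‖w - q‖ ≤ η := by
    intro j hj w hw
    have h1 : ‖w - q‖ ≤ ‖w - Q j‖ + ‖((t j : ℝ) : ℂ)‖ := by
      calc ‖w - q‖ = ‖(w - Q j) - (t j : ℝ)‖ := by simp only [hQ]; ring_nf
        _ ≤ _ := norm_sub_le _ _
    rw [Complex.norm_real, Real.norm_of_nonneg (ht0 j)] at h1
    have h2 := ht j
    have h3 := htη j hj
    have h4 := ht0 (j + 1)
    have h5 := hr.pos j
    nlinarith
  let Z : ℕ → ℂ → Prop := fun j z => |z.im - q.im| ≤ M0 * ((Q j).re + A * r j / 2 - z.re)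
  let St : ℕ → Prop := fun j =>
    (∀ z, Z j z → ‖hi F a (c j) z‖ ≤ δ * Real.exp (-(A * n j / 4))) ∧
    (∀ ζ ∈ frontier U, ζ.re = x1 → ‖ev F a ζ‖ ≤ δ * Real.exp (C1 * n j)) ∧
    (∀ w, ‖w - Q j‖ ≤ r j → ‖lo F a (c j) w‖ ≤ 2 * (δ * Real.exp (C1 * n j)))
  obtain ⟨J, hJ⟩ := exists_top hr hc a hδ (C := C1) (by linarith) R
  have hSt : St j0 := by
    refine down_ind (J := J) (fun j hj hJj => ?_) (fun j hj ih => ?_)
    · obtain ⟨h1, h2⟩ := hJ j hJj
      refine ⟨fun z _ => by rw [h1]; simp only [norm_zero]; positivity,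
        fun ζ hζ _ => h2 ζ (hR ζ (frontier_subset_closure hζ)), fun w hw => ?_⟩
      have h3 := norm_lo_le (c := c j) (h2 w (hR w (subset_closure (hηU w (hdisc j hj w hw)))))
        (Y := 0) (by rw [h1]; simp)
      have : 0 ≤ δ * Real.exp (C1 * n j) := by positivity
      exact h3.trans (by linarith)
    · have hrj := hr.pos j
      have hnj := hn1 j
      have hV : ∀ z, Z j z → ‖hi F a (c j) z‖ ≤ δ * Real.exp (-(A * n j / 4)) := by
        intro z hz
        obtain ⟨i1, -, i3⟩ := ih (j + 2) (by omega)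
        have h1 : (Q j).re + A * r j ≤ (Q (j + 2)).re := by
          rw [hQre, hQre, ht j, ht (j + 1)]
          have := hr.pos (j + 1)
          nlinarith
        have h2 : 0 ≤ (Q j).re + A * r j / 2 - z.re :=
          nonneg_of_mul_nonneg_right ((abs_nonneg _).trans hz) (by linarith)
        have hAr : 0 < A * r j := by positivity
        have h3 : |z.im - q.im| ≤ M0 * ((Q (j + 2)).re - z.re) :=
          le_trans hz (mul_le_mul_of_nonneg_left (by linarith) (by linarith))
        have h4 := mid_bound hr (by norm_num) hF hc a (M := M0 + 1) (by linarith) j _ i3 z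
          (cone_of (by linarith) (by rw [hQim]; exact h3))
        have h5 := i1 z (le_trans h3 (mul_le_mul_of_nonneg_left (by
          have := hr.pos (j + 2)
          have : 0 < A * r (j + 2) := by positivity
          linarith) (by linarith)))
        refine h4.trans ((add_le_add h5 le_rfl).trans ?_)
        have h6 := hr.le_add j
        have h7 := hr.add_le j
        have h8 := hn1 (j + 2)
        have h2j : (0 : ℝ) < 2 ^ j := by positivity
        apply num_kill hδ (by positivity) (by positivity)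
        · simp only [hn]; norm_num at h6 ⊢; nlinarith
        · simp only [hn]; nlinarith
        · simp only [hn] at hnj ⊢; norm_num at h7; nlinarith
      have hθ : ∀ w, ‖w - Q j‖ ≤ r j → ‖lo F a (c j) w‖ ≤ 2 * (δ * Real.exp (C1 * n j / 2)) := by
        intro w hw
        have hwq := hdisc j hj w hw
        have hwζ : ‖ζ - w‖ ≤ l := by
          calc ‖ζ - w‖ = ‖(q - w) - (q - ζ)‖ := by ring_nf
            _ ≤ ‖q - w‖ + ‖q - ζ‖ := norm_sub_le _ _
            _ ≤ l := by rw [norm_sub_rev]; linarith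
        have hwre : rho0 * l ≤ w.re - x1 := by
          have := (re_le_norm (ζ - w)).trans hwζ
          rw [sub_re] at this; linarith
        have h1 := two_const_exp (differentiable_ev F a) hU hUb (hηU w hwq) hl0 hδ
          (m := C1 * n (j + 1)) (by have := hn1 (j + 1); positivity)
          (by
            intro ζ' hζ'
            rcases hfr ζ' hζ' with h | h
            · exact Or.inl (hsmall ζ' h)
            · refine Or.inr ⟨?_, (ih (j + 1) (by omega)).2.1 ζ' hζ' h⟩
              have := re_le_norm (w - ζ')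
              rw [sub_re, norm_sub_rev] at this; linarith)
          (by
            intro s hs
            obtain ⟨z, hz, hzs⟩ := exists_norm_eq hΓ hζΓ hp1 (p := w) (s := s) (hwζ.trans hs.1)
              (by
                have := re_le_norm (w - p1)
                rw [sub_re, norm_sub_rev] at this
                nlinarith [hs.2])
            exact ⟨z, hzs, hsmall z hz⟩)
        have h2 := h1.trans (num_theta hδ (m := C1 * n j) (by nlinarith) (by
          have := hr.succ_le (by norm_num) j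
          simp only [hn]; nlinarith))
        have h3 := hV w (by
          have h4 := (abs_re_le_norm (w - Q j)).trans hw
          have h5 := (abs_im_le_norm (w - Q j)).trans hw
          rw [sub_re, abs_le] at h4
          rw [sub_im, hQim] at h5
          refine h5.trans ?_
          have : r j ≤ (Q j).re + A * r j / 2 - w.re := by nlinarith [h4.2]
          nlinarith)
        have h4 : δ * Real.exp (-(A * n j / 4)) ≤ δ * Real.exp (C1 * n j / 2) := by
          gcongr
          have : 0 ≤ A * n j := by positivity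
          have : 0 ≤ C1 * n j := by positivity
          linarith
        exact (norm_lo_le h2 (h3.trans h4)).trans (by linarith)
      refine ⟨hV, fun ζ' hζ' hζx' => ?_, fun w hw => (hθ w hw).trans ?_⟩
      · have h1 : d / 2 ≤ (Q j).re - ζ'.re := by
          rw [hQre, hζx']
          have := htη j hj
          nlinarith
        have h2 : |ζ'.im - q.im| ≤ M0 * ((Q j).re - ζ'.re) := by
          have h3 := (abs_im_le_norm ζ').trans (hR ζ' (frontier_subset_closure hζ'))
          have h4 := (abs_im_le_norm q).trans (hR q (subset_closure hqU))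
          have h5 : |ζ'.im - q.im| ≤ 2 * R := (abs_sub _ _).trans (by linarith)
          have h6 : M0 * (d / 2) = 2 * R + d / 2 := by rw [hM0]; field_simp; ring
          nlinarith
        have h3 := cone_bound hr hF hc a (M := M0 + 1) (by linarith) j _ hθ ζ'
          (cone_of (by linarith) (by rw [hQim]; exact h2))
        have h4 := hV ζ' (le_trans h2 (mul_le_mul_of_nonneg_left (by
          have : 0 < A * r j := by positivity
          linarith) (by linarith)))
        have h5 : δ * Real.exp (-(A * n j / 4)) ≤ δ :=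
          mul_le_of_le_one_right hδ.le (Real.exp_le_one_iff.2 (by
            have : 0 ≤ A * n j := by positivity
            linarith))
        refine (norm_ev_le h3 (h4.trans h5)).trans (num_cone hδ (by positivity) ?_)
        simp only [hn] at hnj ⊢
        nlinarith
      · gcongr
        have : 0 ≤ C1 * n j := by positivity
        linarith
  refine (const_bound hr hF h0F hc a j0 _ hSt.2.2).trans (le_of_eq ?_)
  ring

end Pool.Agent.P.MP_c161d8_an
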