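import Pool.Agent.P.MP_c161d8_an.Chain

set_option autoImplicit false

namespace Pool.Agent.P.MP_c161d8_an

open Finset Complex

/-- The estimate saying that the constant `1` keeps a positive distance on `Γ` from the span of
the exponentials with frequencies in `S`. -/
def Est (S : Set ℕ) (Γ : Set ℂ) : Prop :=
  ∃ C : ℝ, ∀ (F : Finset ℕ) (a : ℕ → ℂ) (δ : ℝ), 0 < δ → 0 ∈ F → (∀ p ∈ F, p = 0 ∨ p ∈ S) →
      (∀ z ∈ Γ, ‖ev F a z‖ ≤ δ) → ‖a 0‖ ≤ C * δ

lemma Est.mono {S : Set ℕ} {Γ Γ' : Set ℂ} (h : Est S Γ) (hsub : Γ ⊆ Γ') : Est S Γ' := by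
  obtain ⟨C, hC⟩ := h
  exact ⟨C, fun F a δ hδ h0 hF hz => hC F a δ hδ h0 hF fun z hz' => hz z (hsub hz')⟩

lemma exists_right_inverse {α β : ℝ} (hαβ : α ≤ β) {u v : ℝ → ℝ}
    (hu : ContinuousOn u (Set.Icc α β)) (hv : MonotoneOn v (Set.Icc α β)) :
    ∃ T : ℝ → ℝ, (∀ y ∈ Set.Icc (u α - v α) (u β - v β), T y ∈ Set.Icc α β ∧
      u (T y) - v (T y) = y) ∧ MonotoneOn T (Set.Icc (u α - v α) (u β - v β)) := by
  let A : ℝ → Set ℝ := fun y => {t | t ∈ Set.Icc α β ∧ u t - v t ≤ y}
  have hbdd : ∀ y, BddAbove (A y) := fun y => ⟨β, fun t ht => ht.1.2⟩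
  have hne : ∀ y ∈ Set.Icc (u α - v α) (u β - v β), α ∈ A y :=
    fun y hy => ⟨⟨le_rfl, hαβ⟩, hy.1⟩
  refine ⟨fun y => sSup (A y), fun y hy => ?_, fun y hy y' _ hyy' =>
    csSup_le_csSup (hbdd y') ⟨α, hne y hy⟩ fun t ht => ⟨ht.1, ht.2.trans hyy'⟩⟩
  set T := sSup (A y) with hT
  have hTI : T ∈ Set.Icc α β :=
    ⟨le_csSup (hbdd y) (hne y hy), csSup_le ⟨α, hne y hy⟩ fun t ht => ht.1.2⟩
  change T ∈ Set.Icc α β ∧ u T - v T = y
  refine ⟨hTI, le_antisymm ?_ ?_⟩
  · by_contra hcon
    push Not at hcon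
    obtain ⟨d, hd, hdu⟩ := Metric.continuousWithinAt_iff.1 (hu T hTI) _ (sub_pos.2 hcon)
    obtain ⟨t, ht, htT⟩ := exists_lt_of_lt_csSup ⟨α, hne y hy⟩ (show T - d < T by linarith)
    have h1 : t ≤ T := le_csSup (hbdd y) ht
    have h2 := hdu ht.1 (by rw [Real.dist_eq, abs_lt]; constructor <;> linarith)
    rw [Real.dist_eq, abs_lt] at h2
    have h3 := hv ht.1 hTI h1
    linarith [ht.2, h2.1]
  · by_contra hcon
    push Not at hcon
    obtain ⟨d, hd, hdu⟩ := Metric.continuousWithinAt_iff.1 (hu T hTI) _ (sub_pos.2 hcon)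
    have hTβ : T < β := by
      refine lt_of_le_of_ne hTI.2 fun h => ?_
      rw [h] at hcon
      linarith [hy.2]
    set t := min β (T + d / 2) with ht
    have htT : T < t := lt_min hTβ (by linarith)
    have ht2 : t ≤ T + d / 2 := min_le_right _ _
    have htI : t ∈ Set.Icc α β := ⟨hTI.1.trans htT.le, min_le_left _ _⟩
    have h2 := hdu htI (by rw [Real.dist_eq, abs_lt]; constructor <;> linarith)
    rw [Real.dist_eq, abs_lt] at h2
    have h3 := hv hTI htI htT.le
    have h4 : t ∈ A y := ⟨htI, by linarith [h2.2]⟩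
    exact absurd (le_csSup (hbdd y) h4) (not_le.2 htT)

lemma est_of_bv_lt {S : Set ℕ} (hS : Summable (fun p : S => (1 : ℝ) / ((p : ℕ) : ℝ)))
    {α β : ℝ} (hαβ : α ≤ β) {w : ℝ → ℂ} {v : ℝ → ℝ} (hw : ContinuousOn w (Set.Icc α β))
    (hv : ∀ s ∈ Set.Icc α β, ∀ t ∈ Set.Icc α β, s ≤ t → ‖w t - w s‖ ≤ v t - v s)
    (hlt : (w α).re < (w β).re) : Est S (w '' Set.Icc α β) := by
  have hαI : α ∈ Set.Icc α β := ⟨le_rfl, hαβ⟩
  have hβI : β ∈ Set.Icc α β := ⟨hαβ, le_rfl⟩
  have hmono : MonotoneOn v (Set.Icc α β) := fun s hs t ht hst => by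
    have := (norm_nonneg _).trans (hv s hs t ht hst); linarith
  set V := v β - v α with hV
  have hV0 : 0 ≤ V := by have := hmono hαI hβI hαβ; linarith
  set D := (w β).re - (w α).re with hD
  have hD0 : 0 < D := by linarith
  set M := V / D + 1 with hM
  have hM0 : 0 < M := by positivity
  obtain ⟨T, hT, hTm⟩ := exists_right_inverse hαβ (u := fun t => M * (w t).re) (v := v)
    (continuousOn_const.mul (continuous_re.comp_continuousOn hw)) hmono
  set y0 := M * (w α).re - v α with hy0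
  have hy1 : M * (w β).re - v β = y0 + D := by
    have : M * D = V + D := by rw [hM]; field_simp
    rw [hy0]; nlinarith
  simp only [hy1] at hT hTm
  have hmem : ∀ x ∈ Set.Icc 0 (D / M), y0 + M * x ∈ Set.Icc y0 (y0 + D) := by
    intro x hx
    have h1 := hx.1
    have h2 := hx.2
    rw [le_div_iff₀ hM0] at h2
    constructor <;> nlinarith
  refine chain_estimate hS (isPreconnected_Icc.image w hw) (Q := fun x => w (T (y0 + M * x)))
    (M := M) (η := D / M) hM0.le (by positivity)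
    (fun x hx => ⟨_, (hT _ (hmem x hx)).1, rfl⟩) ?_
  intro x hx y hy hxy
  obtain ⟨hx1, hx2⟩ := hT _ (hmem x hx)
  obtain ⟨hy1, hy2⟩ := hT _ (hmem y hy)
  have hle := hTm (hmem x hx) (hmem y hy) (by nlinarith)
  have h1 := hv _ hx1 _ hy1 hle
  have h2 := norm_nonneg (w (T (y0 + M * y)) - w (T (y0 + M * x)))
  simp only [sub_re]
  constructor
  · refine le_of_mul_le_mul_left ?_ hM0
    nlinarith
  · nlinarith

lemma est_of_bv_ne {S : Set ℕ} (hS : Summable (fun p : S => (1 : ℝ) / ((p : ℕ) : ℝ)))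
    {α β : ℝ} (hαβ : α ≤ β) {w : ℝ → ℂ} {v : ℝ → ℝ} (hw : ContinuousOn w (Set.Icc α β))
    (hv : ∀ s ∈ Set.Icc α β, ∀ t ∈ Set.Icc α β, s ≤ t → ‖w t - w s‖ ≤ v t - v s)
    (hne : (w α).re ≠ (w β).re) : Est S (w '' Set.Icc α β) := by
  rcases lt_or_gt_of_ne hne with h | h
  · exact est_of_bv_lt hS hαβ hw hv h
  · have hmaps : ∀ t ∈ Set.Icc (-β) (-α), -t ∈ Set.Icc α β := fun t ht =>
      ⟨by linarith [ht.2], by linarith [ht.1]⟩
    have := est_of_bv_lt hS (α := -β) (β := -α) (by linarith) (w := fun t => w (-t))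
      (v := fun t => -v (-t)) (hw.comp continuous_neg.continuousOn hmaps)
      (by
        intro s hs t ht hst
        have := hv _ (hmaps t ht) _ (hmaps s hs) (by linarith)
        rw [norm_sub_rev]; linarith)
      (by simpa using h)
    refine this.mono ?_
    rintro _ ⟨t, ht, rfl⟩
    exact ⟨-t, hmaps t ht, rfl⟩

/-- Killing one frequency by a vertical difference operator. -/
lemma ev_kill (F : Finset ℕ) (a : ℕ → ℂ) (μ : ℕ) (σ : ℂ) (z : ℂ) :
    ev F (fun p => a p * ((cexp (p * σ) - cexp (μ * σ)) / (1 - cexp (μ * σ)))) z =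
      (ev F a (z + σ) - cexp (μ * σ) * ev F a z) / (1 - cexp (μ * σ)) := by
  unfold ev
  rw [Finset.mul_sum, ← Finset.sum_sub_distrib, Finset.sum_div]
  refine Finset.sum_congr rfl fun p _ => ?_
  rw [mul_add, Complex.exp_add]; ring

lemma est_vertical {S : Set ℕ} (hS : Summable (fun p : S => (1 : ℝ) / ((p : ℕ) : ℝ)))
    (w0 : ℂ) {H : ℝ} (hH : 0 < H) :
    Est S {z | ∃ y ∈ Set.Icc 0 H, z = w0 + y * I} := by
  classical
  have hS' : Summable (S.indicator fun p : ℕ => (1 : ℝ) / (p : ℝ)) :=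
    (summable_subtype_iff_indicator (f := fun p : ℕ => (1 : ℝ) / (p : ℝ))).1 hS
  set σ := S.indicator fun p : ℕ => (1 : ℝ) / (p : ℝ) with hσ
  have hσ0 : ∀ p, 0 ≤ σ p := fun p => Set.indicator_nonneg (fun p _ => by positivity) p
  obtain ⟨n1, hn1⟩ := exists_tail_le hS' hσ0 (η := H / (2 * Real.pi)) (by positivity)
  set n0 := n1 + 1 with hn0
  have hn0' : (0 : ℝ) < n0 := by positivity
  set τ0 := min (H / (2 * n0)) (Real.pi / n0) with hτ0
  have hτ00 : 0 < τ0 := lt_min (by positivity) (by positivity)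
  let τ : ℕ → ℝ := fun p => if p < n0 then τ0 else Real.pi / p
  have hτpos : ∀ p, 0 ≤ τ p := fun p => by
    simp only [τ]; split_ifs
    · exact hτ00.le
    · positivity
  let cost : ℕ → ℝ := fun p => if p < n0 then max 1 (2 / ‖1 - cexp (p * (τ p * I))‖) else 1
  have hcost1 : ∀ p, 1 ≤ cost p := fun p => by
    simp only [cost]; split_ifs
    · exact le_max_left _ _
    · exact le_rfl
  have hne : ∀ p : ℕ, p ≠ 0 → 1 - cexp (p * (τ p * I)) ≠ 0 ∧
      2 / ‖1 - cexp (p * (τ p * I))‖ ≤ cost p := by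
    intro p hp
    have hp0 : (0 : ℝ) < p := by positivity
    by_cases h : p < n0
    · refine ⟨?_, by simp only [cost, if_pos h]; exact le_max_right _ _⟩
      intro h1
      have h2 : cexp (p * (τ p * I)) = 1 := by linear_combination -h1
      rw [Complex.exp_eq_one_iff] at h2
      obtain ⟨k, hk⟩ := h2
      have h3 : (p : ℝ) * τ0 = k * (2 * Real.pi) := by
        have := congrArg Complex.im hk
        simpa [τ, h] using this
      have h4 : (p : ℝ) * τ0 ≤ Real.pi := by
        have h5 : τ0 ≤ Real.pi / n0 := min_le_right _ _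
        have h6 : (p : ℝ) ≤ n0 := by exact_mod_cast h.le
        rw [le_div_iff₀ hn0'] at h5
        nlinarith
      have h5 : 0 < (p : ℝ) * τ0 := by positivity
      have h6 : (0 : ℝ) < k := by
        by_contra hk0
        push Not at hk0
        nlinarith [Real.pi_pos]
      have h7 : (1 : ℝ) ≤ k := by exact_mod_cast (show (0 : ℤ) < k by exact_mod_cast h6)
      nlinarith [Real.pi_pos]
    · have h1 : cexp (p * (τ p * I)) = -1 := by
        rw [← Complex.exp_pi_mul_I]
        congr 1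
        simp only [τ, if_neg h]
        have : (p : ℂ) ≠ 0 := by exact_mod_cast hp
        push_cast; field_simp
      rw [h1]
      simp only [cost, if_neg h]
      norm_num
  refine ⟨∏ p ∈ range n0, cost p, fun F a δ hδ h0 hF hz => ?_⟩
  have key : ∀ T : Finset ℕ, 0 ∉ T → ∃ a' : ℕ → ℂ, a' 0 = a 0 ∧ (∀ p ∈ T, a' p = 0) ∧
      ∀ y ∈ Set.Icc 0 (H - ∑ p ∈ T, τ p), ‖ev F a' (w0 + y * I)‖ ≤ (∏ p ∈ T, cost p) * δ := by
    intro T
    induction T using Finset.induction_on with
    | empty =>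
      intro _
      exact ⟨a, rfl, by simp, fun y hy => by simpa using hz _ ⟨y, by simpa using hy, rfl⟩⟩
    | insert μ T hμT ih =>
      intro h0T
      obtain ⟨a', h1, h2, h3⟩ := ih fun h => h0T (Finset.mem_insert_of_mem h)
      have hμ0 : μ ≠ 0 := fun h => h0T (h ▸ Finset.mem_insert_self _ _)
      obtain ⟨hμ1, hμ2⟩ := hne μ hμ0
      refine ⟨fun p => a' p * ((cexp (p * (τ μ * I)) - cexp (μ * (τ μ * I))) /
        (1 - cexp (μ * (τ μ * I)))), ?_, ?_, ?_⟩
      · simp only [Nat.cast_zero, zero_mul, Complex.exp_zero]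
        rw [div_self hμ1, mul_one, h1]
      · intro p hp
        rcases Finset.mem_insert.1 hp with rfl | hp
        · simp
        · simp [h2 p hp]
      · intro y hy
        rw [Finset.sum_insert hμT] at hy
        rw [ev_kill, Finset.prod_insert hμT, norm_div]
        have hτμ := hτpos μ
        have e1 := h3 y ⟨hy.1, by linarith [hy.2]⟩
        have e2 := h3 (y + τ μ) ⟨by linarith [hy.1], by linarith [hy.2]⟩
        have e3 : w0 + ((y + τ μ : ℝ) : ℂ) * I = w0 + y * I + τ μ * I := by push_cast; ring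
        rw [e3] at e2
        have e4 : ‖cexp (μ * (τ μ * I))‖ = 1 := by
          rw [Complex.norm_exp]; simp
        have hpos : 0 < ‖1 - cexp (μ * (τ μ * I))‖ := norm_pos_iff.2 hμ1
        have hP : 0 ≤ (∏ p ∈ T, cost p) * δ := (norm_nonneg _).trans e1
        calc ‖ev F a' (w0 + y * I + τ μ * I) - cexp (μ * (τ μ * I)) * ev F a' (w0 + y * I)‖ /
              ‖1 - cexp (μ * (τ μ * I))‖
            ≤ (2 * ((∏ p ∈ T, cost p) * δ)) / ‖1 - cexp (μ * (τ μ * I))‖ := by
              gcongr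
              refine (norm_sub_le _ _).trans ?_
              rw [norm_mul, e4]; linarith
          _ = (2 / ‖1 - cexp (μ * (τ μ * I))‖) * ((∏ p ∈ T, cost p) * δ) := by ring
          _ ≤ cost μ * ((∏ p ∈ T, cost p) * δ) := by gcongr
          _ = _ := by ring
  obtain ⟨a', h1, h2, h3⟩ := key (F.erase 0) (by simp)
  have hsum : ∑ p ∈ F.erase 0, τ p ≤ H := by
    rw [← Finset.sum_filter_add_sum_filter_not (F.erase 0) (fun p => p < n0)]
    have e1 : ∑ p ∈ (F.erase 0).filter (fun p => p < n0), τ p ≤ H / 2 := by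
      calc ∑ p ∈ (F.erase 0).filter (fun p => p < n0), τ p ≤ ∑ p ∈ range n0, τ p := by
            apply Finset.sum_le_sum_of_subset_of_nonneg
            · intro p hp; exact mem_range.2 (mem_filter.1 hp).2
            · intro p _ _; exact hτpos p
        _ = n0 * τ0 := by
            rw [Finset.sum_congr rfl (g := fun _ => τ0)
              (fun p hp => by simp only [τ, if_pos (mem_range.1 hp)])]
            simp
        _ ≤ n0 * (H / (2 * n0)) := by gcongr; exact min_le_left _ _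
        _ = H / 2 := by field_simp
    have e2 : ∑ p ∈ (F.erase 0).filter (fun p => ¬ p < n0), τ p ≤ H / 2 := by
      set m := F.sup id + 1
      calc ∑ p ∈ (F.erase 0).filter (fun p => ¬ p < n0), τ p
          = ∑ p ∈ (F.erase 0).filter (fun p => ¬ p < n0), Real.pi * σ p := by
            refine Finset.sum_congr rfl fun p hp => ?_
            rw [mem_filter, mem_erase] at hp
            have hpS : p ∈ S := (hF p hp.1.2).resolve_left hp.1.1
            simp only [τ, if_neg hp.2, hσ, Set.indicator_of_mem hpS]; ring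
        _ ≤ ∑ p ∈ (range m).map (addLeftEmbedding n1), Real.pi * σ p := by
            apply Finset.sum_le_sum_of_subset_of_nonneg
            · intro p hp
              rw [mem_filter, mem_erase] at hp
              have : p ≤ F.sup id := Finset.le_sup (f := id) hp.1.2
              simp only [mem_map, mem_range, addLeftEmbedding_apply]
              exact ⟨p - n1, by omega, by omega⟩
            · intro p _ _; exact mul_nonneg Real.pi_pos.le (hσ0 p)
        _ = Real.pi * ∑ i ∈ range m, σ (n1 + i) := by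
            rw [Finset.sum_map, Finset.mul_sum]; rfl
        _ ≤ Real.pi * (H / (2 * Real.pi)) := by gcongr; exact hn1 m
        _ = H / 2 := by field_simp
    linarith
  have h4 := h3 0 ⟨le_rfl, by linarith⟩
  have h5 : ev F a' (w0 + (0 : ℝ) * I) = a 0 := by
    unfold ev
    rw [Finset.sum_eq_single 0]
    · simp [h1]
    · intro p hp hp0
      simp [h2 p (Finset.mem_erase.2 ⟨hp0, hp⟩)]
    · intro h; exact absurd h0 h
  rw [h5] at h4
  refine h4.trans (mul_le_mul_of_nonneg_right ?_ hδ.le)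
  rw [← Finset.prod_filter_mul_prod_filter_not (F.erase 0) (fun p => p < n0)]
  have e1 : ∏ p ∈ (F.erase 0).filter (fun p => ¬ p < n0), cost p = 1 :=
    Finset.prod_eq_one fun p hp => by simp only [cost, if_neg (mem_filter.1 hp).2]
  rw [e1, mul_one]
  apply Finset.prod_le_prod_of_subset_of_one_le
  · intro p hp; exact mem_range.2 (mem_filter.1 hp).2
  · intro p _; linarith [hcost1 p]
  · intro p _ _; exact hcost1 p

/-- The estimate for an injective path of bounded variation. -/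
theorem est_of_bv {S : Set ℕ} (hS : Summable (fun p : S => (1 : ℝ) / ((p : ℕ) : ℝ)))
    {α β : ℝ} (hαβ : α < β) {w : ℝ → ℂ} {v : ℝ → ℝ} (hw : ContinuousOn w (Set.Icc α β))
    (hv : ∀ s ∈ Set.Icc α β, ∀ t ∈ Set.Icc α β, s ≤ t → ‖w t - w s‖ ≤ v t - v s)
    (hne : w α ≠ w β) : Est S (w '' Set.Icc α β) := by
  have hαI : α ∈ Set.Icc α β := ⟨le_rfl, hαβ.le⟩
  have hβI : β ∈ Set.Icc α β := ⟨hαβ.le, le_rfl⟩
  by_cases h : ∀ t ∈ Set.Icc α β, (w α).re = (w t).re
  · have him : (w α).im ≠ (w β).im := fun h' => hne (Complex.ext (h β hβI) h')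
    have hc : ContinuousOn (fun t => (w t).im) (Set.Icc α β) :=
      continuous_im.comp_continuousOn hw
    have key : ∀ s ∈ Set.Icc α β, ∀ t ∈ Set.Icc α β, (w s).im < (w t).im →
        Est S (w '' Set.Icc α β) := by
      intro s hs t ht hlt
      refine (est_vertical hS (w s) (sub_pos.2 hlt)).mono ?_
      rintro _ ⟨y, hy, rfl⟩
      obtain ⟨r, hr, hry⟩ := isPreconnected_Icc.intermediate_value hs ht hc
        (show (w s).im + y ∈ Set.Icc _ _ from ⟨by linarith [hy.1], by linarith [hy.2]⟩)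
      refine ⟨r, hr, Complex.ext ?_ ?_⟩
      · simp [← h r hr, ← h s hs]
      · simpa using hry
    rcases lt_or_gt_of_ne him with h' | h'
    · exact key α hαI β hβI h'
    · exact key β hβI α hαI h'
  · push Not at h
    obtain ⟨t, ht, hne'⟩ := h
    have hsub : Set.Icc α t ⊆ Set.Icc α β := Set.Icc_subset_Icc_right ht.2
    exact (est_of_bv_ne hS ht.1 (hw.mono hsub)
      (fun s hs r hr hsr => hv s (hsub hs) r (hsub hr) hsr) hne').mono (Set.image_mono hsub)

end Pool.Agent.P.MP_c161d8_an
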