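import Mathlib

set_option autoImplicit false

namespace Pool.Agent.P.MP_c161d8_an

open Finset

lemma prod_max_ge (n : ℕ) : ∀ m x : ℝ,
    (n.factorial : ℝ) / 4 ^ n ≤ ∏ k ∈ range n, max (1 / 2) |x - (m + k)| := by
  induction n with
  | zero => intro m x; simp
  | succ n ih =>
    intro m x
    have hstep : ∀ y : ℝ, (n : ℝ) / 2 ≤ y → ((n : ℝ) + 1) / 4 ≤ max (1 / 2) y := by
      intro y hy
      rcases Nat.eq_zero_or_pos n with h | h
      · subst h; simp; left; norm_num
      · have : (1 : ℝ) ≤ n := by exact_mod_cast h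
        exact le_max_of_le_right (by linarith)
    have hfac : ((n + 1).factorial : ℝ) / 4 ^ (n + 1) =
        (n.factorial : ℝ) / 4 ^ n * (((n : ℝ) + 1) / 4) := by
      rw [Nat.factorial_succ]; push_cast; field_simp; ring
    rw [hfac]
    by_cases h : x ≤ m + n / 2
    · rw [prod_range_succ]
      refine mul_le_mul (ih m x) (hstep _ ?_) (by positivity)
        (Finset.prod_nonneg fun k _ => le_max_of_le_left (by norm_num))
      rw [abs_sub_comm]
      exact le_trans (by linarith) (le_abs_self _)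
    · rw [prod_range_succ']
      have h1 := ih (m + 1) x
      have h2 : ∏ k ∈ range n, max (1 / 2) |x - (m + ((k + 1 : ℕ) : ℝ))| =
          ∏ k ∈ range n, max (1 / 2) |x - (m + 1 + k)| := by
        refine Finset.prod_congr rfl fun k _ => ?_
        push_cast; ring_nf
      rw [h2]
      refine mul_le_mul h1 (hstep _ ?_) (by positivity)
        (Finset.prod_nonneg fun k _ => le_max_of_le_left (by norm_num))
      simp only [Nat.cast_zero, add_zero]
      exact le_trans (by linarith) (le_abs_self _)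

lemma pow_le_factorial_div (n : ℕ) : ((n : ℝ) / 12) ^ n ≤ (n.factorial : ℝ) / 4 ^ n := by
  have h1 := Real.pow_div_factorial_le_exp (n : ℝ) (Nat.cast_nonneg n) n
  have h2 : Real.exp n ≤ 3 ^ n := by
    rw [← Real.exp_one_pow]
    exact pow_le_pow_left₀ (Real.exp_pos _).le (by linarith [Real.exp_one_lt_d9]) n
  have h3 : (0 : ℝ) < n.factorial := by exact_mod_cast n.factorial_pos
  rw [div_le_iff₀ h3] at h1
  rw [div_pow, div_le_div_iff₀ (by positivity) (by positivity)]
  have : (12 : ℝ) ^ n = 3 ^ n * 4 ^ n := by rw [← mul_pow]; norm_num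
  rw [this]
  calc (n : ℝ) ^ n * 4 ^ n ≤ (Real.exp n * n.factorial) * 4 ^ n := by gcongr
    _ ≤ (3 ^ n * n.factorial) * 4 ^ n := by gcongr
    _ = _ := by ring

lemma prod_max_ge' (n : ℕ) (m x : ℝ) :
    ((n : ℝ) / 12) ^ n ≤ ∏ k ∈ range n, max (1 / 2) |x - (m + k)| :=
  (pow_le_factorial_div n).trans (prod_max_ge n m x)

/-- A good cut point among `n` consecutive half integers. -/
lemma exists_cut (A : Finset ℕ) (m n : ℕ) (hn : 1 ≤ n) :
    ∃ k < n, ((n : ℝ) / 12) ^ A.card ≤ ∏ l ∈ A, |((m : ℝ) + k + 1 / 2) - l| := by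
  by_contra hcon
  push Not at hcon
  have hhalf : ∀ k l : ℕ, (1 / 2 : ℝ) ≤ |((m : ℝ) + k + 1 / 2) - l| := by
    intro k l
    rcases le_or_gt l (m + k) with h | h
    · have : (l : ℝ) ≤ m + k := by exact_mod_cast h
      exact le_trans (by linarith) (le_abs_self _)
    · have : (m : ℝ) + k + 1 ≤ l := by exact_mod_cast h
      exact le_trans (by linarith) (neg_le_abs _)
  have h1 : ∏ k ∈ range n, ∏ l ∈ A, |((m : ℝ) + k + 1 / 2) - l| <
      ∏ _k ∈ range n, ((n : ℝ) / 12) ^ A.card := by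
    apply Finset.prod_lt_prod_of_nonempty
    · intro k _
      exact Finset.prod_pos fun l _ => lt_of_lt_of_le (by norm_num) (hhalf k l)
    · intro k hk
      exact hcon k (Finset.mem_range.1 hk)
    · exact ⟨0, Finset.mem_range.2 hn⟩
  rw [Finset.prod_comm, Finset.prod_const, card_range, ← pow_mul, mul_comm, pow_mul,
    ← Finset.prod_const] at h1
  refine absurd h1 (not_lt.2 ?_)
  apply Finset.prod_le_prod
  · intro l _; positivity
  · intro l _
    refine (prod_max_ge' n (m + 1 / 2) l).trans (le_of_eq ?_)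
    refine Finset.prod_congr rfl fun k _ => ?_
    rw [abs_sub_comm, show (m : ℝ) + 1 / 2 + k = m + k + 1 / 2 by ring]
    exact max_eq_right (hhalf k l)

/-- A two-constants estimate. -/
lemma two_const {F : ℂ → ℂ} (hF : Differentiable ℂ F) {U : Set ℂ} (hU : IsOpen U)
    (hUb : Bornology.IsBounded U) {p : ℂ} (hp : p ∈ U) {l ρ δ M : ℝ} (hl : 0 < l) (hρ : 2 < ρ)
    (hδ : 0 < δ) (hM : 0 ≤ M) {t : ℕ} (ht : 1 ≤ t)
    (hfr : ∀ ζ ∈ frontier U, ‖F ζ‖ ≤ δ ∨ (ρ * l ≤ ‖ζ - p‖ ∧ ‖F ζ‖ ≤ M))
    (hz : ∀ s ∈ Set.Icc l (2 * l), ∃ z, ‖z - p‖ = s ∧ ‖F z‖ ≤ δ) :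
    ‖F p‖ ≤ max (2 * δ * 24 ^ t) (M * (2 / (ρ - 2)) ^ t) := by
  classical
  have huc : UniformContinuousOn F (Metric.closedBall p (3 * l)) :=
    (isCompact_closedBall p _).uniformContinuousOn_of_continuous hF.continuous.continuousOn
  obtain ⟨η, hη, hηF⟩ := Metric.uniformContinuousOn_iff.1 huc δ hδ
  obtain ⟨a, ha⟩ := exists_nat_gt (l / η)
  have ha0 : 0 < a := by
    have : (0 : ℝ) < a := lt_trans (div_pos hl hη) ha
    exact_mod_cast this
  set n := a * t with hn
  have hn0 : 0 < n := Nat.mul_pos ha0 ht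
  have hnR : (0 : ℝ) < n := by exact_mod_cast hn0
  have hn1 : (1 : ℝ) ≤ n := by exact_mod_cast hn0
  set ε := l / (2 * n) with hε
  have hε0 : 0 < ε := by positivity
  have hεη : ε < η := by
    have h1 : (a : ℝ) ≤ n := by
      rw [hn]; push_cast
      have : (1 : ℝ) ≤ t := by exact_mod_cast ht
      have : (0 : ℝ) ≤ a := Nat.cast_nonneg a
      nlinarith
    rw [div_lt_iff₀ hη] at ha
    rw [hε, div_lt_iff₀ (by positivity)]
    nlinarith
  have hεl : ε ≤ l / 2 := by
    rw [hε]; apply div_le_div_of_nonneg_left hl.le (by norm_num); linarith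
  have hz' : ∀ k : ℕ, ∃ z : ℂ, k < n → ‖z - p‖ = l + k * (l / n) ∧ ‖F z‖ ≤ δ := by
    intro k
    by_cases hk : k < n
    · obtain ⟨z, hz1, hz2⟩ := hz (l + k * (l / n)) ⟨by
        have : 0 ≤ (k : ℝ) * (l / n) := by positivity
        linarith, by
        have h1 : (k : ℝ) ≤ n := by exact_mod_cast hk.le
        have : (k : ℝ) * (l / n) ≤ n * (l / n) := by gcongr
        rw [mul_div_cancel₀ _ hnR.ne'] at this
        linarith⟩
      exact ⟨z, fun _ => ⟨hz1, hz2⟩⟩
    · exact ⟨0, fun h => absurd h hk⟩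
  choose z hz' using hz'
  have hzl : ∀ k < n, l ≤ ‖z k - p‖ ∧ ‖z k - p‖ ≤ 2 * l := by
    intro k hk
    rw [(hz' k hk).1]
    have h0 : 0 ≤ (k : ℝ) * (l / n) := by positivity
    have h1 : (k : ℝ) ≤ n := by exact_mod_cast hk.le
    have : (k : ℝ) * (l / n) ≤ n * (l / n) := by gcongr
    rw [mul_div_cancel₀ _ hnR.ne'] at this
    constructor <;> linarith
  let Q : ℂ → ℂ := fun ζ => ∏ k ∈ range n, (ζ - z k)
  let W : Set ℂ := {ζ | ∀ k ∈ range n, ε ≤ ‖ζ - z k‖}
  have hWc : IsClosed W := by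
    have : W = ⋂ k ∈ range n, {ζ | ε ≤ ‖ζ - z k‖} := by ext; simp [W]
    rw [this]
    exact isClosed_biInter fun k _ => isClosed_le continuous_const (by fun_prop)
  let U' : Set ℂ := U ∩ {ζ | ∀ k ∈ range n, ε < ‖ζ - z k‖}
  have hU' : IsOpen U' := by
    refine hU.inter ?_
    have : {ζ : ℂ | ∀ k ∈ range n, ε < ‖ζ - z k‖} = ⋂ k ∈ range n, {ζ | ε < ‖ζ - z k‖} := by
      ext; simp
    rw [this]
    exact isOpen_biInter_finset fun k _ => isOpen_lt continuous_const (by fun_prop)
  have hclW : closure U' ⊆ W :=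
    closure_minimal (fun ζ hζ k hk => (hζ.2 k hk).le) hWc
  have hQW : ∀ ζ ∈ W, (l / 12) ^ n ≤ ‖Q ζ‖ := by
    intro ζ hζ
    have h1 := prod_max_ge' n n (‖ζ - p‖ * n / l)
    have h2 : (l / 12) ^ n = (l / n) ^ n * ((n : ℝ) / 12) ^ n := by
      rw [← mul_pow]; congr 1; field_simp
    rw [h2]
    refine (mul_le_mul_of_nonneg_left h1 (by positivity)).trans ?_
    simp only [Q]
    rw [norm_prod]
    conv_lhs => rw [← card_range n, ← Finset.prod_const, card_range, ← Finset.prod_mul_distrib]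
    apply Finset.prod_le_prod
    · intro k _
      exact mul_nonneg (by positivity) (le_max_of_le_left (by norm_num))
    · intro k hk
      rw [mul_max_of_nonneg _ _ (by positivity)]
      apply max_le
      · refine le_trans (le_of_eq ?_) (hζ k hk)
        rw [hε]; field_simp
      · have e1 : l / n * |‖ζ - p‖ * n / l - (n + k)| = |‖ζ - p‖ - ‖z k - p‖| := by
          rw [(hz' k (mem_range.1 hk)).1, ← abs_of_pos (show 0 < l / n by positivity), ← abs_mul,
            abs_of_pos (show 0 < l / n by positivity)]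
          congr 1
          field_simp
        rw [e1]
        refine (abs_norm_sub_norm_le _ _).trans (le_of_eq ?_)
        congr 1; ring
  have hQ0 : ∀ ζ ∈ W, Q ζ ≠ 0 := by
    intro ζ hζ h
    have := hQW ζ hζ
    rw [h, norm_zero] at this
    exact absurd this (not_le.2 (by positivity))
  have hQd : Differentiable ℂ Q := by
    simp only [Q]; fun_prop
  let G : ℂ → ℂ := fun ζ => F ζ ^ a / Q ζ
  have hG : DiffContOnCl ℂ G U' := by
    apply DifferentiableOn.diffContOnCl
    intro ζ hζ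
    exact (((hF ζ).pow a).div (hQd ζ) (hQ0 ζ (hclW hζ))).differentiableWithinAt
  set C : ℝ := max ((2 * δ) ^ a / (l / 12) ^ n) (M ^ a / ((ρ - 2) * l) ^ n) with hC
  have hρ2 : 0 < ρ - 2 := by linarith
  have hbd : ∀ ζ ∈ frontier U', ‖G ζ‖ ≤ C := by
    intro ζ hζ
    have hζW : ζ ∈ W := hclW (frontier_subset_closure hζ)
    have hsmall : ‖F ζ‖ ≤ 2 * δ → ‖G ζ‖ ≤ C := by
      intro h
      refine le_max_of_le_left ?_
      simp only [G]
      rw [norm_div, norm_pow]
      have := hQW ζ hζW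
      gcongr
    rw [hU'.frontier_eq] at hζ
    by_cases hζU : ζ ∈ U
    · have : ∃ k ∈ range n, ‖ζ - z k‖ ≤ ε := by
        by_contra hcon
        push Not at hcon
        exact hζ.2 ⟨hζU, hcon⟩
      obtain ⟨k, hk, hkε⟩ := this
      have hk' := mem_range.1 hk
      apply hsmall
      have h1 : dist (F ζ) (F (z k)) < δ := by
        apply hηF
        · rw [mem_closedBall_iff_norm]
          calc ‖ζ - p‖ = ‖(ζ - z k) + (z k - p)‖ := by ring_nf
            _ ≤ ‖ζ - z k‖ + ‖z k - p‖ := norm_add_le _ _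
            _ ≤ 3 * l := by linarith [(hzl k hk').2]
        · rw [mem_closedBall_iff_norm]; linarith [(hzl k hk').2]
        · rw [dist_eq_norm]; linarith
      rw [dist_eq_norm] at h1
      calc ‖F ζ‖ = ‖(F ζ - F (z k)) + F (z k)‖ := by ring_nf
        _ ≤ ‖F ζ - F (z k)‖ + ‖F (z k)‖ := norm_add_le _ _
        _ ≤ 2 * δ := by linarith [(hz' k hk').2]
    · have hζf : ζ ∈ frontier U := by
        rw [hU.frontier_eq]
        exact ⟨closure_mono Set.inter_subset_left hζ.1, hζU⟩
      rcases hfr ζ hζf with h | ⟨h1, h2⟩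
      · exact hsmall (by linarith)
      · refine le_max_of_le_right ?_
        simp only [G]
        rw [norm_div, norm_pow]
        have h3 : ((ρ - 2) * l) ^ n ≤ ‖Q ζ‖ := by
          simp only [Q]
          rw [norm_prod]
          conv_lhs => rw [← card_range n, ← Finset.prod_const]
          apply Finset.prod_le_prod
          · intro k _; positivity
          · intro k hk
            have h4 := (hzl k (mem_range.1 hk)).2
            have h5 : ‖ζ - p‖ ≤ ‖ζ - z k‖ + ‖z k - p‖ := by
              calc ‖ζ - p‖ = ‖(ζ - z k) + (z k - p)‖ := by ring_nf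
                _ ≤ _ := norm_add_le _ _
            linarith
        gcongr
  have hpU' : p ∈ U' := by
    refine ⟨hp, fun k hk => ?_⟩
    have := (hzl k (mem_range.1 hk)).1
    rw [norm_sub_rev]; linarith
  have hGp := Complex.norm_le_of_forall_mem_frontier_norm_le
    (hUb.subset Set.inter_subset_left) hG hbd (subset_closure hpU')
  have hQp : ‖Q p‖ ≤ (2 * l) ^ n := by
    simp only [Q]
    rw [norm_prod]
    conv_rhs => rw [← card_range n, ← Finset.prod_const]
    apply Finset.prod_le_prod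
    · intro k _; positivity
    · intro k hk
      rw [norm_sub_rev]; exact (hzl k (mem_range.1 hk)).2
  have hQp0 : 0 < ‖Q p‖ := norm_pos_iff.2 (hQ0 p (hclW (subset_closure hpU')))
  simp only [G] at hGp
  rw [norm_div, norm_pow, div_le_iff₀ hQp0] at hGp
  have hC0 : 0 ≤ C := le_max_of_le_left (by positivity)
  have hfin : ‖F p‖ ^ a ≤ (max (2 * δ * 24 ^ t) (M * (2 / (ρ - 2)) ^ t)) ^ a := by
    refine hGp.trans ((mul_le_mul_of_nonneg_left hQp hC0).trans ?_)
    rw [hC, max_mul_of_nonneg _ _ (by positivity)]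
    apply max_le
    · refine le_trans (le_of_eq ?_) (pow_le_pow_left₀ (by positivity) (le_max_left _ _) a)
      rw [mul_pow (2 * δ), ← pow_mul, mul_comm t a, ← hn, div_mul_eq_mul_div, mul_div_assoc,
        ← div_pow]
      congr 2
      field_simp; norm_num
    · refine le_trans (le_of_eq ?_) (pow_le_pow_left₀ (by positivity) (le_max_right _ _) a)
      rw [mul_pow M, ← pow_mul, mul_comm t a, ← hn, div_mul_eq_mul_div, mul_div_assoc,
        ← div_pow]
      congr 2
      field_simp
  exact le_of_pow_le_pow_left₀ ha0.ne' (le_max_of_le_left (by positivity)) hfin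

end Pool.Agent.P.MP_c161d8_an
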