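import Pool.Agent.P.MP_c161d8_an.ExpSum
import Pool.Agent.P.MP_c161d8_an.TwoConst

set_option autoImplicit false

namespace Pool.Agent.P.MP_c161d8_an

open Finset Complex

lemma exp_nat_le (n : ℕ) : Real.exp n ≤ 3 ^ n := by
  rw [← Real.exp_one_pow]
  exact pow_le_pow_left₀ (Real.exp_pos _).le (by linarith [Real.exp_one_lt_d9]) n

/-- Remez type inequality for exponential sums at the scale `K / N`. -/
lemma remez (A : Finset ℕ) (a : ℕ → ℂ) (q : ℂ) {N δ : ℝ} {K : ℕ}
    (hK : A.card ≤ K) (hK1 : 1 ≤ K) (hN : ∀ p ∈ A, (p : ℝ) ≤ N) (hN0 : 0 < N) (hδ : 0 < δ)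
    (hz : ∀ p : ℂ, ‖p - q‖ ≤ K / N → ∀ s ∈ Set.Icc (K / N) (2 * (K / N)),
      ∃ z, ‖z - p‖ = s ∧ ‖ev A a z‖ ≤ δ) :
    ∀ s : ℂ, ‖s‖ ≤ K / N → ‖ev A a (q + s)‖ ≤ 2 * δ * 24 ^ (34 * K) := by
  have hK0 : (0 : ℝ) < K := by exact_mod_cast hK1
  set r : ℝ := K / N with hr
  have hr0 : 0 < r := div_pos hK0 hN0
  obtain ⟨s0, hs0, hmax⟩ := (isCompact_closedBall (0 : ℂ) r).exists_isMaxOn
    ⟨0, Metric.mem_closedBall_self hr0.le⟩
    (f := fun s => ‖ev A a (q + s)‖)
    (((continuous_ev A a).comp (continuous_const.add continuous_id)).norm.continuousOn)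
  have hs0' : ‖s0‖ ≤ r := by simpa using hs0
  set M := ‖ev A a (q + s0)‖ with hM
  have hM0 : 0 ≤ M := norm_nonneg _
  have hle : ∀ s : ℂ, ‖s‖ ≤ r → ‖ev A a (q + s)‖ ≤ M := fun s hs => hmax (by simpa using hs)
  suffices h : M ≤ 2 * δ * 24 ^ (34 * K) from fun s hs => (hle s hs).trans h
  have hgr : ∀ s : ℂ, ‖s‖ ≤ 7 * r → ‖ev A a (q + s)‖ ≤ M * 3 ^ (21 * K) := by
    intro s hs
    have h1 := growth A a q hr0 hK hK1 hN one_pos le_rfl hle s (N * (7 * r)) (by
      intro p hp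
      have h1 := hN p hp
      have h2 : s.re ≤ 7 * r := (re_le_norm s).trans hs
      have h3 : (0 : ℝ) ≤ p := Nat.cast_nonneg p
      calc (p : ℝ) * s.re ≤ p * (7 * r) := by gcongr
        _ ≤ N * (7 * r) := by gcongr)
    refine h1.trans ?_
    have e1 : (K : ℝ) / r = N := by rw [hr]; field_simp
    have e2 : N * r = K := by rw [hr]; field_simp
    simp only [inv_one, one_pow, mul_one, one_mul, e1]
    refine mul_le_mul_of_nonneg_left ((Real.exp_le_exp.2 ?_).trans (exp_nat_le (21 * K))) hM0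
    push_cast
    nlinarith
  have htc := two_const (differentiable_ev A a) (U := Metric.ball (q + s0) (6 * r))
    Metric.isOpen_ball Metric.isBounded_ball (p := q + s0) (Metric.mem_ball_self (by positivity))
    hr0 (ρ := 6) (by norm_num) hδ (M := M * 3 ^ (21 * K)) (by positivity) (t := 34 * K)
    (by omega)
    (by
      intro ζ hζ
      rw [frontier_ball _ (by positivity)] at hζ
      have h1 : ‖ζ - (q + s0)‖ = 6 * r := by simpa [dist_eq_norm] using hζ
      refine Or.inr ⟨h1.ge, ?_⟩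
      have := hgr (ζ - q) (by
        calc ‖ζ - q‖ = ‖(ζ - (q + s0)) + s0‖ := by ring_nf
          _ ≤ ‖ζ - (q + s0)‖ + ‖s0‖ := norm_add_le _ _
          _ ≤ 7 * r := by linarith)
      simpa using this)
    (hz (q + s0) (by simpa using hs0'))
  rw [← hM] at htc
  rcases le_max_iff.1 htc with h | h
  · exact h
  · rcases hM0.eq_or_lt with h0 | h0
    · rw [← h0]; positivity
    · exfalso
      have e : M * 3 ^ (21 * K) * (2 / (6 - 2) : ℝ) ^ (34 * K) =
          M * ((3 : ℝ) ^ 21 * (1 / 2) ^ 34) ^ K := by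
        rw [mul_pow, ← pow_mul, ← pow_mul]; norm_num; ring
      rw [e] at h
      have : ((3 : ℝ) ^ 21 * (1 / 2) ^ 34) ^ K < 1 :=
        pow_lt_one₀ (by positivity) (by norm_num) (by omega)
      nlinarith

end Pool.Agent.P.MP_c161d8_an
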