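import Pool.Agent.P.MP_c161d8_an.Jump
import Pool.Agent.P.MP_c161d8_an.Rect

set_option autoImplicit false

namespace Pool.Agent.P.MP_c161d8_an

open Finset Complex

/-- A regularised summable majorant of the dyadic densities. -/
structure Sc (S : Set ℕ) (T : ℕ) (r : ℕ → ℝ) : Prop where
  pos : ∀ j, 0 < r j
  summable : Summable r
  card_le : ∀ j, ((nodes S j).card : ℝ) ≤ 2 ^ j * r j
  nat_le : ∀ j : ℕ, (j : ℝ) ≤ 2 ^ j * r j
  step : ∀ j, r j ≤ 4 / 3 * r (j + 1)
  win : ∀ i j, i ≤ j + T → j ≤ i + T → r i ≤ 2 * r j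

lemma sum_inj_le {f : ℕ → ℝ} (hf : Summable f) (h0 : ∀ n, 0 ≤ f n) (s : Finset ℕ) (g : ℕ → ℕ)
    (hg : Set.InjOn g s) : ∑ j ∈ s, f (g j) ≤ ∑' n, f n := by
  classical
  rw [← Finset.sum_image (f := f) hg]
  exact hf.sum_le_tsum _ fun n _ => h0 n

lemma exists_scale {S : Set ℕ} (hS : Summable (fun p : S => (1 : ℝ) / ((p : ℕ) : ℝ))) {T : ℕ}
    (hT : 2 ≤ T) : ∃ r, Sc S T r := by
  classical
  have hT0 : (2 : ℝ) ≤ T := by exact_mod_cast hT
  set q : ℝ := 1 - 1 / (2 * T) with hq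
  have hq' : 1 / (2 * (T : ℝ)) ≤ 1 / 4 := by
    apply div_le_div_of_nonneg_left <;> linarith
  have hq'' : 0 < 1 / (2 * (T : ℝ)) := by positivity
  have hq34 : 3 / 4 ≤ q := by linarith
  have hq0 : 0 < q := by linarith
  have hq1 : q < 1 := by linarith
  have hqT : 1 / 2 ≤ q ^ T := by
    have := one_add_mul_le_pow (a := -(1 / (2 * (T : ℝ)))) (by linarith) T
    have e : (T : ℝ) * -(1 / (2 * (T : ℝ))) = -(1 / 2) := by field_simp
    rw [e] at this
    rw [hq, sub_eq_add_neg]; linarith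
  set u : ℕ → ℝ := fun i => ((nodes S i).card + i) / 2 ^ i with hu
  have hu0 : ∀ i, 0 ≤ u i := fun i => by positivity
  have hus : Summable u := by
    have h1 : Summable fun j : ℕ => (j : ℝ) ^ 1 * (1 / 2 : ℝ) ^ j :=
      summable_pow_mul_geometric_of_norm_lt_one 1 (by norm_num)
    refine ((summable_card_nodes hS).add h1).congr fun j => ?_
    simp only [hu, one_div, inv_pow]; field_simp
  have hw0 : ∀ i j, 0 ≤ u i * q ^ Nat.dist i j := fun i j => by have := hu0 i; positivity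
  have hws : ∀ j, Summable fun i => u i * q ^ Nat.dist i j := fun j =>
    Summable.of_nonneg_of_le (fun i => hw0 i j)
      (fun i => mul_le_of_le_one_right (hu0 i) (pow_le_one₀ hq0.le hq1.le)) hus
  set r : ℕ → ℝ := fun j => ∑' i, u i * q ^ Nat.dist i j with hr
  have hur : ∀ j, u j ≤ r j := fun j => by
    have := (hws j).le_tsum j (fun i _ => hw0 i j)
    simpa using this
  have hratio : ∀ j j', q ^ Nat.dist j j' * r j ≤ r j' := by
    intro j j'
    simp only [hr]
    rw [← tsum_mul_left]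
    refine Summable.tsum_le_tsum (fun i => ?_) ((hws j).mul_left _) (hws j')
    have h1 : q ^ (Nat.dist i j + Nat.dist j j') ≤ q ^ Nat.dist i j' :=
      pow_le_pow_of_le_one hq0.le hq1.le (Nat.dist.triangle_inequality i j j')
    calc q ^ Nat.dist j j' * (u i * q ^ Nat.dist i j)
        = u i * q ^ (Nat.dist i j + Nat.dist j j') := by rw [pow_add]; ring
      _ ≤ _ := mul_le_mul_of_nonneg_left h1 (hu0 i)
  have hcard : ∀ j, ((nodes S j).card : ℝ) + j ≤ 2 ^ j * r j := fun j => by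
    have := hur j
    simp only [hu] at this
    rw [div_le_iff₀ (by positivity)] at this
    linarith
  have hpos : ∀ j, 0 < r j := fun j => by
    have h1 := hcard j
    have h2 : (1 : ℝ) ≤ (nodes S j).card := by exact_mod_cast one_le_card_nodes S j
    have h3 : (0 : ℝ) ≤ j := Nat.cast_nonneg j
    by_contra h
    push Not at h
    have : (2 : ℝ) ^ j * r j ≤ 0 := mul_nonpos_of_nonneg_of_nonpos (by positivity) h
    linarith
  have hgeo : Summable fun n : ℕ => q ^ n := summable_geometric_of_lt_one hq0.le hq1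
  refine ⟨r, hpos, ?_, fun j => ?_, fun j => ?_, fun j => ?_, fun i j hij hji => ?_⟩
  · refine summable_of_sum_range_le (c := ∑' i, u i * (2 * ∑' n, q ^ n))
      (fun j => (hpos j).le) fun n => ?_
    simp only [hr]
    rw [← Summable.tsum_finsetSum fun j _ => hws j]
    refine Summable.tsum_le_tsum (fun i => ?_) (summable_sum fun j _ => hws j) (hus.mul_right _)
    rw [← Finset.mul_sum]
    refine mul_le_mul_of_nonneg_left ?_ (hu0 i)
    rw [← Finset.sum_filter_add_sum_filter_not (range n) (fun j => j ≤ i), two_mul]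
    apply add_le_add
    · refine sum_inj_le hgeo (fun n => by positivity) _ (fun j => Nat.dist i j) ?_
      intro x hx y hy hxy
      simp only [coe_filter, Set.mem_setOf_eq] at hx hy
      simp only [Nat.dist] at hxy
      omega
    · refine sum_inj_le hgeo (fun n => by positivity) _ (fun j => Nat.dist i j) ?_
      intro x hx y hy hxy
      simp only [coe_filter, Set.mem_setOf_eq] at hx hy
      simp only [Nat.dist] at hxy
      omega
  · linarith [hcard j, (Nat.cast_nonneg j : (0 : ℝ) ≤ j)]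
  · linarith [hcard j, (Nat.cast_nonneg (nodes S j).card : (0 : ℝ) ≤ _)]
  · have := hratio j (j + 1)
    rw [show Nat.dist j (j + 1) = 1 by simp [Nat.dist], pow_one] at this
    nlinarith [hpos j]
  · have h1 := hratio i j
    have h2 : q ^ T ≤ q ^ Nat.dist i j :=
      pow_le_pow_of_le_one hq0.le hq1.le (by simp only [Nat.dist]; omega)
    nlinarith [hpos i]

lemma Sc.one_le {S : Set ℕ} {T : ℕ} {r : ℕ → ℝ} (h : Sc S T r) (j : ℕ) : 1 ≤ 2 ^ j * r j :=
  le_trans (by exact_mod_cast one_le_card_nodes S j) (h.card_le j)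

lemma Sc.prod_le {S : Set ℕ} {T : ℕ} {r : ℕ → ℝ} (h : Sc S T r) (j : ℕ) : ∀ M : ℝ, 0 ≤ M →
    ∏ μ ∈ (nodes S j).erase 0, (1 + M * 2 ^ j / μ) ≤
      Real.exp (2 ^ j * r j * (5 + 3 * Real.log (1 + M))) := by
  classical
  have key : ∀ (j : ℕ) (M : ℝ), 0 ≤ M → ∀ (A : Finset ℕ), A ⊆ nodes S j →
      (∀ μ ∈ A, (2 : ℝ) ^ j ≤ μ) →
      ∏ μ ∈ A, (1 + M * 2 ^ j / μ) ≤ Real.exp (2 ^ j * r j * Real.log (1 + M)) := by
    intro j M hM A hA hμ
    have hl : 0 ≤ Real.log (1 + M) := Real.log_nonneg (by linarith)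
    calc ∏ μ ∈ A, (1 + M * 2 ^ j / (μ : ℝ)) ≤ ∏ _μ ∈ A, (1 + M) := by
          apply Finset.prod_le_prod
          · intro μ _; positivity
          · intro μ hμA
            have h1 := hμ μ hμA
            have h2 : (0 : ℝ) < 2 ^ j := by positivity
            have : M * 2 ^ j / (μ : ℝ) ≤ M := by
              rw [div_le_iff₀ (by linarith)]; gcongr
            linarith
      _ = Real.exp (A.card * Real.log (1 + M)) := by
          rw [Finset.prod_const, Real.exp_nat_mul, Real.exp_log (by linarith)]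
      _ ≤ _ := by
          have : (A.card : ℝ) ≤ 2 ^ j * r j :=
            le_trans (by exact_mod_cast Finset.card_le_card hA) (h.card_le j)
          gcongr
  induction j with
  | zero =>
    intro M hM
    have hl : 0 ≤ Real.log (1 + M) := Real.log_nonneg (by linarith)
    refine (key 0 M hM _ (Finset.erase_subset _ _) (fun μ hμ => ?_)).trans ?_
    · have : 1 ≤ μ := Nat.one_le_iff_ne_zero.2 (Finset.mem_erase.1 hμ).1
      simpa using this
    · have := h.pos 0
      gcongr; linarith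
  | succ j ih =>
    intro M hM
    have hl : 0 ≤ Real.log (1 + M) := Real.log_nonneg (by linarith)
    have hsub : (nodes S j).erase 0 ⊆ (nodes S (j + 1)).erase 0 :=
      Finset.erase_subset_erase _ (nodes_mono S (Nat.le_succ j))
    rw [← Finset.prod_sdiff hsub]
    have h1 := key (j + 1) M hM ((nodes S (j + 1)).erase 0 \ (nodes S j).erase 0)
      (Finset.sdiff_subset.trans (Finset.erase_subset _ _))
      (by
        intro μ hμ
        simp only [Finset.mem_sdiff, Finset.mem_erase, mem_nodes] at hμ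
        have h2 : 2 ^ (j + 3) ≤ μ := by
          by_contra hc
          exact hμ.2 ⟨hμ.1.1, by omega, hμ.1.2.2⟩
        have h3 : 2 ^ (j + 1) ≤ μ := le_trans (Nat.pow_le_pow_right (by norm_num) (by omega)) h2
        exact_mod_cast h3)
    have h2 := ih (2 * M) (by linarith)
    have e : ∀ μ : ℕ, 1 + M * 2 ^ (j + 1) / (μ : ℝ) = 1 + 2 * M * 2 ^ j / μ := fun μ => by
      rw [pow_succ]; ring
    have h3 : ∏ μ ∈ (nodes S j).erase 0, (1 + M * 2 ^ (j + 1) / (μ : ℝ)) ≤
        Real.exp (2 ^ j * r j * (5 + 3 * Real.log (1 + 2 * M))) := by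
      simp only [e]; exact h2
    refine (mul_le_mul h1 h3 (Finset.prod_nonneg fun μ _ => by positivity)
      (Real.exp_pos _).le).trans ?_
    rw [← Real.exp_add]
    apply Real.exp_le_exp.2
    have h4 : Real.log (1 + 2 * M) ≤ 0.7 + Real.log (1 + M) := by
      have h5 : Real.log (1 + 2 * M) ≤ Real.log (2 * (1 + M)) :=
        Real.log_le_log (by linarith) (by linarith)
      rw [Real.log_mul (by norm_num) (by linarith)] at h5
      linarith [Real.log_two_lt_d9]
    have h5 : 2 ^ j * r j ≤ 2 / 3 * (2 ^ (j + 1) * r (j + 1)) := by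
      have := h.step j
      have h6 : (0 : ℝ) < 2 ^ j := by positivity
      rw [pow_succ]; nlinarith
    have h6 : 0 < 2 ^ (j + 1) * r (j + 1) := by have := h.pos (j + 1); positivity
    have h7 : 0 < 2 ^ j * r j := by have := h.pos j; positivity
    have h8 : 0 ≤ Real.log (1 + 2 * M) := Real.log_nonneg (by linarith)
    have h9 : 2 ^ j * r j * (5 + 3 * Real.log (1 + 2 * M)) ≤
        2 / 3 * (2 ^ (j + 1) * r (j + 1)) * (5 + 3 * (0.7 + Real.log (1 + M))) := by gcongr
    nlinarith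

/-- The frequencies of `F` below `2 ^ (j + 3)`. -/
def Fn (F : Finset ℕ) (j : ℕ) : Finset ℕ := F.filter fun p => p < 2 ^ (j + 3)

lemma Fn_subset {S : Set ℕ} {F : Finset ℕ} (hF : ∀ p ∈ F, p = 0 ∨ p ∈ S) (j : ℕ) :
    Fn F j ⊆ nodes S j := fun p hp => by
  rw [Fn, Finset.mem_filter] at hp
  exact mem_nodes.2 ⟨hp.2, hF p hp.1⟩

/-- Good cut points. -/
structure Cut (T : ℕ) (F : Finset ℕ) (c : ℕ → ℝ) : Prop where
  lo : ∀ j, 2 * 2 ^ j < c j
  hi : ∀ j, c j < 3 * 2 ^ j
  good : ∀ j, ((2 : ℝ) ^ j / 12) ^ (Fn F (j + T)).card ≤ ∏ l ∈ Fn F (j + T), |c j - l|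
  ne : ∀ j, ∀ p : ℕ, c j ≠ p

lemma exists_cut' (T : ℕ) (F : Finset ℕ) : ∃ c, Cut T F c := by
  have h : ∀ j : ℕ, ∃ c : ℝ, 2 * (2 : ℝ) ^ j < c ∧ c < 3 * 2 ^ j ∧
      ((2 : ℝ) ^ j / 12) ^ (Fn F (j + T)).card ≤ ∏ l ∈ Fn F (j + T), |c - l| ∧
      (∀ p : ℕ, c ≠ p) := by
    intro j
    obtain ⟨k, hk, h⟩ := exists_cut (Fn F (j + T)) (2 * 2 ^ j) (2 ^ j) Nat.one_le_two_pow
    push_cast at h
    have hk' : (k : ℝ) + 1 ≤ 2 ^ j := by exact_mod_cast hk
    have hk0 : (0 : ℝ) ≤ k := Nat.cast_nonneg k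
    refine ⟨_, by linarith, by linarith, h, ?_⟩
    intro p hp
    have h2 : (2 * (2 * 2 ^ j + k) + 1 : ℝ) = 2 * p := by linarith
    have h3 : 2 * (2 * 2 ^ j + k) + 1 = 2 * p := by exact_mod_cast h2
    omega
  choose c hc using h
  exact ⟨c, fun j => (hc j).1, fun j => (hc j).2.1, fun j => (hc j).2.2.1, fun j => (hc j).2.2.2⟩

lemma Cut.mem_Fn {T : ℕ} {F : Finset ℕ} {c : ℕ → ℝ} (hc : Cut T F c) {j x : ℕ} (hx : x ∈ F)
    (h : (x : ℝ) < c j) : x ∈ Fn F j := by
  refine Finset.mem_filter.2 ⟨hx, ?_⟩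
  have h1 := hc.hi j
  have h2 : (0 : ℝ) < 2 ^ j := by positivity
  have : (x : ℝ) < 2 ^ (j + 3) := by rw [pow_add]; linarith
  exact_mod_cast this

lemma Cut.le {T : ℕ} {F : Finset ℕ} {c : ℕ → ℝ} (hc : Cut T F c) (hT : 1 ≤ T) (j : ℕ) :
    c j ≤ c (j + T) := by
  have h1 := hc.hi j
  have h2 := hc.lo (j + T)
  have h3 : (2 : ℝ) ^ (j + 1) ≤ 2 ^ (j + T) := pow_le_pow_right₀ (by norm_num) (by omega)
  have h4 : (0 : ℝ) < 2 ^ j := by positivity
  rw [pow_succ] at h3
  linarith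

lemma ev_restrict {F A : Finset ℕ} (hA : A ⊆ F) {b : ℕ → ℂ} (hb : ∀ p ∈ F, p ∉ A → b p = 0)
    (z : ℂ) : ev F b z = ev A b z := by
  unfold ev
  exact (Finset.sum_subset hA fun p hp hpA => by simp [hb p hp hpA]).symm

lemma Cut.lo_eq {T : ℕ} {F : Finset ℕ} {c : ℕ → ℝ} (hc : Cut T F c) (a : ℕ → ℂ) (j : ℕ) (z : ℂ) :
    MP_c161d8_an.lo F a (c j) z = ev (Fn F j) (fun p => if (p : ℝ) < c j then a p else 0) z :=
  ev_restrict (Finset.filter_subset _ _)
    (fun p hp hpA => if_neg fun h => hpA (hc.mem_Fn hp h)) z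

lemma le_of_mem_Fn {F : Finset ℕ} {j p : ℕ} (h : p ∈ Fn F j) : (p : ℝ) ≤ 2 ^ (j + 3) := by
  have := (Finset.mem_filter.1 h).2.le
  exact_mod_cast this

end Pool.Agent.P.MP_c161d8_an
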