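import Pool.Agent.P.MP_c161d8_an.Scale

set_option autoImplicit false

namespace Pool.Agent.P.MP_c161d8_an

open Finset Complex

/-- The cost of extracting the middle frequencies. -/
noncomputable def Cmid (T : ℕ) (M : ℝ) : ℝ := 2 ^ (T + 1) * Real.log (864 * 4 ^ T * M)

lemma log_mid_nonneg (T : ℕ) {M : ℝ} (hM : 1 ≤ M) : 0 ≤ Real.log (864 * 4 ^ T * M) := by
  apply Real.log_nonneg
  have : (1 : ℝ) ≤ 4 ^ T := one_le_pow₀ (by norm_num)
  nlinarith

lemma Cmid_nonneg (T : ℕ) {M : ℝ} (hM : 1 ≤ M) : 0 ≤ Cmid T M := by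
  have := log_mid_nonneg T hM
  unfold Cmid; positivity

lemma Sc.card_T {S : Set ℕ} {T : ℕ} {r : ℕ → ℝ} (h : Sc S T r) (j : ℕ) :
    ((nodes S (j + T)).card : ℝ) ≤ 2 ^ (T + 1) * (2 ^ j * r j) := by
  refine (h.card_le _).trans ?_
  have := h.win (j + T) j le_rfl (by omega)
  calc (2 : ℝ) ^ (j + T) * r (j + T) ≤ 2 ^ (j + T) * (2 * r j) := by gcongr
    _ = _ := by ring

lemma Sc.pow_card_le {S : Set ℕ} {T : ℕ} {r : ℕ → ℝ} (h : Sc S T r) (j : ℕ) {M x : ℝ}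
    (hM : 1 ≤ M) (hx0 : 0 ≤ x) (hx : x ≤ 864 * 4 ^ T * M) :
    x ^ (nodes S (j + T)).card ≤ Real.exp (Cmid T M * (2 ^ j * r j)) := by
  have h1 := log_mid_nonneg T hM
  have h2 : (0 : ℝ) < 864 * 4 ^ T * M := by positivity
  calc x ^ (nodes S (j + T)).card ≤ (864 * 4 ^ T * M) ^ (nodes S (j + T)).card := by gcongr
    _ = Real.exp ((nodes S (j + T)).card * Real.log (864 * 4 ^ T * M)) := by
        rw [Real.exp_nat_mul, Real.exp_log h2]
    _ ≤ _ := by
        apply Real.exp_le_exp.2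
        have := h.card_T j
        unfold Cmid
        nlinarith

/-- The middle frequencies decay in a cone opening to the left. -/
lemma mid_bound {S : Set ℕ} {T : ℕ} {r : ℕ → ℝ} (h : Sc S T r) (hT : 1 ≤ T) {F : Finset ℕ}
    (hF : ∀ p ∈ F, p = 0 ∨ p ∈ S) {c : ℕ → ℝ} (hc : Cut T F c) (a : ℕ → ℂ) {M : ℝ} (hM : 1 ≤ M)
    (j : ℕ) (q : ℂ) {Y : ℝ}
    (hY : ∀ w, ‖w - q‖ ≤ r (j + T) → ‖lo F a (c (j + T)) w‖ ≤ Y) (w : ℂ)
    (hw : ‖w - q‖ ≤ M * (q.re - w.re)) :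
    ‖hi F a (c j) w‖ ≤ ‖hi F a (c (j + T)) w‖ +
      Y * Real.exp (Cmid T M * (2 ^ j * r j) - 2 ^ j * (q.re - w.re)) := by
  classical
  set A := Fn F (j + T) with hA
  set K := (nodes S (j + T)).card with hK
  set a' : ℕ → ℂ := fun p => if (p : ℝ) < c (j + T) then a p else 0 with ha'
  have hK1 : 1 ≤ K := one_le_card_nodes S _
  have hAK : A.card ≤ K := Finset.card_le_card (Fn_subset hF _)
  have hr := h.pos (j + T)
  have hM0 : 0 < M := by linarith
  set X := q.re - w.re with hX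
  have hX0 : 0 ≤ X := by
    have := (norm_nonneg _).trans hw
    exact nonneg_of_mul_nonneg_right this hM0 |> fun h => h
  have h2j : (0 : ℝ) < 2 ^ j := by positivity
  have h2T : (1 : ℝ) ≤ 2 ^ T := one_le_pow₀ (by norm_num)
  have hKr : (K : ℝ) / r (j + T) ≤ 2 ^ (j + T) := by
    rw [div_le_iff₀ hr]; exact h.card_le _
  have hKr0 : 0 ≤ (K : ℝ) / r (j + T) := by positivity
  set κ : ℝ := 1 / (8 * 2 ^ T * M) with hκ
  have hκ0 : 0 < κ := by positivity
  have hκ1 : κ ≤ 1 := by rw [hκ, div_le_one (by positivity)]; nlinarith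
  have hY0 : 0 ≤ Y := (norm_nonneg _).trans (hY q (by simpa using hr.le))
  have key := extract_high A a' q (r := r (j + T)) (N := 2 ^ (j + T + 3)) (Y := Y) (κ := κ)
    (c := c j) (D := 2 ^ j / 12) (K := K) hr hAK hK1 (fun p hp => le_of_mem_Fn hp)
    (by positivity) hκ0 hκ1 (by linarith [hc.lo j]) (by positivity)
    (by
      have : (2 : ℝ) ^ j ≤ 2 ^ (j + T + 3) := pow_le_pow_right₀ (by norm_num) (by omega)
      linarith)
    (hc.good j)
    (by
      intro s hs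
      rw [← hc.lo_eq]
      apply hY; rwa [add_sub_cancel_left])
    (w - q) (-(2 * 2 ^ j * X))
    (by
      intro p _ hp
      have h1 := hc.lo j
      have : (w - q).re = -X := by simp [hX]
      rw [this]; nlinarith)
  rw [add_sub_cancel] at key
  have e : hi F a (c j) w = hi F a (c (j + T)) w + ev (A.filter fun p : ℕ => c j < p) a' w := by
    have e1 : ev (A.filter fun p : ℕ => c j < p) a' w =
        ev F (fun p => if c j < p then a' p else 0) w := by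
      rw [ev_restrict (A := A.filter fun p : ℕ => c j < p)
        ((Finset.filter_subset _ _).trans (Finset.filter_subset _ _))]
      · exact ev_congr (fun p hp => by rw [if_pos (Finset.mem_filter.1 hp).2]) w
      · intro p hp hpA
        by_cases h1 : c j < p
        · rw [if_pos h1]
          exact if_neg fun h2 => hpA (Finset.mem_filter.2 ⟨hc.mem_Fn hp h2, h1⟩)
        · exact if_neg h1
    rw [e1]
    unfold hi
    rw [← ev_add]
    refine ev_congr (fun p _ => ?_) w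
    have hle := hc.le hT j
    by_cases h1 : (p : ℝ) < c j
    · simp [h1, h1.trans_le hle, not_lt.2 h1.le]
    · have h2 : c j < p := lt_of_le_of_ne (not_lt.1 h1) (hc.ne j p)
      by_cases h3 : (p : ℝ) < c (j + T) <;> simp [ha', h1, h2, h3]
  rw [e]
  refine (norm_add_le _ _).trans (add_le_add le_rfl (key.trans ?_))
  have h1 : (((K : ℝ) / r (j + T) + 2 ^ (j + T + 3)) / (2 ^ j / 12)) ^ K * κ⁻¹ ^ K ≤
      Real.exp (Cmid T M * (2 ^ j * r j)) := by
    rw [← mul_pow]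
    apply h.pow_card_le j hM (by positivity)
    have h3 : ((K : ℝ) / r (j + T) + 2 ^ (j + T + 3)) / (2 ^ j / 12) ≤ 108 * 2 ^ T := by
      rw [div_le_iff₀ (by positivity)]
      rw [pow_add] at hKr
      rw [pow_add, pow_add]
      nlinarith
    rw [hκ, one_div, inv_inv, show (4 : ℝ) ^ T = 2 ^ T * 2 ^ T by rw [← mul_pow]; norm_num]
    calc _ ≤ (108 * 2 ^ T) * (8 * 2 ^ T * M) := by gcongr
      _ = _ := by ring
  have h2 : -(2 * 2 ^ j * X) + κ * 2 ^ (j + T + 3) * ‖w - q‖ ≤ -(2 ^ j * X) := by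
    have : κ * 2 ^ (j + T + 3) * ‖w - q‖ ≤ κ * 2 ^ (j + T + 3) * (M * X) := by gcongr
    have e : κ * 2 ^ (j + T + 3) * (M * X) = 2 ^ j * X := by
      rw [hκ, pow_add, pow_add]; field_simp; norm_num
    linarith
  rw [sub_eq_add_neg (Cmid T M * _), Real.exp_add (Cmid T M * _), mul_assoc Y, mul_assoc Y]
  gcongr

/-- The low frequencies stay bounded in a cone opening to the left. -/
lemma cone_bound {S : Set ℕ} {T : ℕ} {r : ℕ → ℝ} (h : Sc S T r) {F : Finset ℕ}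
    (hF : ∀ p ∈ F, p = 0 ∨ p ∈ S) {c : ℕ → ℝ} (hc : Cut T F c) (a : ℕ → ℂ) {M : ℝ} (hM : 1 ≤ M)
    (j : ℕ) (q : ℂ) {Y : ℝ}
    (hY : ∀ w, ‖w - q‖ ≤ r j → ‖lo F a (c j) w‖ ≤ Y) (w : ℂ)
    (hw : ‖w - q‖ ≤ M * (q.re - w.re)) :
    ‖lo F a (c j) w‖ ≤ Y * Real.exp (2 ^ j * r j * (5 + 3 * Real.log (1 + 9 * M))) := by
  classical
  have hr := h.pos j
  have hM0 : 0 < M := by linarith
  have hX0 : 0 ≤ q.re - w.re := by
    have := (norm_nonneg _).trans hw
    exact nonneg_of_mul_nonneg_right this hM0 |> fun h => h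
  have hY0 : 0 ≤ Y := (norm_nonneg _).trans (hY q (by simpa using hr.le))
  have key := cone_disc F ((nodes S j).erase 0) (fun p => if (p : ℝ) < c j then a p else 0) q
    (r := r j) (N := 2 ^ (j + 3)) (Y := Y) (M := M) (K := (nodes S j).card) hr hM0.le
    (Finset.notMem_erase _ _)
    (fun p hp hp0 hpH => if_neg fun hlt =>
      hpH (Finset.mem_erase.2 ⟨hp0, Fn_subset hF j (hc.mem_Fn hp hlt)⟩))
    (Finset.card_le_card (Finset.erase_subset _ _)) (one_le_card_nodes S j)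
    (fun p hp => le_of_mem_nodes (Finset.mem_of_mem_erase hp)) (by positivity)
    (fun s hs => hY _ (by rwa [add_sub_cancel_left])) (w - q)
    (by simpa using hw) (by simp; linarith)
  rw [add_sub_cancel] at key
  refine key.trans (mul_le_mul_of_nonneg_left (le_trans ?_ (h.prod_le j (9 * M) (by linarith))) hY0)
  apply Finset.prod_le_prod
  · intro μ _; positivity
  · intro μ _
    have hKr : ((nodes S j).card : ℝ) / r j ≤ 2 ^ j := by
      rw [div_le_iff₀ hr]; exact h.card_le _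
    have : M * (((nodes S j).card : ℝ) / r j + 2 ^ (j + 3)) ≤ 9 * M * 2 ^ j := by
      rw [pow_add]; nlinarith
    gcongr

/-- The ratio of radii in the two constants estimate. -/
noncomputable def rho0 : ℝ := 2 * 24 ^ 16 + 2

lemma four_le_rho0 : 4 ≤ rho0 := by unfold rho0; norm_num

lemma two_const_exp {F : ℂ → ℂ} (hF : Differentiable ℂ F) {U : Set ℂ} (hU : IsOpen U)
    (hUb : Bornology.IsBounded U) {p : ℂ} (hp : p ∈ U) {l δ m : ℝ} (hl : 0 < l)
    (hδ : 0 < δ) (hm : 0 ≤ m)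
    (hfr : ∀ ζ ∈ frontier U, ‖F ζ‖ ≤ δ ∨ (rho0 * l ≤ ‖ζ - p‖ ∧ ‖F ζ‖ ≤ δ * Real.exp m))
    (hz : ∀ s ∈ Set.Icc l (2 * l), ∃ z, ‖z - p‖ = s ∧ ‖F z‖ ≤ δ) :
    ‖F p‖ ≤ 48 * δ * Real.exp (m / 16) := by
  have hlog : 0 < Real.log 24 := Real.log_pos (by norm_num)
  set t := ⌊m / (16 * Real.log 24)⌋₊ + 1 with ht
  have ht1 : m / (16 * Real.log 24) ≤ t := by
    rw [ht]; push_cast; exact (Nat.lt_floor_add_one _).le
  have ht2 : (t : ℝ) ≤ m / (16 * Real.log 24) + 1 := by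
    rw [ht]; push_cast
    linarith [Nat.floor_le (show 0 ≤ m / (16 * Real.log 24) by positivity)]
  have key := two_const hF hU hUb hp hl (ρ := rho0) (by linarith [four_le_rho0]) hδ
    (by positivity) (t := t) (by omega) hfr hz
  refine key.trans (max_le ?_ ?_)
  · have e : (24 : ℝ) ^ t = Real.exp (t * Real.log 24) := by
      rw [Real.exp_nat_mul, Real.exp_log (by norm_num)]
    have h1 : t * Real.log 24 ≤ Real.log 24 + m / 16 := by
      have : m / (16 * Real.log 24) * Real.log 24 = m / 16 := by field_simp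
      nlinarith
    rw [e]
    calc 2 * δ * Real.exp (t * Real.log 24) ≤ 2 * δ * Real.exp (Real.log 24 + m / 16) := by gcongr
      _ = _ := by rw [Real.exp_add, Real.exp_log (by norm_num)]; ring
  · have e : 2 / (rho0 - 2) = Real.exp (-(16 * Real.log 24)) := by
      rw [Real.exp_neg, show (16 : ℝ) * Real.log 24 = (16 : ℕ) * Real.log 24 by norm_num,
        Real.exp_nat_mul, Real.exp_log (by norm_num)]
      unfold rho0; norm_num
    rw [e, ← Real.exp_nat_mul, mul_assoc, ← Real.exp_add]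
    have h1 : m + t * -(16 * Real.log 24) ≤ 0 := by
      rw [div_le_iff₀ (by positivity)] at ht1; linarith
    have h2 := Real.exp_le_one_iff.2 h1
    have h3 : 1 ≤ Real.exp (m / 16) := Real.one_le_exp (by positivity)
    nlinarith

/-- The jump lemma at the dyadic scales. -/
lemma jump_scaled {S : Set ℕ} {T : ℕ} {r : ℕ → ℝ} (h : Sc S T r) (hT : 1 ≤ T) {F : Finset ℕ}
    (hF : ∀ p ∈ F, p = 0 ∨ p ∈ S) {c : ℕ → ℝ} (hc : Cut T F c) (a : ℕ → ℂ) (j : ℕ)
    {δ m G1 G2 Dm : ℝ} {n : ℕ} {W : Set ℂ} {p q : ℂ × ℝ} (hδ : 0 < δ) (hm : 0 ≤ m)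
    (hW : ∀ w ∈ W, ‖ev F a w‖ ≤ δ * Real.exp m) (hDm : ∀ w ∈ W, ‖w - p.1‖ ≤ Dm)
    (hR : Reach (Disc W (2 ^ T * r (j + T))) n p q) (hp : Disc W (2 ^ T * r (j + T)) p)
    (hG1 : 2 ^ n * (2 + 9 * 2 ^ j * Dm) ≤ G1)
    (h1 : ∀ w, ‖w - p.1‖ ≤ 6 * p.2 → ‖hi F a (c (j + T)) w‖ ≤ δ * Real.exp (-G1)) (hG2 : 0 ≤ G2)
    (h2 : ∀ w, ‖w - p.1‖ ≤ p.2 → ‖hi F a (c j) w‖ ≤ δ * Real.exp (-G2)) :
    ∀ w, ‖w - q.1‖ ≤ q.2 →
      ‖hi F a (c j) w‖ ≤ δ * Real.exp (m + 2 + Cmid T 1 * (2 ^ j * r j) - G2 / 2 ^ n) := by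
  intro w hw
  have hr := h.pos (j + T)
  have h2j : (0 : ℝ) < 2 ^ j := by positivity
  have h2T : (1 : ℝ) ≤ 2 ^ T := one_le_pow₀ (by norm_num)
  set K := (nodes S (j + T)).card with hK
  have hKr : (K : ℝ) / (2 ^ T * r (j + T)) ≤ 2 ^ j := by
    rw [div_le_iff₀ (by positivity)]
    have := h.card_le (j + T)
    rw [pow_add] at this
    linarith
  have e8 : (2 : ℝ) ^ (j + T + 3) = 8 * (2 ^ j * 2 ^ T) := by rw [pow_add, pow_add]; ring
  have key := jump F (Fn F (j + T)) a (c := c j) (c' := c (j + T)) (r := 2 ^ T * r (j + T))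
    (N := 2 ^ (j + T + 3)) (N0 := 3 * 2 ^ j) (B := 9 * (2 ^ j * 2 ^ T)) (D := 2 ^ j / 12)
    (K := K) (fun x hx hlt => hc.mem_Fn hx hlt) (hc.le hT j) (fun x hx => le_of_mem_Fn hx)
    (Finset.card_le_card (Fn_subset hF _)) (one_le_card_nodes S _) (by linarith [hc.lo j])
    (hc.hi j).le (by rw [e8]; nlinarith) (by positivity) (by linarith)
    (by rw [e8]; nlinarith) (by positivity) (by nlinarith) (hc.good j) hδ hm hW hDm hR hp
    (by convert hG1 using 3; ring) h1 hG2 h2 w hw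
  refine key.trans ?_
  have h3 : (9 * (2 ^ j * 2 ^ T) / (2 ^ j / 12) : ℝ) ^ K ≤ Real.exp (Cmid T 1 * (2 ^ j * r j)) := by
    apply h.pow_card_le j le_rfl (by positivity)
    rw [div_le_iff₀ (by positivity), show (4 : ℝ) ^ T = 2 ^ T * 2 ^ T by rw [← mul_pow]; norm_num]
    nlinarith [mul_pos h2j (lt_of_lt_of_le one_pos h2T)]
  have hE2 : 3 ≤ Real.exp 2 := by linarith [Real.add_one_le_exp (2 : ℝ)]
  rw [sub_eq_add_neg, Real.exp_add, Real.exp_add, Real.exp_add]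
  calc 3 * (δ * Real.exp m) * (9 * (2 ^ j * 2 ^ T) / (2 ^ j / 12) : ℝ) ^ K *
        Real.exp (-(G2 / 2 ^ n)) ≤ Real.exp 2 * (δ * Real.exp m) *
        Real.exp (Cmid T 1 * (2 ^ j * r j)) * Real.exp (-(G2 / 2 ^ n)) := by gcongr
    _ = _ := by ring

lemma exists_top {S : Set ℕ} {T : ℕ} {r : ℕ → ℝ} (h : Sc S T r) {F : Finset ℕ}
    {c : ℕ → ℝ} (hc : Cut T F c) (a : ℕ → ℂ) {δ C : ℝ} (hδ : 0 < δ) (hC : 1 ≤ C) (R : ℝ) :
    ∃ J, ∀ j, J ≤ j → (∀ z, hi F a (c j) z = 0) ∧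
      ∀ z, ‖z‖ ≤ R → ‖ev F a z‖ ≤ δ * Real.exp (C * (2 ^ j * r j)) := by
  obtain ⟨B, hB⟩ := (isCompact_closedBall (0 : ℂ) R).exists_bound_of_continuousOn
    (continuous_ev F a).continuousOn
  obtain ⟨J1, hJ1⟩ := exists_nat_ge (B / δ)
  refine ⟨max J1 (F.sup id), fun j hj => ⟨fun z => ?_, fun z hz => ?_⟩⟩
  · unfold hi ev
    refine Finset.sum_eq_zero fun p hp => ?_
    have h1 : p ≤ j := (Finset.le_sup (f := id) hp).trans ((le_max_right _ _).trans hj)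
    have h2 : p < 2 ^ j := h1.trans_lt Nat.lt_two_pow_self
    have h3 : (p : ℝ) < 2 ^ j := by exact_mod_cast h2
    have h4 := hc.lo j
    have h5 : (p : ℝ) < c j := by linarith [(Nat.cast_nonneg p : (0 : ℝ) ≤ p)]
    simp [h5]
  · refine (hB z (by simpa using hz)).trans ?_
    have h1 : (J1 : ℝ) ≤ j := by exact_mod_cast (le_max_left _ _).trans hj
    have h2 := h.nat_le j
    have h3 := h.one_le j
    have h4 := Real.add_one_le_exp (C * (2 ^ j * r j))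
    rw [div_le_iff₀ hδ] at hJ1
    have h5 : (J1 : ℝ) ≤ Real.exp (C * (2 ^ j * r j)) := by nlinarith
    nlinarith

lemma const_bound {S : Set ℕ} {T : ℕ} {r : ℕ → ℝ} (h : Sc S T r) {F : Finset ℕ}
    (hF : ∀ p ∈ F, p = 0 ∨ p ∈ S) (h0 : 0 ∈ F) {c : ℕ → ℝ} (hc : Cut T F c) (a : ℕ → ℂ) (j : ℕ)
    (q : ℂ) {Y : ℝ} (hY : ∀ w, ‖w - q‖ ≤ r j → ‖lo F a (c j) w‖ ≤ Y) :
    ‖a 0‖ ≤ Y * ((nodes S j).card / r j + 2 ^ (j + 3)) ^ (nodes S j).card := by
  have hc0 : (0 : ℝ) < c j := lt_trans (by positivity) (hc.lo j)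
  have := const_term (Fn F j) (fun p => if (p : ℝ) < c j then a p else 0) q (h.pos j)
    (Finset.card_le_card (Fn_subset hF j)) (one_le_card_nodes S j)
    (fun p hp => le_of_mem_Fn hp) (one_le_pow₀ (by norm_num))
    (hc.mem_Fn h0 (by simpa using hc0))
    (fun s hs => by rw [← hc.lo_eq]; exact hY _ (by rwa [add_sub_cancel_left]))
  simpa [hc0] using this

lemma down_ind {P : ℕ → Prop} {j0 J : ℕ} (htop : ∀ j, j0 ≤ j → J ≤ j → P j)
    (hstep : ∀ j, j0 ≤ j → (∀ i, j < i → P i) → P j) : P j0 := by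
  have key : ∀ n j, j0 ≤ j → J ≤ j + n → P j := by
    intro n
    induction n with
    | zero => intro j h1 h2; exact htop j h1 h2
    | succ n ih => intro j h1 h2; exact hstep j h1 fun i hi => ih i (by omega) (by omega)
  exact key J j0 le_rfl (by omega)

lemma exists_lin_le_two_pow (α β : ℕ) : ∃ e : ℕ, 1 ≤ e ∧ α * e + β ≤ 2 ^ e := by
  refine ⟨2 * (α + β + 1), by omega, ?_⟩
  set n := α + β + 1 with hn
  have h1 : n + 1 ≤ 2 ^ n := Nat.lt_two_pow_self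
  have h2 : 2 ^ (2 * n) = 2 ^ n * 2 ^ n := by rw [← pow_add]; ring_nf
  have h3 : 2 * n ≤ 2 ^ n := by
    have : n - 1 + 1 ≤ 2 ^ (n - 1) := Nat.lt_two_pow_self
    have e : 2 ^ n = 2 * 2 ^ (n - 1) := by rw [← pow_succ']; congr 1
    omega
  rw [h2]
  calc α * (2 * n) + β ≤ (n + 1) * (2 * n) := by nlinarith
    _ ≤ _ := Nat.mul_le_mul h1 h3

end Pool.Agent.P.MP_c161d8_an
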